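import Pool.Agent.Lib.MP_39893a_lc.OV.Spec
import Pool.Agent.Lib.MP_39893a_lc.ORD.INJ

/-!
# Module CSNDI: accepted certificates are correct (MP_39893a_lc, hive OV)
-/

set_option autoImplicit false

namespace Pool.Agent.Lib.MP_39893a_lc.OV.CSNDIM

open Finset ORD ORD.CSNDM

section

variable {K : Type} [DivisionRing K] (ι : D →+* K)

/-- The embedding of the monoid. -/
noncomputable def ph : Mo →* K := (ι : D →* K).comp toD

/-- Value at `ξ` of a coded polynomial. -/
noncomputable def vk (ξ : Var → K) (p : CP) : K := ev (ph ι) ξ p.val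

theorem vk_hom (hV : ORD.SpecVAL) (ξ : Var → K) : Ops.Hom cops (nops K) (vk ι ξ) := by
  have h := hV.1
  refine ⟨fun n => ?_, fun a b => ?_, fun a b => ?_, fun a => ?_⟩
  · show ev (ph ι) ξ (cops.nat n).val = (n : K)
    rw [h.nat]
    exact map_natCast (ev (ph ι) ξ) n
  · show ev (ph ι) ξ (cops.add a b).val = ev (ph ι) ξ a.val + ev (ph ι) ξ b.val
    rw [h.add]
    exact map_add (ev (ph ι) ξ) _ _
  · show ev (ph ι) ξ (cops.mul a b).val = ev (ph ι) ξ a.val * ev (ph ι) ξ b.val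
    rw [h.mul]
    exact map_mul (ev (ph ι) ξ) _ _
  · show ev (ph ι) ξ (cops.neg a).val = -ev (ph ι) ξ a.val
    rw [h.neg]
    exact map_neg (ev (ph ι) ξ) _

theorem io_hom : Ops.Hom (nops D) (nops K) ι :=
  ⟨fun n => map_natCast ι n, fun a b => map_add ι a b, fun a b => map_mul ι a b,
    fun a => map_neg ι a⟩

theorem vk_apLF (hV : ORD.SpecVAL) (hE : ORD.SpecEVL) (hL : ORD.SpecLFH) (ξ : Var → K)
    (x : List CP) (T : LF) :
    vk ι ξ (apLF cops emC x T) = apLF (nops K) (ph ι) (x.map (vk ι ξ)) T :=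
  hL CP K cops (nops K) (vk ι ξ) emC (ph ι) (vk_hom ι hV ξ) (fun g => by
    rw [vk, hV.2.2.2.1]
    exact (hE.1 K (ph ι) ξ).1 g) x T

theorem io_apLF (hL : ORD.SpecLFH) (x : List D) (T : LF) :
    ι (apLF (nops D) toD x T) = apLF (nops K) (ph ι) (x.map ι) T :=
  hL D K (nops D) (nops K) ι toD (ph ι) (io_hom ι) (fun _ => rfl) x T

theorem vk_zero (hV : ORD.SpecVAL) (ξ : Var → K) (p : CP) (h : p.isZero) : vk ι ξ p = 0 := by
  rw [vk, (hV.2.1 p).1 h, map_zero]

theorem vk_csub (hV : ORD.SpecVAL) (ξ : Var → K) (p q : CP) (h : (csub p q).isZero) :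
    vk ι ξ p = vk ι ξ q := by
  have h1 := vk_zero ι hV ξ _ h
  rw [csub, (vk_hom ι hV ξ).add, (vk_hom ι hV ξ).neg] at h1
  have h2 : vk ι ξ p + -vk ι ξ q = 0 := h1
  exact add_neg_eq_zero.1 h2

/-! ### The evaluation -/

open Classical in
/-- Values of the variables: entries of the vectors, and inverses. -/
noncomputable def xi (N : ℕ) (g : ℕ → ℕ → D) (v : Var) : K :=
  if h : ∃ (c : CP) (x : D), v = invV N c ∧ c.val = DtoF x then (ι h.choose_spec.choose)⁻¹
  else ι (g v.1 v.2)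

theorem invV_inj {N : ℕ} {c c' : CP} (h : invV N c = invV N c') : c = c' := by
  have h1 := congrArg Prod.snd h
  have h2 := Nat.add_left_cancel (n := N) h1
  exact @Encodable.encode_injective CP primcodableCP.toEncodable _ _ h2

theorem xi_inv (hV : ORD.SpecVAL) (N : ℕ) (g : ℕ → ℕ → D) (c : CP) (x : D)
    (h : c.val = DtoF x) : xi ι N g (invV N c) = (ι x)⁻¹ := by
  have hh : ∃ (c' : CP) (x : D), invV N c = invV N c' ∧ c'.val = DtoF x := ⟨c, x, rfl, h⟩
  have h1 : xi ι N g (invV N c) = (ι hh.choose_spec.choose)⁻¹ := dif_pos hh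
  obtain ⟨h2, h3⟩ := hh.choose_spec.choose_spec
  have h4 : c = hh.choose := invV_inj h2
  have h5 : hh.choose_spec.choose = x := by
    refine hV.2.2.2.2.2.2.2 ?_
    rw [← h3, ← h4, h]
  rw [h1, h5]

theorem xi_lt (N : ℕ) (g : ℕ → ℕ → D) (i t : ℕ) (ht : t < N) :
    xi ι N g (i, t) = ι (g i t) := by
  have hh : ¬ ∃ (c' : CP) (x : D), (i, t) = invV N c' ∧ c'.val = DtoF x := by
    rintro ⟨c, x, h, -⟩
    have h1 : t = N + _ := congrArg Prod.snd h
    omega
  exact dif_neg hh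

theorem vk_prf (hE : SpecENCI) (hD : SpecDERSI) (hV : ORD.SpecVAL) (hι : Function.Injective ι)
    (hCT : CTDiv K) (N : ℕ) (g : ℕ → ℕ → D) (hy : List CP) (p : CP) (L : List LineI)
    (h : PrfI N hy p L) (h0 : ∀ q ∈ hy, vk ι (xi ι N g) q = 0) : vk ι (xi ι N g) p = 0 := by
  refine hD K ι hι hCT N _ _ (fun c x _ hc _ => xi_inv ι hV N g c x hc) ?_ _
    (hE.1 N hy p L h)
  rintro f ⟨q, hq, rfl⟩
  exact h0 q hq

theorem vk_target (hV : ORD.SpecVAL) (ξ : Var → K) (P n1 : ℕ) (x : List CP) (e : ℕ) :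
    vk ι ξ (cops.target P 1 n1 x e) = (nops K).target P 1 n1 (x.map (vk ι ξ)) e :=
  (vk_hom ι hV ξ).target P 1 n1 x e

theorem io_VL (P nB : ℕ) : (VL (nops D) toD P nB).map ι = VL (nops K) (ph ι) P nB := by
  unfold VL
  rw [List.map_map]
  refine List.map_congr_left fun t _ => ?_
  rw [Function.comp_apply]
  split
  · split
    · exact (io_hom ι).nat _
    · rfl
  · exact (io_hom ι).nat _

theorem io_getD (x : List D) (t : ℕ) : (x.map ι).getD t 0 = ι (x.getD t 0) := by
  rw [map_getD ι, map_zero]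

end

/-! ### Classes of trees -/

/-- The tree belongs to the class `κ`. -/
def Cls (s : Sys) (c : CertI) (t : Tree) (κ : ℕ) : Prop :=
  κ < c.K ∧ (∀ u < NN s, isBit u → (vD s t).getD u 0 = (((c.bits κ).getD u 0 : ℕ) : D)) ∧
    ∀ T ∈ c.forms κ, apLF (nops D) toD (vD s t) T = 0

theorem vD_length (s : Sys) (t : Tree) : (vD s t).length = NN s := vecT_length _ _ _ _ _ _ _

theorem exists_cls {K : Type} [DivisionRing K] (ι : D →+* K) (hι : Function.Injective ι)
    (hCT : CTDiv K) (hE : SpecENCI) (hD : SpecDERSI) (hB : SpecBLKI) (hV : ORD.SpecVAL)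
    (hEV : ORD.SpecEVL) (hL : ORD.SpecLFH)
    (s : Sys) (c : CertI) (h : ChkI s c) (t : Tree) : Ranked s.A t → ∃ κ, Cls s c t κ := by
  induction t with
  | node a r f ih =>
    intro ht
    obtain ⟨ha, hr, hc⟩ := ranked_rk ht
    choose κ₀ hκ₀ using fun i => ih i (hc i)
    -- the tuple of the classes
    let κ : ℕ → ℕ := fun i => if hi : i < r then κ₀ ⟨i, hi⟩ else 0
    have hκ : ∀ i (hi : i < r), Cls s c (f ⟨i, hi⟩) (κ i) := by
      intro i hi
      have e : κ i = κ₀ ⟨i, hi⟩ := dif_pos hi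
      rw [e]
      exact hκ₀ ⟨i, hi⟩
    obtain ⟨hz1, hz2⟩ := dig_ofDigits c.K r κ (fun i hi => (hκ i hi).1)
    set z := ∑ i ∈ Finset.range r, κ i * c.K ^ i with hz
    have hzlt : z < c.K ^ s.rk a := by
      rw [hr]
      rcases hz1 with h1 | h1
      · exact h1
      · rw [hz, h1.1]
        simp
    obtain ⟨h1, h2, h3⟩ := h.1 a ha z hzlt
    -- the vectors of the subtrees
    let xs : List (List D) := List.ofFn fun i => vD s (f i)
    have hxl : xs.length = s.rk a := by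
      rw [hr]
      exact List.length_ofFn
    have hx : ∀ i (hi : i < r), xs.getD i [] = vD s (f ⟨i, hi⟩) := by
      intro i hi
      rw [List.getD_eq_getElem?_getD, List.getElem?_ofFn, dif_pos hi]
      rfl
    have hxk : ∀ i, (xs.map (List.map ι)).getD i [] = (xs.getD i []).map ι := by
      intro i
      rw [map_getD (List.map ι)]
      rfl
    obtain ⟨ξ, hξ⟩ : ∃ ξ : Var → K, ξ = xi ι (NN s) (fun i t => (xs.getD i []).getD t 0) :=
      ⟨_, rfl⟩
    have hξt : ∀ i t, t < NN s → ξ (i, t) = ι ((xs.getD i []).getD t 0) := by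
      intro i t ht
      rw [hξ]
      exact xi_lt ι (NN s) _ i t ht
    let βs : List (List ℕ) := (List.range (s.rk a)).map fun i => c.bits (dig c.K z i)
    have hβ : ∀ i (hi : i < r), βs.getD i [] = c.bits (κ i) := by
      intro i hi
      rw [List.getD_eq_getElem?_getD, List.getElem?_map,
        List.getElem?_range (by rw [hr]; exact hi)]
      show c.bits (dig c.K z i) = _
      rw [hz2 i hi]
    have hres : (resI s c a z).map (vk ι ξ) = (vD s (.node a r f)).map ι := by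
      have h4 := hB.2 K (ph ι) s a βs (xs.map (List.map ι)) ξ (by rw [List.length_map, hxl])
        (fun i hi => by
          rw [hr] at hi
          rw [hxk, List.length_map, hx i hi]
          exact vD_length s _)
        (fun i hi u hu hb => by
          rw [hr] at hi
          rw [hxk, io_getD, hx i hi, hβ i hi, (hκ i hi).2.1 u hu hb, map_natCast])
        (fun i hi u hu hb => by
          rw [hξt i u hu, hxk, io_getD])
      have h5 : (vD s (.node a r f)).map ι = (nops K).vecS s.P 1 s.n1 s.T a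
          ((VL (nops D) toD s.P s.nB).map ι) (xs.map (List.map ι)) :=
        (io_hom ι).vecS _ _ _ _ _ _ _
      rw [h5, io_VL]
      exact h4
    have hhyp : ∀ q ∈ hypsI s c a z, vk ι ξ q = 0 := by
      intro q hq
      rw [hypsI, List.mem_flatMap] at hq
      obtain ⟨i, hi, hq⟩ := hq
      rw [List.mem_range, hr] at hi
      rw [hz2 i hi, hyp1, List.mem_map] at hq
      obtain ⟨T, hT, rfl⟩ := hq
      rw [vk_apLF ι hV hEV hL]
      have h5 := hB.1 K (ph ι) (NN s) i (c.bits (κ i)) ((vD s (f ⟨i, hi⟩)).map ι) ξ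
        (by rw [List.length_map]; exact vD_length s _)
        (fun u hu hb => by rw [io_getD, (hκ i hi).2.1 u hu hb, map_natCast])
        (fun u hu hb => by rw [hξt i u hu, io_getD, hx i hi])
      have h6 : (blk (NN s) i (c.bits (κ i))).map (vk ι ξ) = (vD s (f ⟨i, hi⟩)).map ι := h5
      rw [h6, ← io_apLF ι hL, (hκ i hi).2.2 T hT, map_zero]
    refine ⟨c.tgt a z, h1, ?_, ?_⟩
    · intro u hu hb
      have h7 := vk_csub ι hV ξ _ _ (h2 u hu hb)
      rw [(vk_hom ι hV ξ).nat] at h7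
      rw [map_getD (vk ι ξ), (vk_hom ι hV ξ).nat, hres] at h7
      have h8 : (nops K).nat 0 = (0 : K) := Nat.cast_zero
      rw [h8, io_getD] at h7
      refine hι (h7.trans ?_)
      rw [map_natCast]
      rfl
    · intro T hT
      obtain ⟨l, hl, hlT⟩ := mem_forms hT
      rw [hξ] at hhyp hres
      have h9 := vk_prf ι hE hD hV hι hCT (NN s) _ _ _ _ (h3 l hl) hhyp
      rw [vk_apLF ι hV hEV hL, hres, hlT, ← io_apLF ι hL] at h9
      refine hι ?_
      rw [h9, map_zero]

/-- Module CSNDI. -/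
theorem specCSNDI
    (hK : ∃ (K : Type) (_ : DivisionRing K) (ι : D →+* K), Function.Injective ι ∧ CTDiv K)
    (hE : SpecENCI) (hD : SpecDERSI) (hB : SpecBLKI) (hV : ORD.SpecVAL) (hEV : ORD.SpecEVL)
    (hL : ORD.SpecLFH) : SpecCSNDI := by
  obtain ⟨K, _, ι, hι, hCT⟩ := hK
  intro s c h t ht e he
  obtain ⟨κ, hκ, hb, hf⟩ := exists_cls ι hι hCT hE hD hB hV hEV hL s c h t ht
  obtain ⟨h1, h2⟩ := h.2 κ hκ
  obtain ⟨ξ, hξ⟩ : ∃ ξ : Var → K, ξ = xi ι (NN s) (fun _ u => (vD s t).getD u 0) := ⟨_, rfl⟩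
  have hblk : (blk (NN s) 0 (c.bits κ)).map (vk ι ξ) = (vD s t).map ι :=
    hB.1 K (ph ι) (NN s) 0 (c.bits κ) ((vD s t).map ι) ξ
      (by rw [List.length_map]; exact vD_length s t)
      (fun u hu hbu => by rw [io_getD, hb u hu hbu, map_natCast])
      (fun u hu _ => by
        rw [hξ, io_getD]
        exact xi_lt ι (NN s) _ 0 u hu)
  have hfin : ∀ e, vk ι ξ (cops.target s.P 1 s.n1 (blk (NN s) 0 (c.bits κ)) e) = 0 →
      (nops D).target s.P 1 s.n1 (vD s t) e = 0 := by
    intro e h3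
    rw [vk_target ι hV, hblk] at h3
    refine hι ?_
    rw [(io_hom ι).target, h3, map_zero]
  have he' : e = 0 ∨ e = 1 := by omega
  rcases he' with rfl | rfl
  · refine hfin 0 ?_
    rw [hξ] at hblk ⊢
    refine vk_prf ι hE hD hV hι hCT (NN s) _ _ _ _ h2 ?_
    intro q hq
    rw [hyp1, List.mem_map] at hq
    obtain ⟨T, hT, rfl⟩ := hq
    rw [vk_apLF ι hV hEV hL, hblk, ← io_apLF ι hL, hf T hT, map_zero]
  · exact hfin 1 (vk_zero ι hV ξ _ h1)

end Pool.Agent.Lib.MP_39893a_lc.OV.CSNDIM
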