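import Pool.Agent.Lib.MP_39893a_lc.ORD.Visit

/-!
# One-visit transducers and grammars, different orders: definitions (MP_39893a_lc, hive OV)
-/

set_option autoImplicit false

namespace Pool.Agent.Lib.MP_39893a_lc

/-- Every call in the right-hand side, at any depth, is a call `q (x_i, ar i)` of a state `q` with
`W i q`. -/
def Rhs.CallsIn (W : ℕ → ℕ → Prop) (ar : ℕ → List Rhs) : Rhs → Prop
  | .param _ => True
  | .out _ _ c => ∀ l, (c l).CallsIn W ar
  | .call q i _ c => W i q ∧ List.ofFn c = ar i ∧ ∀ l, (c l).CallsIn W ar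

/-- Without calls. -/
def Rhs.NoCalls : Rhs → Prop
  | .param _ => True
  | .out _ _ c => ∀ l, (c l).NoCalls
  | .call _ _ _ _ => False

/-- All calls on the same subtree `x_i` in the right-hand side are equal: there are a state `st i` and
a list `ar i` of arguments such that all calls on `x_i` are `(st i) (x_i, ar i)`. -/
def Rhs.Once (ζ : Rhs) : Prop :=
  ∃ (st : ℕ → ℕ) (ar : ℕ → List Rhs), ζ.CallsIn (fun i q => q = st i) ar

/-- In every right-hand side all calls on the same subtree are equal. -/
def DMTT.Once {A B : List ℕ} (M : DMTT A B) : Prop :=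
  ∀ (q m a r : ℕ) (ζ : Rhs), M.params[q]? = some m → A[a]? = some r → M.rule q a = some ζ → ζ.Once

namespace OV

open AGL ORD

variable {A B : List ℕ}

/-- The synthesized attributes that occur are the attributes number `st i` of the children `i`. -/
def SynIn {p q : ℕ} (st : ℕ → ℕ) : ATm p q → Prop
  | .syn a i => (a : ℕ) = st i
  | .inh _ => True
  | .out _ _ c => ∀ l, SynIn st (c l)

/-- At the symbol `σ` at most one synthesized attribute of each child is used by the inherited
attributes of the children. -/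
def OneOut (G : AG A B) (σ : ℕ) : Prop :=
  ∃ st : ℕ → ℕ, ∀ (r i : ℕ) (b : Fin G.q), A[σ]? = some r → i < r → SynIn st (G.inh σ i b)

/-- At the symbol `σ` each child has at most one inherited attribute whose rule uses synthesized
attributes. -/
def OneIn (G : AG A B) (σ : ℕ) : Prop :=
  ∃ f : ℕ → ℕ, ∀ (r i : ℕ) (b : Fin G.q), A[σ]? = some r → i < r → (b : ℕ) ≠ f i →
    NoSyn (G.inh σ i b)

/-- The inherited attributes at the root are constants, and for each symbol the grammars are one-visit
at the symbol with a common order of the children, or one-visit with two orders and narrow. -/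
def TwoVisit (G₁ G₂ : AG A B) : Prop :=
  ConstRoot G₁ ∧ ConstRoot G₂ ∧ ∀ σ < A.length, ∃ ρ₁ ρ₂ : ℕ → ℕ,
    Function.Injective ρ₁ ∧ Function.Injective ρ₂ ∧ VisitAt G₁ σ ρ₁ ∧ VisitAt G₂ σ ρ₂ ∧
    (ρ₁ = ρ₂ ∨ ((OneOut G₁ σ ∨ OneIn G₁ σ) ∧ (OneOut G₂ σ ∨ OneIn G₂ σ)))

end OV

end Pool.Agent.Lib.MP_39893a_lc
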