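import Pool.Agent.Lib.MP_39893a_lc.ORD.Spec2
import Pool.Agent.Lib.MP_39893a_lc.OV.Visits

/-!
# One-visit devices with different orders: definitions (MP_39893a_lc, hive OV)

Paper proof: /team-store/MP_39893a_OV_h53.md. `D`, `FR`, `CP`, `LF`, `Var`, .. as in `ORD`.
-/

set_option autoImplicit false

namespace Pool.Agent.Lib.MP_39893a_lc.OV

open Finset ORD

/-! ## Algebra -/

/-- Commutator. -/
def br {R : Type} [Ring R] (x y : R) : R := x * y - y * x

/-- Centralizers of noncentral elements are commutative. -/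
def CTDiv (K : Type) [Ring K] : Prop :=
  ∀ x y z : K, x * y = y * x → y * z = z * y → (∃ h, y * h ≠ h * y) → x * z = z * x

/-- The rules of the calculus hold in the ring `S`. -/
def RuleRing (S : Type) [Ring S] : Prop :=
  (∀ p q s₁ s₂ h₁ h₂ e₁ e₂ : S, br p s₂ = 0 → br s₁ s₂ = 0 → br s₁ q = 0 →
    br s₁ h₁ * e₁ = 1 → br s₂ h₂ * e₂ = 1 → br p q = 0) ∧
  (∀ p q h₁ h₂ e : S, br p h₁ = 0 → br p h₂ = 0 → br h₁ h₂ * e = 1 → br p q = 0)

/-- Every element of `K` is a left fraction `(ι d)⁻¹ (ι a)`. -/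
def LFrac {K : Type} [DivisionRing K] (ι : D →+* K) : Prop :=
  Function.Injective ι ∧ ∀ k : K, ∃ d : D, d ≠ 0 ∧ ∃ a : D, ι d * k = ι a

/-- Orders `o` and leading coefficients `c` (in a field `L` with an automorphism `σ`) of the nonzero
elements of a ring, as in skew Laurent series. -/
structure Lead (R : Type) [Ring R] (L : Type) [Field L] (σ : RingAut L) (o : R → ℤ) (c : R → L) :
    Prop where
  ne : ∀ a, a ≠ 0 → c a ≠ 0
  mul : ∀ a b, a ≠ 0 → b ≠ 0 → a * b ≠ 0 ∧ o (a * b) = o a + o b ∧ c (a * b) = c a * (σ ^ o a) (c b)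
  add : ∀ a b, a ≠ 0 → b ≠ 0 → o a = o b → c a + c b ≠ 0 →
    a + b ≠ 0 ∧ o (a + b) = o a ∧ c (a + b) = c a + c b
  add0 : ∀ a b, a ≠ 0 → b ≠ 0 → o a = o b → c a + c b = 0 → a + b ≠ 0 → o a < o (a + b)
  addlt : ∀ a b, a ≠ 0 → b ≠ 0 → o a < o b → a + b ≠ 0 ∧ o (a + b) = o a ∧ c (a + b) = c a
  int : ∀ n : ℤ, n ≠ 0 → (n : R) ≠ 0 ∧ o (n : R) = 0 ∧ c (n : R) = (n : L)

/-- The elements fixed by a power `σⁿ`, `n ≠ 0`, are rational numbers. -/
def FixQ (L : Type) [Field L] (σ : RingAut L) : Prop :=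
  ∀ n : ℤ, n ≠ 0 → ∀ x : L, (σ ^ n) x = x → ∃ p q : ℤ, q ≠ 0 ∧ (q : L) * x = (p : L)

/-- The homomorphism `D → R` given by `φ`. -/
noncomputable def lft {R : Type} [Ring R] (φ : Mo →* R) : D →+* R :=
  (MonoidAlgebra.lift ℤ R Mo φ : D →ₐ[ℤ] R).toRingHom

/-! ## Nets

Matrices `x i q b`, `q < nQ`, `b < nB`; forms `(lam, U)`; the forms `(l i b, E i b)` are the entries
of the argument vector of the child `i`. -/

/-- Value of the form `(lam, U)`; the list contains the children, outermost first. -/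
def nv {S : Type} [Ring S] (nQ nB : ℕ) (x : ℕ → ℕ → ℕ → S) (l : ℕ → ℕ → S)
    (E : ℕ → ℕ → ℕ → ℕ → S) : List ℕ → S → (ℕ → ℕ → S) → S
  | [], lam, _ => lam
  | i :: L, lam, U => nv nQ nB x l E L lam U +
      ∑ q ∈ range nQ, U i q * ∑ b ∈ range nB, x i q b * nv nQ nB x l E L (l i b) (E i b)

/-- Two-term form `u x v - u' x' v' + w`. -/
def tq {S : Type} [Ring S] (nQ nB nQ' nB' : ℕ) (u v u' v' : ℕ → S) (w : S)
    (x x' : ℕ → ℕ → S) : S :=
  (∑ q ∈ range nQ, ∑ b ∈ range nB, u q * x q b * v b) -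
    (∑ q ∈ range nQ', ∑ b ∈ range nB', u' q * x' q b * v' b) + w

/-- Narrow nets. -/
def NarE {K : Type} [Ring K] (E : ℕ → ℕ → ℕ → ℕ → K) : Prop :=
  (∃ (c : ℕ → ℕ → ℕ → K) (ε : ℕ → ℕ → K), ∀ i b j q, E i b j q = c i b j * ε j q) ∨
  (∃ (e : ℕ → ℕ → K) (r : ℕ → ℕ → ℕ → K), ∀ i b j q, E i b j q = e i b * r i j q)

/-- Value with marks: `0` full, `1` base (`x₀`), `2` difference (`x - x₀`). -/
def mv {S : Type} [Ring S] (nQ nB : ℕ) (m : ℕ → ℕ) (x₀ x : ℕ → ℕ → ℕ → S) (l : ℕ → ℕ → S)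
    (E : ℕ → ℕ → ℕ → ℕ → S) : List ℕ → S → (ℕ → ℕ → S) → S
  | [], lam, _ => lam
  | i :: L, lam, U =>
      (if m i = 2 then 0 else mv nQ nB m x₀ x l E L lam U) +
      ∑ q ∈ range nQ, U i q * ∑ b ∈ range nB,
        (if m i = 0 then x i q b else if m i = 1 then x₀ i q b else x i q b - x₀ i q b) *
          mv nQ nB m x₀ x l E L (l i b) (E i b)

/-! ## Derivations -/

/-- The inverse letter of the coded constant `c` (a position `≥ N` of the child `0`). -/
def invV (N : ℕ) (c : CP) : Var := (0, N + @Encodable.encode CP primcodableCP.toEncodable c)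

/-- The axioms for the inverse letters. -/
def InvAx (N : ℕ) : Set FR :=
  {f | ∃ c : CP, c.const ∧ ¬ c.isZero ∧
    (f = c.val * xv (invV N c) - 1 ∨ f = xv (invV N c) * c.val - 1)}

/-- Derivable polynomials. -/
inductive DerI (H : Set FR) : FR → Prop
  | hyp (p : FR) : p ∈ H → DerI H p
  | comb (n : ℕ) (u p v : Fin n → FR) : (∀ i, DerI H (p i)) → DerI H (∑ i, u i * p i * v i)
  | ct (p q s₁ s₂ h₁ h₂ e₁ e₂ : FR) : DerI H (br p s₂) → DerI H (br s₁ s₂) → DerI H (br s₁ q) →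
      DerI H (br s₁ h₁ * e₁ - 1) → DerI H (br s₂ h₂ * e₂ - 1) → DerI H (br p q)
  | cen (p q h₁ h₂ e : FR) : DerI H (br p h₁) → DerI H (br p h₂) → DerI H (br h₁ h₂ * e - 1) →
      DerI H (br p q)

/-! ## Two-term forms of coefficient vectors -/

/-- Position of the entry number `j` (`0`: constant, `j + 1`: parameter `j`) of the row `R`. -/
def pos (P R j : ℕ) : ℕ := R * fs P 1 + 4 * j

/-- Two-term form of a vector with `nR` rows. -/
def tt {S : Type} [Ring S] (P nR : ℕ) (u v u' v' : ℕ → S) (w : S) (x : List S) : S :=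
  tq nR (P + 1) nR (P + 1) u v u' v' w (fun R j => x.getD (pos P R j) 0)
    (fun R j => x.getD (pos P R j) 0)

/-- The linear form `T` is the two-term form with the given coefficients in `D`. -/
def Rep (N P nR : ℕ) (T : LF) (u v u' v' : ℕ → D) (w : D) : Prop :=
  ∀ (R : Type) [Ring R] (φ : Mo →* R) (y : List R), y.length = N →
    apLF (nops R) φ y T = tt P nR (fun i => lft φ (u i)) (fun i => lft φ (v i))
      (fun i => lft φ (u' i)) (fun i => lft φ (v' i)) (lft φ w) y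

/-- `T` is a two-term form with rows in `R₁`, resp. `R₂`. -/
def TTG (N P nR : ℕ) (R₁ R₂ : ℕ → Prop) (T : LF) : Prop :=
  ∃ (u v u' v' : ℕ → D) (w : D), (∀ i, u i ≠ 0 → R₁ i) ∧ (∀ i, u' i ≠ 0 → R₂ i) ∧
    Rep N P nR T u v u' v' w

/-! ## Values of right-hand sides -/

/-- Coefficient number `j` (`0`: constant, `j + 1`: parameter `j`) of a right-hand side; `bl` are the
coefficient vectors of the subtrees, the row of the state `q` is `off + q`. -/
def fo {S : Type} [Ring S] (P off : ℕ) (φ : Mo →* S) (bl : List (List S)) : Rhs → ℕ → S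
  | .param p, j => if j = p + 1 then 1 else 0
  | .out b r c, j => (if j = 0 then ((b + 1 : ℕ) : S) else 0) +
      ∑ l : Fin r, φ (letter (Nat.pair b l)) * fo P off φ bl (c l) j
  | .call q i n c, j => (if j = 0 then (bl.getD i []).getD (pos P (off + q) 0) 0 else 0) +
      ∑ l : Fin n, (bl.getD i []).getD (pos P (off + q) (l + 1)) 0 * fo P off φ bl (c l) j

/-- Constant of the form of a right-hand side, for the argument vector `v`. -/
def lamT {S : Type} [Ring S] (φ : Mo →* S) (v : ℕ → S) : Rhs → S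
  | .param p => v (p + 1)
  | .out b r c => ((b + 1 : ℕ) : S) * v 0 + ∑ l : Fin r, φ (letter (Nat.pair b l)) * lamT φ v (c l)
  | .call _ _ _ _ => 0

/-- Coefficient of the calls `q (x_i, ..)` that are not nested. -/
def UT {S : Type} [Ring S] (φ : Mo →* S) : Rhs → ℕ → ℕ → S
  | .param _, _, _ => 0
  | .out b r c, i, q => ∑ l : Fin r, φ (letter (Nat.pair b l)) * UT φ (c l) i q
  | .call q' i' _ _, i, q => if i = i' ∧ q = q' then 1 else 0

/-- The forms of the arguments: `b = 0` is the homogenizing entry. -/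
def lN {S : Type} [Ring S] (φ : Mo →* S) (v : ℕ → S) (ar : ℕ → List Rhs) (i b : ℕ) : S :=
  if b = 0 then v 0 else if b - 1 < (ar i).length then lamT φ v ((ar i).getD (b - 1) (.param 0)) else 0

/-- See `lN`. -/
def EN {S : Type} [Ring S] (φ : Mo →* S) (ar : ℕ → List Rhs) (i b j q : ℕ) : S :=
  if b = 0 then 0 else if b - 1 < (ar i).length then UT φ ((ar i).getD (b - 1) (.param 0)) j q else 0

/-! ## One-visit pairs of transducers -/

/-- The rules `rl q`, `q` in `V`, visit each subtree `< r` once: all calls on `x_i` are calls of states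
in `W i` with the arguments `ar i`, whose calls are on subtrees smaller with respect to `ρ`. `pr` are
the numbers of parameters of the states, `B` the ranks of the output symbols. -/
structure Vis (B pr : List ℕ) (r : ℕ) (rl : ℕ → Option Rhs) (V : ℕ → Prop) (W : ℕ → ℕ → Prop)
    (ar : ℕ → List Rhs) (ρ : ℕ → ℕ) : Prop where
  rules : ∀ q ζ, V q → rl q = some ζ → ζ.CallsIn W ar
  wfr : ∀ q ζ, rl q = some ζ → q < pr.length ∧ ∃ m ∈ pr, ζ.WF B pr m r
  args : ∀ i, ∀ ζ ∈ ar i, ζ.CallsIn W ar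
  wfa : ∀ i, ∀ ζ ∈ ar i, ∃ m ∈ pr, ζ.WF B pr m r
  below : ∀ i, ∀ ζ ∈ ar i, ζ.Below ρ (ρ i)
  inj : ∀ i < r, ∀ j < r, ρ i = ρ j → i = j

/-- Narrow arguments: the calls in the arguments are on one state for each subtree; or at most one
argument of the calls on each subtree contains calls. -/
def NarAr (ar : ℕ → List Rhs) : Prop :=
  (∃ st : ℕ → ℕ, ∀ i, ∀ ζ ∈ ar i, ζ.CallsIn (fun j q => q = st j) ar) ∨
  (∃ f : ℕ → ℕ, ∀ i l, l ≠ f i → ((ar i).getD l (.param 0)).NoCalls)

/-- The rules for the symbol `a`. -/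
def rlM {A B : List ℕ} (M : DMTT A B) (a q : ℕ) : Option Rhs :=
  if q < M.params.length then M.rule q a else none

/-- The data `V, c, ar` (families of sets of states, sets for the subtrees, arguments) of one-visit
pairs: for each pair of sets and each symbol the rules visit each subtree once, and the orders are
the same or both are narrow. -/
def OVP {A B : List ℕ} (M₁ M₂ : DMTT A B) (V₁ V₂ : ℕ → ℕ → Prop) (c₁ c₂ : ℕ → ℕ → ℕ → ℕ)
    (ar₁ ar₂ : ℕ → ℕ → ℕ → List Rhs) : Prop :=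
  V₁ 0 0 ∧ V₂ 0 0 ∧ ∀ w₁ w₂ a, a < A.length → ∃ ρ₁ ρ₂ : ℕ → ℕ,
    Vis B M₁.params (A.getD a 0) (rlM M₁ a) (V₁ w₁) (fun i => V₁ (c₁ w₁ a i)) (ar₁ w₁ a) ρ₁ ∧
    Vis B M₂.params (A.getD a 0) (rlM M₂ a) (V₂ w₂) (fun i => V₂ (c₂ w₂ a i)) (ar₂ w₂ a) ρ₂ ∧
    (ρ₁ = ρ₂ ∨ (NarAr (ar₁ w₁ a) ∧ NarAr (ar₂ w₂ a)))

/-- One-visit pairs. -/
def OneVisitPair {A B : List ℕ} (M₁ M₂ : DMTT A B) : Prop :=
  ∃ (V₁ V₂ : ℕ → ℕ → Prop) (c₁ c₂ : ℕ → ℕ → ℕ → ℕ) (ar₁ ar₂ : ℕ → ℕ → ℕ → List Rhs),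
    OVP M₁ M₂ V₁ V₂ c₁ c₂ ar₁ ar₂

/-- The rows `off + q` with `q < n`, `V q`. -/
def rows (off n : ℕ) (V : ℕ → Prop) (R : ℕ) : Prop := ∃ q < n, R = off + q ∧ V q

/-- Two-term form of the values of the rules `rl`, `rl'` (rows `off + q`, `off' + q`), for the vectors
`bl` of the subtrees. -/
def rT {S : Type} [Ring S] (P off off' nq nq' : ℕ) (φ : Mo →* S) (bl : List (List S))
    (rl rl' : ℕ → Option Rhs) (u v u' v' : ℕ → S) (w : S) : S :=
  tq nq (P + 1) nq' (P + 1) (fun q => u (off + q)) v (fun q => u' (off' + q)) v' w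
    (fun q j => (rl q).elim 0 fun ζ => fo P off φ bl ζ j)
    (fun q j => (rl' q).elim 0 fun ζ => fo P off' φ bl ζ j)

/-- Two-term form of the symbolic vector of the child `i`. -/
noncomputable def ttF (P nR i : ℕ) (u v u' v' : ℕ → D) (w : D) : FR :=
  tq nR (P + 1) nR (P + 1) (fun t => DtoF (u t)) (fun t => DtoF (v t)) (fun t => DtoF (u' t))
    (fun t => DtoF (v' t)) (DtoF w) (fun R j => xv (i, pos P R j)) (fun R j => xv (i, pos P R j))

/-- The forms used as invariants. -/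
def TTall {A B : List ℕ} (M₁ M₂ : DMTT A B) (V₁ V₂ : ℕ → ℕ → Prop) (T : LF) : Prop :=
  (∃ w₁ w₂, TTG (NN (norm (inp M₁ M₂ 0))) (norm (inp M₁ M₂ 0)).P (norm (inp M₁ M₂ 0)).T.length
    (rows 0 M₁.params.length (V₁ w₁)) (rows M₁.params.length M₂.params.length (V₂ w₂)) T) ∨
  (∃ w, TTG (NN (norm (inp M₁ M₂ 0))) (norm (inp M₁ M₂ 0)).P (norm (inp M₁ M₂ 0)).T.length
    (rows 0 M₁.params.length (V₁ w)) (rows 0 M₁.params.length (V₁ w)) T)

/-! ## Certificates -/

/-- Commutator of coded polynomials. -/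
def cbr (p q : CP) : CP := csub (cops.mul p q) (cops.mul q p)

/-- A line of a derivation: polynomial, kind (`0` combination, `1` inverse axiom, `2` rule `ct`,
otherwise rule `cen`), data `(u, reference, v)` of a combination, arguments, references. -/
abbrev LineI : Type := CP × ℕ × List (CP × ℕ × CP) × List CP × List ℕ

namespace LineI

variable (l : LineI)

def p : CP := l.1
def kind : ℕ := l.2.1
def cb : List (CP × ℕ × CP) := l.2.2.1
def g (i : ℕ) : CP := l.2.2.2.1.getD i (cops.nat 0)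
def rf (i : ℕ) : ℕ := l.2.2.2.2.getD i 0

/-- The premises: `g = [p, q, s₁, s₂, h₁, h₂, e₁, e₂]` for `ct`, `g = [p, q, h₁, h₂, e]` for `cen`. -/
def prems : List CP :=
  if l.kind = 2 then
    [cbr (l.g 0) (l.g 3), cbr (l.g 2) (l.g 3), cbr (l.g 2) (l.g 1),
      csub (cops.mul (cbr (l.g 2) (l.g 4)) (l.g 6)) (cops.nat 1),
      csub (cops.mul (cbr (l.g 3) (l.g 5)) (l.g 7)) (cops.nat 1)]
  else
    [cbr (l.g 0) (l.g 2), cbr (l.g 0) (l.g 3),
      csub (cops.mul (cbr (l.g 2) (l.g 3)) (l.g 4)) (cops.nat 1)]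

end LineI

/-- The line is correct, `av` is the list of the available polynomials. -/
def LineI.Ok (N : ℕ) (av : List CP) (l : LineI) : Prop :=
  if l.kind = 0 then
    (∀ q ∈ l.cb, q.2.1 < av.length) ∧
    (csub l.p (l.cb.foldr (fun q s =>
      cops.add (cops.mul (cops.mul q.1 (av.getD q.2.1 (cops.nat 0))) q.2.2) s)
        (cops.nat 0))).isZero
  else if l.kind = 1 then
    (l.g 0).const ∧ ¬ (l.g 0).isZero ∧
      ((csub l.p (csub (cops.mul (l.g 0) (varC (invV N (l.g 0)))) (cops.nat 1))).isZero ∨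
        (csub l.p (csub (cops.mul (varC (invV N (l.g 0))) (l.g 0)) (cops.nat 1))).isZero)
  else
    (∀ i < l.prems.length, l.rf i < av.length ∧
      (csub (l.prems.getD i (cops.nat 0)) (av.getD (l.rf i) (cops.nat 0))).isZero) ∧
    (csub l.p (cbr (l.g 0) (l.g 1))).isZero

/-- The polynomial `p` is proved by the lines `L` (the last line is the first element of the list)
from the hypotheses `hy`. -/
def PrfI (N : ℕ) (hy : List CP) (p : CP) (L : List LineI) : Prop :=
  0 < L.length ∧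
  (∀ i < L.length, ∀ l ∈ (L.drop i).head?, l.Ok N (hy ++ (L.drop (i + 1)).map LineI.p)) ∧
  ∀ l ∈ L.head?, (csub p l.p).isZero

/-- Certificates, as `CertD`. -/
abbrev CertI : Type :=
  List (List ℕ × List LF) × List ℕ × List (List LineI) × List (List LineI)

namespace CertI

variable (c : CertI)

/-- Number of classes. -/
def K : ℕ := c.1.length
/-- Bits of a class. -/
def bits (κ : ℕ) : List ℕ := (c.1.getD κ ([], [])).1
/-- Linear forms of a class. -/
def forms (κ : ℕ) : List LF := (c.1.getD κ ([], [])).2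
/-- The class of the result, for the symbol `a` and the tuple of classes `z`. -/
def tgt (a z : ℕ) : ℕ := c.2.1.getD (Nat.pair a z) 0
/-- Derivations for the rules. -/
def prf (a z l : ℕ) : List LineI := c.2.2.1.getD (Nat.pair a (Nat.pair z l)) []
/-- Derivations for the targets. -/
def fin (κ : ℕ) : List LineI := c.2.2.2.getD κ []

end CertI

/-- The hypotheses for the tuple of classes `z`. -/
def hypsI (s : Sys) (c : CertI) (a z : ℕ) : List CP :=
  (List.range (s.rk a)).flatMap fun i =>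
    hyp1 (NN s) i (c.bits (dig c.K z i)) (c.forms (dig c.K z i))

/-- The symbolic result for the tuple of classes `z`. -/
def resI (s : Sys) (c : CertI) (a z : ℕ) : List CP :=
  vS s a ((List.range (s.rk a)).map fun i => c.bits (dig c.K z i))

/-- The certificate is accepted. -/
def ChkI (s : Sys) (c : CertI) : Prop :=
  (∀ a < s.A.length, ∀ z < c.K ^ s.rk a,
    c.tgt a z < c.K ∧
    (∀ t < NN s, isBit t →
      (csub ((resI s c a z).getD t (cops.nat 0)) (cops.nat ((c.bits (c.tgt a z)).getD t 0))).isZero) ∧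
    ∀ l < (c.forms (c.tgt a z)).length,
      PrfI (NN s) (hypsI s c a z) (apLF cops emC (resI s c a z) ((c.forms (c.tgt a z)).getD l []))
        (c.prf a z l)) ∧
  ∀ κ < c.K,
    (cops.target s.P 1 s.n1 (blk (NN s) 0 (c.bits κ)) 1).isZero ∧
    PrfI (NN s) (hyp1 (NN s) 0 (c.bits κ) (c.forms κ))
      (cops.target s.P 1 s.n1 (blk (NN s) 0 (c.bits κ)) 0) (c.fin κ)

instance primcodableLineI : Primcodable LineI := inferInstance
instance primcodableCertI : Primcodable CertI := inferInstance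

end Pool.Agent.Lib.MP_39893a_lc.OV
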