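import Pool.Agent.Lib.MP_39893a_lc.OV.Visits

/-!
# One-visit grammars, orders that agree up to narrow blocks: definitions (MP_39893a_lc, hive OV)
-/

set_option autoImplicit false

namespace Pool.Agent.Lib.MP_39893a_lc.OV

open AGL ORD

variable {A B : List ℕ}

/-- Every synthesized attribute `a` of a child `j` which occurs in the term satisfies `P j a`. -/
def SynAll {p q : ℕ} (P : ℕ → ℕ → Prop) : ATm p q → Prop
  | .syn a j => P j a
  | .inh _ => True
  | .out _ _ c => ∀ l, SynAll P (c l)

/-- At the symbol `σ` the grammar is narrow in the blocks given by `π`: for each child `j` at most one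
synthesized attribute `st j` of `j` is used by the inherited attributes of children in the block of
`j`; or for each child `i` at most one inherited attribute `f i` of `i` uses synthesized attributes of
children in the block of `i`. -/
def NarrowIn (G : AG A B) (σ : ℕ) (π : ℕ → ℕ) : Prop :=
  (∃ st : ℕ → ℕ, ∀ (r i : ℕ) (b : Fin G.q), A[σ]? = some r → i < r →
    SynAll (fun j a => π j = π i → a = st j) (G.inh σ i b)) ∨
  (∃ f : ℕ → ℕ, ∀ (r i : ℕ) (b : Fin G.q), A[σ]? = some r → i < r → (b : ℕ) ≠ f i →
    SynAll (fun j _ => π j ≠ π i) (G.inh σ i b))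

/-- `π` gives blocks of consecutive children in the order `ρ`, and the order of the blocks. -/
def Blocks (π ρ : ℕ → ℕ) : Prop := ∀ i j, π i < π j → ρ i < ρ j

/-- The inherited attributes at the root are constants, and for each symbol the grammars are one-visit
with orders of the children which agree up to the orders inside blocks in which both grammars are
narrow. -/
def BlockVisit (G₁ G₂ : AG A B) : Prop :=
  ConstRoot G₁ ∧ ConstRoot G₂ ∧ ∀ σ < A.length, ∃ ρ₁ ρ₂ π : ℕ → ℕ,
    Function.Injective ρ₁ ∧ Function.Injective ρ₂ ∧ VisitAt G₁ σ ρ₁ ∧ VisitAt G₂ σ ρ₂ ∧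
    Blocks π ρ₁ ∧ Blocks π ρ₂ ∧ NarrowIn G₁ σ π ∧ NarrowIn G₂ σ π

end Pool.Agent.Lib.MP_39893a_lc.OV
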