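import Pool.Agent.Lib.MP_39893a_lc.OV.Spec
import Pool.Agent.Lib.MP_39893a_lc.OV.VisitsB

/-!
# Version with blocks (MP_39893a_lc, hive OV)

The orders of the two machines agree up to the orders inside blocks of children; inside the blocks
the machines are narrow. Blocks of one child: common order; one block: the narrow case.
-/

set_option autoImplicit false

namespace Pool.Agent.Lib.MP_39893a_lc.OV

open Finset ORD AGL

/-- Narrow inside the blocks. -/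
def NarEB {K : Type} [Ring K] (π : ℕ → ℕ) (E : ℕ → ℕ → ℕ → ℕ → K) : Prop :=
  (∃ (c : ℕ → ℕ → ℕ → K) (ε : ℕ → ℕ → K), ∀ i b j q, i ≠ j → π i = π j →
    E i b j q = c i b j * ε j q) ∨
  (∃ (e : ℕ → ℕ → K) (r : ℕ → ℕ → ℕ → K), ∀ i b j q, i ≠ j → π i = π j →
    E i b j q = e i b * r i j q)

/-- BLC. From `SpecLALG`, `SpecNARC`. Induction on the length of `L`. Let `k` = the largest `π i`,
`i ∈ L` (the `π` of the first element of `L` and of `L'`). `L = L₁ ++ R` with `L₁` = the elements with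
`π = k`, `L' = L₁' ++ R'`, `L₁.Perm L₁'`, `R.Perm R'` (`List.filter`; the lists are sorted by `π`). For every
form `nv (L₁ ++ R) l E lam U = nv L₁ l̃ E lam̃ U` with `l̃ i b = nv R l E (l i b) (E i b)`,
`lam̃ = nv R l E lam U` (induction on `L₁`), and `nv L₁` is additive and right linear in `(lam̃, l̃)`:
it is `∑_t g_t μ_t`, `t` in `{0} ∪ {(i,b) : i ∈ L₁, b < nB}`, `μ` = the values `lam̃`, `l̃ i b`, and
`g_t` = `nv L₁` for the unit vector `t` (a function of the `x i`, `i ∈ L₁`). Let `F = ∑ g_t μ_t - ∑ g'_t μ'_t`.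
(1) For fixed `x i ∈ X i` (`i ∈ L₁`) the function is the difference of the values of the forms
`∑ g_t · (form t)` for `R`, `R'` (left linearity, `COMM.nv_lin`, `nv_smul` in FOT.lean), so by induction it
vanishes at `xh` for `R`. (2) LALG with the rows `(g_t(x), -g'_t(x))`, `x i ∈ X i` for `i ∈ L₁`: its hypothesis: for
constants `m` the function `∑ g_t m_t - ∑ g'_t m'_t` is the difference of the values for `L₁`, `L₁'` with
the constants `m` in place of `l̃`, `lam̃`; apply SpecNARC with the matrices `E i b j q` for `i ≠ j` in the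
block, `0` otherwise (`nv L₁` uses only `E i b j` with `j` after `i` in `L₁`), which satisfy `NarE`. -/
def SpecBLC : Prop :=
  ∀ (K S : Type) [DivisionRing K] [Ring S] (κ : K →+* S), RuleRing S →
    (∃ h₁ h₂ : K, h₁ * h₂ ≠ h₂ * h₁) →
    ∀ (nQ nB nQ' nB' : ℕ) (L L' : List ℕ) (π : ℕ → ℕ), L.Nodup → L.Perm L' →
    L.Pairwise (fun i j => π j ≤ π i) → L'.Pairwise (fun i j => π j ≤ π i) →
    ∀ (X : ℕ → Set ((ℕ → ℕ → K) × (ℕ → ℕ → K))) (xh : ℕ → (ℕ → ℕ → S) × (ℕ → ℕ → S)),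
      (∀ i ∈ L, ∀ (u v u' v' : ℕ → K) (w : K),
        (∀ x ∈ X i, tq nQ nB nQ' nB' u v u' v' w x.1 x.2 = 0) →
        tq nQ nB nQ' nB' (fun t => κ (u t)) (fun t => κ (v t)) (fun t => κ (u' t))
          (fun t => κ (v' t)) (κ w) (xh i).1 (xh i).2 = 0) →
      (∀ i ∈ L, ∀ (u v u' v' : ℕ → K) (w : K),
        (∀ x ∈ X i, tq nQ nB nQ nB u v u' v' w x.1 x.1 = 0) →
        tq nQ nB nQ nB (fun t => κ (u t)) (fun t => κ (v t)) (fun t => κ (u' t))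
          (fun t => κ (v' t)) (κ w) (xh i).1 (xh i).1 = 0) →
      ∀ (l l' : ℕ → ℕ → K) (E E' : ℕ → ℕ → ℕ → ℕ → K) (lam lam' : K) (U U' : ℕ → ℕ → K),
        NarEB π E → NarEB π E' →
        (∀ x : ℕ → (ℕ → ℕ → K) × (ℕ → ℕ → K), (∀ i ∈ L, x i ∈ X i) →
          nv nQ nB (fun i => (x i).1) l E L lam U =
            nv nQ' nB' (fun i => (x i).2) l' E' L' lam' U') →
        nv nQ nB (fun i => (xh i).1) (fun i b => κ (l i b)) (fun i b j q => κ (E i b j q)) L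
            (κ lam) (fun i q => κ (U i q)) =
          nv nQ' nB' (fun i => (xh i).2) (fun i b => κ (l' i b)) (fun i b j q => κ (E' i b j q)) L'
            (κ lam') (fun i q => κ (U' i q))

/-- Narrow arguments inside the blocks. -/
def NarArB (π : ℕ → ℕ) (ar : ℕ → List Rhs) : Prop :=
  (∃ st : ℕ → ℕ, ∀ i, ∀ ζ ∈ ar i, ζ.CallsIn (fun j q => π j = π i → q = st j) ar) ∨
  (∃ f : ℕ → ℕ, ∀ i l, l ≠ f i → ((ar i).getD l (.param 0)).CallsIn (fun j _ => π j ≠ π i) ar)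

/-- The condition on the orders. -/
def CondB (r : ℕ) (ρ ρ' : ℕ → ℕ) (ar ar' : ℕ → List Rhs) : Prop :=
  ∃ π : ℕ → ℕ, (∀ i < r, ∀ j < r, π i < π j → ρ i < ρ j) ∧
    (∀ i < r, ∀ j < r, π i < π j → ρ' i < ρ' j) ∧ NarArB π ar ∧ NarArB π ar'

/-- For the same machine on both sides (`ρ = ρ'`, `ar = ar'`) the condition holds with `π = ρ`. -/
def SpecCBR : Prop :=
  ∀ (B pr : List ℕ) (r : ℕ) (rl : ℕ → Option Rhs) (V : ℕ → Prop) (W : ℕ → ℕ → Prop)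
    (ar : ℕ → List Rhs) (ρ : ℕ → ℕ), Vis B pr r rl V W ar ρ →
    ∃ π : ℕ → ℕ, (∀ i < r, ∀ j < r, π i < π j → ρ i < ρ j) ∧
      NarArB π (fun i => if i < r then ar i else [])

/-- LOCNB. From BLC, FOT. As LOCN (adapt OV/LOCN.lean), with BLC in place of COM and NARC: `L` is sorted
by `ρ`, so by `π` (`π i < π j → ρ i < ρ j`, hence `ρ j < ρ i → π j ≤ π i`). -/
def SpecLOCNB : Prop :=
  ∀ (K S : Type) [DivisionRing K] [Ring S] (κ : K →+* S), RuleRing S →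
    (∃ h₁ h₂ : K, h₁ * h₂ ≠ h₂ * h₁) → ∀ (φ : Mo →* K)
    (B : List ℕ) (P nR r : ℕ) (off off' : ℕ) (pr pr' : List ℕ) (rl rl' : ℕ → Option Rhs)
    (V V' : ℕ → Prop) (W W' : ℕ → ℕ → Prop) (ar ar' : ℕ → List Rhs) (ρ ρ' : ℕ → ℕ),
    (∀ m ∈ pr, m ≤ P) → (∀ m ∈ pr', m ≤ P) → off + pr.length ≤ nR → off' + pr'.length ≤ nR →
    Vis B pr r rl V W ar ρ → Vis B pr' r rl' V' W' ar' ρ' → CondB r ρ ρ' ar ar' →
    ∀ (X : ℕ → Set (List K)) (y : ℕ → List S),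
      -- hTT
      (∀ i < r, ∀ (u v u' v' : ℕ → K) (w : K), (∀ t, u t ≠ 0 → rows off pr.length (W i) t) →
        (∀ t, u' t ≠ 0 → rows off' pr'.length (W' i) t) →
        (∀ x ∈ X i, tt P nR u v u' v' w x = 0) →
        tt P nR (fun t => κ (u t)) (fun t => κ (v t)) (fun t => κ (u' t)) (fun t => κ (v' t)) (κ w)
          (y i) = 0) →
      -- hTS
      (∀ i < r, ∀ (u v u' v' : ℕ → K) (w : K), (∀ t, u t ≠ 0 → rows off pr.length (W i) t) →
        (∀ t, u' t ≠ 0 → rows off pr.length (W i) t) →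
        (∀ x ∈ X i, tt P nR u v u' v' w x = 0) →
        tt P nR (fun t => κ (u t)) (fun t => κ (v t)) (fun t => κ (u' t)) (fun t => κ (v' t)) (κ w)
          (y i) = 0) →
      ∀ (u v u' v' : ℕ → K) (w : K), (∀ t, u t ≠ 0 → rows off pr.length V t) →
        (∀ t, u' t ≠ 0 → rows off' pr'.length V' t) →
        (∀ x : ℕ → List K, (∀ i < r, x i ∈ X i) →
          rT P off off' pr.length pr'.length φ ((List.range r).map x) rl rl' u v u' v' w = 0) →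
        rT P off off' pr.length pr'.length ((κ : K →* S).comp φ) ((List.range r).map y) rl rl'
          (fun t => κ (u t)) (fun t => κ (v t)) (fun t => κ (u' t)) (fun t => κ (v' t)) (κ w) = 0

/-- LOCB. From KFR, QUO, DEN, LOCNB, `ORD.SpecEVL`: copy of OV/LOC.lean. -/
def SpecLOCB : Prop :=
  ∀ (B : List ℕ) (P nR r : ℕ) (off off' : ℕ) (pr pr' : List ℕ) (rl rl' : ℕ → Option Rhs)
    (V V' : ℕ → Prop) (W W' : ℕ → ℕ → Prop) (ar ar' : ℕ → List Rhs) (ρ ρ' : ℕ → ℕ),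
    (∀ m ∈ pr, m ≤ P) → (∀ m ∈ pr', m ≤ P) → off + pr.length ≤ nR → off' + pr'.length ≤ nR →
    Vis B pr r rl V W ar ρ → Vis B pr' r rl' V' W' ar' ρ' → CondB r ρ ρ' ar ar' →
    ∀ (N : ℕ) (X : ℕ → Set (List D)) (H : Set FR),
      -- hTT
      (∀ i < r, ∀ (u v u' v' : ℕ → D) (w : D), (∀ t, u t ≠ 0 → rows off pr.length (W i) t) →
        (∀ t, u' t ≠ 0 → rows off' pr'.length (W' i) t) →
        (∀ x ∈ X i, tt P nR u v u' v' w x = 0) → DerI (H ∪ InvAx N) (ttF P nR i u v u' v' w)) →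
      -- hTS
      (∀ i < r, ∀ (u v u' v' : ℕ → D) (w : D), (∀ t, u t ≠ 0 → rows off pr.length (W i) t) →
        (∀ t, u' t ≠ 0 → rows off pr.length (W i) t) →
        (∀ x ∈ X i, tt P nR u v u' v' w x = 0) → DerI (H ∪ InvAx N) (ttF P nR i u v u' v' w)) →
      ∀ (u v u' v' : ℕ → D) (w : D), (∀ t, u t ≠ 0 → rows off pr.length V t) →
        (∀ t, u' t ≠ 0 → rows off' pr'.length V' t) →
        (∀ x : ℕ → List D, (∀ i < r, x i ∈ X i) →
          rT P off off' pr.length pr'.length toD ((List.range r).map x) rl rl' u v u' v' w = 0) →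
        DerI (H ∪ InvAx N) (rT P off off' pr.length pr'.length toF
          ((List.range r).map fun i => (List.range (nR * fs P 1)).map fun t => xv (i, t)) rl rl'
          (fun t => DtoF (u t)) (fun t => DtoF (v t)) (fun t => DtoF (u' t)) (fun t => DtoF (v' t))
          (DtoF w))

/-- As `OVP`, with blocks. -/
def OVPB {A B : List ℕ} (M₁ M₂ : DMTT A B) (V₁ V₂ : ℕ → ℕ → Prop) (c₁ c₂ : ℕ → ℕ → ℕ → ℕ)
    (ar₁ ar₂ : ℕ → ℕ → ℕ → List Rhs) : Prop :=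
  V₁ 0 0 ∧ V₂ 0 0 ∧ ∀ w₁ w₂ a, a < A.length → ∃ ρ₁ ρ₂ : ℕ → ℕ,
    Vis B M₁.params (A.getD a 0) (rlM M₁ a) (V₁ w₁) (fun i => V₁ (c₁ w₁ a i)) (ar₁ w₁ a) ρ₁ ∧
    Vis B M₂.params (A.getD a 0) (rlM M₂ a) (V₂ w₂) (fun i => V₂ (c₂ w₂ a i)) (ar₂ w₂ a) ρ₂ ∧
    CondB (A.getD a 0) ρ₁ ρ₂ (ar₁ w₁ a) (ar₂ w₂ a) ∧
    CondB (A.getD a 0) ρ₁ ρ₁ (ar₁ w₁ a) (ar₁ w₁ a)

/-- Pairs that are one-visit up to narrow blocks. -/
def BlockPair {A B : List ℕ} (M₁ M₂ : DMTT A B) : Prop :=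
  ∃ (V₁ V₂ : ℕ → ℕ → Prop) (c₁ c₂ : ℕ → ℕ → ℕ → ℕ) (ar₁ ar₂ : ℕ → ℕ → ℕ → List Rhs),
    OVPB M₁ M₂ V₁ V₂ c₁ c₂ ar₁ ar₂

/-- STEPB. From LOCB, FOV, REP, BLKI, `ORD.SpecVAL`, `ORD.SpecEVL`, `ORD.SpecLFH`: copy of OV/STEP.lean (the
second case uses the last item of `OVPB`). -/
def SpecSTEPB : Prop :=
  ∀ (A B : List ℕ) (M₁ M₂ : DMTT A B) (V₁ V₂ : ℕ → ℕ → Prop) (c₁ c₂ : ℕ → ℕ → ℕ → ℕ)
    (ar₁ ar₂ : ℕ → ℕ → ℕ → List Rhs), OVPB M₁ M₂ V₁ V₂ c₁ c₂ ar₁ ar₂ →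
    ∀ a < A.length, ∀ (βs : List (List ℕ)) (X : ℕ → Set (List D)) (H : Set FR),
      (∀ i < (norm (inp M₁ M₂ 0)).rk a, ∀ x ∈ X i, x.length = NN (norm (inp M₁ M₂ 0))) →
      -- hH
      (∀ i < (norm (inp M₁ M₂ 0)).rk a, ∀ T, TTall M₁ M₂ V₁ V₂ T →
        (∀ x ∈ X i, apLF (nops D) toD x T = 0) →
        DerI (H ∪ InvAx (NN (norm (inp M₁ M₂ 0))))
          (apLF cops emC (blk (NN (norm (inp M₁ M₂ 0))) i (βs.getD i [])) T).val) →
      ∀ T, TTall M₁ M₂ V₁ V₂ T →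
        (∀ x : ℕ → List D, (∀ i < (norm (inp M₁ M₂ 0)).rk a, x i ∈ X i) →
          apLF (nops D) toD ((nops D).vecS (norm (inp M₁ M₂ 0)).P 1 (norm (inp M₁ M₂ 0)).n1
            (norm (inp M₁ M₂ 0)).T a
            (VL (nops D) toD (norm (inp M₁ M₂ 0)).P (norm (inp M₁ M₂ 0)).nB)
            ((List.range ((norm (inp M₁ M₂ 0)).rk a)).map x)) T = 0) →
        DerI (H ∪ InvAx (NN (norm (inp M₁ M₂ 0))))
          (apLF cops emC (vS (norm (inp M₁ M₂ 0)) a βs) T).val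

/-- CCMPB. From ASM, ENCI, STEPB, NOEG, REP, BLKI, `ORD.SpecLFH`, `ORD.SpecVAL`, `ORD.SpecEVL`,
`ORD.SpecBITZ`: copy of OV/CCMPI.lean. -/
def SpecCCMPB : Prop :=
  ∀ (A B : List ℕ) (M₁ M₂ : DMTT A B), BlockPair M₁ M₂ → RawD (norm (inp M₁ M₂ 0)) →
    ∃ c : CertI, ChkI (norm (inp M₁ M₂ 0)) c

/-- MAINB. From CSNDI, CCMPB, PCHI, `ORD.SpecSEM`, `ORD.SpecSRCH`, `ORD.SpecPSRC`: copy of OV/MAINI.lean. -/
def SpecMAINB : Prop :=
  ∃ F : List ℕ × List ℕ × Code × Code →. Bool, Partrec F ∧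
    ∀ (A B : List ℕ) (M₁ M₂ : DMTT A B),
      (true ∈ F (A, B, M₁.code, M₂.code) → ∀ s, Ranked A s → M₁.tau s = M₂.tau s) ∧
      (false ∈ F (A, B, M₁.code, M₂.code) ↔ ¬ ∀ s, Ranked A s → M₁.tau s = M₂.tau s) ∧
      (BlockPair M₁ M₂ → (F (A, B, M₁.code, M₂.code)).Dom)

/-- AGVB. Adapt OV/AGV.lean (import it). The calls in `inhR G a par r i b` on children `j` are on the
states `1 + a'` with `.syn a' j` in the rules; first case of `NarrowIn`: the states `1 + st j`; calls on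
`x_j` at a deeper level (inside the arguments of a call on `x_k`, `ρ j < ρ k < ρ i`) with `π j = π i` have
`π k = π i` too (blocks are intervals of `ρ`: `π j ≤ π k ≤ π i`), so the rule of `k` is narrow for `j`. Second
case: by induction the term `inhR .. i b`, `b ≠ f i`, has only calls on children `j` with `π j ≠ π i`, at
any depth (a deeper child `j` has `ρ j < ρ k < ρ i`, so `π j ≤ π k < π i`). The last item of `OVPB`: take
`π = ρ₁` for `i < r`: `Below` excludes calls on children of the same block. -/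
def SpecAGVB : Prop :=
  ∀ (hW : SpecAGW) (A B : List ℕ) (G₁ G₂ : AG A B) (h₁ : ConstRoot G₁) (h₂ : ConstRoot G₂),
    BlockVisit G₁ G₂ → BlockPair (trG hW G₁ h₁) (trG hW G₂ h₂)

/-- MAINAB. From MAINB, AGVB, `ORD.SpecAGW`, `ORD.SpecAGE`, `ORD.SpecAGC`, `ORD.SpecAGP`: copy of
OV/MAINAI.lean. -/
def SpecMAINAB : Prop :=
  ∃ F : List ℕ × List ℕ × CodeAG × CodeAG →. Bool, Partrec F ∧
    ∀ (A B : List ℕ) (G₁ G₂ : AG A B), BlockVisit G₁ G₂ →
      (true ∈ F (A, B, codeAG G₁, codeAG G₂) ↔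
        ∀ s, Ranked A s → ∀ t, G₁.Val s t ↔ G₂.Val s t) ∧
      (false ∈ F (A, B, codeAG G₁, codeAG G₂) ↔
        ¬ ∀ s, Ranked A s → ∀ t, G₁.Val s t ↔ G₂.Val s t)

end Pool.Agent.Lib.MP_39893a_lc.OV
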