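import Pool.Agent.Lib.MP_39893a_lc.OV.Spec
import Pool.Agent.Lib.MP_39893a_lc.ORD.INJ
import Pool.Agent.Lib.MP_39893a_lc.OV.SpecB

section
/-!
# Module CCMPI: completeness of certificates (MP_39893a_lc, hive OV)
-/
set_option autoImplicit false

namespace Pool.Agent.Lib.MP_39893a_lc.OV.CCMPIM

open Finset ORD ORD.CCMPM

/-! ### Derivations -/

theorem DI_zero (H : Set FR) : DerI H 0 := by
  have := DerI.comb (H := H) 0 Fin.elim0 Fin.elim0 Fin.elim0 (fun i => i.elim0)
  simpa using this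

theorem DI_add {H : Set FR} {p q : FR} (hp : DerI H p) (hq : DerI H q) : DerI H (p + q) := by
  have := DerI.comb (H := H) 2 ![1, 1] ![p, q] ![1, 1] (by
    intro i
    fin_cases i
    · exact hp
    · exact hq)
  simpa [Fin.sum_univ_two] using this

theorem DI_mul {H : Set FR} (u v : FR) {p : FR} (hp : DerI H p) : DerI H (u * p * v) := by
  have := DerI.comb (H := H) 1 (fun _ => u) (fun _ => p) (fun _ => v) (fun _ => hp)
  simpa using this

theorem DI_sum {H : Set FR} (l : List FR) (h : ∀ p ∈ l, DerI H p) : DerI H l.sum := by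
  induction l with
  | nil => exact DI_zero H
  | cons p l ih =>
    rw [List.sum_cons]
    exact DI_add (h p List.mem_cons_self) (ih fun q hq => h q (List.mem_cons_of_mem _ hq))

/-- The forms of the family that vanish are derivable. -/
theorem q_der (hVAL : ORD.SpecVAL) (hLFH : ORD.SpecLFH) {N i : ℕ} {β : List ℕ} {Q : Set LF}
    {Ts : List LF}
    (hTs : ∀ T ∈ Q, ∃ l : List (ℕ × Mo × LF × Mo), (∀ q ∈ l, q.2.2.1 ∈ Ts) ∧
      ∀ (R : Type) [Ring R] (φ : Mo →* R) (y : List R), y.length = N →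
        apLF (nops R) φ y T = (l.map fun q =>
          (if q.1 = 0 then (1 : R) else -1) *
            (φ q.2.1 * apLF (nops R) φ y q.2.2.1 * φ q.2.2.2)).sum)
    {H : Set FR} (hH : ∀ T ∈ Ts, (apLF cops emC (blk N i β) T).val ∈ H) (T : LF) (hT : T ∈ Q) :
    DerI (H ∪ InvAx N) (apLF cops emC (blk N i β) T).val := by
  obtain ⟨l, hl, hsum⟩ := hTs T hT
  have hy : ((blk N i β).map CP.val).length = N := length_blk N i β
  rw [hLFH CP FR cops (nops FR) CP.val emC toF hVAL.1 hVAL.2.2.2.1, hsum FR toF _ hy]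
  refine DI_sum _ fun q hq => ?_
  obtain ⟨r, hr, rfl⟩ := List.mem_map.1 hq
  have h2 : DerI (H ∪ InvAx N) (apLF (nops FR) toF ((blk N i β).map CP.val) r.2.2.1) := by
    rw [← hLFH CP FR cops (nops FR) CP.val emC toF hVAL.1 hVAL.2.2.2.1]
    exact DerI.hyp _ (Or.inl (hH _ (hl r hr)))
  have h3 := DI_mul ((if r.1 = 0 then (1 : FR) else -1) * toF r.2.1) (toF r.2.2.2) h2
  have e : (if r.1 = 0 then (1 : FR) else -1) *
      (toF r.2.1 * apLF (nops FR) toF ((blk N i β).map CP.val) r.2.2.1 * toF r.2.2.2)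
      = (if r.1 = 0 then (1 : FR) else -1) * toF r.2.1 *
        apLF (nops FR) toF ((blk N i β).map CP.val) r.2.2.1 * toF r.2.2.2 := by
    simp only [mul_assoc]
  rw [e]
  exact h3

/-! ### The form of the target -/

/-- The unit vector. -/
noncomputable def ee (k i : ℕ) : D := if i = k then 1 else 0

theorem lft_ee {R : Type} [Ring R] (φ : Mo →* R) (k i : ℕ) :
    lft φ (ee k i) = if i = k then 1 else 0 := by
  unfold ee
  split
  · exact map_one _
  · exact map_zero _

theorem ee_ne {k i : ℕ} (h : ee k i ≠ 0) : i = k := by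
  by_contra h1
  exact h (if_neg h1)

/-- The two-term form of the target. -/
theorem tt_ee {R : Type} [Ring R] (φ : Mo →* R) (P nR n1 : ℕ) (h0 : 0 < nR) (h1 : n1 < nR)
    (y : List R) :
    tt P nR (fun i => lft φ (ee 0 i)) (fun i => lft φ (ee 0 i)) (fun i => lft φ (ee n1 i))
      (fun i => lft φ (ee 0 i)) (lft φ 0) y = y.getD 0 0 - y.getD (n1 * fs P 1) 0 := by
  unfold tt tq
  have key : ∀ k, k < nR → ∑ q ∈ range nR, ∑ b ∈ range (P + 1),
      lft φ (ee k q) * y.getD (pos P q b) 0 * lft φ (ee 0 b) = y.getD (pos P k 0) 0 := by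
    intro k hk
    rw [Finset.sum_eq_single k]
    · rw [Finset.sum_eq_single 0]
      · rw [lft_ee, lft_ee, if_pos rfl, if_pos rfl, one_mul, mul_one]
      · intro b _ hb
        rw [lft_ee φ 0 b, if_neg hb, mul_zero]
      · intro h
        exact absurd (Finset.mem_range.2 (Nat.succ_pos P)) h
    · intro q _ hq
      refine Finset.sum_eq_zero fun b _ => ?_
      rw [lft_ee φ k q, if_neg hq, zero_mul, zero_mul]
    · intro h
      exact absurd (Finset.mem_range.2 hk) h
  rw [key 0 h0, key n1 h1, map_zero, add_zero]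
  have e1 : pos P 0 0 = 0 := by unfold pos; ring
  have e2 : pos P n1 0 = n1 * fs P 1 := by unfold pos; ring
  rw [e1, e2]

theorem tfree {n : ℤ} (hn : n ≠ 0) {y : D} (h : (n : D) * y = 0) : y = 0 := by
  rw [← zsmul_eq_mul] at h
  have h1 : (n • y).coeff = 0 := by rw [h]; rfl
  have h2 : n • y.coeff = 0 := h1
  have h3 : y.coeff = 0 := by
    ext w
    have h4 := DFunLike.congr_fun h2 w
    have h5 : n * y.coeff w = 0 := h4
    rcases mul_eq_zero.1 h5 with h6 | h6
    · exact absurd h6 hn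
    · exact h6
  exact MonoidAlgebra.coeff_eq_zero.1 h3

theorem vecS_trees (s : Sys) (a : ℕ) (tr : Fin (s.rk a) → Tree) (x : ℕ → List D)
    (h : ∀ i : Fin (s.rk a), x i = vD s (tr i)) :
    (nops D).vecS s.P 1 s.n1 s.T a (VL (nops D) toD s.P s.nB) ((List.range (s.rk a)).map x)
      = vD s (.node a (s.rk a) tr) := by
  have h3 : vD s (.node a (s.rk a) tr) = (nops D).vecS s.P 1 s.n1 s.T a
      (VL (nops D) toD s.P s.nB) (List.ofFn fun i => vD s (tr i)) := rfl
  have h4 : (List.range (s.rk a)).map x = List.ofFn fun i => vD s (tr i) := by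
    refine List.ext_getElem (by simp) fun i h1 h2 => ?_
    rw [List.getElem_map, List.getElem_range, List.getElem_ofFn]
    exact h ⟨i, _⟩
  rw [h3, h4]

/-- Module CCMPI. -/
theorem specCCMPI (hASM : SpecASM) (hENCI : SpecENCI) (hSTEP : SpecSTEP) (hNOEG : SpecNOEG)
    (hREP : SpecREP) (hBLKI : SpecBLKI) (hLFH : ORD.SpecLFH) (hVAL : ORD.SpecVAL)
    (hEVL : ORD.SpecEVL) (hB : ORD.SpecBITZ) : SpecCCMPI := by
  classical
  intro A B M₁ M₂ hO hR
  obtain ⟨V₁, V₂, c₁, c₂, ar₁, ar₂, hOV⟩ := hO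
  have hn1 : (norm (inp M₁ M₂ 0)).n1 = M₁.params.length := norm_n1 M₁ M₂ 0
  have hTl : (norm (inp M₁ M₂ 0)).T.length = M₁.params.length + M₂.params.length := by
    rw [norm_T, List.length_append, code_length, code_length]
  have hp1 : 0 < M₁.params.length := (List.getElem?_eq_some_iff.1 M₁.init).1
  have hp2 : 0 < M₂.params.length := (List.getElem?_eq_some_iff.1 M₂.init).1
  have hA : (norm (inp M₁ M₂ 0)).A = A := norm_A M₁ M₂ 0
  have hstep := hSTEP A B M₁ M₂ V₁ V₂ c₁ c₂ ar₁ ar₂ hOV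
  obtain ⟨s, hs⟩ : ∃ s, s = norm (inp M₁ M₂ 0) := ⟨_, rfl⟩
  obtain ⟨TA, hTA⟩ : ∃ TA, TA = TTall M₁ M₂ V₁ V₂ := ⟨_, rfl⟩
  have hTA1 : ∀ T : LF, TTG (NN s) s.P s.T.length
      (rows 0 M₁.params.length (V₁ 0)) (rows M₁.params.length M₂.params.length (V₂ 0)) T →
      TA T := by
    intro T h
    rw [hTA]
    subst hs
    exact Or.inl ⟨0, 0, h⟩
  rw [← hs, ← hTA] at hstep
  rw [← hs] at hR hn1 hTl hA ⊢
  have hV1 : V₁ 0 0 := hOV.1
  have hV2 : V₂ 0 0 := hOV.2.1
  clear hOV
  -- classes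
  obtain ⟨L, hL⟩ : ∃ L : List (List ℕ), ∀ β, β ∈ L ↔ ∃ t, Ranked s.A t ∧ bitsOf s t = β :=
    ⟨(cl_finite hB s).toFinset.toList, fun β => by simp⟩
  have hX : ∀ β, ∀ x ∈ XS s β, x.length = NN s := by
    rintro β x ⟨t, -, -, rfl⟩
    exact length_vD s t
  choose Ts hTs1 hTs2 using fun β : List ℕ =>
    hNOEG (NN s) {T | TA T ∧ ∀ x ∈ XS s β, apLF (nops D) toD x T = 0}
  obtain ⟨C, hC⟩ : ∃ C : List (List ℕ × List LF), C = L.map fun β => (β, Ts β) := ⟨_, rfl⟩
  have hClen : C.length = L.length := by rw [hC, List.length_map]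
  have hget : ∀ κ (hκ : κ < L.length), C.getD κ ([], []) = (L[κ], Ts L[κ]) := by
    intro κ hκ
    rw [hC, List.getD_eq_getElem?_getD, List.getElem?_map, List.getElem?_eq_getElem hκ]
    rfl
  have hbits : ∀ κ (hκ : κ < L.length), CertI.bits (C, [], [], []) κ = L[κ] := by
    intro κ hκ
    show (C.getD κ ([], [])).1 = _
    rw [hget κ hκ]
  have hforms : ∀ κ (hκ : κ < L.length), CertI.forms (C, [], [], []) κ = Ts L[κ] := by
    intro κ hκ
    show (C.getD κ ([], [])).2 = _
    rw [hget κ hκ]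
  refine hASM s C ?_ ?_
  · intro a ha z hz
    rw [hClen] at hz
    have hdig : ∀ i, i < s.rk a → dig C.length z i < L.length := by
      intro i hi
      rw [hClen]
      have hK : 0 < L.length := by
        rcases Nat.eq_zero_or_pos L.length with h0 | h0
        · rw [h0, zero_pow (by omega)] at hz
          omega
        · exact h0
      exact Nat.mod_lt _ hK
    obtain ⟨βs, hβs⟩ : ∃ βs : List (List ℕ), βs = (List.range (s.rk a)).map fun i =>
      CertI.bits (C, [], [], []) (dig C.length z i) := ⟨_, rfl⟩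
    have hβi : ∀ i (hi : i < s.rk a), βs.getD i [] = L[dig C.length z i]'(hdig i hi) := by
      intro i hi
      rw [hβs, getD_range_map _ _ hi, hbits _ (hdig i hi)]
    have hres : resI s (C, [], [], []) a z = vS s a βs := by
      rw [hβs]
      rfl
    have htr : ∀ i : Fin (s.rk a), ∃ t, Ranked s.A t ∧ bitsOf s t = βs.getD i [] := by
      intro i
      rw [hβi i i.2]
      exact (hL _).1 (List.getElem_mem _)
    choose tr htr1 htr2 using htr
    have hrank : ∀ c : Fin (s.rk a) → Tree, (∀ i, Ranked s.A (c i)) →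
        Ranked s.A (.node a (s.rk a) c) := by
      intro c hc
      refine ⟨?_, hc⟩
      show s.A[a]? = some (s.A.getD a 0)
      rw [List.getElem?_eq_getElem ha, List.getD_eq_getElem _ _ ha]
    obtain ⟨κ, hκ, hκ'⟩ := List.mem_iff_getElem.1 ((hL _).2 ⟨_, hrank tr htr1, rfl⟩)
    have hbit : ∀ u, isBit u → ((vS s a βs).map CP.val).getD u 0
        = ((L[κ].getD u 0 : ℕ) : FR) := by
      intro u hu
      rw [hκ']
      exact vS_bit hVAL hB s a βs tr (fun i => (htr2 i).symm) u hu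
    refine ⟨κ, by rw [hClen]; exact hκ, ?_, ?_⟩
    · intro t _ hb
      refine csub_isZero hVAL ?_
      rw [hbits κ hκ, hres, val_getD hVAL, hbit t hb, hVAL.1.nat]
      rfl
    · intro l hl
      rw [hforms κ hκ] at hl ⊢
      have hT : (Ts L[κ]).getD l [] ∈ Ts L[κ] := by
        rw [List.getD_eq_getElem _ _ hl]
        exact List.getElem_mem _
      obtain ⟨T, hTe⟩ : ∃ T, T = (Ts L[κ]).getD l [] := ⟨_, rfl⟩
      rw [← hTe] at hT ⊢
      have hTQ := hTs1 L[κ] T hT
      refine hENCI.2 _ _ _ ?_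
      rw [hres]
      refine hstep a (by rw [← hA]; exact ha) βs (fun i => XS s (βs.getD i []))
        _ (fun i _ x hx => hX _ x hx) ?_ T hTQ.1 ?_
      · intro i hi T' hT1 hT2
        refine q_der hVAL hLFH (hTs2 (βs.getD i [])) ?_ T' ⟨hT1, hT2⟩
        intro T'' hT''
        refine ⟨apLF cops emC (blk (NN s) i (βs.getD i [])) T'', ?_, rfl⟩
        refine List.mem_flatMap.2 ⟨i, List.mem_range.2 hi, List.mem_map.2 ⟨T'', ?_, ?_⟩⟩
        · have e : CertI.forms (C, [], [], []) (dig (CertI.K (C, [], [], [])) z i)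
              = Ts (βs.getD i []) := by
            rw [hβi i hi]
            exact hforms _ (hdig i hi)
          rw [e]
          exact hT''
        · have e : CertI.bits (C, [], [], []) (dig (CertI.K (C, [], [], [])) z i)
              = βs.getD i [] := by
            rw [hβi i hi]
            exact hbits _ (hdig i hi)
          rw [e]
      · intro x hx
        have hx' : ∀ i : Fin (s.rk a), ∃ t, Ranked s.A t ∧ bitsOf s t = βs.getD i [] ∧
            x i = vD s t := fun i => hx i i.2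
        choose tt ht1 ht2 ht3 using hx'
        have hb' : bitsOf s (.node a (s.rk a) tt) = L[κ] := by
          rw [hκ']
          exact bitsOf_congr hB s a (s.rk a) tt tr fun i => (ht2 i).trans (htr2 i).symm
        rw [vecS_trees s a tt x ht3]
        exact hTQ.2 _ ⟨_, hrank tt ht1, hb', rfl⟩
  · intro κ hκ
    rw [hClen] at hκ
    rw [hbits κ hκ, hforms κ hκ]
    obtain ⟨t0, ht0, hbt⟩ := (hL L[κ]).1 (List.getElem_mem _)
    obtain ⟨β, hβ⟩ : ∃ β, β = L[κ] := ⟨_, rfl⟩
    rw [← hβ] at hbt ⊢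
    have hlen : β.length = NN s := by rw [← hbt, length_bitsOf]
    have hm : s.n1 * fs s.P 1 % 4 = 0 := by
      unfold fs
      have : s.n1 * ((s.P + 1) * (1 + 1) * (1 + 1)) = 4 * (s.n1 * (s.P + 1)) := by ring
      rw [this]
      exact Nat.mul_mod_right 4 _
    have hbF : ∀ u, isBit u → ((blk (NN s) 0 β).map CP.val).getD u 0
        = (((zD s t0).getD u 0 : ℤ) : FR) := by
      intro u hu
      rw [blk_bit hVAL hlen hu, ← bitsOf_eq hB s t0 u hu, hbt, Int.cast_natCast]
    have hbD' : ∀ t, bitsOf s t = β → ∀ u, isBit u →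
        (vD s t).getD u 0 = (((zD s t0).getD u 0 : ℤ) : D) := by
      intro t ht u hu
      rw [vD_bit hB s t u hu, ht, ← hbt, ← bitsOf_eq hB s t0 u hu, Int.cast_natCast]
    have hbD := hbD' t0 hbt
    refine ⟨?_, ?_⟩
    · rw [hVAL.2.1, hVAL.1.target]
      have hD := hR t0 ht0 1 (by omega)
      unfold Ops.target at hD ⊢
      rw [if_pos rfl] at hD ⊢
      have f1 := nbres_bits s.P 0 rfl _ _ hbF
      have f2 := nbres_bits s.P _ hm _ _ hbF
      have d1 := nbres_bits s.P 0 rfl _ _ hbD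
      have d2 := nbres_bits s.P _ hm _ _ hbD
      rw [List.drop_zero, List.drop_zero] at f1 d1
      rw [f1, f2]
      rw [d1, d2] at hD
      have h1 : (((nops ℤ).nbres s.P 1 (zD s t0) -
          (nops ℤ).nbres s.P 1 ((zD s t0).drop (s.n1 * fs s.P 1)) : ℤ) : D) = 0 := by
        rw [Int.cast_sub, sub_eq_add_neg]
        exact hD
      have h2 := int_inj h1
      have h3 : (((nops ℤ).nbres s.P 1 (zD s t0) -
          (nops ℤ).nbres s.P 1 ((zD s t0).drop (s.n1 * fs s.P 1)) : ℤ) : FR) = 0 := by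
        rw [h2, Int.cast_zero]
      rw [Int.cast_sub, sub_eq_add_neg] at h3
      exact h3
    · refine hENCI.2 _ _ _ ?_
      rw [hVAL.1.target]
      obtain ⟨n, hn⟩ : ∃ n : ℤ, n = (nops ℤ).nbres s.P 1 (zD s t0) := ⟨_, rfl⟩
      have htg : ∀ {R : Type} [Ring R] (x : List R),
          (∀ u, isBit u → x.getD u 0 = (((zD s t0).getD u 0 : ℤ) : R)) →
          (nops R).target s.P 1 s.n1 x 0
            = (n : R) * (x.getD 0 0 - x.getD (s.n1 * fs s.P 1) 0) := by
        intro R _ x hx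
        have f1 := nbres_bits s.P 0 rfl _ _ hx
        rw [List.drop_zero, List.drop_zero] at f1
        have e0 : (nops R).nat 0 = (0 : R) := Nat.cast_zero
        have g1 : (nops R).gF 1 x 0 0 0 = x.getD 0 0 := by
          rw [Ops.gF, e0]
        have g2 : (nops R).gF 1 (x.drop (s.n1 * fs s.P 1)) 0 0 0
            = x.getD (s.n1 * fs s.P 1) 0 := by
          rw [Ops.gF, e0, List.getD_eq_getElem?_getD, List.getD_eq_getElem?_getD,
            List.getElem?_drop]
          rfl
        unfold Ops.target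
        rw [if_neg (by omega), f1, g1, g2, ← hn, sub_eq_add_neg]
        rfl
      rw [htg _ hbF]
      rcases eq_or_ne n 0 with hn0 | hn0
      · rw [hn0, Int.cast_zero, zero_mul]
        exact DI_zero _
      · obtain ⟨T₀, hT₀⟩ := hREP (NN s) s.P s.T.length (ee 0) (ee 0) (ee s.n1) (ee 0) 0
        have hval : ∀ {R : Type} [Ring R] (φ : Mo →* R) (y : List R), y.length = NN s →
            apLF (nops R) φ y T₀ = y.getD 0 0 - y.getD (s.n1 * fs s.P 1) 0 := by
          intro R _ φ y hy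
          rw [hT₀ R φ y hy]
          exact tt_ee φ s.P s.T.length s.n1 (by rw [hTl]; omega) (by rw [hTl, hn1]; omega) y
        have hTQ : T₀ ∈ {T | TA T ∧ ∀ x ∈ XS s β, apLF (nops D) toD x T = 0} := by
          refine ⟨hTA1 T₀
            ⟨ee 0, ee 0, ee s.n1, ee 0, 0, ?_, ?_, hT₀⟩, ?_⟩
          · intro i hi
            exact ⟨0, hp1, by rw [ee_ne hi], hV1⟩
          · intro i hi
            exact ⟨0, hp2, by rw [ee_ne hi, hn1]; rfl, hV2⟩
          · rintro x ⟨t', ht', hbt', rfl⟩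
            rw [hval toD _ (length_vD s t')]
            have h1 := hR t' ht' 0 (by omega)
            rw [htg _ (hbD' t' hbt')] at h1
            exact tfree hn0 h1
        have hd := q_der (i := 0) (β := β) hVAL hLFH (hTs2 β)
          (H := {f | ∃ h ∈ hyp1 (NN s) 0 β (Ts β), f = h.val}) (fun T' hT' =>
            ⟨apLF cops emC (blk (NN s) 0 β) T', List.mem_map.2 ⟨T', hT', rfl⟩, rfl⟩) T₀ hTQ
        rw [hLFH CP FR cops (nops FR) CP.val emC toF hVAL.1 hVAL.2.2.2.1,
          hval toF _ (length_blk _ _ _)] at hd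
        have h5 := DI_mul (n : FR) 1 hd
        rw [mul_one] at h5
        exact h5

end Pool.Agent.Lib.MP_39893a_lc.OV.CCMPIM
end

section
/-!
# Module CCMPB: completeness of certificates, version with blocks (MP_39893a_lc, hive OV)
-/
set_option autoImplicit false

namespace Pool.Agent.Lib.MP_39893a_lc.OV.CCMPBM

open Finset ORD ORD.CCMPM CCMPIM

/-- Module CCMPB. -/
theorem specCCMPB (hASM : SpecASM) (hENCI : SpecENCI) (hSTEP : SpecSTEPB) (hNOEG : SpecNOEG)
    (hREP : SpecREP) (hBLKI : SpecBLKI) (hLFH : ORD.SpecLFH) (hVAL : ORD.SpecVAL)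
    (hEVL : ORD.SpecEVL) (hB : ORD.SpecBITZ) : SpecCCMPB := by
  classical
  intro A B M₁ M₂ hO hR
  obtain ⟨V₁, V₂, c₁, c₂, ar₁, ar₂, hOV⟩ := hO
  have hn1 : (norm (inp M₁ M₂ 0)).n1 = M₁.params.length := norm_n1 M₁ M₂ 0
  have hTl : (norm (inp M₁ M₂ 0)).T.length = M₁.params.length + M₂.params.length := by
    rw [norm_T, List.length_append, code_length, code_length]
  have hp1 : 0 < M₁.params.length := (List.getElem?_eq_some_iff.1 M₁.init).1
  have hp2 : 0 < M₂.params.length := (List.getElem?_eq_some_iff.1 M₂.init).1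
  have hA : (norm (inp M₁ M₂ 0)).A = A := norm_A M₁ M₂ 0
  have hstep := hSTEP A B M₁ M₂ V₁ V₂ c₁ c₂ ar₁ ar₂ hOV
  obtain ⟨s, hs⟩ : ∃ s, s = norm (inp M₁ M₂ 0) := ⟨_, rfl⟩
  obtain ⟨TA, hTA⟩ : ∃ TA, TA = TTall M₁ M₂ V₁ V₂ := ⟨_, rfl⟩
  have hTA1 : ∀ T : LF, TTG (NN s) s.P s.T.length
      (rows 0 M₁.params.length (V₁ 0)) (rows M₁.params.length M₂.params.length (V₂ 0)) T →
      TA T := by
    intro T h
    rw [hTA]
    subst hs
    exact Or.inl ⟨0, 0, h⟩
  rw [← hs, ← hTA] at hstep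
  rw [← hs] at hR hn1 hTl hA ⊢
  have hV1 : V₁ 0 0 := hOV.1
  have hV2 : V₂ 0 0 := hOV.2.1
  clear hOV
  -- classes
  obtain ⟨L, hL⟩ : ∃ L : List (List ℕ), ∀ β, β ∈ L ↔ ∃ t, Ranked s.A t ∧ bitsOf s t = β :=
    ⟨(cl_finite hB s).toFinset.toList, fun β => by simp⟩
  have hX : ∀ β, ∀ x ∈ XS s β, x.length = NN s := by
    rintro β x ⟨t, -, -, rfl⟩
    exact length_vD s t
  choose Ts hTs1 hTs2 using fun β : List ℕ =>
    hNOEG (NN s) {T | TA T ∧ ∀ x ∈ XS s β, apLF (nops D) toD x T = 0}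
  obtain ⟨C, hC⟩ : ∃ C : List (List ℕ × List LF), C = L.map fun β => (β, Ts β) := ⟨_, rfl⟩
  have hClen : C.length = L.length := by rw [hC, List.length_map]
  have hget : ∀ κ (hκ : κ < L.length), C.getD κ ([], []) = (L[κ], Ts L[κ]) := by
    intro κ hκ
    rw [hC, List.getD_eq_getElem?_getD, List.getElem?_map, List.getElem?_eq_getElem hκ]
    rfl
  have hbits : ∀ κ (hκ : κ < L.length), CertI.bits (C, [], [], []) κ = L[κ] := by
    intro κ hκ
    show (C.getD κ ([], [])).1 = _
    rw [hget κ hκ]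
  have hforms : ∀ κ (hκ : κ < L.length), CertI.forms (C, [], [], []) κ = Ts L[κ] := by
    intro κ hκ
    show (C.getD κ ([], [])).2 = _
    rw [hget κ hκ]
  refine hASM s C ?_ ?_
  · intro a ha z hz
    rw [hClen] at hz
    have hdig : ∀ i, i < s.rk a → dig C.length z i < L.length := by
      intro i hi
      rw [hClen]
      have hK : 0 < L.length := by
        rcases Nat.eq_zero_or_pos L.length with h0 | h0
        · rw [h0, zero_pow (by omega)] at hz
          omega
        · exact h0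
      exact Nat.mod_lt _ hK
    obtain ⟨βs, hβs⟩ : ∃ βs : List (List ℕ), βs = (List.range (s.rk a)).map fun i =>
      CertI.bits (C, [], [], []) (dig C.length z i) := ⟨_, rfl⟩
    have hβi : ∀ i (hi : i < s.rk a), βs.getD i [] = L[dig C.length z i]'(hdig i hi) := by
      intro i hi
      rw [hβs, getD_range_map _ _ hi, hbits _ (hdig i hi)]
    have hres : resI s (C, [], [], []) a z = vS s a βs := by
      rw [hβs]
      rfl
    have htr : ∀ i : Fin (s.rk a), ∃ t, Ranked s.A t ∧ bitsOf s t = βs.getD i [] := by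
      intro i
      rw [hβi i i.2]
      exact (hL _).1 (List.getElem_mem _)
    choose tr htr1 htr2 using htr
    have hrank : ∀ c : Fin (s.rk a) → Tree, (∀ i, Ranked s.A (c i)) →
        Ranked s.A (.node a (s.rk a) c) := by
      intro c hc
      refine ⟨?_, hc⟩
      show s.A[a]? = some (s.A.getD a 0)
      rw [List.getElem?_eq_getElem ha, List.getD_eq_getElem _ _ ha]
    obtain ⟨κ, hκ, hκ'⟩ := List.mem_iff_getElem.1 ((hL _).2 ⟨_, hrank tr htr1, rfl⟩)
    have hbit : ∀ u, isBit u → ((vS s a βs).map CP.val).getD u 0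
        = ((L[κ].getD u 0 : ℕ) : FR) := by
      intro u hu
      rw [hκ']
      exact vS_bit hVAL hB s a βs tr (fun i => (htr2 i).symm) u hu
    refine ⟨κ, by rw [hClen]; exact hκ, ?_, ?_⟩
    · intro t _ hb
      refine csub_isZero hVAL ?_
      rw [hbits κ hκ, hres, val_getD hVAL, hbit t hb, hVAL.1.nat]
      rfl
    · intro l hl
      rw [hforms κ hκ] at hl ⊢
      have hT : (Ts L[κ]).getD l [] ∈ Ts L[κ] := by
        rw [List.getD_eq_getElem _ _ hl]
        exact List.getElem_mem _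
      obtain ⟨T, hTe⟩ : ∃ T, T = (Ts L[κ]).getD l [] := ⟨_, rfl⟩
      rw [← hTe] at hT ⊢
      have hTQ := hTs1 L[κ] T hT
      refine hENCI.2 _ _ _ ?_
      rw [hres]
      refine hstep a (by rw [← hA]; exact ha) βs (fun i => XS s (βs.getD i []))
        _ (fun i _ x hx => hX _ x hx) ?_ T hTQ.1 ?_
      · intro i hi T' hT1 hT2
        refine q_der hVAL hLFH (hTs2 (βs.getD i [])) ?_ T' ⟨hT1, hT2⟩
        intro T'' hT''
        refine ⟨apLF cops emC (blk (NN s) i (βs.getD i [])) T'', ?_, rfl⟩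
        refine List.mem_flatMap.2 ⟨i, List.mem_range.2 hi, List.mem_map.2 ⟨T'', ?_, ?_⟩⟩
        · have e : CertI.forms (C, [], [], []) (dig (CertI.K (C, [], [], [])) z i)
              = Ts (βs.getD i []) := by
            rw [hβi i hi]
            exact hforms _ (hdig i hi)
          rw [e]
          exact hT''
        · have e : CertI.bits (C, [], [], []) (dig (CertI.K (C, [], [], [])) z i)
              = βs.getD i [] := by
            rw [hβi i hi]
            exact hbits _ (hdig i hi)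
          rw [e]
      · intro x hx
        have hx' : ∀ i : Fin (s.rk a), ∃ t, Ranked s.A t ∧ bitsOf s t = βs.getD i [] ∧
            x i = vD s t := fun i => hx i i.2
        choose tt ht1 ht2 ht3 using hx'
        have hb' : bitsOf s (.node a (s.rk a) tt) = L[κ] := by
          rw [hκ']
          exact bitsOf_congr hB s a (s.rk a) tt tr fun i => (ht2 i).trans (htr2 i).symm
        rw [vecS_trees s a tt x ht3]
        exact hTQ.2 _ ⟨_, hrank tt ht1, hb', rfl⟩
  · intro κ hκ
    rw [hClen] at hκ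
    rw [hbits κ hκ, hforms κ hκ]
    obtain ⟨t0, ht0, hbt⟩ := (hL L[κ]).1 (List.getElem_mem _)
    obtain ⟨β, hβ⟩ : ∃ β, β = L[κ] := ⟨_, rfl⟩
    rw [← hβ] at hbt ⊢
    have hlen : β.length = NN s := by rw [← hbt, length_bitsOf]
    have hm : s.n1 * fs s.P 1 % 4 = 0 := by
      unfold fs
      have : s.n1 * ((s.P + 1) * (1 + 1) * (1 + 1)) = 4 * (s.n1 * (s.P + 1)) := by ring
      rw [this]
      exact Nat.mul_mod_right 4 _
    have hbF : ∀ u, isBit u → ((blk (NN s) 0 β).map CP.val).getD u 0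
        = (((zD s t0).getD u 0 : ℤ) : FR) := by
      intro u hu
      rw [blk_bit hVAL hlen hu, ← bitsOf_eq hB s t0 u hu, hbt, Int.cast_natCast]
    have hbD' : ∀ t, bitsOf s t = β → ∀ u, isBit u →
        (vD s t).getD u 0 = (((zD s t0).getD u 0 : ℤ) : D) := by
      intro t ht u hu
      rw [vD_bit hB s t u hu, ht, ← hbt, ← bitsOf_eq hB s t0 u hu, Int.cast_natCast]
    have hbD := hbD' t0 hbt
    refine ⟨?_, ?_⟩
    · rw [hVAL.2.1, hVAL.1.target]
      have hD := hR t0 ht0 1 (by omega)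
      unfold Ops.target at hD ⊢
      rw [if_pos rfl] at hD ⊢
      have f1 := nbres_bits s.P 0 rfl _ _ hbF
      have f2 := nbres_bits s.P _ hm _ _ hbF
      have d1 := nbres_bits s.P 0 rfl _ _ hbD
      have d2 := nbres_bits s.P _ hm _ _ hbD
      rw [List.drop_zero, List.drop_zero] at f1 d1
      rw [f1, f2]
      rw [d1, d2] at hD
      have h1 : (((nops ℤ).nbres s.P 1 (zD s t0) -
          (nops ℤ).nbres s.P 1 ((zD s t0).drop (s.n1 * fs s.P 1)) : ℤ) : D) = 0 := by
        rw [Int.cast_sub, sub_eq_add_neg]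
        exact hD
      have h2 := int_inj h1
      have h3 : (((nops ℤ).nbres s.P 1 (zD s t0) -
          (nops ℤ).nbres s.P 1 ((zD s t0).drop (s.n1 * fs s.P 1)) : ℤ) : FR) = 0 := by
        rw [h2, Int.cast_zero]
      rw [Int.cast_sub, sub_eq_add_neg] at h3
      exact h3
    · refine hENCI.2 _ _ _ ?_
      rw [hVAL.1.target]
      obtain ⟨n, hn⟩ : ∃ n : ℤ, n = (nops ℤ).nbres s.P 1 (zD s t0) := ⟨_, rfl⟩
      have htg : ∀ {R : Type} [Ring R] (x : List R),
          (∀ u, isBit u → x.getD u 0 = (((zD s t0).getD u 0 : ℤ) : R)) →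
          (nops R).target s.P 1 s.n1 x 0
            = (n : R) * (x.getD 0 0 - x.getD (s.n1 * fs s.P 1) 0) := by
        intro R _ x hx
        have f1 := nbres_bits s.P 0 rfl _ _ hx
        rw [List.drop_zero, List.drop_zero] at f1
        have e0 : (nops R).nat 0 = (0 : R) := Nat.cast_zero
        have g1 : (nops R).gF 1 x 0 0 0 = x.getD 0 0 := by
          rw [Ops.gF, e0]
        have g2 : (nops R).gF 1 (x.drop (s.n1 * fs s.P 1)) 0 0 0
            = x.getD (s.n1 * fs s.P 1) 0 := by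
          rw [Ops.gF, e0, List.getD_eq_getElem?_getD, List.getD_eq_getElem?_getD,
            List.getElem?_drop]
          rfl
        unfold Ops.target
        rw [if_neg (by omega), f1, g1, g2, ← hn, sub_eq_add_neg]
        rfl
      rw [htg _ hbF]
      rcases eq_or_ne n 0 with hn0 | hn0
      · rw [hn0, Int.cast_zero, zero_mul]
        exact DI_zero _
      · obtain ⟨T₀, hT₀⟩ := hREP (NN s) s.P s.T.length (ee 0) (ee 0) (ee s.n1) (ee 0) 0
        have hval : ∀ {R : Type} [Ring R] (φ : Mo →* R) (y : List R), y.length = NN s →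
            apLF (nops R) φ y T₀ = y.getD 0 0 - y.getD (s.n1 * fs s.P 1) 0 := by
          intro R _ φ y hy
          rw [hT₀ R φ y hy]
          exact tt_ee φ s.P s.T.length s.n1 (by rw [hTl]; omega) (by rw [hTl, hn1]; omega) y
        have hTQ : T₀ ∈ {T | TA T ∧ ∀ x ∈ XS s β, apLF (nops D) toD x T = 0} := by
          refine ⟨hTA1 T₀
            ⟨ee 0, ee 0, ee s.n1, ee 0, 0, ?_, ?_, hT₀⟩, ?_⟩
          · intro i hi
            exact ⟨0, hp1, by rw [ee_ne hi], hV1⟩
          · intro i hi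
            exact ⟨0, hp2, by rw [ee_ne hi, hn1]; rfl, hV2⟩
          · rintro x ⟨t', ht', hbt', rfl⟩
            rw [hval toD _ (length_vD s t')]
            have h1 := hR t' ht' 0 (by omega)
            rw [htg _ (hbD' t' hbt')] at h1
            exact tfree hn0 h1
        have hd := q_der (i := 0) (β := β) hVAL hLFH (hTs2 β)
          (H := {f | ∃ h ∈ hyp1 (NN s) 0 β (Ts β), f = h.val}) (fun T' hT' =>
            ⟨apLF cops emC (blk (NN s) 0 β) T', List.mem_map.2 ⟨T', hT', rfl⟩, rfl⟩) T₀ hTQ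
        rw [hLFH CP FR cops (nops FR) CP.val emC toF hVAL.1 hVAL.2.2.2.1,
          hval toF _ (length_blk _ _ _)] at hd
        have h5 := DI_mul (n : FR) 1 hd
        rw [mul_one] at h5
        exact h5

end Pool.Agent.Lib.MP_39893a_lc.OV.CCMPBM
end

section
/-!
# Centralizers of noncentral elements are commutative (MP_39893a_lc, hive OV, module CTA)
-/
set_option autoImplicit false

namespace Pool.Agent.Lib.MP_39893a_lc.OV.CTAM

variable {K : Type} [DivisionRing K] {L : Type} [Field L] {σ : RingAut L} {o : K → ℤ} {c : K → L}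

/-- Order at least `n`. -/
def Ge (o : K → ℤ) (n : ℤ) (x : K) : Prop := x = 0 ∨ n ≤ o x

theorem o_one (h : Lead K L σ o c) : o 1 = 0 := by
  have := (h.int 1 one_ne_zero).2.1
  simpa using this

theorem o_neg (h : Lead K L σ o c) {x : K} (hx : x ≠ 0) : o (-x) = o x := by
  have h1 := h.int (-1) (by norm_num)
  have h2 := (h.mul _ x h1.1 hx).2.1
  rw [h1.2.1] at h2
  simpa using h2

theorem c_neg (h : Lead K L σ o c) {x : K} (hx : x ≠ 0) : c (-x) = - c x := by
  have h1 := h.int (-1) (by norm_num)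
  have h2 := (h.mul _ x h1.1 hx).2.2
  rw [h1.2.1, h1.2.2] at h2
  simpa using h2

theorem o_inv (h : Lead K L σ o c) {x : K} (hx : x ≠ 0) : o x⁻¹ = - o x := by
  have h2 := (h.mul x x⁻¹ hx (inv_ne_zero hx)).2.1
  rw [mul_inv_cancel₀ hx, o_one h] at h2
  omega

theorem o_pow (h : Lead K L σ o c) {x : K} (hx : x ≠ 0) (n : ℕ) : o (x ^ n) = n * o x := by
  induction n with
  | zero => simpa using o_one h
  | succ n ih =>
    rw [pow_succ, (h.mul _ x (pow_ne_zero n hx) hx).2.1, ih]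
    push_cast
    ring

theorem o_zpow (h : Lead K L σ o c) {x : K} (hx : x ≠ 0) (n : ℤ) : o (x ^ n) = n * o x := by
  obtain ⟨m, rfl | rfl⟩ := Int.eq_nat_or_neg n
  · rw [zpow_natCast, o_pow h hx]
  · rw [zpow_neg, zpow_natCast, o_inv h (pow_ne_zero m hx), o_pow h hx]
    ring

theorem ge_add (h : Lead K L σ o c) {n : ℤ} {x y : K} (hx : Ge o n x) (hy : Ge o n y) :
    Ge o n (x + y) := by
  rcases hx with rfl | hx
  · rw [zero_add]
    exact hy
  rcases hy with rfl | hy
  · rw [add_zero]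
    exact Or.inr hx
  by_cases x0 : x = 0
  · rw [x0, zero_add]
    exact Or.inr hy
  by_cases y0 : y = 0
  · rw [y0, add_zero]
    exact Or.inr hx
  rcases lt_trichotomy (o x) (o y) with hlt | heq | hgt
  · right
    rw [(h.addlt x y x0 y0 hlt).2.1]
    exact hx
  · by_cases hc : c x + c y = 0
    · by_cases hxy : x + y = 0
      · exact Or.inl hxy
      · right
        have := h.add0 x y x0 y0 heq hc hxy
        omega
    · right
      rw [(h.add x y x0 y0 heq hc).2.1]
      exact hx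
  · right
    rw [add_comm, (h.addlt y x y0 x0 hgt).2.1]
    exact hy

theorem ge_neg (h : Lead K L σ o c) {n : ℤ} {x : K} (hx : Ge o n x) : Ge o n (-x) := by
  by_cases x0 : x = 0
  · left
    rw [x0, neg_zero]
  · rcases hx with hx | hx
    · exact absurd hx x0
    · right
      rw [o_neg h x0]
      exact hx

theorem ge_sub (h : Lead K L σ o c) {n : ℤ} {x y : K} (hx : Ge o n x) (hy : Ge o n y) :
    Ge o n (x - y) := by
  rw [sub_eq_add_neg]
  exact ge_add h hx (ge_neg h hy)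

theorem ge_mul (h : Lead K L σ o c) {n m : ℤ} {x y : K} (hx : Ge o n x) (hy : Ge o m y) :
    Ge o (n + m) (x * y) := by
  rcases hx with rfl | hx
  · left
    rw [zero_mul]
  rcases hy with rfl | hy
  · left
    rw [mul_zero]
  by_cases x0 : x = 0
  · left
    rw [x0, zero_mul]
  by_cases y0 : y = 0
  · left
    rw [y0, mul_zero]
  right
  rw [(h.mul x y x0 y0).2.1]
  omega

theorem ge_self (n : ℤ) (x : K) (hn : n ≤ o x) : Ge o n x := Or.inr hn

theorem int_ne (h : Lead K L σ o c) {q : ℤ} (hq : q ≠ 0) : (q : L) ≠ 0 := by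
  have h1 := h.int q hq
  rw [← h1.2.2]
  exact h.ne _ h1.1

theorem cmul (h : Lead K L σ o c) {f y : K} (hf : f ≠ 0) (hy : y ≠ 0) (hc : y * f = f * y) :
    c y * (σ ^ o y) (c f) = c f * (σ ^ o f) (c y) := by
  rw [← (h.mul y f hy hf).2.2, ← (h.mul f y hf hy).2.2, hc]

/-- Elements of the centralizer of the same order are proportional up to elements of larger order. -/
theorem lemA (h : Lead K L σ o c) (hQ : FixQ L σ) {y f g : K} (hy0 : y ≠ 0) (hm : o y ≠ 0)
    (hf0 : f ≠ 0) (hg0 : g ≠ 0) (hf : y * f = f * y) (hg : y * g = g * y) (ho : o f = o g) :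
    ∃ k : K, (∀ x, k * x = x * k) ∧ Ge o (o f + 1) (f - k * g) := by
  have cf := h.ne f hf0
  have cg := h.ne g hg0
  have cy := h.ne y hy0
  have e1 := cmul h hf0 hy0 hf
  have e2 := cmul h hg0 hy0 hg
  rw [← ho] at e2
  have key : (σ ^ o y) (c f / c g) = c f / c g := by
    rw [map_div₀]
    have hg' : (σ ^ o y) (c g) ≠ 0 := by
      intro h0
      rw [h0, mul_zero] at e2
      have h3 : (σ ^ o f) (c y) ≠ 0 := by
        rw [Ne, map_eq_zero]
        exact cy
      exact (mul_ne_zero cg h3) e2.symm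
    rw [div_eq_div_iff hg' cg]
    have : c y * ((σ ^ o y) (c f) * c g) = c y * (c f * (σ ^ o y) (c g)) := by
      calc c y * ((σ ^ o y) (c f) * c g) = (c y * (σ ^ o y) (c f)) * c g := by ring
        _ = (c f * (σ ^ o f) (c y)) * c g := by rw [e1]
        _ = c f * (c g * (σ ^ o f) (c y)) := by ring
        _ = c f * (c y * (σ ^ o y) (c g)) := by rw [e2]
        _ = c y * (c f * (σ ^ o y) (c g)) := by ring
    exact mul_left_cancel₀ cy this
  obtain ⟨p, q, hq, hpq⟩ := hQ _ hm _ key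
  have hpq' : (q : L) * c f = (p : L) * c g := by
    have h5 : (q : L) * (c f / c g) * c g = (p : L) * c g := by rw [hpq]
    rw [mul_assoc, div_mul_cancel₀ _ cg] at h5
    exact h5
  have hqL := int_ne h hq
  have hp : p ≠ 0 := by
    rintro rfl
    rw [Int.cast_zero, zero_mul] at hpq'
    exact (mul_ne_zero hqL cf) hpq'
  have hq1 := h.int q hq
  have hp1 := h.int (-p) (neg_ne_zero.2 hp)
  have m1 := h.mul _ f hq1.1 hf0
  have m2 := h.mul _ g hp1.1 hg0
  rw [hq1.2.1, hq1.2.2, zpow_zero] at m1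
  rw [hp1.2.1, hp1.2.2, zpow_zero] at m2
  have hx : Ge o (o f + 1) ((q : K) * f + ((-p : ℤ) : K) * g) := by
    by_cases h0 : (q : K) * f + ((-p : ℤ) : K) * g = 0
    · exact Or.inl h0
    · right
      have := h.add0 _ _ m1.1 m2.1 (by rw [m1.2.1, m2.2.1, ho]) (by
        rw [m1.2.2, m2.2.2]
        show (q : L) * c f + ((-p : ℤ) : L) * c g = 0
        push_cast
        rw [hpq']
        ring) h0
      rw [m1.2.1] at this
      omega
  have hqi : o ((q : K)⁻¹) = 0 := by
    rw [o_inv h hq1.1, hq1.2.1, neg_zero]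
  refine ⟨(q : K)⁻¹ * (p : K), fun x => ?_, ?_⟩
  · have a1 : (p : K) * x = x * (p : K) := (Int.cast_commute p x)
    have a2 : (q : K)⁻¹ * x = x * (q : K)⁻¹ := ((Int.cast_commute q x).inv_left₀)
    rw [mul_assoc, a1, ← mul_assoc, a2, mul_assoc]
  · have e : f - (q : K)⁻¹ * (p : K) * g =
        (q : K)⁻¹ * ((q : K) * f + ((-p : ℤ) : K) * g) := by
      rw [mul_add, ← mul_assoc, inv_mul_cancel₀ hq1.1, one_mul]
      push_cast
      rw [neg_mul, mul_neg, sub_eq_add_neg, mul_assoc]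
    rw [e]
    have := ge_mul h (Or.inr (le_of_eq hqi.symm) : Ge o 0 (q : K)⁻¹) hx
    rw [zero_add] at this
    exact this

theorem comm3 (h : Lead K L σ o c) (hQ : FixQ L σ) {y : K} (hy0 : y ≠ 0) (hm : o y ≠ 0) {f g : K}
    (hf : y * f = f * y) (hg : y * g = g * y) : f * g = g * f := by
  classical
  -- an element of smallest positive order
  have hex : ∃ n : ℕ, 0 < n ∧ ∃ w : K, w ≠ 0 ∧ y * w = w * y ∧ o w = n := by
    rcases lt_or_gt_of_ne hm with hlt | hgt
    · refine ⟨(-o y).toNat, by omega, y⁻¹, inv_ne_zero hy0, ?_, ?_⟩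
      · rw [mul_inv_cancel₀ hy0, inv_mul_cancel₀ hy0]
      · rw [o_inv h hy0]
        omega
    · exact ⟨(o y).toNat, by omega, y, hy0, rfl, by omega⟩
  obtain ⟨e, he⟩ : ∃ e, Nat.find hex = e := ⟨_, rfl⟩
  obtain ⟨he0, w, w0, hyw, how⟩ := he ▸ Nat.find_spec hex
  have hmin : ∀ n : ℕ, 0 < n → n < e → ¬ ∃ w : K, w ≠ 0 ∧ y * w = w * y ∧ o w = n := by
    intro n hn hne hw
    exact Nat.find_min hex (he ▸ hne) ⟨hn, hw⟩
  have hzw : ∀ j : ℤ, y * w ^ j = w ^ j * y := fun j => ((show Commute y w from hyw).zpow_right₀ j)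
  -- orders are multiples of `e`
  have hmul : ∀ x : K, x ≠ 0 → y * x = x * y → o x = (o x / e) * e := by
    intro x hx hyx
    have hr := Int.emod_nonneg (o x) (by exact_mod_cast he0.ne' : (e : ℤ) ≠ 0)
    have hr2 := Int.emod_lt_of_pos (o x) (by exact_mod_cast he0 : (0 : ℤ) < e)
    have hd := Int.emod_add_mul_ediv (o x) e
    by_contra hne
    have hpos : 0 < (o x % e).toNat := by
      rcases eq_or_lt_of_le hr with h0 | h0
      · exfalso
        apply hne
        rw [← h0, zero_add] at hd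
        rw [mul_comm]
        exact hd.symm
      · omega
    refine hmin (o x % e).toNat hpos (by omega) ⟨x * w ^ (-(o x / e)), ?_, ?_, ?_⟩
    · exact mul_ne_zero hx (zpow_ne_zero _ w0)
    · rw [← mul_assoc, hyx, mul_assoc, hzw, mul_assoc]
    · rw [(h.mul x _ hx (zpow_ne_zero _ w0)).2.1, o_zpow h w0, how]
      have : (((o x % e).toNat : ℕ) : ℤ) = o x % e := Int.toNat_of_nonneg hr
      rw [this]
      have hd' : (e : ℤ) * (o x / e) = (o x / e) * e := mul_comm _ _
      rw [hd'] at hd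
      rw [neg_mul]
      omega
  -- the double centralizer of `w`
  let Pw : K → Prop := fun p => ∀ t, t * w = w * t → p * t = t * p
  have Pw0 : Pw 0 := fun t _ => by rw [zero_mul, mul_zero]
  have Pwadd : ∀ p q, Pw p → Pw q → Pw (p + q) := fun p q hp hq t ht => by
    rw [add_mul, mul_add, hp t ht, hq t ht]
  have Pww : ∀ (k : K) (j : ℤ), (∀ x, k * x = x * k) → Pw (k * w ^ j) := fun k j hk t ht => by
    have : w ^ j * t = t * w ^ j := ((show Commute t w from ht).zpow_right₀ j).symm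
    rw [mul_assoc, this, ← mul_assoc, hk t, mul_assoc]
  have Pwy : ∀ p, Pw p → y * p = p * y := fun p hp => (hp y hyw).symm
  have Pwc : ∀ p q, Pw p → Pw q → p * q = q * p := fun p q hp hq => hp q (hq w rfl)
  have approx : ∀ (x : K), y * x = x * y → ∀ n : ℕ, ∃ p, Pw p ∧ Ge o (o x + n) (x - p) := by
    intro x hx n
    induction n with
    | zero =>
      refine ⟨0, Pw0, ?_⟩
      rw [sub_zero]
      right
      push_cast
      omega
    | succ n ih =>
      obtain ⟨p, hp, hge⟩ := ih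
      by_cases h0 : x - p = 0
      · exact ⟨p, hp, Or.inl h0⟩
      · have hge' : o x + n ≤ o (x - p) := by
          rcases hge with hge | hge
          · exact absurd hge h0
          · exact hge
        have hxp : y * (x - p) = (x - p) * y := by
          rw [mul_sub, sub_mul, hx, Pwy p hp]
        obtain ⟨k, hk, hk2⟩ := lemA h hQ hy0 hm h0 (zpow_ne_zero (o (x - p) / e) w0) hxp (hzw _)
          (by rw [o_zpow h w0, how]; exact hmul _ h0 hxp)
        refine ⟨p + k * w ^ (o (x - p) / e), Pwadd _ _ hp (Pww k _ hk), ?_⟩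
        have e1 : x - (p + k * w ^ (o (x - p) / e)) = x - p - k * w ^ (o (x - p) / e) := by
          rw [sub_sub]
        rw [e1]
        rcases hk2 with hk2 | hk2
        · exact Or.inl hk2
        · right
          push_cast
          omega
  by_contra hne
  have hN0 : f * g - g * f ≠ 0 := sub_ne_zero.2 hne
  obtain ⟨n, hn⟩ : ∃ n : ℕ, o (f * g - g * f) < o f + o g + n :=
    ⟨(o (f * g - g * f) - o f - o g).toNat + 1, by push_cast; omega⟩
  obtain ⟨p, hp, hp2⟩ := approx f hf n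
  obtain ⟨p', hp', hp'2⟩ := approx g hg n
  have gf : Ge o (o f) f := ge_self _ _ le_rfl
  have gg : Ge o (o g) g := ge_self _ _ le_rfl
  have gp : Ge o (o f) p := by
    have e1 : p = f - (f - p) := by abel
    rw [e1]
    refine ge_sub h gf ?_
    rcases hp2 with hp2 | hp2
    · exact Or.inl hp2
    · right
      omega
  have A1 : Ge o (o f + o g + n) ((f - p) * g) := by
    have := ge_mul h hp2 gg
    have e1 : o f + o g + n = o f + n + o g := by ring
    rw [e1]
    exact this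
  have A2 : Ge o (o f + o g + n) (g * (f - p)) := by
    have := ge_mul h gg hp2
    have e1 : o f + o g + n = o g + (o f + n) := by ring
    rw [e1]
    exact this
  have A3 : Ge o (o f + o g + n) (p * (g - p')) := by
    have := ge_mul h gp hp'2
    have e1 : o f + o g + n = o f + (o g + n) := by ring
    rw [e1]
    exact this
  have A4 : Ge o (o f + o g + n) ((g - p') * p) := by
    have := ge_mul h hp'2 gp
    have e1 : o f + o g + n = o g + n + o f := by ring
    rw [e1]
    exact this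
  have e : f * g - g * f = ((f - p) * g - g * (f - p)) + (p * (g - p') - (g - p') * p) := by
    have hc := Pwc p p' hp hp'
    calc f * g - g * f = ((f - p) * g - g * (f - p)) + (p * (g - p') - (g - p') * p)
          + (p * p' - p' * p) := by noncomm_ring
      _ = _ := by rw [hc, sub_self, add_zero]
  have := ge_add h (ge_sub h A1 A2) (ge_sub h A3 A4)
  rw [← e] at this
  rcases this with this | this
  · exact hN0 this
  · omega

end Pool.Agent.Lib.MP_39893a_lc.OV.CTAM

namespace Pool.Agent.Lib.MP_39893a_lc.OV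

open CTAM

theorem specCTA : SpecCTA := by
  intro K _ L _ σ o c h hQ x y z hxy hyz hh
  obtain ⟨t, ht⟩ := hh
  have y0 : y ≠ 0 := by
    rintro rfl
    exact ht (by rw [zero_mul, mul_zero])
  by_cases hm : o y = 0
  · by_cases hr : ∃ p q : ℤ, q ≠ 0 ∧ (q : L) * c y = (p : L)
    · obtain ⟨p, q, hq, hpq⟩ := hr
      have hqL := int_ne h hq
      have hp : p ≠ 0 := by
        rintro rfl
        rw [Int.cast_zero] at hpq
        exact (mul_ne_zero hqL (h.ne y y0)) hpq
      have hq1 := h.int q hq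
      have hp1 := h.int (-p) (neg_ne_zero.2 hp)
      have m1 := h.mul _ y hq1.1 y0
      rw [hq1.2.1, hq1.2.2, zpow_zero] at m1
      have cq : ∀ s : K, (q : K) * s = s * (q : K) := fun s => (Int.cast_commute q s)
      have cp : ∀ s : K, ((-p : ℤ) : K) * s = s * ((-p : ℤ) : K) :=
        fun s => (Int.cast_commute (-p) s)
      have hcomm : ∀ s : K, y * s = s * y →
          ((q : K) * y + ((-p : ℤ) : K)) * s = s * ((q : K) * y + ((-p : ℤ) : K)) := by
        intro s hs
        rw [add_mul, mul_add, cp s, mul_assoc, hs, ← mul_assoc, cq s, mul_assoc]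
      have h0 : (q : K) * y + ((-p : ℤ) : K) ≠ 0 := by
        intro h0
        apply ht
        have h3 : (q : K) * (y * t) = (q : K) * (t * y) := by
          have h4 : (q : K) * y = -((-p : ℤ) : K) := eq_neg_of_add_eq_zero_left h0
          rw [← mul_assoc, h4, ← mul_assoc, cq t, mul_assoc, h4, neg_mul, mul_neg, cp t]
        exact mul_left_cancel₀ hq1.1 h3
      have hpos := h.add0 _ _ m1.1 hp1.1 (by rw [m1.2.1, hp1.2.1, hm, add_zero]) (by
        rw [m1.2.2, hp1.2.2]
        show (q : L) * c y + ((-p : ℤ) : L) = 0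
        push_cast
        rw [hpq]
        ring) h0
      rw [m1.2.1, hm, add_zero] at hpos
      exact comm3 h hQ h0 (by omega) (hcomm x hxy.symm) (hcomm z hyz)
    · -- all nonzero elements of the centralizer have order `0`
      have hz : ∀ s : K, s ≠ 0 → y * s = s * y → o s = 0 := by
        intro s hs hys
        by_contra hne
        have e1 := cmul h hs y0 hys
        rw [hm, zpow_zero] at e1
        have e2 : (σ ^ o s) (c y) = c y := by
          have : c s * (σ ^ o s) (c y) = c s * c y := by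
            rw [← e1, mul_comm (c s) (c y)]
            rfl
          exact mul_left_cancel₀ (h.ne s hs) this
        exact hr (hQ _ hne _ e2)
      by_cases x0 : x = 0
      · rw [x0, zero_mul, mul_zero]
      by_cases z0 : z = 0
      · rw [z0, zero_mul, mul_zero]
      by_contra hne
      have h0 : x * z + -(z * x) ≠ 0 := by
        rw [← sub_eq_add_neg]
        exact sub_ne_zero.2 hne
      have hcm : y * (x * z + -(z * x)) = (x * z + -(z * x)) * y := by
        rw [mul_add, add_mul, mul_neg, neg_mul]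
        have a1 : y * (x * z) = x * z * y := by
          rw [← mul_assoc, ← hxy, mul_assoc, hyz, mul_assoc]
        have a2 : y * (z * x) = z * x * y := by
          rw [← mul_assoc, hyz, mul_assoc, ← hxy, mul_assoc]
        rw [a1, a2]
      have ox := hz x x0 hxy.symm
      have oz := hz z z0 hyz
      have m1 := h.mul x z x0 z0
      have m2 := h.mul z x z0 x0
      rw [ox, zpow_zero] at m1
      rw [oz, zpow_zero] at m2
      have hpos := h.add0 (x * z) (-(z * x)) m1.1 (neg_ne_zero.2 m2.1)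
        (by rw [o_neg h m2.1, m1.2.1, m2.2.1, ox, oz]) (by
          rw [c_neg h m2.1, m1.2.2, m2.2.2]
          show c x * c z + -(c z * c x) = 0
          ring) h0
      rw [m1.2.1, oz, hz _ h0 hcm] at hpos
      omega
  · exact comm3 h hQ y0 hm hxy.symm hyz

end Pool.Agent.Lib.MP_39893a_lc.OV
end

section
/-!
# DERSI: soundness of derivations over a skew field (MP_39893a_lc, hive OV)
-/
set_option autoImplicit false

namespace Pool.Agent.Lib.MP_39893a_lc.OV.DERSIM

open Finset ORD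

theorem DtoF_of (g : Mo) : DtoF (MonoidAlgebra.of ℤ Mo g) = toF g := by
  unfold DtoF
  exact MonoidAlgebra.lift_of _ _

/-- The value of a constant. -/
theorem ev_DtoF {K : Type} [DivisionRing K] (ι : D →+* K) (ξ : Var → K)
    (hT : ∀ g, ev ((ι : D →* K).comp toD) ξ (toF g) = ((ι : D →* K).comp toD) g) (x : D) :
    ev ((ι : D →* K).comp toD) ξ (DtoF x) = ι x := by
  have h : ((ev ((ι : D →* K).comp toD) ξ).comp DtoF) = ι := by
    refine MonoidAlgebra.ringHom_ext (fun r => ?_) (fun g => ?_)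
    · have e : (MonoidAlgebra.single (1 : Mo) r : D) = (r : D) := by
        rw [MonoidAlgebra.intCast_def]
        simp
      rw [e, map_intCast, map_intCast]
    · have e : (MonoidAlgebra.single g (1 : ℤ) : D) = MonoidAlgebra.of ℤ Mo g := rfl
      rw [e, RingHom.comp_apply, DtoF_of, hT]
      rfl
  exact RingHom.congr_fun h x

theorem br_zero {R : Type} [Ring R] {x y : R} : br x y = 0 ↔ x * y = y * x := sub_eq_zero

theorem map_br {R S : Type} [Ring R] [Ring S] (f : R →+* S) (x y : R) :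
    f (br x y) = br (f x) (f y) := by
  unfold br
  rw [map_sub, map_mul, map_mul]

/-- An element with an invertible commutator is not central. -/
theorem ncen {K : Type} [DivisionRing K] {s h e : K} (H : br s h * e = 1) : s * h ≠ h * s := by
  intro h0
  rw [br_zero.2 h0, zero_mul] at H
  exact zero_ne_one H

/-- Soundness of derivations. -/
theorem specDERSI (_hV : SpecVAL) (hE : SpecEVL) : SpecDERSI := by
  intro K _ ι hι hK N H ξ hinv hH p hp
  have hc : ∀ x : D, ev ((ι : D →* K).comp toD) ξ (DtoF x) = ι x :=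
    ev_DtoF ι ξ (hE.1 K _ ξ).1
  have hx : ∀ v, ev ((ι : D →* K).comp toD) ξ (xv v) = ξ v := (hE.1 K _ ξ).2.1
  induction hp with
  | hyp p hp =>
      rcases hp with hp | hp
      · exact hH p hp
      · obtain ⟨c, hc1, hc2, hp⟩ := hp
        obtain ⟨x, hx1⟩ := _hV.2.2.2.2.2.2.1 c hc1
        have hx0 : x ≠ 0 := by
          rintro rfl
          exact hc2 ((_hV.2.1 c).2 (by rw [hx1, map_zero]))
        have hx2 : ι x ≠ 0 := fun h => hx0 (hι (by rw [h, map_zero]))
        have h1 := hinv c x hc1 hx1 hx0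
        rcases hp with rfl | rfl
        · rw [map_sub, map_mul, map_one, hx, h1, hx1, hc, mul_inv_cancel₀ hx2, sub_self]
        · rw [map_sub, map_mul, map_one, hx, h1, hx1, hc, inv_mul_cancel₀ hx2, sub_self]
  | comb n u p v h ih =>
      rw [map_sum]
      refine Finset.sum_eq_zero fun i _ => ?_
      rw [map_mul, map_mul, ih i, mul_zero, zero_mul]
  | ct p q s₁ s₂ h₁ h₂ e₁ e₂ _ _ _ _ _ i1 i2 i3 i4 i5 =>
      rw [map_br] at i1 i2 i3 ⊢
      rw [map_sub, map_mul, map_br, map_one, sub_eq_zero] at i4 i5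
      have n1 := ncen i4
      have n2 := ncen i5
      have c1 := br_zero.1 i1
      have c2 := br_zero.1 i2
      have c3 := br_zero.1 i3
      -- `p` and `s₁` commute with `s₂`
      have c4 := hK _ _ _ c1 c2.symm ⟨_, n2⟩
      -- `p` and `q` commute with `s₁`
      exact br_zero.2 (hK _ _ _ c4 c3 ⟨_, n1⟩)
  | cen p q h₁ h₂ e _ _ _ i1 i2 i3 =>
      rw [map_br] at i1 i2 ⊢
      rw [map_sub, map_mul, map_br, map_one, sub_eq_zero] at i3
      have n3 := ncen i3
      have c1 := br_zero.1 i1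
      have c2 := br_zero.1 i2
      by_contra hne
      have n : ∃ h, ev ((ι : D →* K).comp toD) ξ p * h ≠ h * ev ((ι : D →* K).comp toD) ξ p :=
        ⟨_, fun h => hne (br_zero.2 h)⟩
      exact n3 (hK _ _ _ c1.symm c2 n)

end Pool.Agent.Lib.MP_39893a_lc.OV.DERSIM
end

section
/-! # Module LCK (MP_39893a_lc, hive OV): order and leading coefficient on left fractions -/
set_option autoImplicit false

namespace Pool.Agent.Lib.MP_39893a_lc.OV.LCKM

open ORD

section

variable {A K L : Type} [Ring A] [DivisionRing K] [Field L] (ι : A →+* K) (σ : RingAut L)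
  (o : A → ℤ) (c : A → L)

theorem pow_app (m n : ℤ) (x : L) : (σ ^ m) ((σ ^ n) x) = (σ ^ (m + n)) x := by
  rw [zpow_add]; rfl

theorem zero_app (x : L) : (σ ^ (0 : ℤ)) x = x := by
  rw [zpow_zero]; rfl

/-- A representation of `k` with order `n` and leading coefficient `x`. -/
def V (k : K) (n : ℤ) (x : L) : Prop :=
  ∃ d a : A, d ≠ 0 ∧ ι d * k = ι a ∧ n = o a - o d ∧ x = (σ ^ (-(o d))) (c a / c d)

theorem num_ne (hi : Function.Injective ι) {k : K} (hk : k ≠ 0) {d a : A} (hd : d ≠ 0)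
    (h : ι d * k = ι a) : a ≠ 0 := by
  rintro rfl
  rw [map_zero, mul_eq_zero] at h
  rcases h with h | h
  · exact hd (hi (by rw [h, map_zero]))
  · exact hk h

theorem common (hi : Function.Injective ι)
    (hO : ∀ F δ : A, δ ≠ 0 → ∃ ε : A, ε ≠ 0 ∧ ∃ F' : A, ε * F = F' * δ)
    (hM : ∀ a b : A, a ≠ 0 → b ≠ 0 → a * b ≠ 0)
    {k k₁ : K} {d a d₁ a₁ : A} (hd : d ≠ 0) (hd₁ : d₁ ≠ 0) (h : ι d * k = ι a)
    (h₁ : ι d₁ * k₁ = ι a₁) :
    ∃ e e₁ : A, e ≠ 0 ∧ e₁ ≠ 0 ∧ e * d = e₁ * d₁ ∧ ι (e * d) * k = ι (e * a) ∧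
      ι (e * d) * k₁ = ι (e₁ * a₁) := by
  obtain ⟨e, he, e₁, h2⟩ := hO d d₁ hd₁
  have he₁ : e₁ ≠ 0 := by
    rintro rfl
    exact hM e d he hd (by rw [h2, zero_mul])
  refine ⟨e, e₁, he, he₁, h2, ?_, ?_⟩
  · rw [map_mul, mul_assoc, h, ← map_mul]
  · rw [h2, map_mul, mul_assoc, h₁, ← map_mul]

theorem indep (hL : Lead A L σ o c) (hi : Function.Injective ι)
    (hO : ∀ F δ : A, δ ≠ 0 → ∃ ε : A, ε ≠ 0 ∧ ∃ F' : A, ε * F = F' * δ)
    {k : K} (hk : k ≠ 0) {n n₁ : ℤ} {x x₁ : L} (h : V ι σ o c k n x) (h₁ : V ι σ o c k n₁ x₁) :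
    n = n₁ ∧ x = x₁ := by
  obtain ⟨d, a, hd, hda, rfl, rfl⟩ := h
  obtain ⟨d₁, a₁, hd₁, hda₁, rfl, rfl⟩ := h₁
  have ha := num_ne ι hi hk hd hda
  have ha₁ := num_ne ι hi hk hd₁ hda₁
  obtain ⟨e, e₁, he, he₁, h2, h3, h4⟩ :=
    common ι hi hO (fun a b ha hb => (hL.mul a b ha hb).1) hd hd₁ hda hda₁
  have h5 : e * a = e₁ * a₁ := hi (by rw [← h3, h4])
  obtain ⟨-, o1, c1⟩ := hL.mul e d he hd
  obtain ⟨-, o2, c2⟩ := hL.mul e₁ d₁ he₁ hd₁
  obtain ⟨-, o3, c3⟩ := hL.mul e a he ha
  obtain ⟨-, o4, c4⟩ := hL.mul e₁ a₁ he₁ ha₁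
  rw [h2] at o1 c1
  rw [h5] at o3 c3
  have o5 : o e + o d = o e₁ + o d₁ := by rw [← o1, ← o2]
  have o6 : o e + o a = o e₁ + o a₁ := by rw [← o3, ← o4]
  refine ⟨by omega, ?_⟩
  have ce := hL.ne e he
  have ce₁ := hL.ne e₁ he₁
  have c5 : c e * (σ ^ o e) (c d) = c e₁ * (σ ^ o e₁) (c d₁) := by rw [← c1, ← c2]
  have c6 : c e * (σ ^ o e) (c a) = c e₁ * (σ ^ o e₁) (c a₁) := by rw [← c3, ← c4]
  have c7 : (σ ^ o e) (c a / c d) = (σ ^ o e₁) (c a₁ / c d₁) := by
    rw [map_div₀, map_div₀, ← mul_div_mul_left _ _ ce, c5, c6, mul_div_mul_left _ _ ce₁]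
  have c8 := congrArg (σ ^ (-(o e + o d))) c7
  rw [pow_app, pow_app] at c8
  rw [show -(o e + o d) + o e = -(o d) by ring,
    show -(o e + o d) + o e₁ = -(o d₁) by rw [o5]; ring] at c8
  exact c8

theorem main (hF : Function.Injective ι) (hF' : ∀ k : K, ∃ d : A, d ≠ 0 ∧ ∃ a : A, ι d * k = ι a)
    (hO : ∀ F δ : A, δ ≠ 0 → ∃ ε : A, ε ≠ 0 ∧ ∃ F' : A, ε * F = F' * δ)
    (hL : Lead A L σ o c) : ∃ (o' : K → ℤ) (c' : K → L), Lead K L σ o' c' := by
  choose D hD N hN using hF'
  set o' : K → ℤ := fun k => o (N k) - o (D k) with ho'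
  set c' : K → L := fun k => (σ ^ (-(o (D k)))) (c (N k) / c (D k)) with hc'
  have hV : ∀ k, V ι σ o c k (o' k) (c' k) := fun k => ⟨D k, N k, hD k, hN k, rfl, rfl⟩
  have key : ∀ {k : K}, k ≠ 0 → ∀ {d a : A}, d ≠ 0 → ι d * k = ι a →
      o' k = o a - o d ∧ c' k = (σ ^ (-(o d))) (c a / c d) := by
    intro k hk d a hd h
    exact indep ι σ o c hL hF hO hk (hV k) ⟨d, a, hd, h, rfl, rfl⟩
  have hM : ∀ a b : A, a ≠ 0 → b ≠ 0 → a * b ≠ 0 := fun a b ha hb => (hL.mul a b ha hb).1
  -- common denominators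
  have two : ∀ {k k₁ : K}, k ≠ 0 → k₁ ≠ 0 → ∃ δ α α₁ : A, δ ≠ 0 ∧ α ≠ 0 ∧ α₁ ≠ 0 ∧
      ι δ * k = ι α ∧ ι δ * k₁ = ι α₁ ∧ o' k = o α - o δ ∧ o' k₁ = o α₁ - o δ ∧
      c' k = (σ ^ (-(o δ))) (c α / c δ) ∧ c' k₁ = (σ ^ (-(o δ))) (c α₁ / c δ) := by
    intro k k₁ hk hk₁
    obtain ⟨e, e₁, he, he₁, h2, h3, h4⟩ := common ι hF hO hM (hD k) (hD k₁) (hN k) (hN k₁)
    have hδ := hM e (D k) he (hD k)
    have p := key hk hδ h3
    have p₁ := key hk₁ hδ h4
    exact ⟨e * D k, e * N k, e₁ * N k₁, hδ, num_ne ι hF hk hδ h3, num_ne ι hF hk₁ hδ h4, h3, h4,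
      p.1, p₁.1, p.2, p₁.2⟩
  have sum_ne : ∀ {k k₁ : K} {δ α α₁ : A}, ι δ * k = ι α → ι δ * k₁ = ι α₁ → α + α₁ ≠ 0 →
      k + k₁ ≠ 0 := by
    intro k k₁ δ α α₁ h h₁ hs h0
    apply hs
    apply hF
    rw [map_add, ← h, ← h₁, ← mul_add, h0, mul_zero, map_zero]
  have sum_eq : ∀ {k k₁ : K} {δ α α₁ : A}, ι δ * k = ι α → ι δ * k₁ = ι α₁ →
      ι δ * (k + k₁) = ι (α + α₁) := by
    intro k k₁ δ α α₁ h h₁
    rw [mul_add, h, h₁, map_add]
  refine ⟨o', c', ?_, ?_, ?_, ?_, ?_, ?_⟩
  · intro k hk h0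
    have hn := num_ne ι hF hk (hD k) (hN k)
    have h1 : c (N k) / c (D k) = 0 := by
      have h2 : (σ ^ (-(o (D k)))) (c (N k) / c (D k)) = 0 := h0
      exact (map_eq_zero_iff _ (RingEquiv.injective _)).1 h2
    rcases div_eq_zero_iff.1 h1 with h2 | h2
    · exact hL.ne _ hn h2
    · exact hL.ne _ (hD k) h2
  · intro k k₁ hk hk₁
    have ha := num_ne ι hF hk (hD k) (hN k)
    have ha₁ := num_ne ι hF hk₁ (hD k₁) (hN k₁)
    obtain ⟨e, he, b, h2⟩ := hO (N k) (D k₁) (hD k₁)
    have hb : b ≠ 0 := by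
      rintro rfl
      exact hM e (N k) he ha (by rw [h2, zero_mul])
    have h3 : ι (e * D k) * (k * k₁) = ι (b * N k₁) := by
      rw [map_mul, mul_assoc, ← mul_assoc (ι (D k)), hN k, ← mul_assoc, ← map_mul, h2, map_mul,
        mul_assoc, hN k₁, ← map_mul]
    have hkk : k * k₁ ≠ 0 := mul_ne_zero hk hk₁
    obtain ⟨p1, p2⟩ := key hkk (hM e (D k) he (hD k)) h3
    obtain ⟨-, o1, c1⟩ := hL.mul e (D k) he (hD k)
    obtain ⟨-, o2, c2⟩ := hL.mul b (N k₁) hb ha₁
    obtain ⟨-, o3, c3⟩ := hL.mul e (N k) he ha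
    obtain ⟨-, o4, c4⟩ := hL.mul b (D k₁) hb (hD k₁)
    rw [h2] at o3 c3
    have o5 : o e + o (N k) = o b + o (D k₁) := by rw [← o3, ← o4]
    have c5 : c e * (σ ^ o e) (c (N k)) = c b * (σ ^ o b) (c (D k₁)) := by rw [← c3, ← c4]
    refine ⟨hkk, ?_, ?_⟩
    · rw [p1, o1, o2]
      show _ = o (N k) - o (D k) + (o (N k₁) - o (D k₁))
      omega
    · rw [p2, o1, c1, c2]
      have ce := hL.ne e he
      have cb := hL.ne b hb
      have cd₁ : (σ ^ o b) (c (D k₁)) ≠ 0 := by
        rw [Ne, map_eq_zero_iff _ (RingEquiv.injective _)]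
        exact hL.ne _ (hD k₁)
      have cd : (σ ^ o e) (c (D k)) ≠ 0 := by
        rw [Ne, map_eq_zero_iff _ (RingEquiv.injective _)]
        exact hL.ne _ (hD k)
      have c6 : c b * (σ ^ o b) (c (N k₁)) / (c e * (σ ^ o e) (c (D k))) =
          (σ ^ o e) (c (N k) / c (D k)) * (σ ^ o b) (c (N k₁) / c (D k₁)) := by
        rw [map_div₀, map_div₀, div_mul_div_comm, div_eq_div_iff (mul_ne_zero ce cd)
          (mul_ne_zero cd cd₁)]
        linear_combination (-(σ ^ o b) (c (N k₁)) * (σ ^ o e) (c (D k))) * c5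
      rw [c6, map_mul, pow_app, pow_app]
      show _ = (σ ^ (-(o (D k)))) (c (N k) / c (D k)) *
        (σ ^ (o (N k) - o (D k))) ((σ ^ (-(o (D k₁)))) (c (N k₁) / c (D k₁)))
      rw [pow_app, show -(o e + o (D k)) + o e = -(o (D k)) by ring,
        show -(o e + o (D k)) + o b = o (N k) - o (D k) + -(o (D k₁)) by omega]
  · intro k k₁ hk hk₁ hoo hcc
    obtain ⟨δ, α, α₁, hδ, hα, hα₁, h, h₁, q1, q2, q3, q4⟩ := two hk hk₁
    have e1 : o α = o α₁ := by rw [q1, q2] at hoo; omega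
    have e2 : c α + c α₁ ≠ 0 := by
      intro h0
      apply hcc
      rw [q3, q4, ← map_add, ← add_div, h0, zero_div, map_zero]
    obtain ⟨s1, s2, s3⟩ := hL.add α α₁ hα hα₁ e1 e2
    have hs := sum_ne h h₁ s1
    obtain ⟨p1, p2⟩ := key hs hδ (sum_eq h h₁)
    refine ⟨hs, by rw [p1, s2, q1], ?_⟩
    rw [p2, s3, q3, q4, add_div, map_add]
  · intro k k₁ hk hk₁ hoo hcc hs
    obtain ⟨δ, α, α₁, hδ, hα, hα₁, h, h₁, q1, q2, q3, q4⟩ := two hk hk₁
    have e1 : o α = o α₁ := by rw [q1, q2] at hoo; omega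
    have e2 : c α + c α₁ = 0 := by
      rw [q3, q4, ← map_add, map_eq_zero_iff _ (RingEquiv.injective _), ← add_div,
        div_eq_zero_iff] at hcc
      rcases hcc with h0 | h0
      · exact h0
      · exact absurd h0 (hL.ne _ hδ)
    have hα2 : α + α₁ ≠ 0 := by
      intro h0
      have h9 := sum_eq h h₁
      rw [h0, map_zero, mul_eq_zero] at h9
      rcases h9 with h9 | h9
      · exact hδ (hF (by rw [h9, map_zero]))
      · exact hs h9
    have s := hL.add0 α α₁ hα hα₁ e1 e2 hα2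
    obtain ⟨p1, p2⟩ := key hs hδ (sum_eq h h₁)
    rw [p1, q1]
    omega
  · intro k k₁ hk hk₁ hoo
    obtain ⟨δ, α, α₁, hδ, hα, hα₁, h, h₁, q1, q2, q3, q4⟩ := two hk hk₁
    have e1 : o α < o α₁ := by rw [q1, q2] at hoo; omega
    obtain ⟨s1, s2, s3⟩ := hL.addlt α α₁ hα hα₁ e1
    have hs := sum_ne h h₁ s1
    obtain ⟨p1, p2⟩ := key hs hδ (sum_eq h h₁)
    refine ⟨hs, by rw [p1, s2, q1], ?_⟩
    rw [p2, s3, q3]
  · intro n hn
    obtain ⟨i1, i2, i3⟩ := hL.int n hn
    obtain ⟨j1, j2, j3⟩ := hL.int 1 one_ne_zero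
    rw [Int.cast_one] at j1 j2 j3
    have hn0 : (n : K) ≠ 0 := by
      intro h0
      apply i1
      apply hF
      rw [map_intCast, h0, map_zero]
    have h1 : ι 1 * (n : K) = ι (n : A) := by rw [map_one, one_mul, map_intCast]
    obtain ⟨p1, p2⟩ := key hn0 j1 h1
    refine ⟨hn0, by rw [p1, i2, j2]; rfl, ?_⟩
    rw [p2, i3, j3, j2, neg_zero, zero_app, Int.cast_one, div_one]

end

theorem specLCK (h : ORD.SpecOREC) : SpecLCK := by
  intro K _ ι hι L _ σ o c hL
  refine main ι σ o c hι.1 hι.2 ?_ hL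
  intro F δ hδ
  obtain ⟨⟨ε, hε, F', hF'⟩, -⟩ := h 1 (fun _ => F) δ hδ
  exact ⟨ε, hε, F' 0, hF' 0⟩

end Pool.Agent.Lib.MP_39893a_lc.OV.LCKM
end
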