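import Pool.Agent.Lib.MP_39893a_lc.OV.Defs

/-!
# Module statements (MP_39893a_lc, hive OV)

Paper proof: /team-store/MP_39893a_OV_h53.md. The module XXX.lean (in this directory) proves
`theorem specXXX (h..) : SpecXXX`, with the other Specs it uses as hypotheses, in the namespace
`Pool.Agent.Lib.MP_39893a_lc.OV.XXXM`. Specs of the hive ORD (`ORD.SpecVAL`, ..) may also be taken as
hypotheses; files of `ORD/` may be imported and copied.
-/

set_option autoImplicit false

namespace Pool.Agent.Lib.MP_39893a_lc.OV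

open Finset ORD AGL

/-! ## A. The skew field of fractions of `D` -/

/-- KFR. From `ORD.SpecNZD`, `ORD.SpecOREC`. `K = OreLocalization (nonZeroDivisors D) D` (left
fractions), a `DivisionRing`; the Ore set instance from the first part of OREC (`n = 1`). Left
denominators of finite families: induction on `n` with common left multiples (`ε δ' = F' δ`, OREC).
Right denominators: `k = (ι d)⁻¹ ι a`, right Ore (second part of OREC with `δ = d`, `F = a`):
`a ε = d F'`, so `k ι ε = ι F'`; finite families by induction (common right multiples).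
Last item: `OreLocalization.universalHom`. -/
def SpecKFR : Prop :=
  ∃ (K : Type) (_ : DivisionRing K) (ι : D →+* K), LFrac ι ∧
    (∀ (n : ℕ) (k : Fin n → K), ∃ d : D, d ≠ 0 ∧ ∀ i, ∃ a : D, ι d * k i = ι a) ∧
    (∀ (n : ℕ) (k : Fin n → K), ∃ d : D, d ≠ 0 ∧ ∀ i, ∃ a : D, k i * ι d = ι a) ∧
    ∀ (S : Type) [Ring S] (f : D →+* S), (∀ d, d ≠ 0 → IsUnit (f d)) →
      ∃ κ : K →+* S, ∀ d, κ (ι d) = f d

/-- LFX. `L` = fraction field of `C = AddMonoidAlgebra ℤ (ℤ × ℤ)`, `X v` = monomials, `σ` induced by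
`v ↦ A v = twist 1 v` (invertible over `ℤ`: `A⁻¹ (a, b) = (a - b, 2 b - a)`). FixQ: let
`φ(a, b) = a + θ b`, `θ = -(1+√5)/2`, injective on `ℤ²`, `φ(A v) = μ φ(v)`, `μ = (3-√5)/2`, `0 < μ < 1`
(see ORD/NZD.lean). For `p ≠ 0` in `C` let `m(p) = min φ(supp p)`; `m(p q) = m(p) + m(q)` and the
coefficients at the minimal exponents multiply; `m(σ p) = μ m(p)`. Let `σⁿ x = x`, `n ≠ 0`, `x = p/q ≠ 0`:
`σⁿ(p) q = p σⁿ(q)` gives `μⁿ m(p) + m(q) = m(p) + μⁿ m(q)`, so `m(p) = m(q)` (`μⁿ ≠ 1`), and the minimal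
exponents are equal (`φ` injective), with coefficients `a`, `b ≠ 0`. `x' = x - a/b = (b p - a q)/(b q)` is
fixed too; if it were not `0`, also `m(b p - a q) = m(b q) = m(q)`, but `b p - a q` has only exponents
with larger `φ`. So `b x = a`. -/
def SpecLFX : Prop :=
  ∃ (L : Type) (_ : Field L) (σ : RingAut L) (X : ℤ × ℤ → L),
    X 0 = 1 ∧ (∀ v w, X (v + w) = X v * X w) ∧ (∀ v, σ (X v) = X (twist 1 v)) ∧
    (∀ f : (ℤ × ℤ) →₀ ℤ, (f.sum fun v n => (n : L) * X v) = 0 → f = 0) ∧ FixQ L σ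

/-- LCD. `o a` = minimal `n` of the elements `(v, n)` of the support of `a`, `c a` = sum of
`a(v, n) X v` over the elements with `n = o a`. `(v, n)(w, m) = (v + Aⁿ w, n + m)` and
`σⁿ (X w) = X (Aⁿ w)` (`twist`). The element with the sum `c a · σ^(o a) (c b) ≠ 0` shows
`o (a b) = o a + o b`: the slice number `n` of a product is the sum over `i + j = n` of (slice `i`) ·
`σ^i` (slice `j`); define `sl n : D →+ L`, `sl n a = ∑_{(v,n)} a(v,n) X v`, and prove this formula for
monomials. `sl n a = 0` iff there is no element `(v, n)` in the support (the last hypothesis). -/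
def SpecLCD : Prop :=
  ∀ (L : Type) [Field L] (σ : RingAut L) (X : ℤ × ℤ → L),
    X 0 = 1 → (∀ v w, X (v + w) = X v * X w) → (∀ v, σ (X v) = X (twist 1 v)) →
    (∀ f : (ℤ × ℤ) →₀ ℤ, (f.sum fun v n => (n : L) * X v) = 0 → f = 0) →
    ∃ (o : D → ℤ) (c : D → L), Lead D L σ o c

/-- LCK. From `ORD.SpecOREC`. For `k ≠ 0` choose `d ≠ 0`, `a` with `ι d * k = ι a` (then `a ≠ 0`); put
`o' k = o a - o d`, `c' k = σ^(-o d) (c a / c d)`. Independent of the choice: if also `ι d₁ * k = ι a₁` let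
`e d = e₁ d₁`, `e, e₁ ≠ 0` (OREC); then `e a = e₁ a₁`, compare orders and leading coefficients
(`c e · σ^(o e) (c d) = c e₁ · σ^(o e₁) (c d₁)` etc.). Product `k k₁`: `ι d k = ι a`, `ι d₁ k₁ = ι a₁`,
`e a = b d₁` (OREC, `e, b ≠ 0`): `ι (e d) k k₁ = ι (b a₁)`. Sums: common denominators `d`, then
`ι d (k + k₁) = ι (a + a₁)`. -/
def SpecLCK : Prop :=
  ∀ (K : Type) [DivisionRing K] (ι : D →+* K), LFrac ι → ∀ (L : Type) [Field L] (σ : RingAut L)
    (o : D → ℤ) (c : D → L), Lead D L σ o c → ∃ (o' : K → ℤ) (c' : K → L), Lead K L σ o' c'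

/-- CTA. `o 1 = 0`, `c 1 = 1`, `c (-x) = - c x` (multiply by `-1`), `o (x⁻¹) = - o x`. Let `y` be not
central, `f, g ≠ 0` in `C(y)`. `c y · σ^(o y)(c f) = c f · σ^(o f)(c y)`.
(1) `o y = 0` and `c y` not in `ℚ`: then `σ^(o f)(c y) = c y`, so `o f = 0` (FixQ) for all nonzero `f` in
`C(y)`. Now `f g - g f ∈ C(y)`, and if it is not `0` its order is `0`; but `f g`, `g f` have order `0` and
leading coefficients `c f c g = c g c f`, so the order of the difference is `> 0`: contradiction.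
(2) `o y = 0`, `q c y = p` in `ℤ`: `y' = q y - p` has the same centralizer, is not `0` (`y` is not central;
integers are central), and `o y' > 0`. So it is enough to treat
(3) `m = o y ≠ 0`. If `f, g ∈ C(y)` have the same order then `r = c f / c g` satisfies `σ^m r = r`, so there
are integers `a, b ≠ 0` with `b f - a g = 0` or of larger order. The orders of the nonzero elements of
`C(y)` are a subgroup `≠ 0` of `ℤ`; let `w ∈ C(y)` have the smallest positive order `e`. `P = C(C(w))`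
(double centralizer in `K`) is a commutative set, closed under sums, products, rational multiples,
contains `w^j`. So for every `f ∈ C(y)` and every `n` there is `p ∈ P ∩ C(y)` with `f = p` or
`o (f - p) ≥ n` (induction: subtract `(a/b) w^j`). Then
`[f,g] = [f - p, g] + [p, g - p'] + [p, p']`, the last is `0`: the order of `[f, g]` is larger than every
number, so `[f, g] = 0`. -/
def SpecCTA : Prop :=
  ∀ (K : Type) [DivisionRing K] (L : Type) [Field L] (σ : RingAut L) (o : K → ℤ) (c : K → L),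
    Lead K L σ o c → FixQ L σ → CTDiv K

/-! ## B. Derivations -/

/-- DERSI. From `ORD.SpecVAL`, `ORD.SpecEVL`. Soundness. Induction on the derivation. Rule `ct`: if
`[s₁,h₁] e₁ = 1` then `s₁` is not central, the same for `s₂`; `p` and `s₁` both commute with `s₂`, so they
commute; `p` and `q` both commute with `s₁`. Rule `cen`: if `p` is not central, `h₁` and `h₂` commute,
but `[h₁,h₂] e = 1`. Inverse axioms: `c.val = DtoF x` by VAL, `ev` of it is `ι x ≠ 0`. -/
def SpecDERSI : Prop :=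
  ∀ (K : Type) [DivisionRing K] (ι : D →+* K), Function.Injective ι → CTDiv K →
    ∀ (N : ℕ) (H : Set FR) (ξ : Var → K),
      (∀ (c : CP) (x : D), c.const → c.val = DtoF x → x ≠ 0 → ξ (invV N c) = (ι x)⁻¹) →
      (∀ h ∈ H, ev ((ι : D →* K).comp toD) ξ h = 0) →
      ∀ p, DerI (H ∪ InvAx N) p → ev ((ι : D →* K).comp toD) ξ p = 0

/-- ENCI. From `ORD.SpecVAL`. Derivations and lists of lines, see ORD/ENC.lean. -/
def SpecENCI : Prop :=
  (∀ (N : ℕ) (hy : List CP) (p : CP) (L : List LineI), PrfI N hy p L →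
    DerI ({f | ∃ h ∈ hy, f = h.val} ∪ InvAx N) p.val) ∧
  (∀ (N : ℕ) (hy : List CP) (p : CP), DerI ({f | ∃ h ∈ hy, f = h.val} ∪ InvAx N) p.val →
    ∃ L, PrfI N hy p L)

/-- QUO. From `ORD.SpecVAL`. The derivable polynomials are a two-sided ideal (rule `comb`); `S` is the
quotient ring (`Ideal.Quotient` with `IsTwoSided`, or `RingCon`). `π` is surjective, so the rules hold in
`S`. Every `d ≠ 0` is `c.val = DtoF d` for a constant `c`, not zero, and the inverse letter is a two-sided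
inverse. -/
def SpecQUO : Prop :=
  ∀ (N : ℕ) (H : Set FR), ∃ (S : Type) (_ : Ring S) (π : FR →+* S),
    (∀ p, π p = 0 ↔ DerI (H ∪ InvAx N) p) ∧ RuleRing S ∧ ∀ d : D, d ≠ 0 → IsUnit (π (DtoF d))

/-! ## C. Nets -/

/-- LALG. Induction on `n`. Case 1: some `ν⁰ ∈ R` has last entry `≠ 0`. Replace each `ν` by
`ν' = ν - ν_n (ν⁰_n)⁻¹ ν⁰` (last entry `0`), `g` by `g' = g - g_n κ(ν⁰_n)⁻¹ κ(ν⁰)`. If `m'` (length `n-1`)
is killed by all `ν'`, put `m_n = -(ν⁰_n)⁻¹ ∑ ν⁰_i m'_i`: then `ν⁰ m = 0`, `ν m = ν' m' = 0`, so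
`g m = 0`, `g' m' = 0`. By induction `g' μ' = 0` (`κ(ν') μ' = κ(ν) μ - κ(ν_n (ν⁰_n)⁻¹) κ(ν⁰) μ = 0`), so
`g μ = g' μ' + .. κ(ν⁰) μ = 0`. Case 2: all last entries are `0`: `m` = last unit vector gives
`g_n = 0`; drop the last entry. -/
def SpecLALG : Prop :=
  ∀ (K S : Type) [DivisionRing K] [Ring S] (κ : K →+* S) (n : ℕ) (R : Set (Fin n → K))
    (g : Fin n → S),
    (∀ m : Fin n → K, (∀ ν ∈ R, ∑ i, ν i * m i = 0) → ∑ i, g i * κ (m i) = 0) →
    ∀ μ : Fin n → S, (∀ ν ∈ R, ∑ i, κ (ν i) * μ i = 0) → ∑ i, g i * μ i = 0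

/-- COM. From LALG. Common order. First: `nv` is left linear in the form `(lam, U)` and commutes with
ring homomorphisms. Induction on the list, for all forms. List `i :: L`. Fix `x i ∈ X i`; put
`ν_b = ∑_q U i q x_(q,b)`: by linearity the value is the value of the form
`(lam + ∑_b ν_b l i b, U + ∑_b ν_b E i b)` for the list `L` (both nets); by induction (`x` on `L`
arbitrary, `i ∉ L`) the equation holds in `S` at `xh` for `L`. With `G` = difference of the two values
of `(lam, U)`, `(lam', U')` for the list `L` at `xh`, `N_b`, `N'_b` = values of `(l i b, E i b)`,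
`(l' i b, E' i b)`: `G + ∑_b κ(ν_b) N_b - ∑_b κ(ν'_b) N'_b = 0` for all `x i ∈ X i`. Apply LALG with the
rows `(1, ν_b, -ν'_b)` and `g` = the same with `xh i` for `x i` (`n = 1 + nB + nB'`); the hypothesis of
LALG is the hypothesis on two-term forms with `u = U i`, `v_b = m_b`, `u' = U' i`, `v'_b = m'_b`,
`w = m_0`. -/
def SpecCOM : Prop :=
  ∀ (K S : Type) [DivisionRing K] [Ring S] (κ : K →+* S) (nQ nB nQ' nB' : ℕ) (L : List ℕ),
    L.Nodup →
    ∀ (X : ℕ → Set ((ℕ → ℕ → K) × (ℕ → ℕ → K))) (xh : ℕ → (ℕ → ℕ → S) × (ℕ → ℕ → S)),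
      (∀ i ∈ L, ∀ (u v u' v' : ℕ → K) (w : K),
        (∀ x ∈ X i, tq nQ nB nQ' nB' u v u' v' w x.1 x.2 = 0) →
        tq nQ nB nQ' nB' (fun t => κ (u t)) (fun t => κ (v t)) (fun t => κ (u' t))
          (fun t => κ (v' t)) (κ w) (xh i).1 (xh i).2 = 0) →
      ∀ (l l' : ℕ → ℕ → K) (E E' : ℕ → ℕ → ℕ → ℕ → K) (lam lam' : K) (U U' : ℕ → ℕ → K),
        (∀ x : ℕ → (ℕ → ℕ → K) × (ℕ → ℕ → K), (∀ i ∈ L, x i ∈ X i) →
          nv nQ nB (fun i => (x i).1) l E L lam U =
            nv nQ' nB' (fun i => (x i).2) l' E' L lam' U') →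
        nv nQ nB (fun i => (xh i).1) (fun i b => κ (l i b)) (fun i b j q => κ (E i b j q)) L
            (κ lam) (fun i q => κ (U i q)) =
          nv nQ' nB' (fun i => (xh i).2) (fun i b => κ (l' i b)) (fun i b j q => κ (E' i b j q)) L
            (κ lam') (fun i q => κ (U' i q))

/-- PRM. Products in different orders. (0) If `α i = 0` on `X i` for some `i ∈ L`: `A i = 0`
(first hypothesis, `p = q = 1`, `p' = q' = 0`); and then some `α' j` vanishes on `X j` (otherwise the
product on the right is not `0` at some point), so `A' j = 0` (`p = 0`). (1) Otherwise choose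
`y i ∈ X i` with `α i (y i) ≠ 0`; then the product at `y` is `T ≠ 0`, so all `α' i (y i) ≠ 0`. For `i ∈ L` let
`pre i` = product of the `α j (y j)` for `j` before `i` in `L`, `ah i x = pre i * α i x * (pre i * α i (y i))⁻¹`,
`Ah i = κ (pre i) * A i * κ (..)⁻¹`; the same with `'` for `L'`. Telescoping:
`(L.map A).prod = (L.map Ah).prod * κ T` and the same for `α`, and for `'` with the same `T`. So the
products of `ah`, `ah'` are equal; `ah i (y i) = 1 = ah' i (y i)`. All but one variable at `y`: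
`ah i = ah' i` on `X i`, hence `Ah i = Ah' i`. (2) All but two variables at `y`: if `i` is before `j` in `L` and
`j` before `i` in `L'` then `ah i x * ah j z = ah j z * ah i x` for all `x ∈ X i`, `z ∈ X j`. Then
`br (Ah i) (Ah j) = 0`: if all `ah i x` are central, `br (Ah i) (κ h) = 0` for all `h` (second
hypothesis) and the second rule with `h₁, h₂` applies; the same if all `ah j z` are central; otherwise
take `s₁ = ah i x₂`, `s₂ = ah j z₂` not central (`[s₁, h] ≠ 0` has an inverse in `K`), and the first rule.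
(3) For `L` a permutation of `L'` and elements such that all pairs in different order commute the
products are equal: `L = i :: t`, `L' = u ++ i :: v`; `Ah i` commutes with all `Ah j`, `j ∈ u`; `t` is a
permutation of `u ++ v`, induction. -/
def SpecPRM : Prop :=
  ∀ (K S Y : Type) [DivisionRing K] [Ring S] (κ : K →+* S), RuleRing S →
    (∃ h₁ h₂ : K, h₁ * h₂ ≠ h₂ * h₁) →
    ∀ (L L' : List ℕ), L.Nodup → L.Perm L' → ∀ (X : ℕ → Set Y), (∀ i ∈ L, (X i).Nonempty) →
    ∀ (α α' : ℕ → Y → K) (A A' : ℕ → S),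
      (∀ i ∈ L, ∀ p q p' q' : K, (∀ x ∈ X i, p * α i x * q = p' * α' i x * q') →
        κ p * A i * κ q = κ p' * A' i * κ q') →
      (∀ i ∈ L, ∀ p q p' q' : K, (∀ x ∈ X i, p * α i x * q = p' * α i x * q') →
        κ p * A i * κ q = κ p' * A i * κ q') →
      (∀ x : ℕ → Y, (∀ i ∈ L, x i ∈ X i) →
        (L.map fun i => α i (x i)).prod = (L'.map fun i => α' i (x i)).prod) →
      (L.map A).prod = (L'.map A').prod

/-- PRF. Product formula for narrow nets without full children. `mv` is left linear in the form and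
commutes with homomorphisms. Claim, by induction on the list (it contains a difference child; let `i₁`
be the first one): there are `r j` for the other difference children `j`, `c j` for all of them, and a
left linear map `ρ : forms → rows`, such that the value of every form `φ` is
`(∑ ρ(φ)_q d^(i₁)_(q,b) (c i₁)_b) * ∏_(other) a_j`, `a_j = ∑ (r j)_q d^j_(q,b) (c j)_b`, `d^j = x j - x₀ j`;
and, in the first case of `NarE`, if `U_j` is a left multiple of `ε j` for all `j` then `ρ(φ)` is a left multiple of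
`ε i₁`. Head `i` base: `ρ(φ) = ρ'(φ) + ∑_b (∑_q U i q x₀ i q b) ρ'(l i b, E i b)`. Head `i = i₁`
difference, no difference in the tail: the values of `(l i b, E i b)` are constants `c i b`,
`ρ(φ) = U i`. Head `i = i₁` difference, tail with first difference `i₂`: first case: the value of
`(l i b, E i b)` is `c_b (∑ ε i₂ ..) ∏`, put `r i₂ = ε i₂`, `c i b = c_b`; second case: the value is
`e i b *` (value of `(0, r i)`), put `c i b = e i b`, `r i₂ = ρ'(0, r i)` (the constant of a form does not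
matter if the list contains a difference child). `ρ(φ) = U i`. -/
def SpecPRF : Prop :=
  ∀ (K : Type) [Ring K] (nQ nB : ℕ) (L : List ℕ), L.Nodup → ∀ (m : ℕ → ℕ)
    (x₀ : ℕ → ℕ → ℕ → K) (l : ℕ → ℕ → K) (E : ℕ → ℕ → ℕ → ℕ → K) (lam : K) (U : ℕ → ℕ → K),
    NarE E → (∀ i ∈ L, m i = 1 ∨ m i = 2) → (∃ i ∈ L, m i = 2) →
    ∃ r c : ℕ → ℕ → K, ∀ (S : Type) [Ring S] (κ : K →+* S) (x : ℕ → ℕ → ℕ → S),
      mv nQ nB m (fun i q b => κ (x₀ i q b)) x (fun i b => κ (l i b))
        (fun i b j q => κ (E i b j q)) L (κ lam) (fun i q => κ (U i q)) =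
      ((L.filter fun i => m i = 2).map fun i =>
        ∑ q ∈ range nQ, ∑ b ∈ range nB, κ (r i q) * (x i q b - κ (x₀ i q b)) * κ (c i b)).prod

/-- NARC. From PRM, PRF. Narrow nets, different orders. If some `X i`, `i ∈ L`, is empty, the two-term
hypothesis with `w = 1` gives `1 = 0` in `S`. Otherwise choose `x₀ i ∈ X i`. Claim, by induction on the
number of `i ∈ L` with `m i = 0`: if the `mv` of the two nets (marks `m`, base `x₀`) agree at all `x` with
`x i ∈ X i`, they agree at `xh`. `m = 0`: `mv = nv`. Step: `k ∈ L` with `m k = 0`: `mv` for `m` is the sum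
of `mv` for `m` with `k ↦ 1` and with `k ↦ 2` (induction on the list; `mv` is additive in the form), and
`mv` for `k ↦ 1` is `mv` for `m` at the point `x` with `x k = x₀ k`. No full children: without
differences `mv` is a constant (a homomorphism applied to the value in `K`); otherwise PRF for both nets and
PRM for `L.filter`, `L'.filter`, `α i x = ∑ r_q (x.1 - x₀.1) c_b` etc.; the hypotheses of PRM
are two-term identities: `u = p r i`, `v = (c i) q`, `u' = p' r' i`, `v' = (c' i) q'`, `w` from the base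
point; the second one with `x.1` twice. -/
def SpecNARC : Prop :=
  ∀ (K S : Type) [DivisionRing K] [Ring S] (κ : K →+* S), RuleRing S →
    (∃ h₁ h₂ : K, h₁ * h₂ ≠ h₂ * h₁) →
    ∀ (nQ nB nQ' nB' : ℕ) (L L' : List ℕ), L.Nodup → L.Perm L' →
    ∀ (X : ℕ → Set ((ℕ → ℕ → K) × (ℕ → ℕ → K))) (xh : ℕ → (ℕ → ℕ → S) × (ℕ → ℕ → S)),
      (∀ i ∈ L, ∀ (u v u' v' : ℕ → K) (w : K),
        (∀ x ∈ X i, tq nQ nB nQ' nB' u v u' v' w x.1 x.2 = 0) →
        tq nQ nB nQ' nB' (fun t => κ (u t)) (fun t => κ (v t)) (fun t => κ (u' t))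
          (fun t => κ (v' t)) (κ w) (xh i).1 (xh i).2 = 0) →
      (∀ i ∈ L, ∀ (u v u' v' : ℕ → K) (w : K),
        (∀ x ∈ X i, tq nQ nB nQ nB u v u' v' w x.1 x.1 = 0) →
        tq nQ nB nQ nB (fun t => κ (u t)) (fun t => κ (v t)) (fun t => κ (u' t))
          (fun t => κ (v' t)) (κ w) (xh i).1 (xh i).1 = 0) →
      ∀ (l l' : ℕ → ℕ → K) (E E' : ℕ → ℕ → ℕ → ℕ → K) (lam lam' : K) (U U' : ℕ → ℕ → K),
        NarE E → NarE E' →
        (∀ x : ℕ → (ℕ → ℕ → K) × (ℕ → ℕ → K), (∀ i ∈ L, x i ∈ X i) →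
          nv nQ nB (fun i => (x i).1) l E L lam U =
            nv nQ' nB' (fun i => (x i).2) l' E' L' lam' U') →
        nv nQ nB (fun i => (xh i).1) (fun i b => κ (l i b)) (fun i b j q => κ (E i b j q)) L
            (κ lam) (fun i q => κ (U i q)) =
          nv nQ' nB' (fun i => (xh i).2) (fun i b => κ (l' i b)) (fun i b j q => κ (E' i b j q)) L'
            (κ lam') (fun i q => κ (U' i q))

/-! ## D. Linear forms -/

/-- NOEG. From `ORD.SpecNOR`. As `ORD.SpecNOEF` (adapt ORD/NOEF.lean), with the submodule spanned by the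
linear forms given by the elements of `Q`; it is finitely generated, and finitely many of the
given elements generate it. -/
def SpecNOEG : Prop :=
  ∀ (N : ℕ) (Q : Set LF), ∃ Ts : List LF, (∀ T ∈ Ts, T ∈ Q) ∧
    ∀ T ∈ Q, ∃ l : List (ℕ × Mo × LF × Mo), (∀ q ∈ l, q.2.2.1 ∈ Ts) ∧
      ∀ (R : Type) [Ring R] (φ : Mo →* R) (y : List R), y.length = N →
        apLF (nops R) φ y T = (l.map fun q =>
          (if q.1 = 0 then (1 : R) else -1) *
            (φ q.2.1 * apLF (nops R) φ y q.2.2.1 * φ q.2.2.2)).sum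

/-- REP. Two-term forms are linear forms: expand the coefficients into signed monomials. -/
def SpecREP : Prop :=
  ∀ (N P nR : ℕ) (u v u' v' : ℕ → D) (w : D), ∃ T : LF, Rep N P nR T u v u' v' w

/-- DEN. Clearing denominators. Let `u, v, u', v', w` be given over `K`, the form vanishes on `X`. Only
finitely many entries matter (`R < nR`, `j ≤ P`; the others may be replaced by `0`). Take `d₂ ≠ 0` with
`v_j ι d₂`, `v'_j ι d₂` in `ι D`, then `d₁ ≠ 0` with `ι d₁ u_R`, `ι d₁ u'_R`, `ι d₁ (w ι d₂)` in `ι D`. The form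
multiplied by `ι d₁` and `ι d₂` has coefficients in `D` with the same supports (choose `0` for `0`), and it
vanishes on `X` (`ι` injective). So `π (ttF ..) = 0`, i.e. `κ (ι d₁) * (..) * κ (ι d₂) = 0`, and
`κ (ι d) * κ (ι d)⁻¹ = 1`. -/
def SpecDEN : Prop :=
  ∀ (K S : Type) [DivisionRing K] [Ring S] (ι : D →+* K) (π : FR →+* S) (κ : K →+* S),
    Function.Injective ι → (∀ d, κ (ι d) = π (DtoF d)) →
    (∀ (n : ℕ) (k : Fin n → K), ∃ d : D, d ≠ 0 ∧ ∀ i, ∃ a : D, ι d * k i = ι a) →
    (∀ (n : ℕ) (k : Fin n → K), ∃ d : D, d ≠ 0 ∧ ∀ i, ∃ a : D, k i * ι d = ι a) →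
    ∀ (P nR i : ℕ) (R₁ R₂ : ℕ → Prop) (X : Set (List D)),
      (∀ (u v u' v' : ℕ → D) (w : D), (∀ t, u t ≠ 0 → R₁ t) → (∀ t, u' t ≠ 0 → R₂ t) →
        (∀ x ∈ X, tt P nR u v u' v' w x = 0) → π (ttF P nR i u v u' v' w) = 0) →
      ∀ (u v u' v' : ℕ → K) (w : K), (∀ t, u t ≠ 0 → R₁ t) → (∀ t, u' t ≠ 0 → R₂ t) →
        (∀ x ∈ X, tt P nR u v u' v' w (x.map ι) = 0) →
        tq nR (P + 1) nR (P + 1) (fun t => κ (u t)) (fun t => κ (v t)) (fun t => κ (u' t))
          (fun t => κ (v' t)) (κ w) (fun R j => π (xv (i, pos P R j)))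
          (fun R j => π (xv (i, pos P R j))) = 0

/-! ## E. Right-hand sides and nets -/

/-- FOV. The value entries of the vectors (see ORD/ORDV.lean, ORD/SEM.lean and Run.lean for the run of the
machine on the code of a right-hand side). Structural induction: the entries `x = 0`, `y = 0` of the
form of `ζ` are `fo ζ`. -/
def SpecFOV : Prop :=
  ∀ (S : Type) [Ring S] (φ : Mo →* S) (A B : List ℕ) (M₁ M₂ : DMTT A B) (a : ℕ)
    (bl : List (List S)), a < A.length → ∀ q j, j ≤ (norm (inp M₁ M₂ 0)).P →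
    (q < M₁.params.length →
      ((nops S).vecS (norm (inp M₁ M₂ 0)).P 1 (norm (inp M₁ M₂ 0)).n1 (norm (inp M₁ M₂ 0)).T a
        (VL (nops S) φ (norm (inp M₁ M₂ 0)).P (norm (inp M₁ M₂ 0)).nB) bl).getD
          (pos (norm (inp M₁ M₂ 0)).P q j) 0 =
        (rlM M₁ a q).elim 0 fun ζ => fo (norm (inp M₁ M₂ 0)).P 0 φ bl ζ j) ∧
    (q < M₂.params.length →
      ((nops S).vecS (norm (inp M₁ M₂ 0)).P 1 (norm (inp M₁ M₂ 0)).n1 (norm (inp M₁ M₂ 0)).T a
        (VL (nops S) φ (norm (inp M₁ M₂ 0)).P (norm (inp M₁ M₂ 0)).nB) bl).getD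
          (pos (norm (inp M₁ M₂ 0)).P (M₁.params.length + q) j) 0 =
        (rlM M₂ a q).elim 0 fun ζ => fo (norm (inp M₁ M₂ 0)).P M₁.params.length φ bl ζ j)

/-- FOT. Right-hand sides as nets. `L` contains the children, outermost first. Claim for a suffix `L₁` of
`L` (structural induction on `ζ`, inside induction on the list): let `fo₁` be `fo` with all calls on
children not in `L₁` replaced by `0`; for `ζ` with `CallsIn W ar`, well formed,
`∑_j fo₁ ζ j * v j = nv .. L₁ (lamT ζ) (UT ζ)`. For `L₁ = i :: L₂`: the calls on `x_i` have the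
arguments `ar i`, all of whose calls are on smaller children, i.e. in `L₂` (`Below`), and
`∑_j (call q i ..)_j v_j = ∑_b x i q b * (value of (lN i b, EN i b) for L₂)` (`b = 0`: `v 0`, value of the
homogenizing entry; entries `b > ` number of arguments have the value `0`). -/
def SpecFOT : Prop :=
  ∀ (S : Type) [Ring S] (P off r nQ : ℕ) (φ : Mo →* S) (bl : List (List S)) (v : ℕ → S)
    (B pr : List ℕ) (rl : ℕ → Option Rhs) (V : ℕ → Prop) (W : ℕ → ℕ → Prop) (ar : ℕ → List Rhs)
    (ρ : ℕ → ℕ) (L : List ℕ),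
    (∀ m ∈ pr, m ≤ P) → pr.length ≤ nQ → Vis B pr r rl V W ar ρ →
    L.Pairwise (fun i j => ρ j < ρ i) → (∀ i, i ∈ L ↔ i < r) →
    ∀ ζ : Rhs, ζ.CallsIn W ar → (∃ m ∈ pr, ζ.WF B pr m r) →
      ∑ j ∈ range (P + 1), fo P off φ bl ζ j * v j =
        nv nQ (P + 1) (fun i q b => (bl.getD i []).getD (pos P (off + q) b) 0) (lN φ v ar)
          (EN φ ar) L (lamT φ v ζ) (UT φ ζ)

/-- LOCN. From COM, NARC, FOT. Nets over `K`: `l = lN φ v ar`, `E = EN φ ar`, and the form
`lam = w + ∑_q u(off+q) * lamT ζ_q`, `U = ∑_q u(off+q) * UT ζ_q` (sum over the rules `ζ_q`, `q < pr.length`),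
the same for `'` (without `w`); `L` = the children `< r` sorted by `ρ`, decreasing (outermost first),
`L'` by `ρ'` (`L' = L` if `ρ = ρ'`). `nv` is left linear in the form, so by FOT `rT` is the difference of
the values of the two nets at the matrices with the entries `getD (pos ..)`, over `K` and over `S`
(`lN`, `EN`, `lamT`, `UT` commute with `κ`). These matrices may be masked: entry `0` for `q` with not
`W i q` (or `q ≥ pr.length`), since `U i q ≠ 0` or `E j b i q ≠ 0` only if `W i q` (`CallsIn`) and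
`q < pr.length` (well-formedness). Two-term hypotheses of COM and NARC for the masked matrices: `u` is
replaced by its restriction to the rows `off + q`, `W i q`; then `hTT`, `hTS`. `NarAr` gives `NarE`:
first case: `UT ζ j q ≠ 0` only for `q = st j`, so `E i b j q = E i b j (st j) * [q = st j]`; second case:
`E i b = 0` for `b ≠ f i + 1`. -/
def SpecLOCN : Prop :=
  ∀ (K S : Type) [DivisionRing K] [Ring S] (κ : K →+* S), RuleRing S →
    (∃ h₁ h₂ : K, h₁ * h₂ ≠ h₂ * h₁) → ∀ (φ : Mo →* K)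
    (B : List ℕ) (P nR r : ℕ) (off off' : ℕ) (pr pr' : List ℕ) (rl rl' : ℕ → Option Rhs)
    (V V' : ℕ → Prop) (W W' : ℕ → ℕ → Prop) (ar ar' : ℕ → List Rhs) (ρ ρ' : ℕ → ℕ),
    (∀ m ∈ pr, m ≤ P) → (∀ m ∈ pr', m ≤ P) → off + pr.length ≤ nR → off' + pr'.length ≤ nR →
    Vis B pr r rl V W ar ρ → Vis B pr' r rl' V' W' ar' ρ' → (ρ = ρ' ∨ (NarAr ar ∧ NarAr ar')) →
    ∀ (X : ℕ → Set (List K)) (y : ℕ → List S),
      -- hTT
      (∀ i < r, ∀ (u v u' v' : ℕ → K) (w : K), (∀ t, u t ≠ 0 → rows off pr.length (W i) t) →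
        (∀ t, u' t ≠ 0 → rows off' pr'.length (W' i) t) →
        (∀ x ∈ X i, tt P nR u v u' v' w x = 0) →
        tt P nR (fun t => κ (u t)) (fun t => κ (v t)) (fun t => κ (u' t)) (fun t => κ (v' t)) (κ w)
          (y i) = 0) →
      -- hTS
      (∀ i < r, ∀ (u v u' v' : ℕ → K) (w : K), (∀ t, u t ≠ 0 → rows off pr.length (W i) t) →
        (∀ t, u' t ≠ 0 → rows off pr.length (W i) t) →
        (∀ x ∈ X i, tt P nR u v u' v' w x = 0) →
        tt P nR (fun t => κ (u t)) (fun t => κ (v t)) (fun t => κ (u' t)) (fun t => κ (v' t)) (κ w)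
          (y i) = 0) →
      ∀ (u v u' v' : ℕ → K) (w : K), (∀ t, u t ≠ 0 → rows off pr.length V t) →
        (∀ t, u' t ≠ 0 → rows off' pr'.length V' t) →
        (∀ x : ℕ → List K, (∀ i < r, x i ∈ X i) →
          rT P off off' pr.length pr'.length φ ((List.range r).map x) rl rl' u v u' v' w = 0) →
        rT P off off' pr.length pr'.length ((κ : K →* S).comp φ) ((List.range r).map y) rl rl'
          (fun t => κ (u t)) (fun t => κ (v t)) (fun t => κ (u' t)) (fun t => κ (v' t)) (κ w) = 0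

/-- LOC. From KFR, QUO, DEN, LOCN, `ORD.SpecEVL`. Derivability of one form at one symbol. `S, π` from QUO
for `N, H`, `K, ι` from KFR, `κ : K → S` with `κ (ι d) = π (DtoF d)`. LOCN with `φ = ι ∘ toD`
(`κ ∘ φ = π ∘ toF`), the images of the `X i` under `List.map ι`, and `y i` = the list of the
`π (xv (i, t))`; the hypotheses are the conclusion of DEN. The homomorphisms `ι`, `π` map `rT` to `rT`.
`K` is not commutative: `ι (toD (0,0,1))`, `ι (toD (1,0,0))`. -/
def SpecLOC : Prop :=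
  ∀ (B : List ℕ) (P nR r : ℕ) (off off' : ℕ) (pr pr' : List ℕ) (rl rl' : ℕ → Option Rhs)
    (V V' : ℕ → Prop) (W W' : ℕ → ℕ → Prop) (ar ar' : ℕ → List Rhs) (ρ ρ' : ℕ → ℕ),
    (∀ m ∈ pr, m ≤ P) → (∀ m ∈ pr', m ≤ P) → off + pr.length ≤ nR → off' + pr'.length ≤ nR →
    Vis B pr r rl V W ar ρ → Vis B pr' r rl' V' W' ar' ρ' → (ρ = ρ' ∨ (NarAr ar ∧ NarAr ar')) →
    ∀ (N : ℕ) (X : ℕ → Set (List D)) (H : Set FR),
      -- hTT
      (∀ i < r, ∀ (u v u' v' : ℕ → D) (w : D), (∀ t, u t ≠ 0 → rows off pr.length (W i) t) →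
        (∀ t, u' t ≠ 0 → rows off' pr'.length (W' i) t) →
        (∀ x ∈ X i, tt P nR u v u' v' w x = 0) → DerI (H ∪ InvAx N) (ttF P nR i u v u' v' w)) →
      -- hTS
      (∀ i < r, ∀ (u v u' v' : ℕ → D) (w : D), (∀ t, u t ≠ 0 → rows off pr.length (W i) t) →
        (∀ t, u' t ≠ 0 → rows off pr.length (W i) t) →
        (∀ x ∈ X i, tt P nR u v u' v' w x = 0) → DerI (H ∪ InvAx N) (ttF P nR i u v u' v' w)) →
      ∀ (u v u' v' : ℕ → D) (w : D), (∀ t, u t ≠ 0 → rows off pr.length V t) →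
        (∀ t, u' t ≠ 0 → rows off' pr'.length V' t) →
        (∀ x : ℕ → List D, (∀ i < r, x i ∈ X i) →
          rT P off off' pr.length pr'.length toD ((List.range r).map x) rl rl' u v u' v' w = 0) →
        DerI (H ∪ InvAx N) (rT P off off' pr.length pr'.length toF
          ((List.range r).map fun i => (List.range (nR * fs P 1)).map fun t => xv (i, t)) rl rl'
          (fun t => DtoF (u t)) (fun t => DtoF (v t)) (fun t => DtoF (u' t)) (fun t => DtoF (v' t))
          (DtoF w))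

/-- BLKI. From `ORD.SpecVAL`, `ORD.SpecEVL`. As `ORD.SpecBLK` (ORD/BLK.lean), over any ring. -/
def SpecBLKI : Prop :=
  (∀ (R : Type) [Ring R] (φ : Mo →* R) (N i : ℕ) (β : List ℕ) (x : List R) (ξ : Var → R),
    x.length = N → (∀ t < N, isBit t → x.getD t 0 = ((β.getD t 0 : ℕ) : R)) →
    (∀ t < N, ¬ isBit t → ξ (i, t) = x.getD t 0) →
    ((blk N i β).map fun p => ev φ ξ p.val) = x) ∧
  (∀ (R : Type) [Ring R] (φ : Mo →* R) (s : Sys) (a : ℕ) (βs : List (List ℕ))
    (xs : List (List R)) (ξ : Var → R),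
    xs.length = s.rk a → (∀ i < s.rk a, (xs.getD i []).length = NN s) →
    (∀ i < s.rk a, ∀ t < NN s, isBit t →
      (xs.getD i []).getD t 0 = (((βs.getD i []).getD t 0 : ℕ) : R)) →
    (∀ i < s.rk a, ∀ t < NN s, ¬ isBit t → ξ (i, t) = (xs.getD i []).getD t 0) →
    ((vS s a βs).map fun p => ev φ ξ p.val)
      = (nops R).vecS s.P 1 s.n1 s.T a (VL (nops R) φ s.P s.nB) xs)

/-- STEP. From LOC, FOV, REP, BLKI, `ORD.SpecVAL`, `ORD.SpecEVL`, `ORD.SpecLFH`. The forms of the result. Let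
`T` be a two-term form with rows in `V₁ w₁`, `V₂ w₂` (or twice in `V₁ w`) and coefficients
`u, v, u', v', w` in `D`. By `Rep` and FOV the values of `T` at the results over `D` and over `FR` (symbolic
vectors: `blk` has the variables `xv (i, pos ..)` at the positions `pos`, which are not bits; the entries
at the bits do not matter for `fo`) are `rT`; apply LOC with the sets for the children given by
`OVP` (`c₁ w₁ a i`, `c₂ w₂ a i`; in the second case both nets are the one of `M₁`, with `ρ = ρ'`). The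
hypotheses `hTT`, `hTS` of LOC: for `D`-coefficients take `T'` from REP; it is in `TTall`, and
`hH` applies. -/
def SpecSTEP : Prop :=
  ∀ (A B : List ℕ) (M₁ M₂ : DMTT A B) (V₁ V₂ : ℕ → ℕ → Prop) (c₁ c₂ : ℕ → ℕ → ℕ → ℕ)
    (ar₁ ar₂ : ℕ → ℕ → ℕ → List Rhs), OVP M₁ M₂ V₁ V₂ c₁ c₂ ar₁ ar₂ →
    ∀ a < A.length, ∀ (βs : List (List ℕ)) (X : ℕ → Set (List D)) (H : Set FR),
      (∀ i < (norm (inp M₁ M₂ 0)).rk a, ∀ x ∈ X i, x.length = NN (norm (inp M₁ M₂ 0))) →
      -- hH
      (∀ i < (norm (inp M₁ M₂ 0)).rk a, ∀ T, TTall M₁ M₂ V₁ V₂ T →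
        (∀ x ∈ X i, apLF (nops D) toD x T = 0) →
        DerI (H ∪ InvAx (NN (norm (inp M₁ M₂ 0))))
          (apLF cops emC (blk (NN (norm (inp M₁ M₂ 0))) i (βs.getD i [])) T).val) →
      ∀ T, TTall M₁ M₂ V₁ V₂ T →
        (∀ x : ℕ → List D, (∀ i < (norm (inp M₁ M₂ 0)).rk a, x i ∈ X i) →
          apLF (nops D) toD ((nops D).vecS (norm (inp M₁ M₂ 0)).P 1 (norm (inp M₁ M₂ 0)).n1
            (norm (inp M₁ M₂ 0)).T a
            (VL (nops D) toD (norm (inp M₁ M₂ 0)).P (norm (inp M₁ M₂ 0)).nB)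
            ((List.range ((norm (inp M₁ M₂ 0)).rk a)).map x)) T = 0) →
        DerI (H ∪ InvAx (NN (norm (inp M₁ M₂ 0))))
          (apLF cops emC (vS (norm (inp M₁ M₂ 0)) a βs) T).val

/-! ## F. Certificates -/

/-- CSNDI. From the skew field (first hypothesis), ENCI, DERSI, BLKI, `ORD.SpecVAL`, `ORD.SpecEVL`,
`ORD.SpecLFH`. Soundness of certificates, as ORD/CSND.lean: induction on the tree; the derivations are
evaluated in `K`: `ξ (i, t) = ι (entry t of the vector of the child i)` for `t < N`, and the inverse letters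
`(0, N + code of c)` are the inverses. Values over `K` of the symbolic vectors are the images of the
vectors over `D` (BLKI and `Ops.Hom` for `ι`). -/
def SpecCSNDI : Prop := ∀ (s : Sys) (c : CertI), ChkI s c → RawD s

/-- ASM. Assembly of a certificate, as `CCMPM.assemble` in ORD/CCMP.lean. -/
def SpecASM : Prop :=
  ∀ (s : Sys) (C : List (List ℕ × List LF)),
    (∀ a < s.A.length, ∀ z < C.length ^ s.rk a, ∃ κ < C.length,
      (∀ t < NN s, isBit t → (csub ((resI s (C, [], [], []) a z).getD t (cops.nat 0))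
        (cops.nat ((CertI.bits (C, [], [], []) κ).getD t 0))).isZero) ∧
      ∀ l < (CertI.forms (C, [], [], []) κ).length, ∃ L, PrfI (NN s) (hypsI s (C, [], [], []) a z)
        (apLF cops emC (resI s (C, [], [], []) a z)
          ((CertI.forms (C, [], [], []) κ).getD l [])) L) →
    (∀ κ < C.length,
      (cops.target s.P 1 s.n1 (blk (NN s) 0 (CertI.bits (C, [], [], []) κ)) 1).isZero ∧
      ∃ L, PrfI (NN s) (hyp1 (NN s) 0 (CertI.bits (C, [], [], []) κ)
          (CertI.forms (C, [], [], []) κ))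
        (cops.target s.P 1 s.n1 (blk (NN s) 0 (CertI.bits (C, [], [], []) κ)) 0) L) →
    ∃ c : CertI, ChkI s c

/-- CCMPI. From ASM, ENCI, STEP, NOEG, REP, BLKI, `ORD.SpecLFH`, `ORD.SpecVAL`, `ORD.SpecEVL`,
`ORD.SpecBITZ`. Completeness of certificates, as `CCMPM.main` in ORD/CCMP.lean (import it). Classes: the
bit vectors of the vectors of trees; for a class `β`: `Q` = the forms `T` with `TTall .. T` that vanish on
`XS s β`, `Ts` from NOEG. The forms of a result class are derivable by STEP, with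
`X i = XS s (βs i)`, `H` = the hypotheses; `hH`: NOEG. Target 0: if `nbres = 0` it is `0`; if `nbres = 1`
it is (up to the integer factor) the two-term form `C₀(M₁) - C₀(M₂)`, rows `0` and `n1` (`V₁ 0 0`,
`V₂ 0 0`), which is in `TTall` (REP) and vanishes on `XS s β` by `RawD`. -/
def SpecCCMPI : Prop :=
  ∀ (A B : List ℕ) (M₁ M₂ : DMTT A B), OneVisitPair M₁ M₂ → RawD (norm (inp M₁ M₂ 0)) →
    ∃ c : CertI, ChkI (norm (inp M₁ M₂ 0)) c

/-! ## G. Primitive recursion and the main theorem on transducers -/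

/-- PPRI. From `ORD.SpecPOPS`. As the first part of ORD/PPRF.lean. -/
def SpecPPRI : Prop :=
  PrimrecPred (fun p : ℕ × List CP × CP × List LineI => PrfI p.1 p.2.1 p.2.2.1 p.2.2.2)

/-- PCHI. From PPRI, `ORD.SpecPOPS`, `ORD.SpecPVEC`, `ORD.SpecPPRF`. As ORD/PCHK.lean. -/
def SpecPCHI : Prop := PrimrecPred (fun p : Sys × CertI => ChkI p.1 p.2)

/-- MAINI. From CSNDI, CCMPI, PCHI, `ORD.SpecSEM`, `ORD.SpecSRCH`, `ORD.SpecPSRC`. As ORD/MAIN.lean. -/
def SpecMAINI : Prop :=
  ∃ F : List ℕ × List ℕ × Code × Code →. Bool, Partrec F ∧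
    ∀ (A B : List ℕ) (M₁ M₂ : DMTT A B),
      (true ∈ F (A, B, M₁.code, M₂.code) → ∀ s, Ranked A s → M₁.tau s = M₂.tau s) ∧
      (false ∈ F (A, B, M₁.code, M₂.code) ↔ ¬ ∀ s, Ranked A s → M₁.tau s = M₂.tau s) ∧
      (OneVisitPair M₁ M₂ → (F (A, B, M₁.code, M₂.code)).Dom)

/-! ## H. Applications -/

/-- ONC. Transducers in which all calls on the same subtree of a right-hand side are equal. Sets
`V w q := q = w`; for the rule of `w` and `a` take `st`, `ar` from `Once`; put `ar i = []` if the rule has no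
call on `x_i` (or there is no rule), `c w a i = st i`. Order: `ρ i` = (total size of `ar i`) `* r + i` for
`i < r`: a call on `x_j` inside an element of `ar i` has the arguments `ar j`, smaller in size. Narrow: first
case, `st`. The arguments are subterms of the rule, so they are well formed, etc. -/
def SpecONC : Prop :=
  ∀ (A B : List ℕ) (M₁ M₂ : DMTT A B), M₁.Once → M₂.Once → OneVisitPair M₁ M₂

/-- AGV. The transducers of two grammars. Sets: `V 0 q := q = 0`, `V w q := 1 ≤ q` for `w ≥ 1`;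
`c w a i = 1`. Arguments for `i < r` (`r` the rank of `a`): `ar w a i = List.ofFn (inhR G a par r i)`,
`par = rootR G` for `w = 0`, `par = fun b => .param b` for `w ≥ 1`; `[]` for `i ≥ r`. With
`k i` = number of the `j < r` with `ρ j < ρ i`: by induction `inhR G a par n i = inhR G a par (k i + 1) i`
for `n > k i` (as in ORD/AGO.lean), so all calls on `x_j` have the arguments `ar j`, also inside the
arguments. `Below`: ORD/AGO.lean; well-formedness: ORD/AGW.lean. Narrow: `OneOut` gives the first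
case with the states `1 + st j` (for all symbols and children), `OneIn` the second. -/
def SpecAGV : Prop :=
  ∀ (hW : SpecAGW) (A B : List ℕ) (G₁ G₂ : AG A B) (h₁ : ConstRoot G₁) (h₂ : ConstRoot G₂),
    TwoVisit G₁ G₂ → OneVisitPair (trG hW G₁ h₁) (trG hW G₂ h₂)

/-- MAINAI. From MAINI, AGV, `ORD.SpecAGW`, `ORD.SpecAGE`, `ORD.SpecAGC`, `ORD.SpecAGP`. As
ORD/MAINA.lean. -/
def SpecMAINAI : Prop :=
  ∃ F : List ℕ × List ℕ × CodeAG × CodeAG →. Bool, Partrec F ∧
    ∀ (A B : List ℕ) (G₁ G₂ : AG A B), TwoVisit G₁ G₂ →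
      (true ∈ F (A, B, codeAG G₁, codeAG G₂) ↔
        ∀ s, Ranked A s → ∀ t, G₁.Val s t ↔ G₂.Val s t) ∧
      (false ∈ F (A, B, codeAG G₁, codeAG G₂) ↔
        ¬ ∀ s, Ranked A s → ∀ t, G₁.Val s t ↔ G₂.Val s t)

/-- MAINQ. From MAINI, ONC, `ORD.SpecMAIN`. `Partrec.merge'`, no consistency of the two functions is
needed. -/
def SpecMAINQ : Prop :=
  ∃ F : List ℕ × List ℕ × Code × Code →. Bool, Partrec F ∧
    ∀ (A B : List ℕ) (M₁ M₂ : DMTT A B),
      (true ∈ F (A, B, M₁.code, M₂.code) → ∀ s, Ranked A s → M₁.tau s = M₂.tau s) ∧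
      (false ∈ F (A, B, M₁.code, M₂.code) ↔ ¬ ∀ s, Ranked A s → M₁.tau s = M₂.tau s) ∧
      (CoOrdered M₁ M₂ ∨ (M₁.Once ∧ M₂.Once) → (F (A, B, M₁.code, M₂.code)).Dom)

end Pool.Agent.Lib.MP_39893a_lc.OV
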