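import Mathlib.Algebra.MonoidAlgebra.NoZeroDivisors
import Mathlib.Algebra.Group.UniqueProds.Basic
import Pool.Agent.Lib.MP_39893a_lc.ORD.OREK
import Pool.Agent.Lib.MP_39893a_lc.OV.Spec

/-!
# LFX (MP_39893a_lc, hive OV): the field of fractions of `ℤ[ℤ²]` and its automorphism
-/

set_option autoImplicit false

namespace Pool.Agent.Lib.MP_39893a_lc.OV.LFXM

open ORD ORD.NZDM

/-- The group ring. -/
abbrev C : Type := AddMonoidAlgebra ℤ (ℤ × ℤ)

/-- The matrix as an additive equivalence. -/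
def twE : (ℤ × ℤ) ≃+ (ℤ × ℤ) where
  toFun := twist 1
  invFun v := (v.1 - v.2, 2 * v.2 - v.1)
  left_inv v := by
    show (2 * v.1 + v.2 - (v.1 + v.2), 2 * (v.1 + v.2) - (2 * v.1 + v.2)) = v
    apply Prod.ext
    · show 2 * v.1 + v.2 - (v.1 + v.2) = v.1
      ring
    · show 2 * (v.1 + v.2) - (2 * v.1 + v.2) = v.2
      ring
  right_inv v := by
    show (2 * (v.1 - v.2) + (2 * v.2 - v.1), (v.1 - v.2) + (2 * v.2 - v.1)) = v
    apply Prod.ext
    · show 2 * (v.1 - v.2) + (2 * v.2 - v.1) = v.1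
      ring
    · show (v.1 - v.2) + (2 * v.2 - v.1) = v.2
      ring
  map_add' := twist_add 1

theorem twE_apply (v : ℤ × ℤ) : twE v = twist 1 v := rfl

/-- The automorphism of the group ring. -/
noncomputable def sE : RingAut C := AddMonoidAlgebra.mapDomainRingEquiv ℤ twE

theorem coeff_sE (p : C) (w : ℤ × ℤ) : (sE p).coeff w = p.coeff (twE.symm w) := by
  unfold sE
  rw [AddMonoidAlgebra.coeff_mapDomainRingEquiv]
  rfl

theorem sE_single (v : ℤ × ℤ) (n : ℤ) :
    sE (AddMonoidAlgebra.single v n) = AddMonoidAlgebra.single (twist 1 v) n := by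
  unfold sE
  rw [AddMonoidAlgebra.mapDomainRingEquiv_single]
  rfl

/-- `v` is the exponent of `p` with the smallest value of `phi`. -/
def IsMin (p : C) (v : ℤ × ℤ) : Prop := p.coeff v ≠ 0 ∧ ∀ w, p.coeff w ≠ 0 → phi v ≤ phi w

theorem exists_isMin (p : C) (hp : p ≠ 0) : ∃ v, IsMin p v := by
  classical
  have h : p.coeff.support.Nonempty := by
    rw [Finsupp.support_nonempty_iff]
    exact fun h => hp (AddMonoidAlgebra.coeff_eq_zero.1 h)
  obtain ⟨v, hv, hmin⟩ := Finset.exists_min_image p.coeff.support phi h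
  exact ⟨v, Finsupp.mem_support_iff.1 hv, fun w hw => hmin w (Finsupp.mem_support_iff.2 hw)⟩

theorem isMin_unique {p : C} {v w : ℤ × ℤ} (hv : IsMin p v) (hw : IsMin p w) : v = w :=
  phi_inj (le_antisymm (hv.2 w hw.1) (hw.2 v hv.1))

theorem coeff_mul_ne (x y : C) (g : ℤ × ℤ) (h : (x * y).coeff g ≠ 0) :
    ∃ u v, x.coeff u ≠ 0 ∧ y.coeff v ≠ 0 ∧ u + v = g := by
  classical
  have := AddMonoidAlgebra.support_coeff_mul_subset x y (Finsupp.mem_support_iff.2 h)
  obtain ⟨u, hu, v, hv, e⟩ := Finset.mem_add.1 this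
  exact ⟨u, v, Finsupp.mem_support_iff.1 hu, Finsupp.mem_support_iff.1 hv, e⟩

theorem isMin_mul {p q : C} {v w : ℤ × ℤ} (hv : IsMin p v) (hw : IsMin q w) :
    IsMin (p * q) (v + w) := by
  have hu : UniqueAdd p.coeff.support q.coeff.support v w := by
    intro a b ha hb hab
    have h1 := hv.2 a (Finsupp.mem_support_iff.1 ha)
    have h2 := hw.2 b (Finsupp.mem_support_iff.1 hb)
    have h3 : phi a + phi b = phi v + phi w := by rw [← phi_add, ← phi_add, hab]
    exact ⟨phi_inj (by linarith), phi_inj (by linarith)⟩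
  constructor
  · rw [AddMonoidAlgebra.coeff_mul_add_of_uniqueAdd hu]
    exact mul_ne_zero hv.1 hw.1
  · intro u hu
    obtain ⟨a, b, ha, hb, rfl⟩ := coeff_mul_ne p q u hu
    rw [phi_add, phi_add]
    exact add_le_add (hv.2 a ha) (hw.2 b hb)

theorem isMin_sE {p : C} {v : ℤ × ℤ} (hv : IsMin p v) : IsMin (sE p) (twist 1 v) := by
  constructor
  · rw [coeff_sE, ← twE_apply, AddEquiv.symm_apply_apply]
    exact hv.1
  · intro w hw
    rw [coeff_sE] at hw
    have h1 := hv.2 _ hw
    have h2 : phi w = mu ^ 1 * phi (twE.symm w) := by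
      rw [← phi_twist, ← twE_apply, AddEquiv.apply_symm_apply]
    rw [h2, phi_twist]
    exact mul_le_mul_of_nonneg_left h1 (by rw [pow_one]; exact mu_pos.le)

theorem isMin_pow {p : C} {v : ℤ × ℤ} (hv : IsMin p v) (k : ℕ) :
    IsMin ((sE ^ k) p) (twist k v) := by
  induction k with
  | zero => simpa [twist] using hv
  | succ k ih =>
    have h := isMin_sE ih
    rw [twist_twist, Nat.add_comm] at h
    rw [pow_succ', RingAut.mul_apply]
    exact h

theorem mu_gt : 1 < mu := by
  have := Real.goldenConj_neg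
  unfold mu
  linarith

theorem same_min {p q : C} {k : ℕ} (hk : k ≠ 0) (h : (sE ^ k) p * q = p * (sE ^ k) q)
    {v w : ℤ × ℤ} (hv : IsMin p v) (hw : IsMin q w) : v = w := by
  have h1 := isMin_mul (isMin_pow hv k) hw
  have h2 := isMin_mul hv (isMin_pow hw k)
  rw [h] at h1
  have h3 := isMin_unique h1 h2
  have h4 := congrArg phi h3
  rw [phi_add, phi_add, phi_twist, phi_twist] at h4
  have h5 : 1 < mu ^ k := one_lt_pow₀ mu_gt hk
  have h6 : (mu ^ k - 1) * (phi v - phi w) = 0 := by linarith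
  rcases mul_eq_zero.1 h6 with h7 | h7
  · linarith
  · exact phi_inj (by linarith)

/-- A fixed fraction is rational. -/
theorem fix_core {p q : C} {k : ℕ} (hk : k ≠ 0) (hp : p ≠ 0) (hq : q ≠ 0)
    (h : (sE ^ k) p * q = p * (sE ^ k) q) : ∃ a b : ℤ, b ≠ 0 ∧ (b : C) * p = (a : C) * q := by
  obtain ⟨v, hv⟩ := exists_isMin p hp
  obtain ⟨w, hw⟩ := exists_isMin q hq
  have hvw := same_min hk h hv hw
  subst hvw
  refine ⟨p.coeff v, q.coeff v, hw.1, ?_⟩
  by_contra hne
  have hne' : (q.coeff v : C) * p - (p.coeff v : C) * q ≠ 0 := sub_ne_zero.2 hne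
  obtain ⟨u, hu⟩ := exists_isMin _ hne'
  have h' : (sE ^ k) ((q.coeff v : C) * p - (p.coeff v : C) * q) * q =
      ((q.coeff v : C) * p - (p.coeff v : C) * q) * (sE ^ k) q := by
    rw [map_sub, map_mul, map_mul, map_intCast, map_intCast]
    linear_combination (q.coeff v : C) * h
  have huv := same_min hk h' hu hw
  subst huv
  apply hu.1
  have e : ∀ (n : ℤ) (x : C), ((n : C) * x).coeff u = n * x.coeff u := by
    intro n x
    rw [← zsmul_eq_mul, AddMonoidAlgebra.coeff_smul, Finsupp.smul_apply, smul_eq_mul]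
  rw [AddMonoidAlgebra.coeff_sub, Finsupp.sub_apply, e, e]
  ring

/-- The field. -/
abbrev L : Type := FractionRing C

/-- The automorphism of the field. -/
noncomputable def sg : RingAut L := IsFractionRing.ringEquivOfRingEquiv sE

theorem sg_alg (c : C) : sg (algebraMap C L c) = algebraMap C L (sE c) :=
  IsFractionRing.ringEquivOfRingEquiv_algebraMap _ _

theorem sg_pow_alg (k : ℕ) (c : C) :
    (sg ^ k) (algebraMap C L c) = algebraMap C L ((sE ^ k) c) := by
  induction k with
  | zero => simp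
  | succ k ih =>
    rw [pow_succ', RingAut.mul_apply, ih, sg_alg, pow_succ', RingAut.mul_apply]

theorem fixQ_nat (k : ℕ) (hk : k ≠ 0) (x : L) (hx : (sg ^ k) x = x) :
    ∃ p q : ℤ, q ≠ 0 ∧ (q : L) * x = (p : L) := by
  obtain ⟨p, q, hq, rfl⟩ := IsFractionRing.div_surjective (A := C) x
  have hq0 : q ≠ 0 := nonZeroDivisors.ne_zero hq
  have hinj : Function.Injective (algebraMap C L) := IsFractionRing.injective C L
  have hq1 : algebraMap C L q ≠ 0 := fun h => hq0 (hinj (by rw [h, map_zero]))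
  by_cases hp : p = 0
  · exact ⟨0, 1, one_ne_zero, by rw [hp]; simp⟩
  have hsq : algebraMap C L ((sE ^ k) q) ≠ 0 := by
    intro h
    apply hq0
    have h1 : (sE ^ k) q = 0 := hinj (by rw [h, map_zero])
    exact (sE ^ k).injective (by rw [h1, map_zero])
  rw [map_div₀, sg_pow_alg, sg_pow_alg, div_eq_div_iff hsq hq1, ← map_mul, ← map_mul] at hx
  obtain ⟨a, b, hb, hab⟩ := fix_core hk hp hq0 (hinj hx)
  refine ⟨a, b, hb, ?_⟩
  rw [← mul_div_assoc, div_eq_iff hq1]
  have := congrArg (algebraMap C L) hab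
  rwa [map_mul, map_mul, map_intCast, map_intCast] at this

theorem fixQ : FixQ L sg := by
  intro n hn x hx
  rcases Int.lt_or_gt_of_ne hn with h | h
  · obtain ⟨k, hk⟩ := Int.eq_ofNat_of_zero_le (show 0 ≤ -n by omega)
    refine fixQ_nat k (by omega) x ?_
    have h1 : sg ^ k = (sg ^ n)⁻¹ := by
      rw [← zpow_neg, hk, zpow_natCast]
    rw [h1]
    conv_lhs => rw [← hx]
    rw [← RingAut.mul_apply, inv_mul_cancel, RingAut.one_apply]
  · obtain ⟨k, hk⟩ := Int.eq_ofNat_of_zero_le (show 0 ≤ n by omega)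
    refine fixQ_nat k (by omega) x ?_
    rw [hk, zpow_natCast] at hx
    exact hx

theorem specLFX : SpecLFX := by
  refine ⟨L, inferInstance, sg, fun v => algebraMap C L (AddMonoidAlgebra.single v 1), ?_, ?_,
    ?_, ?_, fixQ⟩
  · show algebraMap C L (AddMonoidAlgebra.single 0 1) = 1
    rw [← AddMonoidAlgebra.one_def, map_one]
  · intro v w
    show algebraMap C L (AddMonoidAlgebra.single (v + w) 1) = _
    rw [← map_mul, AddMonoidAlgebra.single_mul_single, one_mul]
  · intro v
    show sg (algebraMap C L (AddMonoidAlgebra.single v 1)) = _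
    rw [sg_alg, sE_single]
  · intro f hf
    have h1 : (f.sum fun v n => (n : L) * algebraMap C L (AddMonoidAlgebra.single v 1)) =
        algebraMap C L (AddMonoidAlgebra.ofCoeff f) := by
      have h2 : AddMonoidAlgebra.ofCoeff f = f.sum fun v n => AddMonoidAlgebra.single v n := by
        rw [← AddMonoidAlgebra.sum_coeff_single (AddMonoidAlgebra.ofCoeff f)]
      rw [h2, Finsupp.sum, Finsupp.sum, map_sum]
      refine Finset.sum_congr rfl fun v _ => ?_
      rw [← map_intCast (algebraMap C L), ← map_mul, ← zsmul_eq_mul,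
        AddMonoidAlgebra.smul_single, smul_eq_mul, mul_one]
    rw [h1] at hf
    have h3 : AddMonoidAlgebra.ofCoeff f = 0 :=
      IsFractionRing.injective C L (by rw [hf, map_zero])
    exact AddMonoidAlgebra.ofCoeff_eq_zero.1 h3

end Pool.Agent.Lib.MP_39893a_lc.OV.LFXM
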