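import Pool.Agent.Lib.MP_39893a_lc.OV.Spec
import Pool.Agent.Lib.MP_39893a_lc.ORD.INJ
import Pool.Agent.Lib.MP_39893a_lc.ORD.SEM
import Pool.Agent.Lib.MP_39893a_lc.OV.SpecB

section
/-!
# Derivations and lists of lines (MP_39893a_lc, hive OV, module ENCI)
-/
set_option autoImplicit false

namespace Pool.Agent.Lib.MP_39893a_lc.OV.ENCIM

open Finset ORD

/-! ## Values -/

theorem val_cbr (hV : SpecVAL) (p q : CP) : (cbr p q).val = br p.val q.val := by
  unfold cbr br
  rw [ENCM.val_csub hV, ENCM.val_mul hV, ENCM.val_mul hV]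

theorem val_ccom (hV : SpecVAL) (p q e : CP) :
    (csub (cops.mul (cbr p q) e) (cops.nat 1)).val = br p.val q.val * e.val - 1 := by
  rw [ENCM.val_csub hV, ENCM.val_mul hV, val_cbr hV, ENCM.val_nat hV, Nat.cast_one]

/-! ## Correct lists -/

/-- all lines are correct -/
def Good (N : ℕ) (hy : List CP) (L : List LineI) : Prop :=
  ∀ i < L.length, ∀ l ∈ (L.drop i).head?, l.Ok N (hy ++ (L.drop (i + 1)).map LineI.p)

theorem good_nil (N : ℕ) (hy : List CP) : Good N hy [] := fun i hi => absurd hi (Nat.not_lt_zero i)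

theorem good_cons (N : ℕ) (hy : List CP) (l : LineI) (L : List LineI) :
    Good N hy (l :: L) ↔ l.Ok N (hy ++ L.map LineI.p) ∧ Good N hy L := by
  constructor
  · intro h
    refine ⟨h 0 (by simp) l (by simp), fun i hi m hm => ?_⟩
    have := h (i + 1) (by simpa using hi) m (by simpa using hm)
    simpa using this
  · rintro ⟨h1, h2⟩ i hi m hm
    cases i with
    | zero =>
      have : l = m := by simpa using hm
      subst this
      simpa using h1
    | succ i =>
      have := h2 i (by simpa using hi) m (by simpa using hm)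
      simpa using this

/-- more available polynomials -/
theorem ok_mono (N : ℕ) (av bv : List CP) (l : LineI) (h : l.Ok N av) : l.Ok N (av ++ bv) := by
  have hg : ∀ k < av.length, (av ++ bv).getD k (cops.nat 0) = av.getD k (cops.nat 0) := by
    intro k hk
    rw [List.getD_eq_getElem?_getD, List.getD_eq_getElem?_getD, List.getElem?_append_left hk]
  have hl : av.length ≤ (av ++ bv).length := by simp
  unfold LineI.Ok at h ⊢
  by_cases hk : l.kind = 0
  · rw [if_pos hk] at h ⊢
    obtain ⟨h1, h2⟩ := h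
    refine ⟨fun q hq => (h1 q hq).trans_le hl, ?_⟩
    have h3 : l.cb.foldr (fun q s => cops.add (cops.mul (cops.mul q.1
        ((av ++ bv).getD q.2.1 (cops.nat 0))) q.2.2) s) (cops.nat 0) =
        l.cb.foldr (fun q s => cops.add (cops.mul (cops.mul q.1
        (av.getD q.2.1 (cops.nat 0))) q.2.2) s) (cops.nat 0) := by
      clear h2
      revert h1
      generalize l.cb = cb
      intro h1
      induction cb with
      | nil => rfl
      | cons q m ih =>
        rw [List.foldr_cons, List.foldr_cons, ih fun q' hq' => h1 q' (List.mem_cons_of_mem _ hq'),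
          hg _ (h1 q List.mem_cons_self)]
    rw [h3]
    exact h2
  · rw [if_neg hk] at h ⊢
    by_cases hk1 : l.kind = 1
    · rw [if_pos hk1] at h ⊢
      exact h
    · rw [if_neg hk1] at h ⊢
      obtain ⟨h1, h2⟩ := h
      refine ⟨fun i hi => ?_, h2⟩
      obtain ⟨h3, h4⟩ := h1 i hi
      refine ⟨h3.trans_le hl, ?_⟩
      rw [hg _ h3]
      exact h4

theorem good_append (N : ℕ) (hy : List CP) (M L : List LineI) (hM : Good N hy M)
    (hL : Good N hy L) : Good N hy (M ++ L) := by
  induction M with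
  | nil => exact hL
  | cons l M ih =>
    rw [good_cons] at hM
    rw [List.cons_append, good_cons]
    refine ⟨?_, ih hM.2⟩
    rw [List.map_append, ← List.append_assoc]
    exact ok_mono N _ _ l hM.1

/-! ## Soundness -/

theorem der_congr {H : Set FR} {p q : FR} (h : DerI H p) (e : p = q) : DerI H q := e ▸ h

theorem der_zero (H : Set FR) : DerI H 0 := by
  have := DerI.comb (H := H) 0 (fun _ => 0) (fun _ => 0) (fun _ => 0) (fun i => i.elim0)
  simpa using this

theorem der_step {H : Set FR} {a b : FR} (u v : FR) (ha : DerI H a) (hb : DerI H b) :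
    DerI H (u * a * v + b) := by
  have := DerI.comb (H := H) 2 ![u, 1] ![a, b] ![v, 1] (by
    intro i
    fin_cases i
    · exact ha
    · exact hb)
  refine der_congr this ?_
  rw [Fin.sum_univ_two]
  simp

theorem prems_two (l : LineI) (hk : l.kind = 2) : l.prems =
    [cbr (l.g 0) (l.g 3), cbr (l.g 2) (l.g 3), cbr (l.g 2) (l.g 1),
      csub (cops.mul (cbr (l.g 2) (l.g 4)) (l.g 6)) (cops.nat 1),
      csub (cops.mul (cbr (l.g 3) (l.g 5)) (l.g 7)) (cops.nat 1)] := by
  unfold LineI.prems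
  rw [if_pos hk]

theorem prems_other (l : LineI) (hk : l.kind ≠ 2) : l.prems =
    [cbr (l.g 0) (l.g 2), cbr (l.g 0) (l.g 3),
      csub (cops.mul (cbr (l.g 2) (l.g 3)) (l.g 4)) (cops.nat 1)] := by
  unfold LineI.prems
  rw [if_neg hk]

theorem ok_der (hV : SpecVAL) (N : ℕ) {H : Set FR} (hH : InvAx N ⊆ H) (av : List CP)
    (hav : ∀ q ∈ av, DerI H q.val) (l : LineI) (h : l.Ok N av) : DerI H l.p.val := by
  unfold LineI.Ok at h
  by_cases hk : l.kind = 0
  · rw [if_pos hk] at h
    obtain ⟨h1, h2⟩ := h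
    rw [ENCM.csub_zero hV, ENCM.val_foldr hV] at h2
    rw [h2]
    clear h2
    revert h1
    generalize l.cb = cb
    intro h1
    induction cb with
    | nil => exact der_congr (der_zero H) (by simp)
    | cons q m ih =>
      rw [List.map_cons, List.sum_cons]
      exact der_step _ _ (hav _ (ENCM.getD_mem _ _ (h1 q List.mem_cons_self)))
        (ih fun q' hq' => h1 q' (List.mem_cons_of_mem _ hq'))
  · rw [if_neg hk] at h
    by_cases hk1 : l.kind = 1
    · rw [if_pos hk1] at h
      obtain ⟨h1, h2, h3⟩ := h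
      refine DerI.hyp _ (hH ⟨l.g 0, h1, h2, ?_⟩)
      rcases h3 with h3 | h3
      · left
        rw [ENCM.csub_zero hV, ENCM.val_csub hV, ENCM.val_mul hV, ENCM.val_nat hV, Nat.cast_one,
          hV.2.2.2.2.1] at h3
        exact h3
      · right
        rw [ENCM.csub_zero hV, ENCM.val_csub hV, ENCM.val_mul hV, ENCM.val_nat hV, Nat.cast_one,
          hV.2.2.2.2.1] at h3
        exact h3
    · rw [if_neg hk1] at h
      obtain ⟨h1, h2⟩ := h
      rw [ENCM.csub_zero hV, val_cbr hV] at h2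
      have hp : ∀ q ∈ l.prems, DerI H q.val := by
        intro q hq
        obtain ⟨i, hi, rfl⟩ := List.mem_iff_getElem.1 hq
        obtain ⟨h3, h4⟩ := h1 i hi
        rw [ENCM.csub_zero hV, List.getD_eq_getElem _ _ hi] at h4
        rw [h4]
        exact hav _ (ENCM.getD_mem _ _ h3)
      rw [h2]
      by_cases hk2 : l.kind = 2
      · rw [prems_two l hk2] at hp
        refine DerI.ct _ _ (l.g 2).val (l.g 3).val (l.g 4).val (l.g 5).val (l.g 6).val (l.g 7).val
          ?_ ?_ ?_ ?_ ?_
        · rw [← val_cbr hV]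
          exact hp _ (by simp)
        · rw [← val_cbr hV]
          exact hp _ (by simp)
        · rw [← val_cbr hV]
          exact hp _ (by simp)
        · rw [← val_ccom hV]
          exact hp _ (by simp)
        · rw [← val_ccom hV]
          exact hp _ (by simp)
      · rw [prems_other l hk2] at hp
        refine DerI.cen _ _ (l.g 2).val (l.g 3).val (l.g 4).val ?_ ?_ ?_
        · rw [← val_cbr hV]
          exact hp _ (by simp)
        · rw [← val_cbr hV]
          exact hp _ (by simp)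
        · rw [← val_ccom hV]
          exact hp _ (by simp)

theorem good_der (hV : SpecVAL) (N : ℕ) (hy : List CP) (L : List LineI) (h : Good N hy L) :
    ∀ l ∈ L, DerI ({f | ∃ h ∈ hy, f = h.val} ∪ InvAx N) l.p.val := by
  induction L with
  | nil => simp
  | cons l L ih =>
    rw [good_cons] at h
    have h1 := ih h.2
    have h2 : ∀ q ∈ hy ++ L.map LineI.p, DerI ({f | ∃ h ∈ hy, f = h.val} ∪ InvAx N) q.val := by
      intro q hq
      rcases List.mem_append.1 hq with hq | hq
      · exact DerI.hyp _ (Or.inl ⟨q, hq, rfl⟩)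
      · obtain ⟨m, hm, rfl⟩ := List.mem_map.1 hq
        exact h1 m hm
    intro m hm
    rcases List.mem_cons.1 hm with rfl | hm
    · exact ok_der hV N Set.subset_union_right _ h2 _ h.1
    · exact h1 m hm

/-! ## Completeness -/

/-- `f` has a proof -/
def Pv (N : ℕ) (hy : List CP) (f : FR) : Prop := ∀ p : CP, p.val = f → ∃ L, PrfI N hy p L

theorem combine (hV : SpecVAL) (N : ℕ) (hy : List CP) (fs : List FR) (h : ∀ f ∈ fs, Pv N hy f) :
    ∃ M, Good N hy M ∧ ∀ f ∈ fs, ∃ k, ENCM.Has (hy ++ M.map LineI.p) f k := by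
  induction fs with
  | nil => exact ⟨[], good_nil N hy, by simp⟩
  | cons f fs ih =>
    obtain ⟨M, hM, hM'⟩ := ih fun g hg => h g (List.mem_cons_of_mem _ hg)
    obtain ⟨p, hp⟩ := hV.2.2.1 f
    obtain ⟨L, hL0, hL, hL1⟩ := h f List.mem_cons_self p hp
    refine ⟨M ++ L, good_append N hy M L hM hL, ?_⟩
    intro g hg
    rcases List.mem_cons.1 hg with rfl | hg
    · cases L with
      | nil => exact absurd hL0 (by simp)
      | cons l L =>
        refine ⟨(hy ++ M.map LineI.p).length, ?_, ?_⟩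
        · rw [List.map_append, List.map_cons]
          simp only [List.length_append, List.length_cons, List.length_map]
          omega
        · have h2 := hL1 l (by simp)
          rw [ENCM.csub_zero hV] at h2
          rw [List.map_append, ← List.append_assoc, List.getD_eq_getElem?_getD,
            List.getElem?_append_right (le_refl _)]
          simp only [Nat.sub_self, List.map_cons, List.getElem?_cons_zero, Option.getD_some]
          rw [← h2, hp]
    · obtain ⟨k, hk⟩ := hM' g hg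
      refine ⟨k, ?_⟩
      rw [List.map_append, ← List.append_assoc]
      exact ENCM.has_append _ _ _ _ hk

/-- adding a line -/
theorem finish (hV : SpecVAL) (N : ℕ) (hy : List CP) (M : List LineI) (hM : Good N hy M)
    (l : LineI) (hl : l.Ok N (hy ++ M.map LineI.p)) : PrfI N hy l.p (l :: M) := by
  refine ⟨by simp, (good_cons N hy l M).2 ⟨hl, hM⟩, ?_⟩
  intro m hm
  have : l = m := by simpa using hm
  subst this
  rw [ENCM.csub_zero hV]

/-- A line of kind `≥ 2` is correct if its premises are available. -/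
theorem ok_rule (hV : SpecVAL) (N : ℕ) (av : List CP) (l : LineI) (h0 : l.kind ≠ 0)
    (h1 : l.kind ≠ 1) (hp : ∀ i < l.prems.length,
      ENCM.Has av (l.prems.getD i (cops.nat 0)).val (l.rf i))
    (hc : l.p.val = br (l.g 0).val (l.g 1).val) : l.Ok N av := by
  unfold LineI.Ok
  rw [if_neg h0, if_neg h1]
  refine ⟨fun i hi => ⟨(hp i hi).1, ?_⟩, ?_⟩
  · rw [ENCM.csub_zero hV, (hp i hi).2]
  · rw [ENCM.csub_zero hV, val_cbr hV]
    exact hc

theorem pv_of_der (hV : SpecVAL) (N : ℕ) (hy : List CP) (f : FR)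
    (h : DerI ({f | ∃ h ∈ hy, f = h.val} ∪ InvAx N) f) : Pv N hy f := by
  induction h with
  | hyp f hf =>
    intro p hp
    rcases hf with hf | hf
    · obtain ⟨q, hq, rfl⟩ := hf
      obtain ⟨k, hk, hk'⟩ := List.mem_iff_getElem.1 hq
      let l : LineI := (p, 0, [(cops.nat 1, k, cops.nat 1)], [], [])
      refine ⟨[l], finish hV N hy [] (good_nil N hy) l ?_⟩
      unfold LineI.Ok
      rw [if_pos (show l.kind = 0 from rfl)]
      refine ⟨?_, ?_⟩
      · intro r hr
        have : r = (cops.nat 1, k, cops.nat 1) := by simpa [l, LineI.cb] using hr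
        subst this
        simpa using hk
      · rw [ENCM.csub_zero hV, ENCM.val_foldr hV]
        show p.val = (List.map _ [(cops.nat 1, k, cops.nat 1)]).sum
        simp only [List.map_nil, List.append_nil, List.map_cons, List.sum_cons, List.sum_nil,
          add_zero]
        rw [ENCM.val_nat hV, List.getD_eq_getElem _ _ hk, hk', hp]
        simp
    · obtain ⟨c, hc, hc0, hf⟩ := hf
      let l : LineI := (p, 1, [], [c], [])
      refine ⟨[l], finish hV N hy [] (good_nil N hy) l ?_⟩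
      unfold LineI.Ok
      rw [if_neg (show ¬ l.kind = 0 from by show ¬ ((1 : ℕ) = 0); decide),
        if_pos (show l.kind = 1 from rfl)]
      have hg : l.g 0 = c := rfl
      have hlp : l.p = p := rfl
      rw [hg, hlp, ENCM.csub_zero hV, ENCM.csub_zero hV, ENCM.val_csub hV, ENCM.val_csub hV,
        ENCM.val_mul hV, ENCM.val_mul hV, ENCM.val_nat hV, Nat.cast_one, hV.2.2.2.2.1, hp]
      exact ⟨hc, hc0, hf⟩
  | comb n u P v hP ih =>
    intro p hp
    obtain ⟨M, hM, hM'⟩ := combine hV N hy (List.ofFn P) (by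
      intro f hf
      obtain ⟨i, rfl⟩ := (List.mem_ofFn' P f).1 hf
      exact ih i)
    have h1 : ∀ i : Fin n, ∃ k, ENCM.Has (hy ++ M.map LineI.p) (P i) k := fun i =>
      hM' _ ((List.mem_ofFn' P _).2 ⟨i, rfl⟩)
    choose r hr using h1
    choose cu hcu using fun i => hV.2.2.1 (u i)
    choose cv hcv using fun i => hV.2.2.1 (v i)
    let l : LineI := (p, 0, List.ofFn fun i => (cu i, r i, cv i), [], [])
    refine ⟨l :: M, finish hV N hy M hM l ?_⟩
    unfold LineI.Ok
    rw [if_pos (show l.kind = 0 from rfl)]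
    have hcb : l.cb = List.ofFn fun i => (cu i, r i, cv i) := rfl
    rw [hcb]
    refine ⟨?_, ?_⟩
    · intro q hq
      obtain ⟨i, rfl⟩ := (List.mem_ofFn' _ _).1 hq
      exact (hr i).1
    · rw [ENCM.csub_zero hV, ENCM.val_foldr hV]
      show p.val = _
      rw [hp, List.map_ofFn, List.sum_ofFn]
      refine Finset.sum_congr rfl fun i _ => ?_
      simp only [Function.comp]
      rw [hcu, hcv, (hr i).2]
  | ct p q s₁ s₂ h₁ h₂ e₁ e₂ d1 d2 d3 d4 d5 ih1 ih2 ih3 ih4 ih5 =>
    intro P hP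
    obtain ⟨M, hM, hM'⟩ := combine hV N hy [br p s₂, br s₁ s₂, br s₁ q, br s₁ h₁ * e₁ - 1,
      br s₂ h₂ * e₂ - 1] (by
      intro f hf
      simp only [List.mem_cons, List.not_mem_nil, or_false] at hf
      rcases hf with rfl | rfl | rfl | rfl | rfl
      · exact ih1
      · exact ih2
      · exact ih3
      · exact ih4
      · exact ih5)
    obtain ⟨k0, hk0⟩ := hM' (br p s₂) (by simp)
    obtain ⟨k1, hk1⟩ := hM' (br s₁ s₂) (by simp)
    obtain ⟨k2, hk2⟩ := hM' (br s₁ q) (by simp)
    obtain ⟨k3, hk3⟩ := hM' (br s₁ h₁ * e₁ - 1) (by simp)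
    obtain ⟨k4, hk4⟩ := hM' (br s₂ h₂ * e₂ - 1) (by simp)
    obtain ⟨cp, hcp⟩ := hV.2.2.1 p
    obtain ⟨cq, hcq⟩ := hV.2.2.1 q
    obtain ⟨cs₁, hcs₁⟩ := hV.2.2.1 s₁
    obtain ⟨cs₂, hcs₂⟩ := hV.2.2.1 s₂
    obtain ⟨ch₁, hch₁⟩ := hV.2.2.1 h₁
    obtain ⟨ch₂, hch₂⟩ := hV.2.2.1 h₂
    obtain ⟨ce₁, hce₁⟩ := hV.2.2.1 e₁
    obtain ⟨ce₂, hce₂⟩ := hV.2.2.1 e₂
    let l : LineI := (P, 2, [], [cp, cq, cs₁, cs₂, ch₁, ch₂, ce₁, ce₂], [k0, k1, k2, k3, k4])
    refine ⟨l :: M, finish hV N hy M hM l ?_⟩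
    have hk : l.kind = 2 := rfl
    have hpr : l.prems = [cbr cp cs₂, cbr cs₁ cs₂, cbr cs₁ cq,
        csub (cops.mul (cbr cs₁ ch₁) ce₁) (cops.nat 1),
        csub (cops.mul (cbr cs₂ ch₂) ce₂) (cops.nat 1)] := prems_two l hk
    refine ok_rule hV N _ l (by rw [hk]; decide) (by rw [hk]; decide) ?_ ?_
    · rw [hpr]
      intro i hi
      have hi5 : i < 5 := hi
      interval_cases i
      · show ENCM.Has _ (cbr cp cs₂).val k0
        rw [val_cbr hV, hcp, hcs₂]
        exact hk0
      · show ENCM.Has _ (cbr cs₁ cs₂).val k1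
        rw [val_cbr hV, hcs₁, hcs₂]
        exact hk1
      · show ENCM.Has _ (cbr cs₁ cq).val k2
        rw [val_cbr hV, hcs₁, hcq]
        exact hk2
      · show ENCM.Has _ (csub (cops.mul (cbr cs₁ ch₁) ce₁) (cops.nat 1)).val k3
        rw [val_ccom hV, hcs₁, hch₁, hce₁]
        exact hk3
      · show ENCM.Has _ (csub (cops.mul (cbr cs₂ ch₂) ce₂) (cops.nat 1)).val k4
        rw [val_ccom hV, hcs₂, hch₂, hce₂]
        exact hk4
    · show P.val = br cp.val cq.val
      rw [hP, hcp, hcq]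
  | cen p q h₁ h₂ e d1 d2 d3 ih1 ih2 ih3 =>
    intro P hP
    obtain ⟨M, hM, hM'⟩ := combine hV N hy [br p h₁, br p h₂, br h₁ h₂ * e - 1] (by
      intro f hf
      simp only [List.mem_cons, List.not_mem_nil, or_false] at hf
      rcases hf with rfl | rfl | rfl
      · exact ih1
      · exact ih2
      · exact ih3)
    obtain ⟨k0, hk0⟩ := hM' (br p h₁) (by simp)
    obtain ⟨k1, hk1⟩ := hM' (br p h₂) (by simp)
    obtain ⟨k2, hk2⟩ := hM' (br h₁ h₂ * e - 1) (by simp)
    obtain ⟨cp, hcp⟩ := hV.2.2.1 p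
    obtain ⟨cq, hcq⟩ := hV.2.2.1 q
    obtain ⟨ch₁, hch₁⟩ := hV.2.2.1 h₁
    obtain ⟨ch₂, hch₂⟩ := hV.2.2.1 h₂
    obtain ⟨ce, hce⟩ := hV.2.2.1 e
    let l : LineI := (P, 3, [], [cp, cq, ch₁, ch₂, ce], [k0, k1, k2])
    refine ⟨l :: M, finish hV N hy M hM l ?_⟩
    have hk : l.kind = 3 := rfl
    have hpr : l.prems = [cbr cp ch₁, cbr cp ch₂,
        csub (cops.mul (cbr ch₁ ch₂) ce) (cops.nat 1)] := prems_other l (by rw [hk]; decide)
    refine ok_rule hV N _ l (by rw [hk]; decide) (by rw [hk]; decide) ?_ ?_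
    · rw [hpr]
      intro i hi
      have hi3 : i < 3 := hi
      interval_cases i
      · show ENCM.Has _ (cbr cp ch₁).val k0
        rw [val_cbr hV, hcp, hch₁]
        exact hk0
      · show ENCM.Has _ (cbr cp ch₂).val k1
        rw [val_cbr hV, hcp, hch₂]
        exact hk1
      · show ENCM.Has _ (csub (cops.mul (cbr ch₁ ch₂) ce) (cops.nat 1)).val k2
        rw [val_ccom hV, hch₁, hch₂, hce]
        exact hk2
    · show P.val = br cp.val cq.val
      rw [hP, hcp, hcq]

theorem specENCI (hV : SpecVAL) : SpecENCI := by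
  refine ⟨fun N hy p L hL => ?_, fun N hy p h => pv_of_der hV N hy p.val h p rfl⟩
  obtain ⟨h0, h1, h2⟩ := hL
  cases L with
  | nil => exact absurd h0 (by simp)
  | cons l L =>
    have h3 := h2 l (by simp)
    rw [ENCM.csub_zero hV] at h3
    rw [h3]
    exact good_der hV N hy (l :: L) h1 l List.mem_cons_self

end Pool.Agent.Lib.MP_39893a_lc.OV.ENCIM
end

section
/-! Module FOT: right-hand sides as nets. -/
set_option autoImplicit false

namespace Pool.Agent.Lib.MP_39893a_lc.OV.FOTM

open Finset ORD OV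

section nets

variable {S : Type} [Ring S] (nQ nB : ℕ) (x : ℕ → ℕ → ℕ → S) (l : ℕ → ℕ → S)
  (E : ℕ → ℕ → ℕ → ℕ → S)

theorem nv_smul (L : List ℕ) (a lam : S) (U : ℕ → ℕ → S) :
    nv nQ nB x l E L (a * lam) (fun j q => a * U j q) = a * nv nQ nB x l E L lam U := by
  induction L with
  | nil => rfl
  | cons i L ih =>
    show nv nQ nB x l E L (a * lam) (fun j q => a * U j q) + _ = a * (_ + _)
    rw [ih, mul_add, Finset.mul_sum]
    congr 1
    refine Finset.sum_congr rfl fun q _ => ?_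
    rw [mul_assoc]

theorem nv_add (L : List ℕ) (lam lam' : S) (U U' : ℕ → ℕ → S) :
    nv nQ nB x l E L (lam + lam') (fun j q => U j q + U' j q) =
      nv nQ nB x l E L lam U + nv nQ nB x l E L lam' U' := by
  induction L with
  | nil => rfl
  | cons i L ih =>
    show nv nQ nB x l E L (lam + lam') (fun j q => U j q + U' j q) + _ = (_ + _) + (_ + _)
    rw [ih]
    have : ∀ q, (U i q + U' i q) * ∑ b ∈ range nB, x i q b * nv nQ nB x l E L (l i b) (E i b) =
        U i q * ∑ b ∈ range nB, x i q b * nv nQ nB x l E L (l i b) (E i b) +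
        U' i q * ∑ b ∈ range nB, x i q b * nv nQ nB x l E L (l i b) (E i b) := fun q => add_mul _ _ _
    rw [Finset.sum_congr rfl fun q _ => this q, Finset.sum_add_distrib]
    abel

theorem nv_skip (pre L : List ℕ) (lam : S) (U : ℕ → ℕ → S) (h : ∀ j ∈ pre, ∀ q, U j q = 0) :
    nv nQ nB x l E (pre ++ L) lam U = nv nQ nB x l E L lam U := by
  induction pre with
  | nil => rfl
  | cons i pre ih =>
    show nv nQ nB x l E (pre ++ L) lam U + _ = _
    rw [ih fun j hj => h j (List.mem_cons_of_mem _ hj)]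
    rw [Finset.sum_eq_zero, add_zero]
    intro q _
    rw [h i List.mem_cons_self q, zero_mul]

theorem nv_const (L : List ℕ) (lam : S) (U : ℕ → ℕ → S) (h : ∀ j ∈ L, ∀ q, U j q = 0) :
    nv nQ nB x l E L lam U = lam := by
  have := nv_skip nQ nB x l E L [] lam U h
  rwa [List.append_nil] at this

theorem nv_sum (L : List ℕ) {n : ℕ} (lam : Fin n → S) (U : Fin n → ℕ → ℕ → S) :
    nv nQ nB x l E L (∑ t, lam t) (fun j q => ∑ t, U t j q) =
      ∑ t, nv nQ nB x l E L (lam t) (U t) := by
  induction n with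
  | zero =>
    rw [Fin.sum_univ_zero, Fin.sum_univ_zero]
    exact nv_const nQ nB x l E L 0 _ fun j _ q => Fin.sum_univ_zero _
  | succ n ih =>
    rw [Fin.sum_univ_succ, Fin.sum_univ_succ, ← ih, ← nv_add]
    congr 1
    funext j q
    rw [Fin.sum_univ_succ]

end nets

theorem UT_below {S : Type} [Ring S] (φ : Mo →* S) (ρ : ℕ → ℕ) (k : ℕ) (ζ : Rhs)
    (h : ζ.Below ρ k) (j q : ℕ) (hj : ¬ ρ j < k) : UT φ ζ j q = 0 := by
  induction ζ with
  | param p => rfl
  | out b r c ih =>
    show ∑ l : Fin r, φ (letter (Nat.pair b l)) * UT φ (c l) j q = 0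
    refine Finset.sum_eq_zero fun l _ => ?_
    rw [ih l (h l), mul_zero]
  | call q' i' n c ih =>
    show (if j = i' ∧ q = q' then (1 : S) else 0) = 0
    rw [if_neg]
    rintro ⟨rfl, _⟩
    exact hj h.1

/-- The value of the form. -/
def Vl {S : Type} [Ring S] (P off : ℕ) (φ : Mo →* S) (bl : List (List S)) (v : ℕ → S)
    (ζ : Rhs) : S := ∑ j ∈ range (P + 1), fo P off φ bl ζ j * v j

section
variable {S : Type} [Ring S] (P off : ℕ) (φ : Mo →* S) (bl : List (List S)) (v : ℕ → S)

theorem Vl_param (p : ℕ) (hp : p < P) : Vl P off φ bl v (.param p) = v (p + 1) := by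
  unfold Vl
  rw [Finset.sum_eq_single (p + 1)]
  · show (if p + 1 = p + 1 then (1 : S) else 0) * v (p + 1) = _
    rw [if_pos rfl, one_mul]
  · intro j _ hj
    show (if j = p + 1 then (1 : S) else 0) * v j = 0
    rw [if_neg hj, zero_mul]
  · intro h
    exact absurd (Finset.mem_range.mpr (by omega)) h

theorem sum_head (P : ℕ) (a : S) (v : ℕ → S) :
    ∑ j ∈ range (P + 1), (if j = 0 then a else 0) * v j = a * v 0 := by
  rw [Finset.sum_eq_single 0]
  · rw [if_pos rfl]
  · intro j _ hj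
    rw [if_neg hj, zero_mul]
  · intro h
    exact absurd (Finset.mem_range.mpr (Nat.succ_pos _)) h

theorem sum_body (P : ℕ) {n : ℕ} (a : Fin n → S) (f : Fin n → ℕ → S) (v : ℕ → S) :
    ∑ j ∈ range (P + 1), (∑ l : Fin n, a l * f l j) * v j =
      ∑ l : Fin n, a l * ∑ j ∈ range (P + 1), f l j * v j := by
  calc _ = ∑ j ∈ range (P + 1), ∑ l : Fin n, a l * (f l j * v j) := by
        refine Finset.sum_congr rfl fun j _ => ?_
        rw [Finset.sum_mul]
        exact Finset.sum_congr rfl fun l _ => mul_assoc _ _ _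
    _ = _ := by
        rw [Finset.sum_comm]
        refine Finset.sum_congr rfl fun l _ => ?_
        rw [Finset.mul_sum]

theorem Vl_out (b r : ℕ) (c : Fin r → Rhs) : Vl P off φ bl v (.out b r c) =
    ((b + 1 : ℕ) : S) * v 0 + ∑ l : Fin r, φ (letter (Nat.pair b l)) * Vl P off φ bl v (c l) := by
  unfold Vl
  have : ∀ j, fo P off φ bl (.out b r c) j * v j = (if j = 0 then ((b + 1 : ℕ) : S) else 0) * v j +
      (∑ l : Fin r, φ (letter (Nat.pair b l)) * fo P off φ bl (c l) j) * v j :=
    fun j => add_mul _ _ _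
  rw [Finset.sum_congr rfl fun j _ => this j, Finset.sum_add_distrib, sum_head, sum_body]

theorem Vl_call (q i n : ℕ) (c : Fin n → Rhs) : Vl P off φ bl v (.call q i n c) =
    (bl.getD i []).getD (pos P (off + q) 0) 0 * v 0 +
      ∑ l : Fin n, (bl.getD i []).getD (pos P (off + q) (l + 1)) 0 * Vl P off φ bl v (c l) := by
  unfold Vl
  have : ∀ j, fo P off φ bl (.call q i n c) j * v j =
      (if j = 0 then (bl.getD i []).getD (pos P (off + q) 0) 0 else 0) * v j +
      (∑ l : Fin n, (bl.getD i []).getD (pos P (off + q) (l + 1)) 0 *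
        fo P off φ bl (c l) j) * v j :=
    fun j => add_mul _ _ _
  rw [Finset.sum_congr rfl fun j _ => this j, Finset.sum_add_distrib, sum_head, sum_body]

end

theorem specFOT : SpecFOT := by
  intro S _ P off r nQ φ bl v B pr rl V W ar ρ L hP hnQ hVis hL hLr ζ hζ hWF
  obtain ⟨m, hm, hWF⟩ := hWF
  set x : ℕ → ℕ → ℕ → S := fun i q b => (bl.getD i []).getD (pos P (off + q) b) 0 with hx
  change Vl P off φ bl v ζ = nv nQ (P + 1) x (lN φ v ar) (EN φ ar) L (lamT φ v ζ) (UT φ ζ)
  induction ζ with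
  | param p =>
    rw [Vl_param P off φ bl v p (lt_of_lt_of_le hWF (hP m hm))]
    exact (nv_const nQ (P + 1) x (lN φ v ar) (EN φ ar) L (lamT φ v (.param p))
      (UT φ (.param p)) (fun j _ q => rfl)).symm
  | out b k c ih =>
    rw [Vl_out]
    have h1 : nv nQ (P + 1) x (lN φ v ar) (EN φ ar) L (lamT φ v (.out b k c))
        (UT φ (.out b k c)) = nv nQ (P + 1) x (lN φ v ar) (EN φ ar) L
        (((b + 1 : ℕ) : S) * v 0 + ∑ l : Fin k, φ (letter (Nat.pair b l)) * lamT φ v (c l))
        (fun j q => 0 + ∑ l : Fin k, φ (letter (Nat.pair b l)) * UT φ (c l) j q) := by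
      congr 1
      funext j q
      rw [zero_add]
      rfl
    rw [h1, nv_add, nv_sum, nv_const nQ (P + 1) x (lN φ v ar) (EN φ ar) L _ _ (fun j _ q => rfl)]
    congr 1
    refine Finset.sum_congr rfl fun l _ => ?_
    rw [nv_smul, ih l (hζ l) (hWF.2 l)]
  | call q i n c ih =>
    obtain ⟨hW, har, hc⟩ := hζ
    obtain ⟨hq, hi, hcw⟩ := hWF
    have hqlt : q < nQ := lt_of_lt_of_le (List.getElem?_eq_some_iff.mp hq).1 hnQ
    have hnP : n ≤ P := hP n (List.mem_of_getElem? hq)
    have hiL : i ∈ L := (hLr i).mpr hi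
    obtain ⟨pre, L', hsplit⟩ := List.append_of_mem hiL
    rw [hsplit] at hL
    have hpre : ∀ j ∈ pre, ρ i < ρ j := fun j hj =>
      (List.pairwise_append.mp hL).2.2 j hj i List.mem_cons_self
    have hL' : ∀ j ∈ L', ρ j < ρ i := by
      have := (List.pairwise_append.mp hL).2.1
      exact (List.pairwise_cons.mp this).1
    -- the arguments
    have harg : ∀ l : Fin n, nv nQ (P + 1) x (lN φ v ar) (EN φ ar) L (lamT φ v (c l)) (UT φ (c l)) =
        nv nQ (P + 1) x (lN φ v ar) (EN φ ar) L' (lamT φ v (c l)) (UT φ (c l)) := by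
      intro l
      have hmem : c l ∈ ar i := by
        rw [← har]
        exact (List.mem_ofFn' c (c l)).mpr ⟨l, rfl⟩
      have hb := hVis.below i (c l) hmem
      have e : L = (pre ++ [i]) ++ L' := by rw [hsplit]; simp
      rw [e, nv_skip]
      intro j hj q'
      apply UT_below φ ρ (ρ i) (c l) hb
      rcases List.mem_append.mp hj with h | h
      · exact not_lt.mpr (hpre j h).le
      · rw [List.mem_singleton.mp h]
        exact lt_irrefl _
    rw [Vl_call]
    have hR : nv nQ (P + 1) x (lN φ v ar) (EN φ ar) L (lamT φ v (.call q i n c))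
        (UT φ (.call q i n c)) = ∑ b ∈ range (P + 1), x i q b *
          nv nQ (P + 1) x (lN φ v ar) (EN φ ar) L' (lN φ v ar i b) (EN φ ar i b) := by
      rw [hsplit, nv_skip]
      · show nv nQ (P + 1) x (lN φ v ar) (EN φ ar) L' 0 (UT φ (.call q i n c)) + _ = _
        rw [nv_const, zero_add, Finset.sum_eq_single q]
        · show (if i = i ∧ q = q then (1 : S) else 0) * _ = _
          rw [if_pos ⟨rfl, rfl⟩, one_mul]
        · intro q' _ hq'
          show (if i = i ∧ q' = q then (1 : S) else 0) * _ = _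
          rw [if_neg (fun h => hq' h.2), zero_mul]
        · intro h
          exact absurd (Finset.mem_range.mpr hqlt) h
        · intro j hj q'
          show (if j = i ∧ q' = q then (1 : S) else 0) = _
          rw [if_neg]
          rintro ⟨rfl, _⟩
          exact lt_irrefl _ (hL' _ hj)
      · intro j hj q'
        show (if j = i ∧ q' = q then (1 : S) else 0) = _
        rw [if_neg]
        rintro ⟨rfl, _⟩
        exact lt_irrefl _ (hpre _ hj)
    rw [hR, Finset.sum_range_succ']
    rw [add_comm]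
    have hlen : (ar i).length = n := by rw [← har, List.length_ofFn]
    have h0 : nv nQ (P + 1) x (lN φ v ar) (EN φ ar) L' (lN φ v ar i 0) (EN φ ar i 0) = v 0 := by
      rw [nv_const]
      · rfl
      · intro j _ q'
        rfl
    have hb : ∀ b, nv nQ (P + 1) x (lN φ v ar) (EN φ ar) L' (lN φ v ar i (b + 1))
        (EN φ ar i (b + 1)) = if h : b < n then
          nv nQ (P + 1) x (lN φ v ar) (EN φ ar) L' (lamT φ v (c ⟨b, h⟩)) (UT φ (c ⟨b, h⟩))
        else 0 := by
      intro b
      by_cases h : b < n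
      · rw [dif_pos h]
        have hget : (ar i).getD b (.param 0) = c ⟨b, h⟩ := by
          rw [← har, List.getD_eq_getElem _ _ (by rw [List.length_ofFn]; exact h),
            List.getElem_ofFn]
        have e1 : lN φ v ar i (b + 1) = lamT φ v (c ⟨b, h⟩) := by
          unfold lN
          rw [if_neg (Nat.succ_ne_zero b), Nat.add_sub_cancel, if_pos (by rw [hlen]; exact h), hget]
        have e2 : EN φ ar i (b + 1) = UT φ (c ⟨b, h⟩) := by
          funext j q'
          unfold EN
          rw [if_neg (Nat.succ_ne_zero b), Nat.add_sub_cancel, if_pos (by rw [hlen]; exact h), hget]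
        rw [e1, e2]
      · rw [dif_neg h]
        have e1 : lN φ v ar i (b + 1) = 0 := by
          unfold lN
          rw [if_neg (Nat.succ_ne_zero b), Nat.add_sub_cancel, if_neg (by rw [hlen]; exact h)]
        rw [e1]
        apply nv_const
        intro j _ q'
        unfold EN
        rw [if_neg (Nat.succ_ne_zero b), Nat.add_sub_cancel, if_neg (by rw [hlen]; exact h)]
    have hS : ∑ b ∈ range P, x i q (b + 1) * nv nQ (P + 1) x (lN φ v ar) (EN φ ar) L'
        (lN φ v ar i (b + 1)) (EN φ ar i (b + 1)) =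
        ∑ l : Fin n, x i q (l + 1) * Vl P off φ bl v (c l) := by
      rw [← Finset.sum_subset (Finset.range_mono hnP)]
      · rw [Finset.sum_range]
        refine Finset.sum_congr rfl fun l _ => ?_
        rw [hb, dif_pos l.2, ih l (hc l) (hcw l), harg l]
      · intro b _ hb'
        rw [hb b, dif_neg (fun h => hb' (Finset.mem_range.mpr h)), mul_zero]
    rw [h0, hS]

end Pool.Agent.Lib.MP_39893a_lc.OV.FOTM
end

section
/-!
# Value entries of the coefficient vectors (MP_39893a_lc, hive OV, module FOV)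
-/
set_option autoImplicit false

open Finset

namespace Pool.Agent.Lib.MP_39893a_lc.OV.FOVM

open ORD ORD.SEMM

variable {S : Type} [Ring S]

/-- The value entry number `j` of a form. -/
def vf (L : List S) (j : ℕ) : S := (nops S).gF 1 L j 0 0

theorem vf_nil (j : ℕ) : vf ([] : List S) j = 0 := ORD.SEMM.gF_nil j 0 0

theorem vf_drop (L : List S) (P q j : ℕ) : vf (L.drop (q * fs P 1)) j = L.getD (pos P q j) 0 := by
  unfold vf Ops.gF pos
  rw [List.getD_eq_getElem?_getD, List.getElem?_drop, List.getD_eq_getElem?_getD]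
  have e : (j * (1 + 1) + 0) * (1 + 1) + 0 = 4 * j := by ring
  have e0 : ((nops S).nat 0) = (0 : S) := by simp [nops]
  rw [e, e0]

theorem vf_app {P j : ℕ} (hj : j ≤ P) (L : List S) (Fs : List (List S)) :
    vf (mkF P 1 ((nops S).appE P 1 L Fs)) j =
      (if j = 0 then vf L 0 else 0) + ∑ i ∈ range P, vf L (i + 1) * vf (Fs.getD i []) j := by
  unfold vf
  rw [gF_mkF _ hj (Nat.zero_le _) (Nat.zero_le _)]
  unfold Ops.appE
  rw [if_neg (by norm_num)]
  simp only [nops_sum, Finset.sum_range_one]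
  have e : (if j = 0 then 0 else 0) = 0 := by split_ifs <;> rfl
  rw [e]
  have e0 : ((nops S).nat 0) = (0 : S) := by simp [nops]
  rw [e0]
  rfl

theorem vf_app_ofFn {P j n : ℕ} (hj : j ≤ P) (hn : n ≤ P) (L : List S) (Fs : Fin n → List S) :
    vf (mkF P 1 ((nops S).appE P 1 L (List.ofFn Fs))) j =
      (if j = 0 then vf L 0 else 0) + ∑ i : Fin n, vf L (i + 1) * vf (Fs i) j := by
  rw [vf_app hj]
  congr 1
  rw [← Finset.sum_subset (Finset.range_subset_range.2 hn)]
  · rw [Finset.sum_range]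
    refine Finset.sum_congr rfl fun i _ => ?_
    rw [ofFn_getD, dif_pos i.2]
  · intro i _ hi
    have hi' : ¬ i < n := by simpa using hi
    rw [ofFn_getD, dif_neg hi', vf_nil, mul_zero]

theorem VLs_C (φ : Mo →* S) {P nB b : ℕ} (hb : b < nB) :
    (VL (nops S) φ P nB).getD (b * fs P 1 + 0) 0 = ((b + 1 : ℕ) : S) := by
  have hfs : 0 < fs P 1 := by unfold fs; positivity
  have hlt : b * fs P 1 + 0 < nB * fs P 1 := by
    nlinarith [Nat.mul_le_mul_right (fs P 1) (Nat.succ_le_of_lt hb)]
  rw [VL, List.getD_eq_getElem?_getD, List.getElem?_map, List.getElem?_range hlt,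
    Option.map_some, Option.getD_some]
  have h1 : (b * fs P 1 + 0) / fs P 1 = b := by
    rw [Nat.add_zero, Nat.mul_div_cancel _ hfs]
  have h2 : (b * fs P 1 + 0) % fs P 1 = 0 := by
    rw [Nat.add_zero, Nat.mul_mod_left]
  rw [h1, h2]
  rfl

theorem VLs_A (φ : Mo →* S) {P nB b i : ℕ} (hb : b < nB) (hi : i < P) :
    (VL (nops S) φ P nB).getD (b * fs P 1 + 4 * (i + 1)) 0 = φ (letter (Nat.pair b i)) := by
  have hfs : 0 < fs P 1 := by unfold fs; positivity
  have hlt0 : 4 * (i + 1) < fs P 1 := by unfold fs; omega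
  have hlt : b * fs P 1 + 4 * (i + 1) < nB * fs P 1 := by
    nlinarith [Nat.mul_le_mul_right (fs P 1) (Nat.succ_le_of_lt hb)]
  rw [VL, List.getD_eq_getElem?_getD, List.getElem?_map, List.getElem?_range hlt,
    Option.map_some, Option.getD_some]
  have h1 : (b * fs P 1 + 4 * (i + 1)) / fs P 1 = b := by
    rw [Nat.add_div_of_dvd_right (Dvd.intro_left _ rfl), Nat.mul_div_cancel _ hfs,
      Nat.div_eq_of_lt hlt0, Nat.add_zero]
  have h2 : (b * fs P 1 + 4 * (i + 1)) % fs P 1 = 4 * (i + 1) := by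
    rw [Nat.add_comm, Nat.add_mul_mod_self_right, Nat.mod_eq_of_lt hlt0]
  rw [h1, h2]
  have h3 : 4 * (i + 1) % 4 = 0 := by omega
  have h4 : 4 * (i + 1) / 4 = i + 1 := by omega
  rw [if_pos h3, h4, if_neg (Nat.succ_ne_zero i), Nat.add_sub_cancel]

/-- Value entries of the form of an output symbol. -/
theorem vf_sym0 (φ : Mo →* S) {P nB b n : ℕ} (hb : b < nB) :
    vf (mkF P 1 ((nops S).symE P 1 (VL (nops S) φ P nB) b n)) 0 = ((b + 1 : ℕ) : S) := by
  unfold vf
  rw [gF_mkF _ (Nat.zero_le _) (Nat.zero_le _) (Nat.zero_le _)]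
  unfold Ops.symE
  rw [if_pos (Nat.zero_le _), if_neg (by norm_num)]
  have e0 : ((nops S).nat 0) = (0 : S) := by simp [nops]
  have e : (0 * (1 + 1) + 0) * (1 + 1) + 0 = 0 := by ring
  rw [e0, e]
  exact VLs_C φ hb

theorem vf_symS (φ : Mo →* S) {P nB b n i : ℕ} (hb : b < nB) (hi : i < n) (hn : n ≤ P) :
    vf (mkF P 1 ((nops S).symE P 1 (VL (nops S) φ P nB) b n)) (i + 1) =
      φ (letter (Nat.pair b i)) := by
  unfold vf
  rw [gF_mkF _ (by omega) (Nat.zero_le _) (Nat.zero_le _)]
  unfold Ops.symE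
  rw [if_pos (by omega), if_neg (by norm_num)]
  have e0 : ((nops S).nat 0) = (0 : S) := by simp [nops]
  have e : ((i + 1) * (1 + 1) + 0) * (1 + 1) + 0 = 4 * (i + 1) := by ring
  rw [e0, e]
  exact VLs_A φ hb (by omega)

/-- The machine, run on the code of a right-hand side. -/
theorem rhs_fo (φ : Mo →* S) {P off : ℕ} {bl : List (List S)} {B Q : List ℕ} {m r : ℕ}
    (_hm : m ≤ P) (hB : ∀ n ∈ B, n ≤ P) (hQ : ∀ n ∈ Q, n ≤ P) (ζ : Rhs) : ζ.WF B Q m r →
    ∃ L : List S, (∀ st, ζ.code.foldl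
        ((nops S).step P 1 off (VL (nops S) φ P B.length) bl) st = L :: st) ∧
      ∀ j ≤ P, vf L j = fo P off φ bl ζ j := by
  induction ζ with
  | param p =>
    intro h
    refine ⟨_, fun st => rfl, fun j hj => ?_⟩
    show vf (mkF P 1 ((nops S).parE 1 p)) j = _
    unfold vf
    rw [gF_mkF _ hj (Nat.zero_le _) (Nat.zero_le _)]
    unfold Ops.parE
    rw [if_neg (by norm_num), fo]
    simp [nops]
  | out b n c ih =>
    rintro ⟨hb, hc⟩
    choose L h1 h2 using fun i => ih i (hc i)
    obtain ⟨hbl, hbr⟩ := List.getElem?_eq_some_iff.1 hb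
    have hn : n ≤ P := hB n (hbr ▸ List.getElem_mem hbl)
    refine ⟨mkF P 1 ((nops S).appE P 1 (mkF P 1 ((nops S).symE P 1
      (VL (nops S) φ P B.length) b n)) (List.ofFn L)), fun st => ?_, fun j hj => ?_⟩
    · rw [Rhs.code, List.foldl_append, foldl_flatten_ofFn _ n _ L h1, List.foldl_cons,
        List.foldl_nil]
      unfold Ops.step
      rw [if_neg (by norm_num), if_pos rfl]
      dsimp only
      rw [take_rev_append, drop_rev_append]
    · rw [vf_app_ofFn hj hn, vf_sym0 φ hbl, fo]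
      congr 1
      refine Finset.sum_congr rfl fun i _ => ?_
      rw [vf_symS φ hbl i.2 hn, h2 i j hj]
  | call q i n c ih =>
    rintro ⟨hq, hi, hc⟩
    choose L h1 h2 using fun l => ih l (hc l)
    obtain ⟨hql, hqr⟩ := List.getElem?_eq_some_iff.1 hq
    have hn : n ≤ P := hQ n (hqr ▸ List.getElem_mem hql)
    refine ⟨mkF P 1 ((nops S).appE P 1 ((bl.getD i []).drop ((off + q) * fs P 1))
      (List.ofFn L)), fun st => ?_, fun j hj => ?_⟩
    · rw [Rhs.code, List.foldl_append, foldl_flatten_ofFn _ n _ L h1, List.foldl_cons,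
        List.foldl_nil]
      unfold Ops.step
      rw [if_neg (by norm_num), if_neg (by norm_num)]
      dsimp only
      rw [take_rev_append, drop_rev_append]
    · rw [vf_app_ofFn hj hn, fo, vf_drop]
      congr 1
      refine Finset.sum_congr rfl fun l _ => ?_
      rw [vf_drop, h2 l j hj]

/-- Value entries of the row `u` of the vector. -/
theorem row_fo {A B : List ℕ} (M : DMTT A B) (φ : Mo →* S) {P n1 o0 : ℕ}
    {T : List (List (Option (List Tok)))} {bl : List (List S)}
    (hP : ∀ m ∈ M.params, m ≤ P) (hB : ∀ n ∈ B, n ≤ P) {q a : ℕ} (hq : q < M.params.length)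
    (ha : a < A.length)
    (hT : (T.getD (o0 + q) []).getD a none = (M.rule q a).map Rhs.code)
    (ho : (if o0 + q < n1 then 0 else n1) = o0) (hl : o0 + q < T.length) {j : ℕ} (hj : j ≤ P) :
    ((nops S).vecS P 1 n1 T a (VL (nops S) φ P B.length) bl).getD (pos P (o0 + q) j) 0 =
      (rlM M a q).elim 0 fun ζ => fo P o0 φ bl ζ j := by
  rw [← vf_drop]
  unfold vf
  rw [ORD.SEMM.gF_vecS hl hj (Nat.zero_le _) (Nat.zero_le _), hT, ho]
  rw [rlM, if_pos hq]
  cases hrule : M.rule q a with
  | none =>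
    show (nops S).gF 1 [] j 0 0 = 0
    exact ORD.SEMM.gF_nil j 0 0
  | some ζ =>
    have hm : M.params[q]? = some M.params[q] := List.getElem?_eq_getElem hq
    obtain ⟨L, h1, h2⟩ := rhs_fo (off := o0) (bl := bl) φ
      (hP _ (List.getElem_mem hq)) hB hP ζ
      (M.wf q _ a _ ζ hm (List.getElem?_eq_getElem ha) hrule)
    rw [Ops.rhsV, Option.map_some, Option.getD_some, h1 []]
    exact h2 j hj

end Pool.Agent.Lib.MP_39893a_lc.OV.FOVM

namespace Pool.Agent.Lib.MP_39893a_lc.OV

open ORD FOVM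

theorem specFOV : SpecFOV := by
  intro S _ φ A B M₁ M₂ a bl ha q j hj
  have hB : ∀ n ∈ B, n ≤ (norm (inp M₁ M₂ 0)).P := fun n hn => by
    rw [norm_P]
    have := le_lsum hn
    omega
  constructor
  · intro hq
    have := row_fo M₁ φ (P := (norm (inp M₁ M₂ 0)).P) (n1 := (norm (inp M₁ M₂ 0)).n1) (o0 := 0)
      (T := (norm (inp M₁ M₂ 0)).T) (bl := bl)
      (fun m hm => by rw [norm_P]; have := le_lsum hm; omega) hB hq ha
      (by
        rw [norm_T, Nat.zero_add, List.getD_append _ _ _ _ (by rw [code_length]; exact hq),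
          code_getD M₁ hq ha])
      (by rw [norm_n1, Nat.zero_add, if_pos hq])
      (by
        rw [norm_T, List.length_append, code_length]
        omega) hj
    rw [Nat.zero_add] at this
    exact this
  · intro hq
    have := row_fo M₂ φ (P := (norm (inp M₁ M₂ 0)).P) (n1 := (norm (inp M₁ M₂ 0)).n1)
      (o0 := M₁.params.length) (T := (norm (inp M₁ M₂ 0)).T) (bl := bl)
      (fun m hm => by rw [norm_P]; have := le_lsum hm; omega) hB hq ha
      (by
        rw [norm_T, List.getD_append_right _ _ _ _ (by rw [code_length]; omega),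
          code_length, Nat.add_sub_cancel_left, code_getD M₂ hq ha])
      (by rw [norm_n1, if_neg (by omega)])
      (by
        rw [norm_T, List.length_append, code_length, code_length]
        omega) hj
    exact this

end Pool.Agent.Lib.MP_39893a_lc.OV
end

section
/-!
# Hive OV (MP_39893a_lc), module KFR: the skew field of fractions
-/
set_option autoImplicit false

namespace Pool.Agent.Lib.MP_39893a_lc.OV.KFRM

open OreLocalization nonZeroDivisors ORD

section General

/-- Left fractions with common denominators, from the Ore conditions. -/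
theorem main {R : Type} [Ring R] (h1 : (1 : R) ≠ 0) (hN : ∀ a b : R, a * b = 0 → a = 0 ∨ b = 0)
    (hO : ∀ (n : ℕ) (F : Fin n → R) (δ : R), δ ≠ 0 →
      (∃ ε : R, ε ≠ 0 ∧ ∃ F' : Fin n → R, ∀ i, ε * F i = F' i * δ) ∧
      (∃ ε : R, ε ≠ 0 ∧ ∃ F' : Fin n → R, ∀ i, F i * ε = δ * F' i)) :
    ∃ (K : Type) (_ : DivisionRing K) (ι : R →+* K),
      (Function.Injective ι ∧ ∀ k : K, ∃ d : R, d ≠ 0 ∧ ∃ a : R, ι d * k = ι a) ∧
      (∀ (n : ℕ) (k : Fin n → K), ∃ d : R, d ≠ 0 ∧ ∀ i, ∃ a : R, ι d * k i = ι a) ∧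
      (∀ (n : ℕ) (k : Fin n → K), ∃ d : R, d ≠ 0 ∧ ∀ i, ∃ a : R, k i * ι d = ι a) ∧
      ∀ (S : Type) [Ring S] (f : R →+* S), (∀ d, d ≠ 0 → IsUnit (f d)) →
        ∃ κ : K →+* S, ∀ d, κ (ι d) = f d := by
  have : Nontrivial R := ⟨⟨1, 0, h1⟩⟩
  have : NoZeroDivisors R := ⟨fun {a b} h => hN a b h⟩
  have hmul : ∀ a b : R, a ≠ 0 → b ≠ 0 → a * b ≠ 0 := fun a b ha hb h =>
    (hN a b h).elim ha hb
  have hne : ∀ s : R⁰, (s : R) ≠ 0 := fun s => nonZeroDivisors.coe_ne_zero s
  have hore : ∀ (r : R) (s : R⁰), ∃ (r' : R) (s' : R⁰), s' * r = r' * s := by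
    intro r s
    obtain ⟨ε, hε, F', hF⟩ := (hO 1 (fun _ => r) s (hne s)).1
    exact ⟨F' 0, ⟨ε, mem_nonZeroDivisors_of_ne_zero hε⟩, hF 0⟩
  obtain ⟨inst⟩ := (nonempty_oreSet_iff_of_noZeroDivisors (S := R⁰)).2 hore
  let _ : OreSet R⁰ := inst
  let ι : R →+* OreLocalization R⁰ R := numeratorRingHom
  have hinj : Function.Injective ι := numeratorHom_inj inf_le_left
  have hfr : ∀ k : OreLocalization R⁰ R, ∃ d : R, d ≠ 0 ∧ ∃ a : R, ι d * k = ι a := by
    intro k
    induction k with | _ r s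
    exact ⟨s, hne s, r, OreLocalization.mul_cancel⟩
  have hι0 : ∀ d : R, d ≠ 0 → ι d ≠ 0 := fun d hd h => hd (hinj (by rw [h, map_zero]))
  refine ⟨OreLocalization R⁰ R, inferInstance, ι, ⟨hinj, hfr⟩, ?_, ?_, ?_⟩
  · intro n
    induction n with
    | zero => exact fun k => ⟨1, h1, fun i => i.elim0⟩
    | succ n ih =>
      intro k
      obtain ⟨d, hd, h⟩ := ih fun i => k i.succ
      obtain ⟨δ, hδ, a, ha⟩ := hfr (k 0)
      obtain ⟨ε, hε, F', hF⟩ := (hO 1 (fun _ => d) δ hδ).1
      have hF0 : ε * d = F' 0 * δ := hF 0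
      refine ⟨ε * d, hmul _ _ hε hd, fun i => ?_⟩
      refine Fin.cases ?_ (fun j => ?_) i
      · exact ⟨F' 0 * a, by rw [hF0, map_mul, mul_assoc, ha, map_mul]⟩
      · obtain ⟨b, hb⟩ := h j
        exact ⟨ε * b, by rw [map_mul, mul_assoc, hb, map_mul]⟩
  · -- right denominators
    have hr : ∀ k : OreLocalization R⁰ R, ∃ d : R, d ≠ 0 ∧ ∃ a : R, k * ι d = ι a := by
      intro k
      obtain ⟨d, hd, a, ha⟩ := hfr k
      obtain ⟨ε, hε, F', hF⟩ := (hO 1 (fun _ => a) d hd).2
      have hF0 : a * ε = d * F' 0 := hF 0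
      refine ⟨ε, hε, F' 0, ?_⟩
      have h2 : ι d * (k * ι ε) = ι d * ι (F' 0) := by
        rw [← mul_assoc, ha, ← map_mul, hF0, map_mul]
      exact mul_left_cancel₀ (hι0 d hd) h2
    intro n
    induction n with
    | zero => exact fun k => ⟨1, h1, fun i => i.elim0⟩
    | succ n ih =>
      intro k
      obtain ⟨d, hd, h⟩ := ih fun i => k i.succ
      obtain ⟨δ, hδ, a, ha⟩ := hr (k 0)
      obtain ⟨ε, hε, F', hF⟩ := (hO 1 (fun _ => d) δ hδ).2
      have hF0 : d * ε = δ * F' 0 := hF 0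
      refine ⟨d * ε, hmul _ _ hd hε, fun i => ?_⟩
      refine Fin.cases ?_ (fun j => ?_) i
      · exact ⟨a * F' 0, by rw [hF0, map_mul, ← mul_assoc, ha, map_mul]⟩
      · obtain ⟨b, hb⟩ := h j
        exact ⟨b * ε, by rw [map_mul, ← mul_assoc, hb, map_mul]⟩
  · intro S _ f hf
    let fS : R⁰ →* Sˣ :=
      { toFun := fun s => (hf s (hne s)).unit
        map_one' := by
          ext
          simp
        map_mul' := by
          intro a b
          ext
          simp }
    refine ⟨universalHom f fS (fun s => rfl), fun d => ?_⟩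
    exact universalHom_commutes f fS (fun s => rfl)

end General

theorem specKFR (hN : SpecNZD) (hO : SpecOREC) : SpecKFR := by
  obtain ⟨K, i, ι, h1, h2, h3, h4⟩ := main (R := D) one_ne_zero hN hO
  exact ⟨K, i, ι, h1, h2, h3, fun S _ f hf => h4 S f hf⟩

end Pool.Agent.Lib.MP_39893a_lc.OV.KFRM
end

section
/-! # OV/LALG: linear algebra over a skew field -/
set_option autoImplicit false

namespace Pool.Agent.Lib.MP_39893a_lc.OV.LALGM

open Finset

theorem main (K S : Type) [DivisionRing K] [Ring S] (κ : K →+* S) (n : ℕ) :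
    ∀ (R : Set (Fin n → K)) (g : Fin n → S),
    (∀ m : Fin n → K, (∀ ν ∈ R, ∑ i, ν i * m i = 0) → ∑ i, g i * κ (m i) = 0) →
    ∀ μ : Fin n → S, (∀ ν ∈ R, ∑ i, κ (ν i) * μ i = 0) → ∑ i, g i * μ i = 0 := by
  induction n with
  | zero => intro R g _ μ _; simp
  | succ n ih =>
    intro R g hg μ hμ
    by_cases h : ∃ ν₀ ∈ R, ν₀ 0 ≠ 0
    · obtain ⟨ν₀, hR, h0⟩ := h
      have key : ∀ ν : Fin (n + 1) → K, ∀ m : Fin n → K,
          ∑ i : Fin n, (ν i.succ - ν 0 * (ν₀ 0)⁻¹ * ν₀ i.succ) * m i =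
            ∑ i : Fin n, ν i.succ * m i - ν 0 * (ν₀ 0)⁻¹ * ∑ i : Fin n, ν₀ i.succ * m i := by
        intro ν m
        rw [Finset.mul_sum, ← Finset.sum_sub_distrib]
        refine Finset.sum_congr rfl fun i _ => ?_
        rw [sub_mul]; simp only [mul_assoc]
      have h1 : ∑ i : Fin n, (g i.succ - g 0 * κ ((ν₀ 0)⁻¹) * κ (ν₀ i.succ)) * μ i.succ = 0 := by
        refine ih {ν' | ∃ ν ∈ R, ν' = fun i : Fin n => ν i.succ - ν 0 * (ν₀ 0)⁻¹ * ν₀ i.succ}
          (fun i => g i.succ - g 0 * κ ((ν₀ 0)⁻¹) * κ (ν₀ i.succ)) ?_ (fun i => μ i.succ) ?_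
        · intro m' hm'
          have h2 := hg (Fin.cons (-((ν₀ 0)⁻¹ * ∑ i : Fin n, ν₀ i.succ * m' i)) m') (by
            intro ν hν
            rw [Fin.sum_univ_succ]
            simp only [Fin.cons_zero, Fin.cons_succ]
            have h3 := hm' _ ⟨ν, hν, rfl⟩
            rw [key] at h3
            rw [← h3]
            simp only [mul_neg, mul_assoc]
            abel)
          rw [Fin.sum_univ_succ] at h2
          simp only [Fin.cons_zero, Fin.cons_succ] at h2
          rw [← h2]
          simp only [sub_mul, Finset.sum_sub_distrib, map_neg, map_mul, map_sum, mul_neg,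
            Finset.mul_sum, mul_assoc]
          abel
        · rintro _ ⟨ν, hν, rfl⟩
          have h4 := hμ ν hν
          have h5 := hμ ν₀ hR
          rw [Fin.sum_univ_succ] at h4 h5
          have h6 : ∑ i : Fin n, κ (ν i.succ - ν 0 * (ν₀ 0)⁻¹ * ν₀ i.succ) * μ i.succ =
              ∑ i : Fin n, κ (ν i.succ) * μ i.succ -
                κ (ν 0) * κ ((ν₀ 0)⁻¹) * ∑ i : Fin n, κ (ν₀ i.succ) * μ i.succ := by
            rw [Finset.mul_sum, ← Finset.sum_sub_distrib]
            refine Finset.sum_congr rfl fun i _ => ?_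
            rw [map_sub, map_mul, map_mul, sub_mul]; simp only [mul_assoc]
          have h7 : ∑ i : Fin n, κ (ν₀ i.succ) * μ i.succ = -(κ (ν₀ 0) * μ 0) := by
            rw [eq_neg_iff_add_eq_zero, add_comm]; exact h5
          have h8 : ∑ i : Fin n, κ (ν i.succ) * μ i.succ = -(κ (ν 0) * μ 0) := by
            rw [eq_neg_iff_add_eq_zero, add_comm]; exact h4
          have h9 : κ ((ν₀ 0)⁻¹) * κ (ν₀ 0) = 1 := by rw [← map_mul, inv_mul_cancel₀ h0, map_one]
          rw [h6, h7, h8, mul_neg, mul_assoc, ← mul_assoc (κ ((ν₀ 0)⁻¹)), h9, one_mul]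
          abel
      have h5 := hμ ν₀ hR
      rw [Fin.sum_univ_succ] at h5
      have h7 : ∑ i : Fin n, κ (ν₀ i.succ) * μ i.succ = -(κ (ν₀ 0) * μ 0) := by
        rw [eq_neg_iff_add_eq_zero, add_comm]; exact h5
      have h9 : κ ((ν₀ 0)⁻¹) * κ (ν₀ 0) = 1 := by rw [← map_mul, inv_mul_cancel₀ h0, map_one]
      have h6 : ∑ i : Fin n, (g i.succ - g 0 * κ ((ν₀ 0)⁻¹) * κ (ν₀ i.succ)) * μ i.succ =
          ∑ i : Fin n, g i.succ * μ i.succ -
            g 0 * κ ((ν₀ 0)⁻¹) * ∑ i : Fin n, κ (ν₀ i.succ) * μ i.succ := by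
        rw [Finset.mul_sum, ← Finset.sum_sub_distrib]
        refine Finset.sum_congr rfl fun i _ => ?_
        rw [sub_mul]; simp only [mul_assoc]
      rw [h6, h7, mul_neg, mul_assoc, ← mul_assoc (κ ((ν₀ 0)⁻¹)), h9, one_mul] at h1
      rw [Fin.sum_univ_succ, ← h1]
      abel
    · push Not at h
      have h0 : g 0 = 0 := by
        have h1 := hg (Fin.cons 1 0) (by
          intro ν hν
          rw [Fin.sum_univ_succ]
          simp [h ν hν])
        rw [Fin.sum_univ_succ] at h1
        simpa using h1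
      have h1 : ∑ i : Fin n, g i.succ * μ i.succ = 0 := by
        refine ih {ν' | ∃ ν ∈ R, ν' = fun i : Fin n => ν i.succ} (fun i => g i.succ) ?_
          (fun i => μ i.succ) ?_
        · intro m' hm'
          have h2 := hg (Fin.cons 0 m') (by
            intro ν hν
            rw [Fin.sum_univ_succ]
            simp only [Fin.cons_zero, Fin.cons_succ, mul_zero, zero_add]
            exact hm' _ ⟨ν, hν, rfl⟩)
          rw [Fin.sum_univ_succ] at h2
          simpa using h2
        · rintro _ ⟨ν, hν, rfl⟩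
          have h4 := hμ ν hν
          rw [Fin.sum_univ_succ, h ν hν, map_zero, zero_mul, zero_add] at h4
          exact h4
      rw [Fin.sum_univ_succ, h0, zero_mul, zero_add, h1]



theorem specLALG : SpecLALG := fun K S _ _ κ n R g => main K S κ n R g

end Pool.Agent.Lib.MP_39893a_lc.OV.LALGM
end

section
/-!
# Derivability of one form at one symbol (MP_39893a_lc, hive OV, module LOC)
-/
set_option autoImplicit false

namespace Pool.Agent.Lib.MP_39893a_lc.OV.LOCM

open Finset ORD

/-! ## Homomorphisms -/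

section hom

variable {R S : Type} [Ring R] [Ring S] (ψ : R →+* S)

theorem getD_hom (l : List R) (k : ℕ) : (l.map ψ).getD k 0 = ψ (l.getD k 0) := by
  rw [← List.getD_map (f := ψ) (d := 0), map_zero]

theorem getD_hom2 (bl : List (List R)) (i : ℕ) :
    (bl.map (List.map ψ)).getD i [] = (bl.getD i []).map ψ := by
  rw [← List.getD_map (f := List.map ψ) (d := []), List.map_nil]

/-- Homomorphisms and two-term forms. -/
theorem tq_hom (nQ nB nQ' nB' : ℕ) (u v u' v' : ℕ → R) (w : R) (x x' : ℕ → ℕ → R) :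
    ψ (tq nQ nB nQ' nB' u v u' v' w x x') =
      tq nQ nB nQ' nB' (fun t => ψ (u t)) (fun t => ψ (v t)) (fun t => ψ (u' t))
        (fun t => ψ (v' t)) (ψ w) (fun a b => ψ (x a b)) (fun a b => ψ (x' a b)) := by
  simp only [tq, map_add, map_sub, map_sum, map_mul]

theorem tq_congr (nQ nB nQ' nB' : ℕ) (u v u' v' : ℕ → R) (w : R) (x x' y y' : ℕ → ℕ → R)
    (h : ∀ q < nQ, ∀ b < nB, x q b = y q b) (h' : ∀ q < nQ', ∀ b < nB', x' q b = y' q b) :
    tq nQ nB nQ' nB' u v u' v' w x x' = tq nQ nB nQ' nB' u v u' v' w y y' := by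
  unfold tq
  congr 1
  congr 1
  · refine sum_congr rfl fun q hq => sum_congr rfl fun b hb => ?_
    rw [h q (mem_range.mp hq) b (mem_range.mp hb)]
  · refine sum_congr rfl fun q hq => sum_congr rfl fun b hb => ?_
    rw [h' q (mem_range.mp hq) b (mem_range.mp hb)]

/-- Homomorphisms and values of right-hand sides. -/
theorem fo_hom (P off : ℕ) (φ : Mo →* R) (bl : List (List R)) (ζ : Rhs) :
    ∀ j, ψ (fo P off φ bl ζ j) =
      fo P off ((ψ : R →* S).comp φ) (bl.map (List.map ψ)) ζ j := by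
  induction ζ with
  | param p =>
    intro j
    rw [fo, fo]
    split_ifs with h
    · exact map_one ψ
    · exact map_zero ψ
  | out b r c ih =>
    intro j
    rw [fo, fo, map_add, map_sum]
    congr 1
    · split_ifs with h
      · exact map_natCast ψ _
      · exact map_zero ψ
    · refine sum_congr rfl fun l _ => ?_
      rw [map_mul, ih l j]
      rfl
  | call q i n c ih =>
    intro j
    rw [fo, fo, map_add, map_sum, getD_hom2]
    congr 1
    · split_ifs with h
      · rw [getD_hom]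
      · exact map_zero ψ
    · refine sum_congr rfl fun l _ => ?_
      rw [map_mul, ih l j, getD_hom]

/-- Homomorphisms and `rT`. -/
theorem rT_hom (P off off' nq nq' : ℕ) (φ : Mo →* R) (bl : List (List R))
    (rl rl' : ℕ → Option Rhs) (u v u' v' : ℕ → R) (w : R) :
    ψ (rT P off off' nq nq' φ bl rl rl' u v u' v' w) =
      rT P off off' nq nq' ((ψ : R →* S).comp φ) (bl.map (List.map ψ)) rl rl' (fun t => ψ (u t))
        (fun t => ψ (v t)) (fun t => ψ (u' t)) (fun t => ψ (v' t)) (ψ w) := by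
  unfold rT
  rw [tq_hom]
  refine tq_congr _ _ _ _ _ _ _ _ _ _ _ _ _ ?_ ?_
  · intro q _ j _
    cases rl q with
    | none => exact map_zero ψ
    | some ζ => exact fo_hom ψ P off φ bl ζ j
  · intro q _ j _
    cases rl' q with
    | none => exact map_zero ψ
    | some ζ => exact fo_hom ψ P off' φ bl ζ j

end hom

theorem pos_lt (P nR R j : ℕ) (hR : R < nR) (hj : j < P + 1) : pos P R j < nR * fs P 1 := by
  have h1 : fs P 1 = 4 * (P + 1) := by
    unfold fs
    ring
  unfold pos
  rw [h1]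
  calc R * (4 * (P + 1)) + 4 * j < R * (4 * (P + 1)) + 4 * (P + 1) := by omega
    _ = (R + 1) * (4 * (P + 1)) := by ring
    _ ≤ nR * (4 * (P + 1)) := Nat.mul_le_mul_right _ hR

theorem DtoF_toD (g : Mo) : DtoF (toD g) = toF g := by
  unfold DtoF toD
  exact MonoidAlgebra.lift_of _ _

/-- The element `((a, b), n)`. -/
def mk (a b : ℤ) (n : ℕ) : Mo := (a, b, n)

theorem mk_inj (a b a' b' : ℤ) (n n' : ℕ) (h : mk a b n = mk a' b' n') : a = a' :=
  congrArg (fun x : ℤ × ℤ × ℕ => x.1) h

/-- `D` is not commutative. -/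
theorem toD_ne : toD (mk 0 0 1) * toD (mk 1 0 0) ≠ toD (mk 1 0 0) * toD (mk 0 0 1) := by
  rw [← map_mul, ← map_mul]
  intro h
  have h1 : mk 0 0 1 * mk 1 0 0 = mk 1 0 0 * mk 0 0 1 :=
    MonoidAlgebra.of_injective (R := ℤ) (M := Mo) h
  have h2 : mk 0 0 1 * mk 1 0 0 = mk 2 1 1 := rfl
  have h3 : mk 1 0 0 * mk 0 0 1 = mk 1 0 1 := rfl
  rw [h2, h3] at h1
  exact absurd (mk_inj _ _ _ _ _ _ h1) (by decide)

theorem specLOC (hKFR : SpecKFR) (hQUO : SpecQUO) (hDEN : SpecDEN) (hLOCN : SpecLOCN)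
    (_hEVL : ORD.SpecEVL) : SpecLOC := by
  intro B P nR r off off' pr pr' rl rl' V V' W W' ar ar' ρ ρ' hpr hpr' hn hn' hv hv' hρ N X H
    hTT hTS u v u' v' w hu hu' h0
  obtain ⟨K, iK, ι, ⟨hι, -⟩, hL, hR, hU⟩ := hKFR
  obtain ⟨S, iS, π, hπ, hRR, hunit⟩ := hQUO N H
  obtain ⟨κ, hκ⟩ := hU S (π.comp DtoF) hunit
  have hκ' : ∀ d, κ (ι d) = π (DtoF d) := hκ
  have hnc : ∃ h₁ h₂ : K, h₁ * h₂ ≠ h₂ * h₁ := by
    refine ⟨ι (toD (mk 0 0 1)), ι (toD (mk 1 0 0)), fun h => toD_ne (hι ?_)⟩
    rw [map_mul ι, map_mul ι]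
    exact h
  -- the symbolic vectors
  have hy : ∀ i R j, R < nR → j < P + 1 →
      ((List.range (nR * fs P 1)).map fun t => π (xv (i, t))).getD (pos P R j) 0 =
        π (xv (i, pos P R j)) := by
    intro i R j hR' hj
    have hlt := pos_lt P nR R j hR' hj
    rw [List.getD_eq_getElem _ _ (by simpa using hlt)]
    simp
  have key : ∀ (i : ℕ) (a b a' b' : ℕ → K) (e : K),
      tq nR (P + 1) nR (P + 1) (fun t => κ (a t)) (fun t => κ (b t)) (fun t => κ (a' t))
          (fun t => κ (b' t)) (κ e) (fun R j => π (xv (i, pos P R j)))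
          (fun R j => π (xv (i, pos P R j))) = 0 →
      tt P nR (fun t => κ (a t)) (fun t => κ (b t)) (fun t => κ (a' t)) (fun t => κ (b' t)) (κ e)
        ((List.range (nR * fs P 1)).map fun t => π (xv (i, t))) = 0 := by
    intro i a b a' b' e h
    exact (tq_congr _ _ _ _ _ _ _ _ _ _ _ _ _ (fun R hR' j hj => hy i R j hR' hj)
      fun R hR' j hj => hy i R j hR' hj).trans h
  have hmain := hLOCN K S κ hRR hnc ((ι : D →* K).comp toD) B P nR r off off' pr pr' rl rl' V V'
    W W' ar ar' ρ ρ' hpr hpr' hn hn' hv hv' hρ (fun i => List.map ι '' X i)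
    (fun i => (List.range (nR * fs P 1)).map fun t => π (xv (i, t)))
    (fun i hi a b a' b' e ha ha' hx => key i a b a' b' e
      (hDEN K S ι π κ hι hκ' hL hR P nR i (rows off pr.length (W i)) (rows off' pr'.length (W' i))
        (X i) (fun a b a' b' e ha ha' hx => (hπ _).mpr (hTT i hi a b a' b' e ha ha' hx))
        a b a' b' e ha ha' (fun x hx' => hx _ ⟨x, hx', rfl⟩)))
    (fun i hi a b a' b' e ha ha' hx => key i a b a' b' e
      (hDEN K S ι π κ hι hκ' hL hR P nR i (rows off pr.length (W i)) (rows off pr.length (W i))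
        (X i) (fun a b a' b' e ha ha' hx => (hπ _).mpr (hTS i hi a b a' b' e ha ha' hx))
        a b a' b' e ha ha' (fun x hx' => hx _ ⟨x, hx', rfl⟩)))
    (fun t => ι (u t)) (fun t => ι (v t)) (fun t => ι (u' t)) (fun t => ι (v' t)) (ι w)
    (fun t ht => hu t fun h => ht (by rw [h, map_zero]))
    (fun t ht => hu' t fun h => ht (by rw [h, map_zero]))
    (by
      intro x hx
      choose! z hz hzx using hx
      have h1 := h0 z hz
      have h2 := rT_hom ι P off off' pr.length pr'.length toD ((List.range r).map z) rl rl'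
        u v u' v' w
      rw [h1, map_zero] at h2
      have h3 : ((List.range r).map z).map (List.map ι) = (List.range r).map x := by
        rw [List.map_map]
        refine List.map_congr_left fun i hi => ?_
        exact hzx i (List.mem_range.mp hi)
      rw [h3] at h2
      exact h2.symm)
  refine (hπ _).mp ?_
  rw [rT_hom π]
  have e1 : (π : FR →* S).comp toF = (κ : K →* S).comp ((ι : D →* K).comp toD) := by
    ext g
    change π (toF g) = κ (ι (toD g))
    rw [hκ', DtoF_toD]
  have e2 : ((List.range r).map fun i => (List.range (nR * fs P 1)).map fun t => xv (i, t)).map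
      (List.map π) = (List.range r).map fun i =>
        (List.range (nR * fs P 1)).map fun t => π (xv (i, t)) := by
    rw [List.map_map]
    refine List.map_congr_left fun i _ => ?_
    exact List.map_map
  rw [e1, e2]
  have e3 : ∀ g : ℕ → D, (fun t => π (DtoF (g t))) = fun t => κ (ι (g t)) := fun g =>
    funext fun t => (hκ' _).symm
  rw [e3, e3, e3, e3, ← hκ' w]
  exact hmain

end Pool.Agent.Lib.MP_39893a_lc.OV.LOCM
end

section
/-!
# Derivability of one form at one symbol, version with blocks (MP_39893a_lc, hive OV, module LOCB)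
-/
set_option autoImplicit false

namespace Pool.Agent.Lib.MP_39893a_lc.OV.LOCBM

open Finset ORD LOCM

theorem specLOCB (hKFR : SpecKFR) (hQUO : SpecQUO) (hDEN : SpecDEN) (hLOCN : SpecLOCNB)
    (_hEVL : ORD.SpecEVL) : SpecLOCB := by
  intro B P nR r off off' pr pr' rl rl' V V' W W' ar ar' ρ ρ' hpr hpr' hn hn' hv hv' hρ N X H
    hTT hTS u v u' v' w hu hu' h0
  obtain ⟨K, iK, ι, ⟨hι, -⟩, hL, hR, hU⟩ := hKFR
  obtain ⟨S, iS, π, hπ, hRR, hunit⟩ := hQUO N H
  obtain ⟨κ, hκ⟩ := hU S (π.comp DtoF) hunit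
  have hκ' : ∀ d, κ (ι d) = π (DtoF d) := hκ
  have hnc : ∃ h₁ h₂ : K, h₁ * h₂ ≠ h₂ * h₁ := by
    refine ⟨ι (toD (mk 0 0 1)), ι (toD (mk 1 0 0)), fun h => toD_ne (hι ?_)⟩
    rw [map_mul ι, map_mul ι]
    exact h
  -- the symbolic vectors
  have hy : ∀ i R j, R < nR → j < P + 1 →
      ((List.range (nR * fs P 1)).map fun t => π (xv (i, t))).getD (pos P R j) 0 =
        π (xv (i, pos P R j)) := by
    intro i R j hR' hj
    have hlt := pos_lt P nR R j hR' hj
    rw [List.getD_eq_getElem _ _ (by simpa using hlt)]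
    simp
  have key : ∀ (i : ℕ) (a b a' b' : ℕ → K) (e : K),
      tq nR (P + 1) nR (P + 1) (fun t => κ (a t)) (fun t => κ (b t)) (fun t => κ (a' t))
          (fun t => κ (b' t)) (κ e) (fun R j => π (xv (i, pos P R j)))
          (fun R j => π (xv (i, pos P R j))) = 0 →
      tt P nR (fun t => κ (a t)) (fun t => κ (b t)) (fun t => κ (a' t)) (fun t => κ (b' t)) (κ e)
        ((List.range (nR * fs P 1)).map fun t => π (xv (i, t))) = 0 := by
    intro i a b a' b' e h
    exact (tq_congr _ _ _ _ _ _ _ _ _ _ _ _ _ (fun R hR' j hj => hy i R j hR' hj)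
      fun R hR' j hj => hy i R j hR' hj).trans h
  have hmain := hLOCN K S κ hRR hnc ((ι : D →* K).comp toD) B P nR r off off' pr pr' rl rl' V V'
    W W' ar ar' ρ ρ' hpr hpr' hn hn' hv hv' hρ (fun i => List.map ι '' X i)
    (fun i => (List.range (nR * fs P 1)).map fun t => π (xv (i, t)))
    (fun i hi a b a' b' e ha ha' hx => key i a b a' b' e
      (hDEN K S ι π κ hι hκ' hL hR P nR i (rows off pr.length (W i)) (rows off' pr'.length (W' i))
        (X i) (fun a b a' b' e ha ha' hx => (hπ _).mpr (hTT i hi a b a' b' e ha ha' hx))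
        a b a' b' e ha ha' (fun x hx' => hx _ ⟨x, hx', rfl⟩)))
    (fun i hi a b a' b' e ha ha' hx => key i a b a' b' e
      (hDEN K S ι π κ hι hκ' hL hR P nR i (rows off pr.length (W i)) (rows off pr.length (W i))
        (X i) (fun a b a' b' e ha ha' hx => (hπ _).mpr (hTS i hi a b a' b' e ha ha' hx))
        a b a' b' e ha ha' (fun x hx' => hx _ ⟨x, hx', rfl⟩)))
    (fun t => ι (u t)) (fun t => ι (v t)) (fun t => ι (u' t)) (fun t => ι (v' t)) (ι w)
    (fun t ht => hu t fun h => ht (by rw [h, map_zero]))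
    (fun t ht => hu' t fun h => ht (by rw [h, map_zero]))
    (by
      intro x hx
      choose! z hz hzx using hx
      have h1 := h0 z hz
      have h2 := rT_hom ι P off off' pr.length pr'.length toD ((List.range r).map z) rl rl'
        u v u' v' w
      rw [h1, map_zero] at h2
      have h3 : ((List.range r).map z).map (List.map ι) = (List.range r).map x := by
        rw [List.map_map]
        refine List.map_congr_left fun i hi => ?_
        exact hzx i (List.mem_range.mp hi)
      rw [h3] at h2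
      exact h2.symm)
  refine (hπ _).mp ?_
  rw [rT_hom π]
  have e1 : (π : FR →* S).comp toF = (κ : K →* S).comp ((ι : D →* K).comp toD) := by
    ext g
    change π (toF g) = κ (ι (toD g))
    rw [hκ', DtoF_toD]
  have e2 : ((List.range r).map fun i => (List.range (nR * fs P 1)).map fun t => xv (i, t)).map
      (List.map π) = (List.range r).map fun i =>
        (List.range (nR * fs P 1)).map fun t => π (xv (i, t)) := by
    rw [List.map_map]
    refine List.map_congr_left fun i _ => ?_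
    exact List.map_map
  rw [e1, e2]
  have e3 : ∀ g : ℕ → D, (fun t => π (DtoF (g t))) = fun t => κ (ι (g t)) := fun g =>
    funext fun t => (hκ' _).symm
  rw [e3, e3, e3, e3, ← hκ' w]
  exact hmain

end Pool.Agent.Lib.MP_39893a_lc.OV.LOCBM
end

section
/-! Module LOCN: two-term identities for right-hand sides, from the identities for nets. -/
set_option autoImplicit false

namespace Pool.Agent.Lib.MP_39893a_lc.OV.LOCNM

open Finset ORD OV FOTM

section maps

theorem UT_supp {S : Type} [Ring S] (φ : Mo →* S) (W : ℕ → ℕ → Prop) (ar : ℕ → List Rhs)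
    (ζ : Rhs) (h : ζ.CallsIn W ar) (j q : ℕ) (hne : UT φ ζ j q ≠ 0) : W j q := by
  induction ζ with
  | param p => exact absurd rfl hne
  | out b r c ih =>
    have h1 : ∑ l : Fin r, φ (letter (Nat.pair b l)) * UT φ (c l) j q ≠ 0 := hne
    obtain ⟨l, _, hl⟩ := Finset.exists_ne_zero_of_sum_ne_zero h1
    exact ih l (h l) (right_ne_zero_of_mul hl)
  | call q' i' n c ih =>
    have h1 : (if j = i' ∧ q = q' then (1 : S) else 0) ≠ 0 := hne
    by_cases h2 : j = i' ∧ q = q'
    · rw [h2.1, h2.2]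
      exact h.1
    · rw [if_neg h2] at h1
      exact absurd rfl h1

theorem UT_noCalls {S : Type} [Ring S] (φ : Mo →* S) (ζ : Rhs) (h : ζ.NoCalls) (j q : ℕ) :
    UT φ ζ j q = 0 := by
  induction ζ with
  | param p => rfl
  | out b r c ih =>
    show ∑ l : Fin r, φ (letter (Nat.pair b l)) * UT φ (c l) j q = 0
    refine Finset.sum_eq_zero fun l _ => ?_
    rw [ih l (h l), mul_zero]
  | call q' i' n c ih => exact absurd h id

variable {K S : Type} [Ring K] [Ring S] (κ : K →+* S) (φ : Mo →* K)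

theorem lamT_map (v : ℕ → K) (ζ : Rhs) :
    lamT ((κ : K →* S).comp φ) (fun t => κ (v t)) ζ = κ (lamT φ v ζ) := by
  induction ζ with
  | param p => rfl
  | out b r c ih =>
    show ((b + 1 : ℕ) : S) * κ (v 0) + ∑ l : Fin r, κ (φ (letter (Nat.pair b l))) *
      lamT ((κ : K →* S).comp φ) (fun t => κ (v t)) (c l) =
      κ (((b + 1 : ℕ) : K) * v 0 + ∑ l : Fin r, φ (letter (Nat.pair b l)) * lamT φ v (c l))
    rw [map_add, map_mul, map_natCast, map_sum]
    congr 1
    refine Finset.sum_congr rfl fun l _ => ?_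
    rw [ih l, map_mul]
  | call q i n c ih =>
    show (0 : S) = κ 0
    rw [map_zero]

theorem UT_map (ζ : Rhs) (j q : ℕ) :
    UT ((κ : K →* S).comp φ) ζ j q = κ (UT φ ζ j q) := by
  induction ζ with
  | param p =>
    show (0 : S) = κ 0
    rw [map_zero]
  | out b r c ih =>
    show ∑ l : Fin r, κ (φ (letter (Nat.pair b l))) * UT ((κ : K →* S).comp φ) (c l) j q =
      κ (∑ l : Fin r, φ (letter (Nat.pair b l)) * UT φ (c l) j q)
    rw [map_sum]
    refine Finset.sum_congr rfl fun l _ => ?_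
    rw [ih l, map_mul]
  | call q' i' n c ih =>
    show (if j = i' ∧ q = q' then (1 : S) else 0) = κ (if j = i' ∧ q = q' then (1 : K) else 0)
    by_cases h : j = i' ∧ q = q'
    · rw [if_pos h, if_pos h, map_one]
    · rw [if_neg h, if_neg h, map_zero]

theorem lN_map (v : ℕ → K) (ar : ℕ → List Rhs) (i b : ℕ) :
    lN ((κ : K →* S).comp φ) (fun t => κ (v t)) ar i b = κ (lN φ v ar i b) := by
  unfold lN
  by_cases h1 : b = 0
  · rw [if_pos h1, if_pos h1]
  · rw [if_neg h1, if_neg h1]
    by_cases h2 : b - 1 < (ar i).length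
    · rw [if_pos h2, if_pos h2, lamT_map]
    · rw [if_neg h2, if_neg h2, map_zero]

theorem EN_map (ar : ℕ → List Rhs) (i b j q : ℕ) :
    EN ((κ : K →* S).comp φ) ar i b j q = κ (EN φ ar i b j q) := by
  unfold EN
  by_cases h1 : b = 0
  · rw [if_pos h1, if_pos h1, map_zero]
  · rw [if_neg h1, if_neg h1]
    by_cases h2 : b - 1 < (ar i).length
    · rw [if_pos h2, if_pos h2, UT_map]
    · rw [if_neg h2, if_neg h2, map_zero]

end maps

theorem EN_supp {S : Type} [Ring S] (φ : Mo →* S) (W : ℕ → ℕ → Prop) (ar : ℕ → List Rhs)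
    (h : ∀ i, ∀ ζ ∈ ar i, ζ.CallsIn W ar) (i b j q : ℕ) (hne : EN φ ar i b j q ≠ 0) : W j q := by
  unfold EN at hne
  by_cases h1 : b = 0
  · rw [if_pos h1] at hne
    exact absurd rfl hne
  · rw [if_neg h1] at hne
    by_cases h2 : b - 1 < (ar i).length
    · rw [if_pos h2] at hne
      refine UT_supp φ W ar _ (h i _ ?_) j q hne
      rw [List.getD_eq_getElem _ _ h2]
      exact List.getElem_mem _
    · rw [if_neg h2] at hne
      exact absurd rfl hne

theorem nv_mask {S : Type} [Ring S] (nQ nB : ℕ) (x y : ℕ → ℕ → ℕ → S) (l : ℕ → ℕ → S)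
    (E : ℕ → ℕ → ℕ → ℕ → S) (W : ℕ → ℕ → Prop) (hE : ∀ i b j q, E i b j q ≠ 0 → W j q)
    (L : List ℕ) : (∀ i ∈ L, ∀ q, W i q → ∀ b, x i q b = y i q b) →
    ∀ (lam : S) (U : ℕ → ℕ → S), (∀ j q, U j q ≠ 0 → W j q) →
      nv nQ nB x l E L lam U = nv nQ nB y l E L lam U := by
  induction L with
  | nil => intro _ _ _ _; rfl
  | cons i L ih =>
    intro hxy lam U hU
    have ih' := ih fun j hj => hxy j (List.mem_cons_of_mem _ hj)
    show nv nQ nB x l E L lam U + ∑ q ∈ range nQ, U i q * ∑ b ∈ range nB, x i q b *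
        nv nQ nB x l E L (l i b) (E i b) =
      nv nQ nB y l E L lam U + ∑ q ∈ range nQ, U i q * ∑ b ∈ range nB, y i q b *
        nv nQ nB y l E L (l i b) (E i b)
    rw [ih' lam U hU]
    congr 1
    refine Finset.sum_congr rfl fun q _ => ?_
    by_cases h0 : U i q = 0
    · rw [h0, zero_mul, zero_mul]
    · congr 1
      refine Finset.sum_congr rfl fun b _ => ?_
      rw [hxy i List.mem_cons_self q (hU i q h0) b, ih' _ _ (hE i b)]

section rules

variable {S : Type} [Ring S]

/-- The constant of the form of the rules. -/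
def lamU (φ : Mo →* S) (v : ℕ → S) (rl : ℕ → Option Rhs) (n off : ℕ) (u : ℕ → S) : S :=
  ∑ q ∈ range n, u (off + q) * (rl q).elim 0 (fun ζ => lamT φ v ζ)

/-- The coefficients of the form of the rules. -/
def UU (φ : Mo →* S) (rl : ℕ → Option Rhs) (n off : ℕ) (u : ℕ → S) (i q' : ℕ) : S :=
  ∑ q ∈ range n, u (off + q) * (rl q).elim 0 (fun ζ => UT φ ζ i q')

theorem row_sum (hFOT : SpecFOT) (P off r : ℕ) (φ : Mo →* S) (bl : List (List S)) (v : ℕ → S)
    (B pr : List ℕ) (rl : ℕ → Option Rhs) (V : ℕ → Prop) (W : ℕ → ℕ → Prop) (ar : ℕ → List Rhs)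
    (ρ : ℕ → ℕ) (L : List ℕ) (hP : ∀ m ∈ pr, m ≤ P) (hVis : Vis B pr r rl V W ar ρ)
    (hL : L.Pairwise (fun i j => ρ j < ρ i)) (hLr : ∀ i, i ∈ L ↔ i < r) (u : ℕ → S)
    (hu : ∀ t, u t ≠ 0 → rows off pr.length V t) :
    ∑ q ∈ range pr.length, ∑ j ∈ range (P + 1),
        u (off + q) * ((rl q).elim 0 fun ζ => fo P off φ bl ζ j) * v j =
      nv pr.length (P + 1) (fun i q b => (bl.getD i []).getD (pos P (off + q) b) 0) (lN φ v ar)
        (EN φ ar) L (lamU φ v rl pr.length off u) (UU φ rl pr.length off u) := by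
  have e1 : lamU φ v rl pr.length off u =
      ∑ q : Fin pr.length, u (off + q) * (rl q).elim 0 (fun ζ => lamT φ v ζ) := by
    unfold lamU
    rw [Finset.sum_range]
  have e2 : UU φ rl pr.length off u = fun i q' =>
      ∑ q : Fin pr.length, u (off + q) * (rl q).elim 0 (fun ζ => UT φ ζ i q') := by
    funext i q'
    unfold UU
    rw [Finset.sum_range]
  rw [e1, e2, nv_sum, Finset.sum_range]
  refine Finset.sum_congr rfl fun q _ => ?_
  rw [nv_smul]
  have e3 : ∑ j ∈ range (P + 1), u (off + q) *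
      ((rl q).elim 0 fun ζ => fo P off φ bl ζ j) * v j =
      u (off + q) * ∑ j ∈ range (P + 1), ((rl q).elim 0 fun ζ => fo P off φ bl ζ j) * v j := by
    rw [Finset.mul_sum]
    exact Finset.sum_congr rfl fun j _ => mul_assoc _ _ _
  rw [e3]
  by_cases h0 : u (off + q) = 0
  · rw [h0, zero_mul, zero_mul]
  · congr 1
    obtain ⟨q', _, hqq, hVq⟩ := hu _ h0
    have hqq' : (q : ℕ) = q' := by omega
    rw [← hqq'] at hVq
    cases hrl : rl q with
    | none =>
      simp only [Option.elim]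
      rw [nv_const _ _ _ _ _ _ _ _ (fun j _ q => rfl)]
      refine Finset.sum_eq_zero fun j _ => ?_
      rw [zero_mul]
    | some ζ =>
      simp only [Option.elim]
      exact hFOT S P off r pr.length φ bl v B pr rl V W ar ρ L hP le_rfl hVis hL hLr ζ
        (hVis.rules q ζ hVq hrl) (hVis.wfr q ζ hrl).2

theorem nv_add_const (nQ nB : ℕ) (x : ℕ → ℕ → ℕ → S) (l : ℕ → ℕ → S)
    (E : ℕ → ℕ → ℕ → ℕ → S) (L : List ℕ) (w lam : S) (U : ℕ → ℕ → S) :
    nv nQ nB x l E L (w + lam) U = w + nv nQ nB x l E L lam U := by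
  have h := nv_add nQ nB x l E L w lam (fun _ _ => 0) U
  rw [nv_const nQ nB x l E L w _ (fun j _ q => rfl)] at h
  rw [← h]
  congr 1
  funext j q
  rw [zero_add]

theorem rT_eq (hFOT : SpecFOT) (P off off' r : ℕ) (φ : Mo →* S) (bl : List (List S))
    (B pr pr' : List ℕ) (rl rl' : ℕ → Option Rhs) (V V' : ℕ → Prop) (W W' : ℕ → ℕ → Prop)
    (ar ar' : ℕ → List Rhs) (ρ ρ' : ℕ → ℕ) (L L' : List ℕ) (hP : ∀ m ∈ pr, m ≤ P)
    (hP' : ∀ m ∈ pr', m ≤ P) (hVis : Vis B pr r rl V W ar ρ) (hVis' : Vis B pr' r rl' V' W' ar' ρ')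
    (hL : L.Pairwise (fun i j => ρ j < ρ i)) (hLr : ∀ i, i ∈ L ↔ i < r)
    (hL' : L'.Pairwise (fun i j => ρ' j < ρ' i)) (hLr' : ∀ i, i ∈ L' ↔ i < r)
    (u v u' v' : ℕ → S) (w : S) (hu : ∀ t, u t ≠ 0 → rows off pr.length V t)
    (hu' : ∀ t, u' t ≠ 0 → rows off' pr'.length V' t) :
    rT P off off' pr.length pr'.length φ bl rl rl' u v u' v' w =
      nv pr.length (P + 1) (fun i q b => (bl.getD i []).getD (pos P (off + q) b) 0) (lN φ v ar)
        (EN φ ar) L (w + lamU φ v rl pr.length off u) (UU φ rl pr.length off u) -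
      nv pr'.length (P + 1) (fun i q b => (bl.getD i []).getD (pos P (off' + q) b) 0)
        (lN φ v' ar') (EN φ ar') L' (lamU φ v' rl' pr'.length off' u')
        (UU φ rl' pr'.length off' u') := by
  unfold rT tq
  rw [row_sum hFOT P off r φ bl v B pr rl V W ar ρ L hP hVis hL hLr u hu,
    row_sum hFOT P off' r φ bl v' B pr' rl' V' W' ar' ρ' L' hP' hVis' hL' hLr' u' hu',
    nv_add_const]
  abel

theorem UU_supp (φ : Mo →* S) (B pr : List ℕ) (r : ℕ) (rl : ℕ → Option Rhs) (V : ℕ → Prop)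
    (W : ℕ → ℕ → Prop) (ar : ℕ → List Rhs) (ρ : ℕ → ℕ) (off : ℕ)
    (hVis : Vis B pr r rl V W ar ρ) (u : ℕ → S)
    (hu : ∀ t, u t ≠ 0 → rows off pr.length V t) (i q' : ℕ)
    (hne : UU φ rl pr.length off u i q' ≠ 0) : W i q' := by
  unfold UU at hne
  obtain ⟨q, _, hq⟩ := Finset.exists_ne_zero_of_sum_ne_zero hne
  obtain ⟨q₁, _, hqq, hVq⟩ := hu _ (left_ne_zero_of_mul hq)
  have hqq' : q = q₁ := by omega
  rw [← hqq'] at hVq
  have h2 := right_ne_zero_of_mul hq
  cases hrl : rl q with
  | none =>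
    rw [hrl] at h2
    exact absurd rfl h2
  | some ζ =>
    rw [hrl] at h2
    exact UT_supp φ W ar ζ (hVis.rules q ζ hVq hrl) i q' h2

end rules

section masks

variable {S : Type} [Ring S]

open Classical in
/-- Masked matrix of a vector. -/
noncomputable def mm (P off : ℕ) (W : ℕ → Prop) (x : List S) (q b : ℕ) : S :=
  if W q then x.getD (pos P (off + q) b) 0 else 0

open Classical in
/-- Extension of the coefficients to all rows. -/
noncomputable def ex (off n : ℕ) (W : ℕ → Prop) (u : ℕ → S) (R : ℕ) : S :=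
  if off ≤ R ∧ R - off < n ∧ W (R - off) then u (R - off) else 0

theorem ex_rows (off n : ℕ) (W : ℕ → Prop) (u : ℕ → S) (R : ℕ) (h : ex off n W u R ≠ 0) :
    rows off n W R := by
  classical
  unfold ex at h
  by_cases hc : off ≤ R ∧ R - off < n ∧ W (R - off)
  · exact ⟨R - off, hc.2.1, by omega, hc.2.2⟩
  · rw [if_neg hc] at h
    exact absurd rfl h

theorem ex_map {K : Type} [Ring K] (κ : K →+* S) (off n : ℕ) (W : ℕ → Prop) (u : ℕ → K) :
    (fun R => κ (ex off n W u R)) = ex off n W (fun t => κ (u t)) := by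
  classical
  funext R
  unfold ex
  by_cases hc : off ≤ R ∧ R - off < n ∧ W (R - off)
  · rw [if_pos hc, if_pos hc]
  · rw [if_neg hc, if_neg hc, map_zero]

theorem sum_ex (P nR off n : ℕ) (W : ℕ → Prop) (u v : ℕ → S) (x : List S) (hn : off + n ≤ nR) :
    ∑ R ∈ range nR, ∑ b ∈ range (P + 1), ex off n W u R * x.getD (pos P R b) 0 * v b =
      ∑ q ∈ range n, ∑ b ∈ range (P + 1), u q * mm P off W x q b * v b := by
  classical
  have h1 : ∑ R ∈ range nR, ∑ b ∈ range (P + 1), ex off n W u R * x.getD (pos P R b) 0 * v b =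
      ∑ R ∈ Finset.Ico off (off + n), ∑ b ∈ range (P + 1),
        ex off n W u R * x.getD (pos P R b) 0 * v b := by
    symm
    apply Finset.sum_subset
    · intro R hR
      rw [Finset.mem_Ico] at hR
      rw [Finset.mem_range]
      omega
    · intro R _ hR
      rw [Finset.mem_Ico] at hR
      have : ex off n W u R = 0 := by
        unfold ex
        rw [if_neg]
        rintro ⟨h1, h2, _⟩
        apply hR
        omega
      refine Finset.sum_eq_zero fun b _ => ?_
      rw [this, zero_mul, zero_mul]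
  rw [h1, Finset.sum_Ico_eq_sum_range, Nat.add_sub_cancel_left]
  refine Finset.sum_congr rfl fun q hq => ?_
  rw [Finset.mem_range] at hq
  refine Finset.sum_congr rfl fun b _ => ?_
  unfold ex mm
  rw [Nat.add_sub_cancel_left]
  by_cases hW : W q
  · rw [if_pos ⟨Nat.le_add_right _ _, hq, hW⟩, if_pos hW]
  · rw [if_neg (fun h => hW h.2.2), if_neg hW, zero_mul, mul_zero]

theorem tt_ex (P nR off off' n n' : ℕ) (W W' : ℕ → Prop) (u v u' v' : ℕ → S) (w : S)
    (x : List S) (hn : off + n ≤ nR) (hn' : off' + n' ≤ nR) :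
    tt P nR (ex off n W u) v (ex off' n' W' u') v' w x =
      tq n (P + 1) n' (P + 1) u v u' v' w (mm P off W x) (mm P off' W' x) := by
  unfold tt tq
  rw [sum_ex P nR off n W u v x hn, sum_ex P nR off' n' W' u' v' x hn']

end masks

/-- The transfer of identities from `X` to `y`, if nets allow it. -/
theorem core (hFOT : SpecFOT) {K S : Type} [DivisionRing K] [Ring S] (κ : K →+* S)
    (φ : Mo →* K) (B : List ℕ) (P nR r : ℕ) (off off' : ℕ) (pr pr' : List ℕ)
    (rl rl' : ℕ → Option Rhs) (V V' : ℕ → Prop) (W W' : ℕ → ℕ → Prop) (ar ar' : ℕ → List Rhs)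
    (ρ ρ' : ℕ → ℕ) (hP : ∀ m ∈ pr, m ≤ P) (hP' : ∀ m ∈ pr', m ≤ P)
    (hn : off + pr.length ≤ nR) (hn' : off' + pr'.length ≤ nR)
    (hVis : Vis B pr r rl V W ar ρ) (hVis' : Vis B pr' r rl' V' W' ar' ρ')
    (L L' : List ℕ) (hL : L.Pairwise (fun i j => ρ j < ρ i)) (hLr : ∀ i, i ∈ L ↔ i < r)
    (hL' : L'.Pairwise (fun i j => ρ' j < ρ' i)) (hLr' : ∀ i, i ∈ L' ↔ i < r)
    (hNT : ∀ (X : ℕ → Set ((ℕ → ℕ → K) × (ℕ → ℕ → K)))
      (xh : ℕ → (ℕ → ℕ → S) × (ℕ → ℕ → S)),
      (∀ i ∈ L, ∀ (u v u' v' : ℕ → K) (w : K),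
        (∀ x ∈ X i, tq pr.length (P + 1) pr'.length (P + 1) u v u' v' w x.1 x.2 = 0) →
        tq pr.length (P + 1) pr'.length (P + 1) (fun t => κ (u t)) (fun t => κ (v t))
          (fun t => κ (u' t)) (fun t => κ (v' t)) (κ w) (xh i).1 (xh i).2 = 0) →
      (∀ i ∈ L, ∀ (u v u' v' : ℕ → K) (w : K),
        (∀ x ∈ X i, tq pr.length (P + 1) pr.length (P + 1) u v u' v' w x.1 x.1 = 0) →
        tq pr.length (P + 1) pr.length (P + 1) (fun t => κ (u t)) (fun t => κ (v t))
          (fun t => κ (u' t)) (fun t => κ (v' t)) (κ w) (xh i).1 (xh i).1 = 0) →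
      ∀ (v v' : ℕ → K) (lam lam' : K) (U U' : ℕ → ℕ → K),
        (∀ x : ℕ → (ℕ → ℕ → K) × (ℕ → ℕ → K), (∀ i ∈ L, x i ∈ X i) →
          nv pr.length (P + 1) (fun i => (x i).1) (lN φ v ar) (EN φ ar) L lam U =
            nv pr'.length (P + 1) (fun i => (x i).2) (lN φ v' ar') (EN φ ar') L' lam' U') →
        nv pr.length (P + 1) (fun i => (xh i).1) (fun i b => κ (lN φ v ar i b))
            (fun i b j q => κ (EN φ ar i b j q)) L (κ lam) (fun i q => κ (U i q)) =
          nv pr'.length (P + 1) (fun i => (xh i).2) (fun i b => κ (lN φ v' ar' i b))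
            (fun i b j q => κ (EN φ ar' i b j q)) L' (κ lam') (fun i q => κ (U' i q)))
    (X : ℕ → Set (List K)) (y : ℕ → List S)
    (hTT : ∀ i < r, ∀ (u v u' v' : ℕ → K) (w : K),
      (∀ t, u t ≠ 0 → rows off pr.length (W i) t) →
      (∀ t, u' t ≠ 0 → rows off' pr'.length (W' i) t) →
      (∀ x ∈ X i, tt P nR u v u' v' w x = 0) →
      tt P nR (fun t => κ (u t)) (fun t => κ (v t)) (fun t => κ (u' t)) (fun t => κ (v' t)) (κ w)
        (y i) = 0)
    (hTS : ∀ i < r, ∀ (u v u' v' : ℕ → K) (w : K),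
      (∀ t, u t ≠ 0 → rows off pr.length (W i) t) →
      (∀ t, u' t ≠ 0 → rows off pr.length (W i) t) →
      (∀ x ∈ X i, tt P nR u v u' v' w x = 0) →
      tt P nR (fun t => κ (u t)) (fun t => κ (v t)) (fun t => κ (u' t)) (fun t => κ (v' t)) (κ w)
        (y i) = 0)
    (u v u' v' : ℕ → K) (w : K) (hu : ∀ t, u t ≠ 0 → rows off pr.length V t)
    (hu' : ∀ t, u' t ≠ 0 → rows off' pr'.length V' t)
    (hX : ∀ x : ℕ → List K, (∀ i < r, x i ∈ X i) →
      rT P off off' pr.length pr'.length φ ((List.range r).map x) rl rl' u v u' v' w = 0) :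
    rT P off off' pr.length pr'.length ((κ : K →* S).comp φ) ((List.range r).map y) rl rl'
      (fun t => κ (u t)) (fun t => κ (v t)) (fun t => κ (u' t)) (fun t => κ (v' t)) (κ w) = 0 := by
  classical
  have hbl : ∀ {T : Type} [Ring T] (x : ℕ → List T) (i : ℕ), i < r →
      ((List.range r).map x).getD i [] = x i := by
    intro T _ x i hi
    rw [List.getD_eq_getElem _ _ (by simpa using hi)]
    simp
  -- the transfer for nets
  have hmain := hNT (fun i => (fun x : List K => (mm P off (W i) x, mm P off' (W' i) x)) '' X i)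
    (fun i => (mm P off (W i) (y i), mm P off' (W' i) (y i))) ?_ ?_
    v v' (w + lamU φ v rl pr.length off u) (lamU φ v' rl' pr'.length off' u')
    (UU φ rl pr.length off u) (UU φ rl' pr'.length off' u') ?_
  · -- conclusion
    have hku : ∀ t, (fun t => κ (u t)) t ≠ 0 → rows off pr.length V t := by
      intro t ht
      apply hu t
      intro h
      apply ht
      show κ (u t) = 0
      rw [h, map_zero]
    have hku' : ∀ t, (fun t => κ (u' t)) t ≠ 0 → rows off' pr'.length V' t := by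
      intro t ht
      apply hu' t
      intro h
      apply ht
      show κ (u' t) = 0
      rw [h, map_zero]
    rw [rT_eq hFOT P off off' r ((κ : K →* S).comp φ) ((List.range r).map y) B pr pr' rl rl' V V'
      W W' ar ar' ρ ρ' L L' hP hP' hVis hVis' hL hLr hL' hLr' _ _ _ _ _ hku hku', sub_eq_zero]
    have a1 : lN ((κ : K →* S).comp φ) (fun t => κ (v t)) ar = fun i b => κ (lN φ v ar i b) := by
      funext i b
      exact lN_map κ φ v ar i b
    have a2 : lN ((κ : K →* S).comp φ) (fun t => κ (v' t)) ar' =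
        fun i b => κ (lN φ v' ar' i b) := by
      funext i b
      exact lN_map κ φ v' ar' i b
    have a3 : EN ((κ : K →* S).comp φ) ar = fun i b j q => κ (EN φ ar i b j q) := by
      funext i b j q
      exact EN_map κ φ ar i b j q
    have a4 : EN ((κ : K →* S).comp φ) ar' = fun i b j q => κ (EN φ ar' i b j q) := by
      funext i b j q
      exact EN_map κ φ ar' i b j q
    have a5 : ∀ (rl : ℕ → Option Rhs) (n off : ℕ) (u v : ℕ → K),
        lamU ((κ : K →* S).comp φ) (fun t => κ (v t)) rl n off (fun t => κ (u t)) =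
          κ (lamU φ v rl n off u) := by
      intro rl n off u v
      unfold lamU
      rw [map_sum]
      refine Finset.sum_congr rfl fun q _ => ?_
      cases rl q with
      | none => simp
      | some ζ =>
        simp only [Option.elim]
        rw [lamT_map, map_mul]
    have a6 : ∀ (rl : ℕ → Option Rhs) (n off : ℕ) (u : ℕ → K),
        UU ((κ : K →* S).comp φ) rl n off (fun t => κ (u t)) =
          fun i q => κ (UU φ rl n off u i q) := by
      intro rl n off u
      funext i q'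
      unfold UU
      rw [map_sum]
      refine Finset.sum_congr rfl fun q _ => ?_
      cases rl q with
      | none => simp
      | some ζ =>
        simp only [Option.elim]
        rw [UT_map, map_mul]
    have hU : ∀ j q, UU ((κ : K →* S).comp φ) rl pr.length off (fun t => κ (u t)) j q ≠ 0 →
        W j q := UU_supp _ B pr r rl V W ar ρ off hVis _ hku
    have hU' : ∀ j q, UU ((κ : K →* S).comp φ) rl' pr'.length off' (fun t => κ (u' t)) j q ≠ 0 →
        W' j q := UU_supp _ B pr' r rl' V' W' ar' ρ' off' hVis' _ hku'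
    have hE : ∀ i b j q, EN ((κ : K →* S).comp φ) ar i b j q ≠ 0 → W j q :=
      EN_supp _ W ar hVis.args
    have hE' : ∀ i b j q, EN ((κ : K →* S).comp φ) ar' i b j q ≠ 0 → W' j q :=
      EN_supp _ W' ar' hVis'.args
    rw [nv_mask pr.length (P + 1) _ (fun i => mm P off (W i) (y i)) _ _ W hE L ?_ _ _ hU,
      nv_mask pr'.length (P + 1) _ (fun i => mm P off' (W' i) (y i)) _ _ W' hE' L' ?_ _ _ hU']
    · rw [a1, a2, a3, a4, a5, a5, a6, a6, ← map_add]
      exact hmain
    · intro i hi q hq b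
      rw [hbl y i ((hLr' i).mp hi)]
      unfold mm
      rw [if_pos hq]
    · intro i hi q hq b
      rw [hbl y i ((hLr i).mp hi)]
      unfold mm
      rw [if_pos hq]
  · -- two-term identities, both machines
    intro i hi u v u' v' w h
    have h1 := hTT i ((hLr i).mp hi) (ex off pr.length (W i) u) v (ex off' pr'.length (W' i) u')
      v' w (ex_rows off pr.length (W i) u) (ex_rows off' pr'.length (W' i) u') (by
        intro x hx
        rw [tt_ex P nR off off' _ _ _ _ _ _ _ _ _ _ hn hn']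
        exact h _ ⟨x, hx, rfl⟩)
    rw [ex_map, ex_map, tt_ex P nR off off' _ _ _ _ _ _ _ _ _ _ hn hn'] at h1
    exact h1
  · -- two-term identities, first machine
    intro i hi u v u' v' w h
    have h1 := hTS i ((hLr i).mp hi) (ex off pr.length (W i) u) v (ex off pr.length (W i) u')
      v' w (ex_rows off pr.length (W i) u) (ex_rows off pr.length (W i) u') (by
        intro x hx
        rw [tt_ex P nR off off _ _ _ _ _ _ _ _ _ _ hn hn]
        exact h _ ⟨x, hx, rfl⟩)
    rw [ex_map, ex_map, tt_ex P nR off off _ _ _ _ _ _ _ _ _ _ hn hn] at h1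
    exact h1
  · -- the identity on `X`
    intro x' hx'
    have hch : ∀ i, ∃ x : List K, i ∈ L → x ∈ X i ∧
        (mm P off (W i) x, mm P off' (W' i) x) = x' i := by
      intro i
      by_cases hi : i ∈ L
      · obtain ⟨x, hx, hxe⟩ := hx' i hi
        exact ⟨x, fun _ => ⟨hx, hxe⟩⟩
      · exact ⟨[], fun h => absurd h hi⟩
    choose x hx using hch
    have h0 := hX x (fun i hi => (hx i ((hLr i).mpr hi)).1)
    rw [rT_eq hFOT P off off' r φ ((List.range r).map x) B pr pr' rl rl' V V'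
      W W' ar ar' ρ ρ' L L' hP hP' hVis hVis' hL hLr hL' hLr' _ _ _ _ _ hu hu', sub_eq_zero] at h0
    have hU : ∀ j q, UU φ rl pr.length off u j q ≠ 0 → W j q :=
      UU_supp _ B pr r rl V W ar ρ off hVis _ hu
    have hU' : ∀ j q, UU φ rl' pr'.length off' u' j q ≠ 0 → W' j q :=
      UU_supp _ B pr' r rl' V' W' ar' ρ' off' hVis' _ hu'
    have hE : ∀ i b j q, EN φ ar i b j q ≠ 0 → W j q := EN_supp _ W ar hVis.args
    have hE' : ∀ i b j q, EN φ ar' i b j q ≠ 0 → W' j q := EN_supp _ W' ar' hVis'.args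
    rw [nv_mask pr.length (P + 1) _ (fun i => (x' i).1) _ _ W hE L ?_ _ _ hU,
      nv_mask pr'.length (P + 1) _ (fun i => (x' i).2) _ _ W' hE' L' ?_ _ _ hU'] at h0
    · exact h0
    · intro i hi q hq b
      have hi' := (hLr' i).mp hi
      rw [hbl x i hi', ← (hx i ((hLr i).mpr hi')).2]
      show _ = mm P off' (W' i) (x i) q b
      unfold mm
      rw [if_pos hq]
    · intro i hi q hq b
      rw [hbl x i ((hLr i).mp hi), ← (hx i hi).2]
      show _ = mm P off (W i) (x i) q b
      unfold mm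
      rw [if_pos hq]

theorem exists_sorted (r : ℕ) (ρ : ℕ → ℕ) (h : ∀ i < r, ∀ j < r, ρ i = ρ j → i = j) :
    ∃ L : List ℕ, L.Pairwise (fun i j => ρ j < ρ i) ∧ ∀ i, i ∈ L ↔ i < r := by
  classical
  have : Std.Total (fun i j : ℕ => ρ j ≤ ρ i) := ⟨fun i j => le_total _ _⟩
  have : IsTrans ℕ (fun i j : ℕ => ρ j ≤ ρ i) := ⟨fun i j k h1 h2 => le_trans h2 h1⟩
  let L := (List.range r).insertionSort (fun i j : ℕ => ρ j ≤ ρ i)
  have hmem : ∀ i, i ∈ L ↔ i < r := by
    intro i
    rw [List.mem_insertionSort, List.mem_range]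
  have hnd : L.Nodup := (List.perm_insertionSort _ _).nodup_iff.mpr List.nodup_range
  have hs : L.Pairwise (fun i j : ℕ => ρ j ≤ ρ i) := List.pairwise_insertionSort _ _
  refine ⟨L, ?_, hmem⟩
  have h3 := hs.and hnd
  refine List.Pairwise.imp_of_mem ?_ h3
  rintro i j hi hj ⟨h1, h2⟩
  refine lt_of_le_of_ne h1 fun he => h2 ?_
  exact h i ((hmem i).mp hi) j ((hmem j).mp hj) he.symm

theorem nodup_of_pairwise (ρ : ℕ → ℕ) (L : List ℕ) (hL : L.Pairwise (fun i j => ρ j < ρ i)) :
    L.Nodup := by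
  refine hL.imp ?_
  rintro i j h rfl
  exact lt_irrefl _ h

theorem perm_of_mem (r : ℕ) (L L' : List ℕ) (h : L.Nodup) (h' : L'.Nodup)
    (hLr : ∀ i, i ∈ L ↔ i < r) (hLr' : ∀ i, i ∈ L' ↔ i < r) : L.Perm L' :=
  (List.perm_ext_iff_of_nodup h h').mpr fun i => (hLr i).trans (hLr' i).symm

theorem narE_of_narAr {K : Type} [Ring K] (φ : Mo →* K) (ar : ℕ → List Rhs) (h : NarAr ar) :
    NarE (EN φ ar) := by
  classical
  rcases h with ⟨st, hst⟩ | ⟨f, hf⟩
  · left
    refine ⟨fun i b j => EN φ ar i b j (st j), fun j q => if q = st j then 1 else 0, ?_⟩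
    intro i b j q
    by_cases hq : q = st j
    · show _ = EN φ ar i b j (st j) * (if q = st j then 1 else 0)
      rw [if_pos hq, mul_one, hq]
    · show _ = EN φ ar i b j (st j) * (if q = st j then 1 else 0)
      rw [if_neg hq, mul_zero]
      by_contra hne
      exact hq (EN_supp φ (fun j q => q = st j) ar hst i b j q hne)
  · right
    refine ⟨fun i b => if b = f i + 1 then 1 else 0, fun i j q => EN φ ar i (f i + 1) j q, ?_⟩
    intro i b j q
    by_cases hb : b = f i + 1
    · show _ = (if b = f i + 1 then 1 else 0) * EN φ ar i (f i + 1) j q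
      rw [if_pos hb, one_mul, hb]
    · show _ = (if b = f i + 1 then 1 else 0) * EN φ ar i (f i + 1) j q
      rw [if_neg hb, zero_mul]
      unfold EN
      by_cases h1 : b = 0
      · rw [if_pos h1]
      · rw [if_neg h1]
        by_cases h2 : b - 1 < (ar i).length
        · rw [if_pos h2]
          exact UT_noCalls φ _ (hf i (b - 1) (by omega)) j q
        · rw [if_neg h2]

/-- **Module LOCN**. -/
theorem specLOCN (hCOM : SpecCOM) (hNARC : SpecNARC) (hFOT : SpecFOT) : SpecLOCN := by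
  intro K S _ _ κ hRR hnc φ B P nR r off off' pr pr' rl rl' V V' W W' ar ar' ρ ρ' hP hP' hn hn'
    hVis hVis' hcase X y hTT hTS u v u' v' w hu hu' hX
  obtain ⟨L, hL, hLr⟩ := exists_sorted r ρ hVis.inj
  have hLnd := nodup_of_pairwise ρ L hL
  rcases hcase with hρ | ⟨hN, hN'⟩
  · subst hρ
    refine core hFOT κ φ B P nR r off off' pr pr' rl rl' V V' W W' ar ar' ρ ρ hP hP' hn hn'
      hVis hVis' L L hL hLr hL hLr ?_ X y hTT hTS u v u' v' w hu hu' hX
    intro X' xh h1 _ v v' lam lam' U U' h3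
    exact hCOM K S κ pr.length (P + 1) pr'.length (P + 1) L hLnd X' xh h1 _ _ _ _ _ _ _ _ h3
  · obtain ⟨L', hL', hLr'⟩ := exists_sorted r ρ' hVis'.inj
    have hLnd' := nodup_of_pairwise ρ' L' hL'
    refine core hFOT κ φ B P nR r off off' pr pr' rl rl' V V' W W' ar ar' ρ ρ' hP hP' hn hn'
      hVis hVis' L L' hL hLr hL' hLr' ?_ X y hTT hTS u v u' v' w hu hu' hX
    intro X' xh h1 h2 v v' lam lam' U U' h3
    exact hNARC K S κ hRR hnc pr.length (P + 1) pr'.length (P + 1) L L' hLnd
      (perm_of_mem r L L' hLnd hLnd' hLr hLr') X' xh h1 h2 _ _ _ _ _ _ _ _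
      (narE_of_narAr φ ar hN) (narE_of_narAr φ ar' hN') h3

end Pool.Agent.Lib.MP_39893a_lc.OV.LOCNM
end

section
/-! Module LOCNB: as LOCN, with blocks. -/
set_option autoImplicit false

namespace Pool.Agent.Lib.MP_39893a_lc.OV.LOCNBM

open Finset ORD OV FOTM LOCNM

theorem narEB_of_narArB {K : Type} [Ring K] (φ : Mo →* K) (π : ℕ → ℕ) (ar : ℕ → List Rhs)
    (h : NarArB π ar) : NarEB π (EN φ ar) := by
  classical
  rcases h with ⟨st, hst⟩ | ⟨f, hf⟩
  · left
    refine ⟨fun i b j => EN φ ar i b j (st j), fun j q => if q = st j then 1 else 0, ?_⟩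
    intro i b j q _ hπ
    by_cases hq : q = st j
    · show _ = EN φ ar i b j (st j) * (if q = st j then 1 else 0)
      rw [if_pos hq, mul_one, hq]
    · show _ = EN φ ar i b j (st j) * (if q = st j then 1 else 0)
      rw [if_neg hq, mul_zero]
      by_contra hne
      apply hq
      unfold EN at hne
      by_cases h1 : b = 0
      · rw [if_pos h1] at hne
        exact absurd rfl hne
      · rw [if_neg h1] at hne
        by_cases h2 : b - 1 < (ar i).length
        · rw [if_pos h2] at hne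
          have hmem : (ar i).getD (b - 1) (.param 0) ∈ ar i := by
            rw [List.getD_eq_getElem _ _ h2]
            exact List.getElem_mem _
          exact UT_supp φ (fun j q => π j = π i → q = st j) ar _ (hst i _ hmem) j q hne hπ.symm
        · rw [if_neg h2] at hne
          exact absurd rfl hne
  · right
    refine ⟨fun i b => if b = f i + 1 then 1 else 0, fun i j q => EN φ ar i (f i + 1) j q, ?_⟩
    intro i b j q _ hπ
    by_cases hb : b = f i + 1
    · show _ = (if b = f i + 1 then 1 else 0) * EN φ ar i (f i + 1) j q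
      rw [if_pos hb, one_mul, hb]
    · show _ = (if b = f i + 1 then 1 else 0) * EN φ ar i (f i + 1) j q
      rw [if_neg hb, zero_mul]
      by_contra hne
      unfold EN at hne
      by_cases h1 : b = 0
      · rw [if_pos h1] at hne
        exact absurd rfl hne
      · rw [if_neg h1] at hne
        by_cases h2 : b - 1 < (ar i).length
        · rw [if_pos h2] at hne
          exact UT_supp φ (fun j _ => π j ≠ π i) ar _ (hf i (b - 1) (by omega)) j q hne hπ.symm
        · rw [if_neg h2] at hne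
          exact absurd rfl hne

theorem pairwise_block (r : ℕ) (ρ π : ℕ → ℕ) (L : List ℕ)
    (hL : L.Pairwise (fun i j => ρ j < ρ i)) (hLr : ∀ i, i ∈ L ↔ i < r)
    (h : ∀ i < r, ∀ j < r, π i < π j → ρ i < ρ j) : L.Pairwise (fun i j => π j ≤ π i) := by
  refine List.Pairwise.imp_of_mem ?_ hL
  intro i j hi hj hij
  by_contra hc
  exact absurd (h i ((hLr i).mp hi) j ((hLr j).mp hj) (not_le.mp hc)) (not_lt.mpr hij.le)

/-- **Module LOCNB**. -/
theorem specLOCNB (hBLC : SpecBLC) (hFOT : SpecFOT) : SpecLOCNB := by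
  intro K S _ _ κ hRR hnc φ B P nR r off off' pr pr' rl rl' V V' W W' ar ar' ρ ρ' hP hP' hn hn'
    hVis hVis' hcond X y hTT hTS u v u' v' w hu hu' hX
  obtain ⟨L, hL, hLr⟩ := exists_sorted r ρ hVis.inj
  have hLnd := nodup_of_pairwise ρ L hL
  obtain ⟨L', hL', hLr'⟩ := exists_sorted r ρ' hVis'.inj
  have hLnd' := nodup_of_pairwise ρ' L' hL'
  obtain ⟨π, hπ, hπ', hN, hN'⟩ := hcond
  refine core hFOT κ φ B P nR r off off' pr pr' rl rl' V V' W W' ar ar' ρ ρ' hP hP' hn hn'
    hVis hVis' L L' hL hLr hL' hLr' ?_ X y hTT hTS u v u' v' w hu hu' hX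
  intro X' xh h1 h2 v v' lam lam' U U' h3
  exact hBLC K S κ hRR hnc pr.length (P + 1) pr'.length (P + 1) L L' π hLnd
    (perm_of_mem r L L' hLnd hLnd' hLr hLr') (pairwise_block r ρ π L hL hLr hπ)
    (pairwise_block r ρ' π L' hL' hLr' hπ') X' xh h1 h2 _ _ _ _ _ _ _ _
    (narEB_of_narArB φ π ar hN) (narEB_of_narArB φ π ar' hN') h3

end Pool.Agent.Lib.MP_39893a_lc.OV.LOCNBM
end
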