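import Pool.Agent.Lib.MP_39893a_lc.OV.Spec
import Pool.Agent.Lib.MP_39893a_lc.ORD.AGW
import Pool.Agent.Lib.MP_39893a_lc.OV.SpecB

section
/-!
# MP_39893a_lc, OV, module AGV: the transducers of one-visit grammars are one-visit pairs
-/
set_option autoImplicit false

namespace Pool.Agent.Lib.MP_39893a_lc.OV.AGVM

open Pool.Agent.Lib.MP_39893a_lc Pool.Agent.Lib.MP_39893a_lc.OV Pool.Agent.Lib.MP_39893a_lc.ORD
open Pool.Agent.Lib.MP_39893a_lc.AGL

variable {A B : List ℕ}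

/-! ## Terms -/

/-- The synthesized attributes that occur satisfy `P i a`. -/
def SynP {p q : ℕ} (P : ℕ → ℕ → Prop) : ATm p q → Prop
  | .syn a i => P i a
  | .inh _ => True
  | .out _ _ c => ∀ l, SynP P (c l)

theorem synP_top {p q : ℕ} (P : ℕ → ℕ → Prop) (hP : ∀ i a, P i a) : ∀ t : ATm p q, SynP P t
  | .syn a i => hP i a
  | .inh _ => trivial
  | .out _ _ c => fun l => synP_top P hP (c l)

theorem synP_of_synIn {p q : ℕ} (st : ℕ → ℕ) :
    ∀ t : ATm p q, SynIn st t → SynP (fun i a => 1 + a = 1 + st i) t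
  | .syn _ i, h => by
      show 1 + _ = 1 + st i
      rw [show _ = st i from h]
  | .inh _, _ => trivial
  | .out _ _ c, h => fun l => synP_of_synIn st (c l) (h l)

theorem noCalls_callsIn (W : ℕ → ℕ → Prop) (ar : ℕ → List Rhs) :
    ∀ ζ : Rhs, ζ.NoCalls → ζ.CallsIn W ar
  | .param _, _ => trivial
  | .out _ _ c, h => fun l => noCalls_callsIn W ar (c l) (h l)
  | .call _ _ _ _, h => h.elim

/-- Without synthesized attributes there are no calls. -/
theorem sb_noCalls {p q : ℕ} (f : ℕ → Fin q → Rhs) (par : Fin q → Rhs)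
    (hpar : ∀ b, (par b).NoCalls) : ∀ t : ATm p q, NoSyn t → (sb f par t).NoCalls
  | .syn _ _, h => h.elim
  | .inh b, _ => hpar b
  | .out _ _ c, h => fun i => sb_noCalls f par hpar (c i) (h i)

theorem const_noCalls {p q : ℕ} (f : ℕ → Fin q → Rhs) (par : Fin q → Rhs) :
    ∀ t : ATm p q, t.NoInh → NoSyn t → (sb f par t).NoCalls
  | .syn _ _, _, h => h.elim
  | .inh _, h, _ => h.elim
  | .out _ _ c, h1, h2 => fun i => const_noCalls f par (c i) (h1 i) (h2 i)

theorem sb_congr {p q : ℕ} (B : List ℕ) (r : ℕ) (ρ : ℕ → ℕ) (k : ℕ)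
    (f f' : ℕ → Fin q → Rhs) (par : Fin q → Rhs) (hf : ∀ j, j < r → ρ j < k → f j = f' j) :
    ∀ t : ATm p q, t.WF B r → SynBelow ρ k t → sb f par t = sb f' par t
  | .syn _ i, h, h' => by
      show Rhs.call _ i q (fun b => f i b) = Rhs.call _ i q (fun b => f' i b)
      rw [hf i h h']
  | .inh _, _, _ => rfl
  | .out _ _ c, h, h' => by
      show Rhs.out _ _ (fun i => sb f par (c i)) = Rhs.out _ _ (fun i => sb f' par (c i))
      congr 1
      funext i
      exact sb_congr B r ρ k f f' par hf (c i) (h.2 i) (h' i)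

theorem sb_calls {p q : ℕ} (B : List ℕ) (r : ℕ) (ρ : ℕ → ℕ) (k : ℕ) (W : ℕ → ℕ → Prop)
    (ar : ℕ → List Rhs) (f : ℕ → Fin q → Rhs) (par : Fin q → Rhs)
    (hf : ∀ j, j < r → ρ j < k → List.ofFn (f j) = ar j ∧ ∀ b, (f j b).CallsIn W ar)
    (hpar : ∀ b, (par b).CallsIn W ar) :
    ∀ t : ATm p q, t.WF B r → SynBelow ρ k t → SynP (fun i a => W i (1 + a)) t →
      (sb f par t).CallsIn W ar
  | .syn _ i, h, h', h'' => ⟨h'', (hf i h h').1, (hf i h h').2⟩
  | .inh b, _, _, _ => hpar b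
  | .out _ _ c, h, h', h'' => fun l =>
      sb_calls B r ρ k W ar f par hf hpar (c l) (h.2 l) (h' l) (h'' l)

/-! ## The number of smaller children -/

/-- Number of the children smaller than `i`. -/
def kk (r : ℕ) (ρ : ℕ → ℕ) (i : ℕ) : ℕ := ((Finset.range r).filter fun j => ρ j < ρ i).card

theorem kk_lt (r : ℕ) (ρ : ℕ → ℕ) {i j : ℕ} (hj : j < r) (h : ρ j < ρ i) :
    kk r ρ j < kk r ρ i := by
  refine Finset.card_lt_card ((Finset.ssubset_iff_of_subset ?_).2 ⟨j, ?_, ?_⟩)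
  · intro l hl
    rw [Finset.mem_filter] at hl ⊢
    exact ⟨hl.1, hl.2.trans h⟩
  · rw [Finset.mem_filter, Finset.mem_range]
    exact ⟨hj, h⟩
  · rw [Finset.mem_filter]
    exact fun h => lt_irrefl _ h.2

theorem kk_lt_r (r : ℕ) (ρ : ℕ → ℕ) {i : ℕ} (hi : i < r) : kk r ρ i < r := by
  have hss : ((Finset.range r).filter fun l => ρ l < ρ i) ⊂ Finset.range r := by
    refine (Finset.ssubset_iff_of_subset (Finset.filter_subset _ _)).2 ⟨i, Finset.mem_range.2 hi, ?_⟩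
    rw [Finset.mem_filter]
    exact fun h => lt_irrefl _ h.2
  have := Finset.card_lt_card hss
  rwa [Finset.card_range] at this

/-! ## Unrolled inherited attributes -/

theorem inhR_stab (G : AG A B) (σ r : ℕ) (hσ : A[σ]? = some r) (ρ : ℕ → ℕ)
    (hV : VisitAt G σ ρ) (par : Fin G.q → Rhs) :
    ∀ (n m i : ℕ), i < r → kk r ρ i < n → kk r ρ i < m →
      inhR G σ par n i = inhR G σ par m i
  | 0, _, _, _, h, _ => absurd h (Nat.not_lt_zero _)
  | _ + 1, 0, _, _, _, h => absurd h (Nat.not_lt_zero _)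
  | n + 1, m + 1, i, hi, hn, hm => by
      funext b
      refine sb_congr B r ρ (ρ i) _ _ par (fun j hj hji => ?_) _ (G.wf_inh σ r i b hσ hi)
        (hV r i b hσ hi)
      have h := kk_lt r ρ hj hji
      exact inhR_stab G σ r hσ ρ hV par n m j hj (by omega) (by omega)

/-- The arguments: values of the inherited attributes of the child `i`. -/
def arg (G : AG A B) (σ r : ℕ) (par : Fin G.q → Rhs) (i : ℕ) : List Rhs :=
  if i < r then List.ofFn (inhR G σ par r i) else []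

theorem inhR_calls (G : AG A B) (σ r : ℕ) (hσ : A[σ]? = some r) (ρ : ℕ → ℕ)
    (hV : VisitAt G σ ρ) (par : Fin G.q → Rhs) (W : ℕ → ℕ → Prop)
    (hW : ∀ i < r, ∀ b, SynP (fun i a => W i (1 + a)) (G.inh σ i b))
    (hpar : ∀ b, (par b).CallsIn W (arg G σ r par)) :
    ∀ (n i : ℕ), i < r → kk r ρ i < n → ∀ b, (inhR G σ par n i b).CallsIn W (arg G σ r par)
  | 0, _, _, h, _ => absurd h (Nat.not_lt_zero _)
  | n + 1, i, hi, h, b => by
      refine sb_calls B r ρ (ρ i) W _ _ par (fun j hj hji => ?_) hpar _ (G.wf_inh σ r i b hσ hi)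
        (hV r i b hσ hi) (hW i hi b)
      have h' := kk_lt r ρ hj hji
      refine ⟨?_, fun b' => inhR_calls G σ r hσ ρ hV par W hW hpar n j hj (by omega) b'⟩
      rw [arg, if_pos hj, inhR_stab G σ r hσ ρ hV par n r j hj (by omega) (kk_lt_r r ρ hj)]

theorem synR_calls (G : AG A B) (σ r : ℕ) (hσ : A[σ]? = some r) (ρ : ℕ → ℕ)
    (hV : VisitAt G σ ρ) (par : Fin G.q → Rhs) (W : ℕ → ℕ → Prop) (hW : ∀ i a, W i (1 + a))
    (hpar : ∀ b, (par b).CallsIn W (arg G σ r par)) (a : Fin G.p) :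
    (synR G σ par a).CallsIn W (arg G σ r par) := by
  have hr : A.getD σ 0 = r := by
    rw [List.getD_eq_getElem?_getD, hσ]
    rfl
  have hk : ∀ i, i < r → ρ i < (Finset.range r).sup (fun i => ρ i) + 1 := fun i hi =>
    Nat.lt_succ_of_le (Finset.le_sup (f := fun i => ρ i) (Finset.mem_range.2 hi))
  unfold synR
  rw [hr]
  refine sb_calls B r ρ _ W _ _ par (fun j hj _ => ?_) hpar _ (G.wf_syn σ r a hσ)
    (AGOM.synBelow_top B r ρ _ hk _ (G.wf_syn σ r a hσ)) (synP_top _ hW _)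
  refine ⟨by rw [arg, if_pos hj], fun b' => inhR_calls G σ r hσ ρ hV par W
    (fun i _ b => synP_top _ hW _) hpar r j hj (kk_lt_r r ρ hj) b'⟩

theorem mem_arg {G : AG A B} {σ r : ℕ} {par : Fin G.q → Rhs} {i : ℕ} {ζ : Rhs}
    (h : ζ ∈ arg G σ r par i) : i < r ∧ ∃ b, inhR G σ par r i b = ζ := by
  unfold arg at h
  split at h
  · next hi => exact ⟨hi, (List.mem_ofFn' _ _).1 h⟩
  · exact absurd h (List.not_mem_nil)

/-! ## The data -/

/-- The sets of states. -/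
def VV (w q : ℕ) : Prop := if w = 0 then q = 0 else 1 ≤ q

/-- The parameters. -/
def par (G : AG A B) (w : ℕ) (b : Fin G.q) : Rhs := if w = 0 then rootR G b else .param b

theorem par_noCalls (G : AG A B) (hG : ConstRoot G) (w : ℕ) (b : Fin G.q) :
    (par G w b).NoCalls := by
  unfold par
  split
  · exact const_noCalls _ _ _ (G.wf_root b).2 (hG b)
  · trivial

theorem par_good (G : AG A B) (hG : ConstRoot G) (ρ : ℕ → ℕ) (w : ℕ) (b : Fin G.q) :
    (par G w b).Ordered ρ ∧ ∀ k, (par G w b).Below ρ k := by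
  unfold par
  split
  · exact AGOM.const_good ρ _ _ _ (G.wf_root b).2 (hG b)
  · exact ⟨trivial, fun _ => trivial⟩

/-- The arguments. -/
def arG (G : AG A B) (w a : ℕ) : ℕ → List Rhs := arg G a (A.getD a 0) (par G w)

theorem vis (hW : SpecAGW) (G : AG A B) (hG : ConstRoot G) (a : ℕ) (ha : a < A.length)
    (ρ : ℕ → ℕ) (hρ : Function.Injective ρ) (hV : VisitAt G a ρ) (w : ℕ) :
    Vis B (trG hW G hG).params (A.getD a 0) (rlM (trG hW G hG) a) (VV w) (fun _ => VV 1)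
      (arG G w a) ρ := by
  obtain ⟨r, hr⟩ : ∃ r, A[a]? = some r := ⟨A[a], List.getElem?_eq_getElem ha⟩
  have hrr : A.getD a 0 = r := by
    rw [List.getD_eq_getElem?_getD, hr]
    rfl
  unfold arG
  rw [hrr]
  have hW1 : ∀ i a : ℕ, (fun _ : ℕ => VV 1) i (1 + a) := fun _ a => by
    show VV 1 (1 + a)
    unfold VV
    rw [if_neg one_ne_zero]
    omega
  have hparC : ∀ (w' : ℕ) (W : ℕ → ℕ → Prop) (ar : ℕ → List Rhs) (b : Fin G.q),
      (par G w' b).CallsIn W ar := fun w' W ar b => noCalls_callsIn W ar _ (par_noCalls G hG w' b)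
  refine ⟨?_, ?_, ?_, ?_, ?_, ?_⟩
  · -- rules
    intro q ζ hq hζ
    unfold rlM at hζ
    split at hζ
    · have hζ' : ruleR G q a = some ζ := hζ
      unfold ruleR at hζ'
      unfold VV at hq
      split at hζ'
      · next h0 =>
        have hw : w = 0 := by
          by_contra hw
          rw [if_neg hw] at hq
          omega
        cases hζ'
        have hp : par G w = rootR G := by
          funext b
          rw [par, if_pos hw]
        rw [hp]
        exact synR_calls G a r hr ρ hV (rootR G) _ hW1 (fun b => by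
          rw [← hp]
          exact hparC w _ _ b) _
      · next h0 =>
        have hw : w ≠ 0 := by
          intro hw
          rw [if_pos hw] at hq
          exact h0 hq
        have hp : par G w = fun b : Fin G.q => Rhs.param b := by
          funext b
          rw [par, if_neg hw]
        split at hζ'
        · cases hζ'
          rw [hp]
          exact synR_calls G a r hr ρ hV (fun b : Fin G.q => Rhs.param b) _ hW1
            (fun _ => trivial) _
        · cases hζ'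
    · cases hζ
  · -- well-formedness of the rules
    intro q ζ hζ
    unfold rlM at hζ
    split at hζ
    · next hq =>
      refine ⟨hq, (trG hW G hG).params[q], List.getElem_mem hq, ?_⟩
      exact (trG hW G hG).wf q _ a r ζ (List.getElem?_eq_getElem hq) hr hζ
    · cases hζ
  · -- calls in the arguments
    intro i ζ hζ
    obtain ⟨hi, b, rfl⟩ := mem_arg hζ
    exact inhR_calls G a r hr ρ hV _ _ (fun i _ b => synP_top _ hW1 _)
      (fun b => hparC w _ _ b) r i hi (kk_lt_r r ρ hi) b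
  · -- well-formedness of the arguments
    intro i ζ hζ
    obtain ⟨hi, b, rfl⟩ := mem_arg hζ
    have hQ : ∀ x : Fin G.p, (0 :: List.replicate G.p G.q)[1 + (x : ℕ)]? = some G.q := by
      intro x
      rw [Nat.add_comm, List.getElem?_cons_succ, List.getElem?_replicate]
      simp [x.2]
    have hQ0 : (0 :: List.replicate G.p G.q)[0]? = some 0 := rfl
    by_cases hw : w = 0
    · refine ⟨0, List.mem_cons_self, ?_⟩
      refine AGWM.inhR_wf G (0 :: List.replicate G.p G.q) 0 a r hr hQ0 hQ _ (fun b => ?_) r i hi b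
      rw [par, if_pos hw]
      exact AGWM.const_wf B _ 0 r _ _ _ (G.wf_root b).1 (G.wf_root b).2 (hG b)
    · refine ⟨G.q, List.mem_cons_of_mem _ (List.mem_replicate.2 ⟨?_, rfl⟩), ?_⟩
      · have := G.a0.2
        omega
      · refine AGWM.inhR_wf G (0 :: List.replicate G.p G.q) G.q a r hr hQ0 hQ _ (fun b => ?_) r i hi b
        rw [par, if_neg hw]
        exact b.2
  · -- below
    intro i ζ hζ
    obtain ⟨hi, b, rfl⟩ := mem_arg hζ
    exact (AGOM.inhR_good G a r hr ρ hV _ (par_good G hG ρ w) r i hi (kk_lt_r r ρ hi) b).2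
  · intro i _ j _ h
    exact hρ h

theorem nar (G : AG A B) (hG : ConstRoot G) (a : ℕ) (ha : a < A.length)
    (ρ : ℕ → ℕ) (hV : VisitAt G a ρ) (h : OneOut G a ∨ OneIn G a) (w : ℕ) :
    NarAr (arG G w a) := by
  obtain ⟨r, hr⟩ : ∃ r, A[a]? = some r := ⟨A[a], List.getElem?_eq_getElem ha⟩
  have hrr : A.getD a 0 = r := by
    rw [List.getD_eq_getElem?_getD, hr]
    rfl
  unfold arG
  rw [hrr]
  rcases h with ⟨st, hst⟩ | ⟨f, hf⟩
  · left
    refine ⟨fun j => 1 + st j, fun i ζ hζ => ?_⟩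
    obtain ⟨hi, b, rfl⟩ := mem_arg hζ
    exact inhR_calls G a r hr ρ hV _ (fun j q => q = 1 + st j)
      (fun i hi b => synP_of_synIn st _ (hst r i b hr hi))
      (fun b => noCalls_callsIn _ _ _ (par_noCalls G hG w b)) r i hi (kk_lt_r r ρ hi) b
  · right
    refine ⟨f, fun i l hl => ?_⟩
    by_cases hi : i < r
    · rw [arg, if_pos hi]
      by_cases hlq : l < G.q
      · rw [List.getD_eq_getElem?_getD, List.getElem?_ofFn, dif_pos hlq]
        show (inhR G a (par G w) r i ⟨l, hlq⟩).NoCalls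
        obtain ⟨r', rfl⟩ : ∃ r', r = r' + 1 := ⟨r - 1, by omega⟩
        exact sb_noCalls _ _ (par_noCalls G hG w) _ (hf (r' + 1) i ⟨l, hlq⟩ hr hi hl)
      · rw [List.getD_eq_getElem?_getD, List.getElem?_ofFn, dif_neg hlq]
        trivial
    · rw [arg, if_neg hi]
      trivial

theorem specAGV : SpecAGV := by
  intro hW A B G₁ G₂ h₁ h₂ hT
  refine ⟨VV, VV, fun _ _ _ => 1, fun _ _ _ => 1, arG G₁, arG G₂, ?_, ?_, ?_⟩
  · show VV 0 0
    unfold VV
    rw [if_pos rfl]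
  · show VV 0 0
    unfold VV
    rw [if_pos rfl]
  · intro w₁ w₂ a ha
    obtain ⟨-, -, h⟩ := hT
    obtain ⟨ρ₁, ρ₂, hi₁, hi₂, hv₁, hv₂, h⟩ := h a ha
    refine ⟨ρ₁, ρ₂, vis hW G₁ h₁ a ha ρ₁ hi₁ hv₁ w₁, vis hW G₂ h₂ a ha ρ₂ hi₂ hv₂ w₂, ?_⟩
    rcases h with h | ⟨h, h'⟩
    · exact Or.inl h
    · exact Or.inr ⟨nar G₁ h₁ a ha ρ₁ hv₁ h w₁, nar G₂ h₂ a ha ρ₂ hv₂ h' w₂⟩

end Pool.Agent.Lib.MP_39893a_lc.OV.AGVM
end

section
/-!
# MP_39893a_lc, OV, module AGVB: the transducers of one-visit grammars, blocks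
-/
set_option autoImplicit false

namespace Pool.Agent.Lib.MP_39893a_lc.OV.AGVBM

open Pool.Agent.Lib.MP_39893a_lc Pool.Agent.Lib.MP_39893a_lc.OV Pool.Agent.Lib.MP_39893a_lc.ORD
open Pool.Agent.Lib.MP_39893a_lc.AGL AGVM

variable {A B : List ℕ}

theorem synAll_mono {p q : ℕ} {P P' : ℕ → ℕ → Prop} (h : ∀ j a, P j a → P' j a) :
    ∀ t : ATm p q, SynAll P t → SynAll P' t
  | .syn a j, h' => h j a h'
  | .inh _, _ => trivial
  | .out _ _ c, h' => fun l => synAll_mono h (c l) (h' l)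

theorem synAll_top {p q : ℕ} {P : ℕ → ℕ → Prop} (h : ∀ j a, P j a) :
    ∀ t : ATm p q, SynAll P t
  | .syn a j => h j a
  | .inh _ => trivial
  | .out _ _ c => fun l => synAll_top h (c l)

theorem sb_calls2 {p q : ℕ} (B : List ℕ) (r : ℕ) (ρ : ℕ → ℕ) (k : ℕ) (Q : ℕ → Prop)
    (W : ℕ → ℕ → Prop) (ar : ℕ → List Rhs) (f : ℕ → Fin q → Rhs) (par : Fin q → Rhs)
    (hf : ∀ j, j < r → ρ j < k → Q j → List.ofFn (f j) = ar j ∧ ∀ b, (f j b).CallsIn W ar)
    (hpar : ∀ b, (par b).CallsIn W ar) :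
    ∀ t : ATm p q, t.WF B r → SynBelow ρ k t →
      SynAll (fun j a => j < r → ρ j < k → Q j ∧ W j (1 + a)) t → (sb f par t).CallsIn W ar
  | .syn _ i, h, h', h'' =>
      ⟨(h'' h h').2, (hf i h h' (h'' h h').1).1, (hf i h h' (h'' h h').1).2⟩
  | .inh b, _, _, _ => hpar b
  | .out _ _ c, h, h', h'' => fun l =>
      sb_calls2 B r ρ k Q W ar f par hf hpar (c l) (h.2 l) (h' l) (h'' l)

theorem inhR_calls2 (G : AG A B) (σ r : ℕ) (hσ : A[σ]? = some r) (ρ : ℕ → ℕ)
    (hV : VisitAt G σ ρ) (par : Fin G.q → Rhs) (P : ℕ → Prop) (W : ℕ → ℕ → Prop)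
    (hP : ∀ i < r, P i → ∀ b, SynAll (fun j a => j < r → ρ j < ρ i → P j ∧ W j (1 + a))
      (G.inh σ i b))
    (hpar : ∀ b, (par b).CallsIn W (arg G σ r par)) :
    ∀ (n i : ℕ), i < r → P i → kk r ρ i < n →
      ∀ b, (inhR G σ par n i b).CallsIn W (arg G σ r par)
  | 0, _, _, _, h, _ => absurd h (Nat.not_lt_zero _)
  | n + 1, i, hi, hPi, h, b => by
      refine sb_calls2 B r ρ (ρ i) P W _ _ par (fun j hj hji hPj => ?_) hpar _
        (G.wf_inh σ r i b hσ hi) (hV r i b hσ hi) (hP i hi hPi b)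
      have h' := kk_lt r ρ hj hji
      refine ⟨?_, fun b' => inhR_calls2 G σ r hσ ρ hV par P W hP hpar n j hj hPj (by omega) b'⟩
      rw [arg, if_pos hj, inhR_stab G σ r hσ ρ hV par n r j hj (by omega) (kk_lt_r r ρ hj)]

theorem callsIn_below (ρ : ℕ → ℕ) (k : ℕ) (W W' : ℕ → ℕ → Prop) (ar : ℕ → List Rhs)
    (h : ∀ j q, ρ j < k → W' j q) :
    ∀ ζ : Rhs, ζ.CallsIn W ar → ζ.Below ρ k → ζ.CallsIn W' ar
  | .param _, _, _ => trivial
  | .out _ _ c, h1, h2 => fun l => callsIn_below ρ k W W' ar h (c l) (h1 l) (h2 l)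
  | .call q i _ c, h1, h2 => ⟨h i q h2.1, h1.2.1, fun l =>
      callsIn_below ρ k W W' ar h (c l) (h1.2.2 l) (h2.2 l)⟩

/-- Narrow in the blocks. -/
theorem narB (G : AG A B) (hG : ConstRoot G) (a : ℕ) (ha : a < A.length)
    (ρ π : ℕ → ℕ) (hV : VisitAt G a ρ) (hπ : Blocks π ρ) (h : NarrowIn G a π) (w : ℕ) :
    NarArB π (arG G w a) := by
  obtain ⟨r, hr⟩ : ∃ r, A[a]? = some r := ⟨A[a], List.getElem?_eq_getElem ha⟩
  have hrr : A.getD a 0 = r := by
    rw [List.getD_eq_getElem?_getD, hr]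
    rfl
  have hle : ∀ i j, ρ j < ρ i → π j ≤ π i := by
    intro i j hji
    by_contra hlt
    have := hπ i j (not_le.1 hlt)
    omega
  unfold arG
  rw [hrr]
  rcases h with ⟨st, hst⟩ | ⟨f, hf⟩
  · left
    refine ⟨fun j => 1 + st j, fun i₀ ζ hζ => ?_⟩
    obtain ⟨hi₀, b, rfl⟩ := mem_arg hζ
    refine inhR_calls2 G a r hr ρ hV _ (fun i => π i ≤ π i₀)
      (fun j q => π j = π i₀ → q = 1 + st j) (fun i hi hPi b => ?_)
      (fun b => noCalls_callsIn _ _ _ (par_noCalls G hG w b)) r i₀ hi₀ le_rfl (kk_lt_r r ρ hi₀) b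
    refine synAll_mono (fun j s hs _ hji => ?_) _ (hst r i b hr hi)
    have h1 := hle i j hji
    refine ⟨h1.trans hPi, fun he => ?_⟩
    rw [hs (by omega)]
  · right
    refine ⟨f, fun i₀ l hl => ?_⟩
    by_cases hi : i₀ < r
    · rw [arg, if_pos hi]
      by_cases hlq : l < G.q
      · rw [List.getD_eq_getElem?_getD, List.getElem?_ofFn, dif_pos hlq]
        show (inhR G a (par G w) r i₀ ⟨l, hlq⟩).CallsIn _ _
        obtain ⟨r', rfl⟩ : ∃ r', r = r' + 1 := ⟨r - 1, by omega⟩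
        have hk : kk (r' + 1) ρ i₀ < r' + 1 := kk_lt_r _ ρ hi
        refine sb_calls2 B (r' + 1) ρ (ρ i₀) (fun j => π j < π i₀) (fun j _ => π j ≠ π i₀) _ _ _
          (fun j hj hji hj' => ⟨?_, fun b' => ?_⟩)
          (fun b => noCalls_callsIn _ _ _ (par_noCalls G hG w b)) _
          (G.wf_inh a (r' + 1) i₀ _ hr hi) (hV (r' + 1) i₀ _ hr hi) ?_
        · have h' := kk_lt (r' + 1) ρ hj hji
          rw [arg, if_pos hj, inhR_stab G a (r' + 1) hr ρ hV _ r' (r' + 1) j hj (by omega)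
            (kk_lt_r _ ρ hj)]
        · have h' := kk_lt (r' + 1) ρ hj hji
          refine inhR_calls2 G a (r' + 1) hr ρ hV _ (fun i => π i < π i₀)
            (fun j _ => π j ≠ π i₀) (fun i hi hPi b => ?_)
            (fun b => noCalls_callsIn _ _ _ (par_noCalls G hG w b)) r' j hj hj' (by omega) b'
          refine synAll_top (fun j s _ hji => ?_) _
          have h1 := hle i j hji
          exact ⟨h1.trans_lt hPi, (h1.trans_lt hPi).ne⟩
        · refine synAll_mono (fun j s hs _ hji => ?_) _ (hf (r' + 1) i₀ ⟨l, hlq⟩ hr hi hl)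
          have h1 := hle i₀ j hji
          exact ⟨lt_of_le_of_ne h1 hs, hs⟩
      · rw [List.getD_eq_getElem?_getD, List.getElem?_ofFn, dif_neg hlq]
        trivial
    · rw [arg, if_neg hi]
      trivial

/-- The same machine on both sides. -/
theorem condB_self (ρ : ℕ → ℕ) (r : ℕ) {pr : List ℕ} {rl : ℕ → Option Rhs}
    {V : ℕ → Prop} {W : ℕ → ℕ → Prop} {ar : ℕ → List Rhs} (h : Vis B pr r rl V W ar ρ) :
    CondB r ρ ρ ar ar := by
  have hn : NarArB ρ ar := by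
    left
    refine ⟨fun _ => 0, fun i ζ hζ => ?_⟩
    refine callsIn_below ρ (ρ i) W _ ar (fun j q hj he => ?_) ζ (h.args i ζ hζ) (h.below i ζ hζ)
    omega
  exact ⟨ρ, fun _ _ _ _ h => h, fun _ _ _ _ h => h, hn, hn⟩

theorem specAGVB : SpecAGVB := by
  intro hW A B G₁ G₂ h₁ h₂ hT
  refine ⟨VV, VV, fun _ _ _ => 1, fun _ _ _ => 1, arG G₁, arG G₂, ?_, ?_, ?_⟩
  · show VV 0 0
    unfold VV
    rw [if_pos rfl]
  · show VV 0 0
    unfold VV
    rw [if_pos rfl]
  · intro w₁ w₂ a ha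
    obtain ⟨-, -, h⟩ := hT
    obtain ⟨ρ₁, ρ₂, π, hi₁, hi₂, hv₁, hv₂, hb₁, hb₂, hn₁, hn₂⟩ := h a ha
    have hV₁ := vis hW G₁ h₁ a ha ρ₁ hi₁ hv₁ w₁
    have hV₂ := vis hW G₂ h₂ a ha ρ₂ hi₂ hv₂ w₂
    exact ⟨ρ₁, ρ₂, hV₁, hV₂, ⟨π, fun i _ j _ h => hb₁ i j h, fun i _ j _ h => hb₂ i j h,
      narB G₁ h₁ a ha ρ₁ π hv₁ hb₁ hn₁ w₁, narB G₂ h₂ a ha ρ₂ π hv₂ hb₂ hn₂ w₂⟩,
      condB_self ρ₁ _ hV₁⟩

end Pool.Agent.Lib.MP_39893a_lc.OV.AGVBM
end

section
/-!
# MAINAB: the decision procedure for one-visit grammars, orders equal up to narrow blocks (hive OV)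
-/
set_option autoImplicit false

namespace Pool.Agent.Lib.MP_39893a_lc.OV.MAINABM

open Pool.Agent.Lib.MP_39893a_lc Pool.Agent.Lib.MP_39893a_lc.ORD
open Pool.Agent.Lib.MP_39893a_lc.AGL

theorem specMAINAB (hMAINB : SpecMAINB) (hAGVB : SpecAGVB) (hAGW : ORD.SpecAGW)
    (hAGE : ORD.SpecAGE) (hAGC : ORD.SpecAGC) (hAGP : ORD.SpecAGP) : SpecMAINAB := by
  obtain ⟨F, hF, hF'⟩ := hMAINB
  have hA : Primrec fun x : List ℕ × List ℕ × CodeAG × CodeAG => x.1 := Primrec.fst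
  have hB : Primrec fun x : List ℕ × List ℕ × CodeAG × CodeAG => x.2.1 :=
    Primrec.fst.comp Primrec.snd
  have h1 : Primrec fun x : List ℕ × List ℕ × CodeAG × CodeAG => x.2.2.1 :=
    Primrec.fst.comp (Primrec.snd.comp Primrec.snd)
  have h2 : Primrec fun x : List ℕ × List ℕ × CodeAG × CodeAG => x.2.2.2 :=
    Primrec.snd.comp (Primrec.snd.comp Primrec.snd)
  have hg : Primrec fun x : List ℕ × List ℕ × CodeAG × CodeAG =>
      (x.1, x.2.1, trC (x.1, x.2.2.1), trC (x.1, x.2.2.2)) :=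
    Primrec.pair hA (Primrec.pair hB (Primrec.pair (hAGP.comp (Primrec.pair hA h1))
      (hAGP.comp (Primrec.pair hA h2))))
  refine ⟨fun x => F (x.1, x.2.1, trC (x.1, x.2.2.1), trC (x.1, x.2.2.2)),
    hF.comp hg.to_comp, fun A B G₁ G₂ htv => ?_⟩
  obtain ⟨hc1, hc2, hv⟩ := id htv
  have hv1 : ∀ σ < A.length, ∃ ρ : ℕ → ℕ, Function.Injective ρ ∧ VisitAt G₁ σ ρ := by
    intro σ hσ
    obtain ⟨ρ, _, _, hρ, _, h, _⟩ := hv σ hσ
    exact ⟨ρ, hρ, h⟩
  have hv2 : ∀ σ < A.length, ∃ ρ : ℕ → ℕ, Function.Injective ρ ∧ VisitAt G₂ σ ρ := by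
    intro σ hσ
    obtain ⟨_, ρ, _, _, hρ, _, h, _⟩ := hv σ hσ
    exact ⟨ρ, hρ, h⟩
  have hone : BlockPair (trG hAGW G₁ hc1) (trG hAGW G₂ hc2) := hAGVB hAGW A B G₁ G₂ hc1 hc2 htv
  have e1 := hAGE hAGW A B G₁ hc1 hv1
  have e2 := hAGE hAGW A B G₂ hc2 hv2
  have hiff : (∀ s, Ranked A s → (trG hAGW G₁ hc1).tau s = (trG hAGW G₂ hc2).tau s) ↔
      ∀ s, Ranked A s → ∀ t, G₁.Val s t ↔ G₂.Val s t := by
    constructor
    · intro h s hs t
      rw [← e1 s hs t, ← e2 s hs t, h s hs]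
    · intro h s hs
      refine Option.ext fun t => ?_
      have := h s hs t
      rw [← e1 s hs t, ← e2 s hs t] at this
      exact this
  obtain ⟨ht, hf, hdom⟩ := hF' A B (trG hAGW G₁ hc1) (trG hAGW G₂ hc2)
  rw [hAGC hAGW A B G₁ hc1, hAGC hAGW A B G₂ hc2] at ht hf hdom
  constructor
  · rw [← hiff]
    constructor
    · exact ht
    · intro h
      obtain ⟨b, hb⟩ := Part.dom_iff_mem.1 (hdom hone)
      cases b with
      | true => exact hb
      | false => exact absurd h (hf.1 hb)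
  · rw [← hiff]
    exact hf

end Pool.Agent.Lib.MP_39893a_lc.OV.MAINABM
end
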