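import Pool.Agent.Lib.MP_39893a_lc.OV.Spec
import Pool.Agent.Lib.MP_39893a_lc.OV.SpecB
import Pool.Agent.Lib.MP_39893a_lc.ORD.INJ

section
/-!
# Module ASM: assembly of a certificate (MP_39893a_lc, hive OV)
-/
set_option autoImplicit false

namespace Pool.Agent.Lib.MP_39893a_lc.OV.ASMM

open Finset ORD

theorem exists_list {α : Type} (d : α) (f : ℕ → α) (M : ℕ) :
    ∃ l : List α, ∀ n < M, l.getD n d = f n :=
  ⟨(List.range M).map f, fun n hn => by
    rw [List.getD_eq_getElem?_getD, List.getElem?_map, List.getElem?_range hn]; rfl⟩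

/-- Module ASM. -/
theorem specASM : SpecASM := by
  intro s C h1 h2
  classical
  -- bounds
  obtain ⟨Z, hZ⟩ : ∃ Z, ∀ a < s.A.length, ∀ z < C.length ^ s.rk a, z < Z :=
    ⟨∑ a ∈ range s.A.length, C.length ^ s.rk a, fun a ha z hz => hz.trans_le
      (Finset.single_le_sum (f := fun a => C.length ^ s.rk a) (fun _ _ => Nat.zero_le _)
        (Finset.mem_range.2 ha))⟩
  obtain ⟨F, hF⟩ : ∃ F, ∀ κ < C.length, (CertI.forms (C, [], [], []) κ).length ≤ F :=
    ⟨∑ κ ∈ range C.length, (CertI.forms (C, [], [], []) κ).length, fun κ hκ =>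
      (Finset.single_le_sum (f := fun κ => (CertI.forms (C, [], [], []) κ).length)
        (fun _ _ => Nat.zero_le _) (Finset.mem_range.2 hκ))⟩
  -- classes of the results
  choose! kf hk1 hk2 hk3 using h1
  obtain ⟨tg, htg⟩ := exists_list 0 (fun n => kf n.unpair.1 n.unpair.2)
    (Nat.pair s.A.length Z)
  have htg' : ∀ a < s.A.length, ∀ z < C.length ^ s.rk a, tg.getD (Nat.pair a z) 0 = kf a z := by
    intro a ha z hz
    rw [htg _ ((Nat.pair_lt_pair_right a (hZ a ha z hz)).trans (Nat.pair_lt_pair_left Z ha))]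
    simp
  -- derivations
  choose! pf hpf using hk3
  obtain ⟨pl, hpl⟩ := exists_list ([] : List LineI)
    (fun n => pf n.unpair.1 n.unpair.2.unpair.1 n.unpair.2.unpair.2)
    (Nat.pair s.A.length (Nat.pair Z F))
  have hpl' : ∀ a < s.A.length, ∀ z < C.length ^ s.rk a,
      ∀ l < (CertI.forms (C, [], [], []) (kf a z)).length,
      pl.getD (Nat.pair a (Nat.pair z l)) [] = pf a z l := by
    intro a ha z hz l hl
    have hlF : l < F := hl.trans_le (hF _ (hk1 a ha z hz))
    rw [hpl _ ((Nat.pair_lt_pair_right a ((Nat.pair_lt_pair_right z hlF).trans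
      (Nat.pair_lt_pair_left F (hZ a ha z hz)))).trans (Nat.pair_lt_pair_left _ ha))]
    simp
  -- targets
  have h2' : ∀ κ < C.length, ∃ L, PrfI (NN s) (hyp1 (NN s) 0 (CertI.bits (C, [], [], []) κ)
      (CertI.forms (C, [], [], []) κ))
      (cops.target s.P 1 s.n1 (blk (NN s) 0 (CertI.bits (C, [], [], []) κ)) 0) L :=
    fun κ hκ => (h2 κ hκ).2
  choose! ff hff using h2'
  obtain ⟨fl, hfl⟩ := exists_list ([] : List LineI) ff C.length
  refine ⟨(C, tg, pl, fl), ?_, ?_⟩
  · intro a ha z hz
    have hz' : z < C.length ^ s.rk a := hz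
    have e1 : CertI.tgt (C, tg, pl, fl) a z = kf a z := htg' a ha z hz'
    rw [e1]
    refine ⟨hk1 a ha z hz', fun t ht hb => hk2 a ha z hz' t ht hb, fun l hl => ?_⟩
    have e2 : CertI.prf (C, tg, pl, fl) a z l = pf a z l := hpl' a ha z hz' l hl
    rw [e2]
    exact hpf a ha z hz' l hl
  · intro κ hκ
    refine ⟨(h2 κ hκ).1, ?_⟩
    have e3 : CertI.fin (C, tg, pl, fl) κ = ff κ := hfl κ hκ
    rw [e3]
    exact hff κ hκ

end Pool.Agent.Lib.MP_39893a_lc.OV.ASMM
end

section
/-!
# Module COM (MP_39893a_lc, hive OV): nets, common order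
-/
set_option autoImplicit false

namespace Pool.Agent.Lib.MP_39893a_lc.OV.COMM

open Finset

theorem aux {S : Type} [Ring S] (nQ m : ℕ) (ν : ℕ → S) (F : ℕ → ℕ → S) (c : ℕ → S) :
    ∑ q ∈ range nQ, (∑ b ∈ range m, ν b * F b q) * c q =
      ∑ b ∈ range m, ν b * ∑ q ∈ range nQ, F b q * c q := by
  simp only [sum_mul, mul_sum]
  rw [sum_comm]
  refine sum_congr rfl fun b _ => sum_congr rfl fun q _ => ?_
  rw [mul_assoc]

/-- `nv` is left linear in the form. -/
theorem nv_lin {S : Type} [Ring S] (nQ nB : ℕ) (x : ℕ → ℕ → ℕ → S) (l : ℕ → ℕ → S)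
    (E : ℕ → ℕ → ℕ → ℕ → S) (m : ℕ) (ν : ℕ → S) (lb : ℕ → S) (Eb : ℕ → ℕ → ℕ → S) (L : List ℕ) :
    ∀ (lam : S) (U : ℕ → ℕ → S),
      nv nQ nB x l E L (lam + ∑ b ∈ range m, ν b * lb b)
          (fun i q => U i q + ∑ b ∈ range m, ν b * Eb b i q) =
        nv nQ nB x l E L lam U + ∑ b ∈ range m, ν b * nv nQ nB x l E L (lb b) (Eb b) := by
  induction L with
  | nil => intro lam U; simp only [nv]
  | cons i L ih =>
    intro lam U
    simp only [nv]
    rw [ih lam U]
    simp only [add_mul, mul_add, sum_add_distrib]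
    rw [aux nQ m ν (fun b q => Eb b i q)
      (fun q => ∑ b' ∈ range nB, x i q b' * nv nQ nB x l E L (l i b') (E i b'))]
    abel

/-- `nv` only depends on the matrices of the children in the list. -/
theorem nv_congr {S : Type} [Ring S] (nQ nB : ℕ) (x y : ℕ → ℕ → ℕ → S) (l : ℕ → ℕ → S)
    (E : ℕ → ℕ → ℕ → ℕ → S) (L : List ℕ) :
    (∀ j ∈ L, x j = y j) → ∀ (lam : S) (U : ℕ → ℕ → S),
      nv nQ nB x l E L lam U = nv nQ nB y l E L lam U := by
  induction L with
  | nil => intro _ lam U; simp only [nv]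
  | cons i L ih =>
    intro h lam U
    have h2 : ∀ j ∈ L, x j = y j := fun j hj => h j (List.mem_cons_of_mem i hj)
    have hi : x i = y i := h i List.mem_cons_self
    simp only [nv]
    rw [ih h2 lam U, hi]
    congr 1
    refine sum_congr rfl fun q _ => ?_
    congr 1
    refine sum_congr rfl fun b _ => ?_
    rw [ih h2]

theorem swap {S : Type} [Ring S] (nQ nB : ℕ) (u : ℕ → S) (x : ℕ → ℕ → S) (N : ℕ → S) :
    ∑ b ∈ range nB, (∑ q ∈ range nQ, u q * x q b) * N b =
      ∑ q ∈ range nQ, u q * ∑ b ∈ range nB, x q b * N b := by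
  simp only [sum_mul, mul_sum]
  rw [sum_comm]
  refine sum_congr rfl fun q _ => sum_congr rfl fun b _ => ?_
  rw [mul_assoc]

/-- The value for a list with the head `i`. -/
theorem nv_head {S : Type} [Ring S] (nQ nB : ℕ) (x : ℕ → ℕ → ℕ → S) (l : ℕ → ℕ → S)
    (E : ℕ → ℕ → ℕ → ℕ → S) (i : ℕ) (L : List ℕ) (lam : S) (U : ℕ → ℕ → S) :
    nv nQ nB x l E (i :: L) lam U =
      nv nQ nB x l E L
        (lam + ∑ b ∈ range nB, (∑ q ∈ range nQ, U i q * x i q b) * l i b)
        (fun j p => U j p + ∑ b ∈ range nB, (∑ q ∈ range nQ, U i q * x i q b) * E i b j p) := by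
  rw [nv_lin nQ nB x l E nB (fun b => ∑ q ∈ range nQ, U i q * x i q b) (l i) (E i) L lam U, swap]
  simp only [nv]

/-- LALG for any finite index type. -/
theorem lalg (h : SpecLALG) {K S : Type} [DivisionRing K] [Ring S] (κ : K →+* S) {ι : Type}
    [Fintype ι] (R : Set (ι → K)) (g : ι → S)
    (hg : ∀ m : ι → K, (∀ ν ∈ R, ∑ i, ν i * m i = 0) → ∑ i, g i * κ (m i) = 0)
    (μ : ι → S) (hμ : ∀ ν ∈ R, ∑ i, κ (ν i) * μ i = 0) : ∑ i, g i * μ i = 0 := by
  classical
  let e := Fintype.equivFin ι
  have h1 := h K S κ (Fintype.card ι) {ν | (fun i => ν (e i)) ∈ R} (fun j => g (e.symm j))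
    (fun m hm => by
      have h2 := hg (fun i => m (e i)) (fun ν hν => by
        have h3 := hm (fun j => ν (e.symm j)) (by simpa using hν)
        rw [← h3]
        exact Fintype.sum_equiv e _ _ (fun i => by simp))
      rw [← h2]
      exact (Fintype.sum_equiv e _ _ (fun i => by simp)).symm)
    (fun j => μ (e.symm j))
    (fun ν hν => by
      have h3 := hμ _ hν
      rw [← h3]
      exact (Fintype.sum_equiv e _ _ (fun i => by simp)).symm)
  rw [← h1]
  exact Fintype.sum_equiv e _ _ (fun i => by simp)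

/-- Vectors `(a, b, c)`. -/
def trip {T : Type} (nB nB' : ℕ) (a : T) (b c : ℕ → T) : Unit ⊕ (Fin nB ⊕ Fin nB') → T :=
  Sum.elim (fun _ => a) (Sum.elim (fun j => b j) (fun j => c j))

theorem sum_trip {T T' : Type} {S : Type} [Ring S] (nB nB' : ℕ) (f : T → S) (f' : T' → S) (a : T)
    (b c : ℕ → T) (a' : T') (b' c' : ℕ → T') :
    ∑ i, f (trip nB nB' a b c i) * f' (trip nB nB' a' b' c' i) =
      f a * f' a' + (∑ j ∈ range nB, f (b j) * f' (b' j) + ∑ j ∈ range nB', f (c j) * f' (c' j)) := by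
  rw [Fintype.sum_sum_type, Fintype.sum_sum_type]
  simp [trip, Finset.sum_range]

/-- `nv_lin` for images under a homomorphism. -/
theorem nv_map_lin {K S : Type} [Ring K] [Ring S] (κ : K →+* S) (nQ nB : ℕ) (x : ℕ → ℕ → ℕ → S)
    (l : ℕ → ℕ → S) (E : ℕ → ℕ → ℕ → ℕ → S) (m : ℕ) (ν : ℕ → K) (lb : ℕ → K)
    (Eb : ℕ → ℕ → ℕ → K) (L : List ℕ) (lam : K) (U : ℕ → ℕ → K) :
    nv nQ nB x l E L (κ (lam + ∑ b ∈ range m, ν b * lb b))
        (fun i q => κ (U i q + ∑ b ∈ range m, ν b * Eb b i q)) =
      nv nQ nB x l E L (κ lam) (fun i q => κ (U i q)) +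
        ∑ b ∈ range m, κ (ν b) * nv nQ nB x l E L (κ (lb b)) (fun i q => κ (Eb b i q)) := by
  have e1 : κ (lam + ∑ b ∈ range m, ν b * lb b) =
      κ lam + ∑ b ∈ range m, κ (ν b) * κ (lb b) := by
    rw [map_add, map_sum]
    simp only [map_mul]
  have e2 : (fun i q => κ (U i q + ∑ b ∈ range m, ν b * Eb b i q)) =
      fun i q => κ (U i q) + ∑ b ∈ range m, κ (ν b) * κ (Eb b i q) := by
    funext i q
    rw [map_add, map_sum]
    simp only [map_mul]
  rw [e1, e2]
  exact nv_lin nQ nB x l E m (fun b => κ (ν b)) (fun b => κ (lb b)) (fun b i q => κ (Eb b i q)) L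
    (κ lam) (fun i q => κ (U i q))

theorem specCOM (h : SpecLALG) : SpecCOM := by
  intro K S _ _ κ nQ nB nQ' nB' L
  induction L with
  | nil =>
    intro _ X xh _ l l' E E' lam lam' U U' hx
    have h0 := hx (fun _ => (0, 0)) (by simp)
    simp only [nv] at h0 ⊢
    rw [h0]
  | cons i L ih =>
    intro hnd X xh htq l l' E E' lam lam' U U' hx
    have hi : i ∉ L := (List.nodup_cons.mp hnd).1
    have hL : L.Nodup := (List.nodup_cons.mp hnd).2
    -- abbreviations for the values in `S`
    obtain ⟨N, hN⟩ : ∃ N : ℕ → S, ∀ b, N b = nv nQ nB (fun i => (xh i).1) (fun i b => κ (l i b))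
        (fun i b j q => κ (E i b j q)) L (κ (l i b)) (fun j q => κ (E i b j q)) := ⟨_, fun _ => rfl⟩
    obtain ⟨N', hN'⟩ : ∃ N' : ℕ → S, ∀ b, N' b = nv nQ' nB' (fun i => (xh i).2)
        (fun i b => κ (l' i b)) (fun i b j q => κ (E' i b j q)) L (κ (l' i b))
        (fun j q => κ (E' i b j q)) := ⟨_, fun _ => rfl⟩
    obtain ⟨G, hG⟩ : ∃ G : S, G = nv nQ nB (fun i => (xh i).1) (fun i b => κ (l i b))
        (fun i b j q => κ (E i b j q)) L (κ lam) (fun i q => κ (U i q)) := ⟨_, rfl⟩
    obtain ⟨G', hG'⟩ : ∃ G' : S, G' = nv nQ' nB' (fun i => (xh i).2) (fun i b => κ (l' i b))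
        (fun i b j q => κ (E' i b j q)) L (κ lam') (fun i q => κ (U' i q)) := ⟨_, rfl⟩
    -- the equation for every element of `X i`
    have key : ∀ y ∈ X i,
        G + ∑ b ∈ range nB, κ (∑ q ∈ range nQ, U i q * y.1 q b) * N b =
          G' + ∑ b ∈ range nB', κ (∑ q ∈ range nQ', U' i q * y.2 q b) * N' b := by
      intro y hy
      have h1 := ih hL X xh (fun j hj => htq j (List.mem_cons_of_mem i hj)) l l' E E'
        (lam + ∑ b ∈ range nB, (∑ q ∈ range nQ, U i q * y.1 q b) * l i b)
        (lam' + ∑ b ∈ range nB', (∑ q ∈ range nQ', U' i q * y.2 q b) * l' i b)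
        (fun j p => U j p + ∑ b ∈ range nB, (∑ q ∈ range nQ, U i q * y.1 q b) * E i b j p)
        (fun j p => U' j p + ∑ b ∈ range nB', (∑ q ∈ range nQ', U' i q * y.2 q b) * E' i b j p)
        (by
          intro x hxX
          have hne : ∀ j ∈ L, j ≠ i := fun j hj e => hi (e ▸ hj)
          have h2 := hx (Function.update x i y) (by
            intro j hj
            rcases List.mem_cons.mp hj with rfl | hj'
            · simpa using hy
            · rw [Function.update_of_ne (hne j hj')]
              exact hxX j hj')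
          rw [nv_head, nv_head] at h2
          simp only [Function.update_self] at h2
          rw [nv_congr nQ nB (fun j => (Function.update x i y j).1) (fun j => (x j).1) l E L
              (fun j hj => by rw [Function.update_of_ne (hne j hj)]),
            nv_congr nQ' nB' (fun j => (Function.update x i y j).2) (fun j => (x j).2) l' E' L
              (fun j hj => by rw [Function.update_of_ne (hne j hj)])] at h2
          exact h2)
      rw [nv_map_lin κ nQ nB _ _ _ nB (fun b => ∑ q ∈ range nQ, U i q * y.1 q b) (l i) (E i) L,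
        nv_map_lin κ nQ' nB' _ _ _ nB' (fun b => ∑ q ∈ range nQ', U' i q * y.2 q b) (l' i) (E' i)
          L] at h1
      simp only [← hN, ← hN', ← hG, ← hG'] at h1
      exact h1
    -- linear algebra
    have h3 := lalg h κ (ι := Unit ⊕ (Fin nB ⊕ Fin nB'))
      {ν | ∃ y ∈ X i, ν = trip nB nB' (1 : K) (fun b => ∑ q ∈ range nQ, U i q * y.1 q b)
        (fun b => -∑ q ∈ range nQ', U' i q * y.2 q b)}
      (trip nB nB' (1 : S) (fun b => ∑ q ∈ range nQ, κ (U i q) * (xh i).1 q b)
        (fun b => -∑ q ∈ range nQ', κ (U' i q) * (xh i).2 q b))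
      (by
        intro m hm
        obtain ⟨m0, hm0⟩ : ∃ m0 : K, m0 = m (Sum.inl ()) := ⟨_, rfl⟩
        obtain ⟨m1, hm1⟩ : ∃ m1 : ℕ → K, ∀ j : Fin nB, m1 j = m (Sum.inr (Sum.inl j)) :=
          ⟨fun j => if hj : j < nB then m (Sum.inr (Sum.inl ⟨j, hj⟩)) else 0, fun j => by simp⟩
        obtain ⟨m2, hm2⟩ : ∃ m2 : ℕ → K, ∀ j : Fin nB', m2 j = m (Sum.inr (Sum.inr j)) :=
          ⟨fun j => if hj : j < nB' then m (Sum.inr (Sum.inr ⟨j, hj⟩)) else 0, fun j => by simp⟩
        have hm3 : m = trip nB nB' m0 m1 m2 := by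
          funext i
          rcases i with i | i | i
          · simp [trip, hm0]
          · simp [trip, hm1]
          · simp [trip, hm2]
        rw [hm3] at hm ⊢
        have h4 := htq i List.mem_cons_self (U i) m1 (U' i) m2 m0 (by
          intro y hy
          have h5 := hm _ ⟨y, hy, rfl⟩
          have h6 := sum_trip nB nB' (id : K → K) (id : K → K) (1 : K)
            (fun b => ∑ q ∈ range nQ, U i q * y.1 q b)
            (fun b => -∑ q ∈ range nQ', U' i q * y.2 q b) m0 m1 m2
          simp only [id] at h6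
          rw [h6] at h5
          rw [tq]
          simp only [neg_mul, sum_neg_distrib, one_mul, sum_mul] at h5
          rw [sum_comm, sum_comm (s := range nQ')]
          rw [← h5]
          abel)
        have h6 := sum_trip nB nB' (id : S → S) κ (1 : S)
          (fun b => ∑ q ∈ range nQ, κ (U i q) * (xh i).1 q b)
          (fun b => -∑ q ∈ range nQ', κ (U' i q) * (xh i).2 q b) m0 m1 m2
        simp only [id] at h6
        rw [h6]
        rw [tq] at h4
        simp only [neg_mul, sum_neg_distrib, one_mul, sum_mul]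
        rw [sum_comm, sum_comm (s := range nQ')] at h4
        rw [← h4]
        abel)
      (trip nB nB' (G - G') N N')
      (by
        rintro ν ⟨y, hy, rfl⟩
        have h6 := sum_trip nB nB' κ (id : S → S) (1 : K)
          (fun b => ∑ q ∈ range nQ, U i q * y.1 q b)
          (fun b => -∑ q ∈ range nQ', U' i q * y.2 q b) (G - G') N N'
        simp only [id] at h6
        rw [h6]
        have h7 := key y hy
        simp only [map_one, one_mul, map_neg, neg_mul, sum_neg_distrib]
        rw [eq_comm, ← sub_eq_zero] at h7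
        rw [sub_add, ← neg_eq_zero, ← h7]
        abel)
    have h6 := sum_trip nB nB' (id : S → S) (id : S → S) (1 : S)
      (fun b => ∑ q ∈ range nQ, κ (U i q) * (xh i).1 q b)
      (fun b => -∑ q ∈ range nQ', κ (U' i q) * (xh i).2 q b) (G - G') N N'
    simp only [id] at h6
    rw [h6] at h3
    simp only [one_mul, neg_mul, sum_neg_distrib] at h3
    rw [swap, swap] at h3
    simp only [nv, ← hN, ← hN', ← hG, ← hG']
    rw [← sub_eq_zero, ← h3]
    abel

end Pool.Agent.Lib.MP_39893a_lc.OV.COMM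
end

section
/-!
# Module BLC (MP_39893a_lc, hive OV): blocks of children

Two nets whose lists of children agree up to the orders inside blocks, narrow inside the blocks.
-/
set_option autoImplicit false

namespace Pool.Agent.Lib.MP_39893a_lc.OV.BLCM

open Finset

section ring

variable {S : Type} [Ring S] (nQ nB : ℕ)

/-- `nv` is left linear in the form. -/
theorem nv_left {ι : Type} (s : Finset ι) (g : ι → S) (x : ℕ → ℕ → ℕ → S) (l : ℕ → ℕ → S)
    (E : ℕ → ℕ → ℕ → ℕ → S) (L : List ℕ) (lam : ι → S) (U : ι → ℕ → ℕ → S) :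
    nv nQ nB x l E L (∑ t ∈ s, g t * lam t) (fun j q => ∑ t ∈ s, g t * U t j q) =
      ∑ t ∈ s, g t * nv nQ nB x l E L (lam t) (U t) := by
  induction L with
  | nil => rfl
  | cons i L ih =>
    simp only [nv]
    rw [ih]
    have e : ∀ W : ℕ → S, ∑ q ∈ range nQ, (∑ t ∈ s, g t * U t i q) * W q =
        ∑ t ∈ s, g t * ∑ q ∈ range nQ, U t i q * W q := by
      intro W
      simp only [sum_mul, mul_sum, mul_assoc]
      rw [sum_comm]
    rw [e, ← sum_add_distrib]
    exact sum_congr rfl fun t _ => (mul_add _ _ _).symm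

/-- `nv` is right linear in the constants. -/
theorem nv_right {ι : Type} (s : Finset ι) (c : ι → S) (x : ℕ → ℕ → ℕ → S) (l : ι → ℕ → ℕ → S)
    (E : ℕ → ℕ → ℕ → ℕ → S) (L : List ℕ) : ∀ (lam : ι → S) (U : ℕ → ℕ → S),
    nv nQ nB x (fun i b => ∑ t ∈ s, l t i b * c t) E L (∑ t ∈ s, lam t * c t) U =
      ∑ t ∈ s, nv nQ nB x (l t) E L (lam t) U * c t := by
  induction L with
  | nil => intro lam U; rfl
  | cons i L ih =>
    intro lam U
    simp only [nv]
    rw [ih lam U]
    have e : ∀ b, nv nQ nB x (fun i b => ∑ t ∈ s, l t i b * c t) E L (∑ t ∈ s, l t i b * c t)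
        (E i b) = ∑ t ∈ s, nv nQ nB x (l t) E L (l t i b) (E i b) * c t :=
      fun b => ih (fun t => l t i b) (E i b)
    simp only [e, add_mul, sum_add_distrib]
    congr 1
    simp only [mul_sum, sum_mul, mul_assoc]
    exact (sum_congr rfl fun q _ => sum_comm).trans sum_comm

/-- The value for a concatenation. -/
theorem nv_append (x : ℕ → ℕ → ℕ → S) (l : ℕ → ℕ → S) (E : ℕ → ℕ → ℕ → ℕ → S) (R L : List ℕ) :
    ∀ (lam : S) (U : ℕ → ℕ → S), nv nQ nB x l E (L ++ R) lam U =
      nv nQ nB x (fun i b => nv nQ nB x l E R (l i b) (E i b)) E L (nv nQ nB x l E R lam U) U := by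
  induction L with
  | nil => intro lam U; rfl
  | cons i L ih =>
    intro lam U
    rw [List.cons_append]
    simp only [nv]
    rw [ih lam U]
    congr 1
    refine sum_congr rfl fun q _ => ?_
    congr 1
    refine sum_congr rfl fun b _ => ?_
    rw [ih (l i b) (E i b)]

/-- What `nv` depends on. -/
theorem nv_congr (x y : ℕ → ℕ → ℕ → S) (l l₂ : ℕ → ℕ → S) (E E₂ : ℕ → ℕ → ℕ → ℕ → S)
    (L : List ℕ) : L.Pairwise (fun i j => ∀ b q, E i b j q = E₂ i b j q) →
    (∀ i ∈ L, ∀ b < nB, l i b = l₂ i b) → (∀ i ∈ L, x i = y i) →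
    ∀ (lam : S) (U U₂ : ℕ → ℕ → S), (∀ j ∈ L, ∀ q, U j q = U₂ j q) →
    nv nQ nB x l E L lam U = nv nQ nB y l₂ E₂ L lam U₂ := by
  induction L with
  | nil => intros; rfl
  | cons i L ih =>
    intro hE hl hx lam U U₂ hU
    obtain ⟨hE1, hE2⟩ := List.pairwise_cons.1 hE
    have ih' := ih hE2 (fun j hj => hl j (List.mem_cons_of_mem _ hj))
      (fun j hj => hx j (List.mem_cons_of_mem _ hj))
    simp only [nv]
    rw [ih' lam U U₂ (fun j hj => hU j (List.mem_cons_of_mem _ hj))]
    congr 1
    refine sum_congr rfl fun q _ => ?_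
    rw [hU i List.mem_cons_self q, hx i List.mem_cons_self]
    congr 1
    refine sum_congr rfl fun b hb => ?_
    rw [hl i List.mem_cons_self b (mem_range.1 hb),
      ih' (l₂ i b) (E i b) (E₂ i b) (fun j hj q => hE1 j hj b q)]

end ring

/-- The index set of the unit vectors. -/
abbrev Ix (M nB : ℕ) : Type := Option (Fin M × Fin nB)

/-- Constants from a vector. -/
def ofc {T : Type} [Zero T] (M nB : ℕ) (c : Ix M nB → T) (i b : ℕ) : T :=
  if h : i < M ∧ b < nB then c (some (⟨i, h.1⟩, ⟨b, h.2⟩)) else 0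

/-- A vector from constants. -/
def toc {T : Type} (M nB : ℕ) (a : T) (l : ℕ → ℕ → T) : Ix M nB → T
  | none => a
  | some p => l p.1 p.2

/-- Unit vectors. -/
def un {T : Type} [Zero T] [One T] (M nB : ℕ) (t : Ix M nB) (i b : ℕ) : T :=
  toc M nB 0 (fun i' b' => if i = i' ∧ b = b' then 1 else 0) t

section ring

variable {S : Type} [Ring S] (nQ nB : ℕ)

/-- The coefficients. -/
def gc (M : ℕ) (x : ℕ → ℕ → ℕ → S) (E : ℕ → ℕ → ℕ → ℕ → S) (L : List ℕ) (U : ℕ → ℕ → S)
    (t : Ix M nB) : S :=
  nv nQ nB x (un M nB t) E L (toc M nB 1 (fun _ _ => 0) t) U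

theorem dec (M : ℕ) (x : ℕ → ℕ → ℕ → S) (E : ℕ → ℕ → ℕ → ℕ → S) (L : List ℕ) (U : ℕ → ℕ → S)
    (c : Ix M nB → S) :
    nv nQ nB x (ofc M nB c) E L (c none) U = ∑ t, gc nQ nB M x E L U t * c t := by
  have h := nv_right nQ nB univ c x (fun t => un M nB t) E L
    (fun t => toc M nB 1 (fun _ _ => 0) t) U
  have e1 : ∑ t, toc M nB (1 : S) (fun _ _ => 0) t * c t = c none := by
    rw [Fintype.sum_option]
    simp [toc]
  have e2 : (fun i b => ∑ t, un M nB t i b * c t) = ofc M nB c := by
    funext i b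
    rw [Fintype.sum_option]
    simp only [un, toc, zero_mul, zero_add, ofc]
    split_ifs with h
    · rw [Finset.sum_eq_single (⟨i, h.1⟩, ⟨b, h.2⟩)]
      · simp
      · rintro ⟨i', b'⟩ _ hne
        rw [if_neg, zero_mul]
        rintro ⟨h1, h2⟩
        exact hne (Prod.ext (Fin.ext h1.symm) (Fin.ext h2.symm))
      · simp
    · refine sum_eq_zero ?_
      rintro ⟨i', b'⟩ _
      rw [if_neg, zero_mul]
      rintro ⟨h1, h2⟩
      exact h ⟨by rw [h1]; exact i'.2, by rw [h2]; exact b'.2⟩
  rw [e1, e2] at h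
  exact h

theorem split (M : ℕ) (x : ℕ → ℕ → ℕ → S) (l : ℕ → ℕ → S) (E : ℕ → ℕ → ℕ → ℕ → S)
    (L R : List ℕ) (lam : S) (U : ℕ → ℕ → S) (hM : ∀ i ∈ L, i < M) :
    nv nQ nB x l E (L ++ R) lam U = ∑ t, gc nQ nB M x E L U t *
      nv nQ nB x l E R (toc M nB lam l t) (toc M nB U E t) := by
  rw [nv_append, ← dec nQ nB M x E L U
    (fun t => nv nQ nB x l E R (toc M nB lam l t) (toc M nB U E t))]
  refine nv_congr nQ nB x x _ _ E E L (List.pairwise_of_forall fun _ _ _ _ => rfl)
    (fun i hi b hb => ?_) (fun _ _ => rfl) _ U U (fun _ _ _ => rfl)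
  rw [ofc, dif_pos ⟨hM i hi, hb⟩]
  rfl

end ring

/-- The linear algebra. -/
theorem step (hL : SpecLALG) {K S : Type} [DivisionRing K] [Ring S] (κ : K →+* S) {ι ι' : Type}
    [Fintype ι] [Fintype ι'] {Y : Type} (g : Y → ι → K) (g' : Y → ι' → K) (Xs : Set Y)
    (gh : ι → S) (gh' : ι' → S) (μ : ι → S) (μ' : ι' → S)
    (h1 : ∀ (m : ι → K) (m' : ι' → K),
      (∀ y ∈ Xs, ∑ t, g y t * m t = ∑ t, g' y t * m' t) →
      ∑ t, gh t * κ (m t) = ∑ t, gh' t * κ (m' t))
    (h2 : ∀ y ∈ Xs, ∑ t, κ (g y t) * μ t = ∑ t, κ (g' y t) * μ' t) :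
    ∑ t, gh t * μ t = ∑ t, gh' t * μ' t := by
  have h3 := COMM.lalg hL κ (ι := ι ⊕ ι')
    {ν | ∃ y ∈ Xs, ν = Sum.elim (g y) (fun t => - g' y t)}
    (Sum.elim gh (fun t => - gh' t))
    (by
      intro m hm
      rw [Fintype.sum_sum_type]
      simp only [Sum.elim_inl, Sum.elim_inr, neg_mul, sum_neg_distrib]
      rw [← sub_eq_add_neg, sub_eq_zero]
      refine h1 (fun t => m (Sum.inl t)) (fun t => m (Sum.inr t)) fun y hy => ?_
      have h4 := hm _ ⟨y, hy, rfl⟩
      rw [Fintype.sum_sum_type] at h4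
      simp only [Sum.elim_inl, Sum.elim_inr, neg_mul, sum_neg_distrib] at h4
      rwa [← sub_eq_add_neg, sub_eq_zero] at h4)
    (Sum.elim μ μ')
    (by
      rintro ν ⟨y, hy, rfl⟩
      rw [Fintype.sum_sum_type]
      simp only [Sum.elim_inl, Sum.elim_inr, map_neg, neg_mul, sum_neg_distrib]
      rw [← sub_eq_add_neg, sub_eq_zero]
      exact h2 y hy)
  rw [Fintype.sum_sum_type] at h3
  simp only [Sum.elim_inl, Sum.elim_inr, neg_mul, sum_neg_distrib] at h3
  rwa [← sub_eq_add_neg, sub_eq_zero] at h3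

theorem sorted_split (π : ℕ → ℕ) (k : ℕ) (L : List ℕ) : (∀ i ∈ L, π i ≤ k) →
    L.Pairwise (fun i j => π j ≤ π i) →
    L = L.filter (fun i => decide (π i = k)) ++ L.filter (fun i => decide (π i ≠ k)) := by
  induction L with
  | nil => intros; rfl
  | cons a L ih =>
    intro hk hs
    obtain ⟨h1, h2⟩ := List.pairwise_cons.1 hs
    by_cases ha : π a = k
    · rw [List.filter_cons_of_pos (by simpa using ha), List.filter_cons_of_neg (by simpa using ha),
        List.cons_append, ← ih (fun i hi => hk i (List.mem_cons_of_mem _ hi)) h2]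
    · have hlt : π a < k := lt_of_le_of_ne (hk a List.mem_cons_self) ha
      have hall : ∀ i ∈ a :: L, π i ≠ k := by
        intro i hi
        rcases List.mem_cons.1 hi with rfl | hi
        · exact ha
        · exact (lt_of_le_of_lt (h1 i hi) hlt).ne
      rw [List.filter_eq_nil_iff.2 (fun i hi => by simpa using hall i hi), List.nil_append,
        List.filter_eq_self.2 (fun i hi => by simpa using hall i hi)]

/-- The matrices inside the blocks. -/
theorem narE {K : Type} [Ring K] (π : ℕ → ℕ) (E : ℕ → ℕ → ℕ → ℕ → K) (h : NarEB π E) :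
    NarE (fun i b j q => if i ≠ j ∧ π i = π j then E i b j q else 0) := by
  rcases h with ⟨c, ε, h⟩ | ⟨e, r, h⟩
  · refine Or.inl ⟨fun i b j => if i ≠ j ∧ π i = π j then c i b j else 0, ε, fun i b j q => ?_⟩
    dsimp only
    split_ifs with hc
    · exact h i b j q hc.1 hc.2
    · rw [zero_mul]
  · refine Or.inr ⟨e, fun i j q => if i ≠ j ∧ π i = π j then r i j q else 0, fun i b j q => ?_⟩
    dsimp only
    split_ifs with hc
    · exact h i b j q hc.1 hc.2
    · rw [mul_zero]

/-- Inside a block the other matrices are not used. -/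
theorem block {S : Type} [Ring S] (nQ nB : ℕ) (π : ℕ → ℕ) (k : ℕ) (x : ℕ → ℕ → ℕ → S)
    (l : ℕ → ℕ → S) (E : ℕ → ℕ → ℕ → ℕ → S) (L : List ℕ) (hnd : L.Nodup)
    (hk : ∀ i ∈ L, π i = k) (lam : S) (U : ℕ → ℕ → S) :
    nv nQ nB x l (fun i b j q => if i ≠ j ∧ π i = π j then E i b j q else 0) L lam U =
      nv nQ nB x l E L lam U := by
  refine nv_congr nQ nB x x l l _ E L ?_ (fun _ _ _ _ => rfl) (fun _ _ => rfl) lam U U
    (fun _ _ _ => rfl)
  have h1 : L.Pairwise (fun i j => i ≠ j) := hnd
  refine (List.Pairwise.imp_of_mem ?_ h1)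
  intro i j hi hj hij b q
  rw [if_pos ⟨hij, by rw [hk i hi, hk j hj]⟩]

/-- `nv_left` for images under a homomorphism. -/
theorem map_left {K S : Type} [Ring K] [Ring S] (κ : K →+* S) (nQ nB M : ℕ) (g : Ix M nB → K)
    (xs : ℕ → ℕ → ℕ → S) (ls : ℕ → ℕ → S) (Es : ℕ → ℕ → ℕ → ℕ → S) (R : List ℕ) (lam : K)
    (l : ℕ → ℕ → K) (U : ℕ → ℕ → K) (E : ℕ → ℕ → ℕ → ℕ → K) :
    nv nQ nB xs ls Es R (κ (∑ t, g t * toc M nB lam l t))
        (fun i q => κ (∑ t, g t * toc M nB U E t i q)) =
      ∑ t, κ (g t) * nv nQ nB xs ls Es R (toc M nB (κ lam) (fun i b => κ (l i b)) t)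
        (toc M nB (fun i q => κ (U i q)) (fun i b j q => κ (E i b j q)) t) := by
  rw [← nv_left]
  congr 1
  · rw [map_sum]
    refine sum_congr rfl fun t _ => ?_
    rw [map_mul]
    congr 1
    rcases t with _ | p <;> rfl
  · funext i q
    rw [map_sum]
    refine sum_congr rfl fun t _ => ?_
    rw [map_mul]
    congr 1
    rcases t with _ | p <;> rfl

/-- **BLC**. -/
theorem specBLC (hLALG : SpecLALG) (hNARC : SpecNARC) : SpecBLC := by
  intro K S _ _ κ hR hnc nQ nB nQ' nB' L L' π hnd hp hs hs' X xh hTT hTS l l' E E' lam lam' U U'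
    hE hE' hx
  obtain ⟨n, hn⟩ : ∃ n, L.length ≤ n := ⟨_, le_rfl⟩
  induction n generalizing L L' lam lam' U U' with
  | zero =>
    obtain rfl : L = [] := List.length_eq_zero_iff.1 (Nat.le_zero.1 hn)
    obtain rfl : L' = [] := List.nil_perm.1 hp
    have h0 := hx (fun _ => (0, 0)) (by simp)
    simp only [nv] at h0 ⊢
    rw [h0]
  | succ n ih =>
    by_cases hL0 : L = []
    · subst hL0
      obtain rfl : L' = [] := List.nil_perm.1 hp
      have h0 := hx (fun _ => (0, 0)) (by simp)
      simp only [nv] at h0 ⊢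
      rw [h0]
    obtain ⟨a, haL, hmax⟩ : ∃ a ∈ L, ∀ i ∈ L, π i ≤ π a := by
      rcases L with _ | ⟨a, L₀⟩
      · exact absurd rfl hL0
      · refine ⟨a, List.mem_cons_self, fun i hi => ?_⟩
        rcases List.mem_cons.1 hi with rfl | hi
        · exact le_rfl
        · exact (List.pairwise_cons.1 hs).1 i hi
    obtain ⟨k, hk⟩ : ∃ k, k = π a := ⟨_, rfl⟩
    rw [← hk] at hmax
    have hmax' : ∀ i ∈ L', π i ≤ k := fun i hi => hmax i (hp.mem_iff.2 hi)
    obtain ⟨M, hM⟩ : ∃ M, ∀ i ∈ L, i < M := ⟨L.toFinset.sup id + 1, fun i hi =>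
      Nat.lt_succ_of_le (Finset.le_sup (f := id) (List.mem_toFinset.2 hi))⟩
    have e := sorted_split π k L hmax hs
    have e' := sorted_split π k L' hmax' hs'
    have pA := hp.filter (fun i => decide (π i = k))
    have pR := hp.filter (fun i => decide (π i ≠ k))
    have hA : ∀ i, i ∈ L.filter (fun i => decide (π i = k)) ↔ i ∈ L ∧ π i = k := by
      intro i
      simp
    have hRm : ∀ i, i ∈ L.filter (fun i => decide (π i ≠ k)) ↔ i ∈ L ∧ π i ≠ k := by
      intro i
      simp
    obtain ⟨A, hAd⟩ : ∃ A, A = L.filter (fun i => decide (π i = k)) := ⟨_, rfl⟩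
    obtain ⟨R, hRd⟩ : ∃ R, R = L.filter (fun i => decide (π i ≠ k)) := ⟨_, rfl⟩
    obtain ⟨A', hAd'⟩ : ∃ A', A' = L'.filter (fun i => decide (π i = k)) := ⟨_, rfl⟩
    obtain ⟨R', hRd'⟩ : ∃ R', R' = L'.filter (fun i => decide (π i ≠ k)) := ⟨_, rfl⟩
    have sR : R.Sublist L := hRd ▸ List.filter_sublist
    have sR' : R'.Sublist L' := hRd' ▸ List.filter_sublist
    have sA : A.Sublist L := hAd ▸ List.filter_sublist
    rw [← hAd, ← hRd] at e
    rw [← hAd', ← hRd'] at e'
    rw [← hAd] at hA
    rw [← hRd] at hRm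
    rw [← hAd, ← hAd'] at pA
    rw [← hRd, ← hRd'] at pR
    have hndA : A.Nodup := hnd.sublist sA
    have hndA' : A'.Nodup := pA.nodup_iff.1 hndA
    have hAk' : ∀ i ∈ A', π i = k := fun i hi => ((hA i).1 (pA.mem_iff.2 hi)).2
    have hRk' : ∀ i ∈ R', π i ≠ k := fun i hi => ((hRm i).1 (pR.mem_iff.2 hi)).2
    have hlen : R.length ≤ n := by
      have h1 : L.length = A.length + R.length := by
        conv_lhs => rw [e]
        exact List.length_append
      have h2 : 0 < A.length := List.length_pos_of_mem ((hA a).2 ⟨haL, hk.symm⟩)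
      omega
    rw [e, e', split nQ nB M _ _ _ A R _ _ (fun i hi => hM i ((hA i).1 hi).1),
      split nQ' nB' M _ _ _ A' R' _ _ (fun i hi => hM i ((hA i).1 (pA.mem_iff.2 hi)).1)]
    refine step hLALG κ (fun (x : ℕ → (ℕ → ℕ → K) × (ℕ → ℕ → K)) =>
      gc nQ nB M (fun i => (x i).1) E A U) (fun x => gc nQ' nB' M (fun i => (x i).2) E' A' U')
      {x | ∀ i ∈ A, x i ∈ X i} _ _ _ _ ?_ ?_
    · intro m m' hm
      have h := hNARC K S κ hR hnc nQ nB nQ' nB' A A' hndA pA X xh
        (fun i hi => hTT i ((hA i).1 hi).1) (fun i hi => hTS i ((hA i).1 hi).1)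
        (ofc M nB m) (ofc M nB' m') _ _ (m none) (m' none) U U' (narE π E hE) (narE π E' hE')
        (by
          intro x hxA
          rw [block nQ nB π k _ _ E A hndA (fun i hi => ((hA i).1 hi).2),
            block nQ' nB' π k _ _ E' A' hndA' hAk', dec, dec]
          exact hm x hxA)
      have e1 : ∀ E : ℕ → ℕ → ℕ → ℕ → K,
          (fun i b j q => κ (if i ≠ j ∧ π i = π j then E i b j q else 0)) =
          fun i b j q => if i ≠ j ∧ π i = π j then κ (E i b j q) else 0 := by
        intro E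
        funext i b j q
        split_ifs
        · rfl
        · exact map_zero κ
      have e2 : ∀ (nB : ℕ) (m : Ix M nB → K),
          (fun i b => κ (ofc M nB m i b)) = ofc M nB (fun t => κ (m t)) := by
        intro nB m
        funext i b
        unfold ofc
        split_ifs
        · rfl
        · exact map_zero κ
      rw [e1, e1, e2, e2, block nQ nB π k _ _ _ A hndA (fun i hi => ((hA i).1 hi).2),
        block nQ' nB' π k _ _ _ A' hndA' hAk'] at h
      have h5 := dec nQ nB M (fun i => (xh i).1) (fun i b j q => κ (E i b j q)) A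
        (fun i q => κ (U i q)) (fun t => κ (m t))
      have h6 := dec nQ' nB' M (fun i => (xh i).2) (fun i b j q => κ (E' i b j q)) A'
        (fun i q => κ (U' i q)) (fun t => κ (m' t))
      rw [← h5, ← h6]
      exact h
    · intro x hxA
      have h := ih R R' (hnd.sublist sR) pR (hs.sublist sR) (hs'.sublist sR')
        (fun i hi => hTT i ((hRm i).1 hi).1) (fun i hi => hTS i ((hRm i).1 hi).1)
        (∑ t, gc nQ nB M (fun i => (x i).1) E A U t * toc M nB lam l t)
        (∑ t, gc nQ' nB' M (fun i => (x i).2) E' A' U' t * toc M nB' lam' l' t)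
        (fun j q => ∑ t, gc nQ nB M (fun i => (x i).1) E A U t * toc M nB U E t j q)
        (fun j q => ∑ t, gc nQ' nB' M (fun i => (x i).2) E' A' U' t * toc M nB' U' E' t j q)
        (by
          intro y hyR
          have h := hx (fun i => if π i = k then x i else y i) (by
            intro i hi
            split_ifs with hik
            · exact hxA i ((hA i).2 ⟨hi, hik⟩)
            · exact hyR i ((hRm i).2 ⟨hi, hik⟩))
          rw [e, e', split nQ nB M _ _ _ A R _ _ (fun i hi => hM i ((hA i).1 hi).1),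
            split nQ' nB' M _ _ _ A' R' _ _ (fun i hi => hM i ((hA i).1 (pA.mem_iff.2 hi)).1)] at h
          have g1 : ∀ t, gc nQ nB M (fun i => (if π i = k then x i else y i).1) E A U t =
              gc nQ nB M (fun i => (x i).1) E A U t := fun t =>
            nv_congr nQ nB _ _ _ _ E E A (List.pairwise_of_forall fun _ _ _ _ => rfl)
              (fun _ _ _ _ => rfl) (fun i hi => by rw [if_pos ((hA i).1 hi).2]) _ U U
              (fun _ _ _ => rfl)
          have g1' : ∀ t, gc nQ' nB' M (fun i => (if π i = k then x i else y i).2) E' A' U' t =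
              gc nQ' nB' M (fun i => (x i).2) E' A' U' t := fun t =>
            nv_congr nQ' nB' _ _ _ _ E' E' A' (List.pairwise_of_forall fun _ _ _ _ => rfl)
              (fun _ _ _ _ => rfl) (fun i hi => by rw [if_pos (hAk' i hi)]) _ U' U'
              (fun _ _ _ => rfl)
          have g2 : ∀ (a : K) (V : ℕ → ℕ → K),
              nv nQ nB (fun i => (if π i = k then x i else y i).1) l E R a V =
              nv nQ nB (fun i => (y i).1) l E R a V := fun a V =>
            nv_congr nQ nB _ _ l l E E R (List.pairwise_of_forall fun _ _ _ _ => rfl)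
              (fun _ _ _ _ => rfl) (fun i hi => by rw [if_neg ((hRm i).1 hi).2]) _ V V
              (fun _ _ _ => rfl)
          have g2' : ∀ (a : K) (V : ℕ → ℕ → K),
              nv nQ' nB' (fun i => (if π i = k then x i else y i).2) l' E' R' a V =
              nv nQ' nB' (fun i => (y i).2) l' E' R' a V := fun a V =>
            nv_congr nQ' nB' _ _ l' l' E' E' R' (List.pairwise_of_forall fun _ _ _ _ => rfl)
              (fun _ _ _ _ => rfl) (fun i hi => by rw [if_neg (hRk' i hi)]) _ V V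
              (fun _ _ _ => rfl)
          simp only [g1, g1', g2, g2'] at h
          rw [nv_left, nv_left]
          exact h)
        hlen
      rw [map_left, map_left] at h
      exact h

end Pool.Agent.Lib.MP_39893a_lc.OV.BLCM
end

section
/-!
# BLKI (MP_39893a_lc, hive OV): evaluation of the symbolic vectors over any ring
-/
set_option autoImplicit false

namespace Pool.Agent.Lib.MP_39893a_lc.OV.BLKIM

open ORD

theorem specBLKI (hV : ORD.SpecVAL) (hE : ORD.SpecEVL) : SpecBLKI := by
  obtain ⟨hv, -, -, hem, hvar, -, -, -⟩ := hV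
  obtain ⟨he, -, -, -, hh⟩ := hE
  have h1 : ∀ (R : Type) [Ring R] (φ : Mo →* R) (N i : ℕ) (β : List ℕ) (x : List R)
      (ξ : Var → R), x.length = N →
      (∀ t < N, isBit t → x.getD t 0 = ((β.getD t 0 : ℕ) : R)) →
      (∀ t < N, ¬ isBit t → ξ (i, t) = x.getD t 0) →
      ((blk N i β).map fun p => ev φ ξ p.val) = x := by
    intro R _ φ N i β x ξ hx hb hc
    have hhom : Ops.Hom cops (nops R) (fun p => ev φ ξ p.val) := LFHM.comp hv (hh R φ ξ)
    unfold blk
    rw [List.map_map]
    apply List.ext_getElem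
    · rw [List.length_map, List.length_range, hx]
    · intro t h1 h2
      have ht : t < N := by rw [← hx]; exact h2
      rw [List.getElem_map, List.getElem_range, Function.comp_apply]
      have hxt : x.getD t 0 = x[t] := by
        rw [List.getD_eq_getElem?_getD, List.getElem?_eq_getElem h2]
        rfl
      rw [← hxt]
      by_cases hbit : isBit t
      · rw [if_pos hbit, hb t ht hbit]
        exact hhom.nat _
      · rw [if_neg hbit, ← hc t ht hbit, hvar]
        exact (he R φ ξ).2.1 _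
  refine ⟨h1, ?_⟩
  intro R _ φ s a βs xs ξ hxs hlen hb hc
  have hhom : Ops.Hom cops (nops R) (fun p => ev φ ξ p.val) := LFHM.comp hv (hh R φ ξ)
  unfold vS
  rw [hhom.vecS, LFHM.map_VL hhom (em' := fun g => φ g)
    (fun g => by rw [hem]; exact (he R φ ξ).1 g)]
  congr 1
  rw [List.map_map]
  apply List.ext_getElem
  · rw [List.length_map, List.length_range, hxs]
  · intro i h3 h4
    have hi : i < s.rk a := by rw [← hxs]; exact h4
    rw [List.getElem_map, List.getElem_range, Function.comp_apply]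
    have hxi : xs.getD i [] = xs[i] := by
      rw [List.getD_eq_getElem?_getD, List.getElem?_eq_getElem h4]
      rfl
    rw [← hxi]
    exact h1 R φ (NN s) i (βs.getD i []) (xs.getD i []) ξ (hlen i hi) (hb i hi) (hc i hi)

end Pool.Agent.Lib.MP_39893a_lc.OV.BLKIM
end

section
set_option autoImplicit false

namespace Pool.Agent.Lib.MP_39893a_lc.OV.DENM

open Finset ORD

theorem tq_scale {S : Type} [Ring S] (nQ nB nQ' nB' : ℕ) (a b : S)
    (u v u' v' u1 v1 u1' v1' : ℕ → S) (w w1 : S) (x x' : ℕ → ℕ → S)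
    (hu : ∀ q < nQ, u1 q = a * u q) (hv : ∀ j < nB, v1 j = v j * b)
    (hu' : ∀ q < nQ', u1' q = a * u' q) (hv' : ∀ j < nB', v1' j = v' j * b)
    (hw : w1 = a * w * b) :
    tq nQ nB nQ' nB' u1 v1 u1' v1' w1 x x' = a * tq nQ nB nQ' nB' u v u' v' w x x' * b := by
  unfold tq
  rw [mul_add, mul_sub, add_mul, sub_mul, hw]
  congr 1
  congr 1
  · rw [Finset.mul_sum, Finset.sum_mul]
    refine Finset.sum_congr rfl fun q hq => ?_
    rw [Finset.mul_sum, Finset.sum_mul]
    refine Finset.sum_congr rfl fun j hj => ?_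
    rw [hu q (Finset.mem_range.1 hq), hv j (Finset.mem_range.1 hj)]
    simp only [mul_assoc]
  · rw [Finset.mul_sum, Finset.sum_mul]
    refine Finset.sum_congr rfl fun q hq => ?_
    rw [Finset.mul_sum, Finset.sum_mul]
    refine Finset.sum_congr rfl fun j hj => ?_
    rw [hu' q (Finset.mem_range.1 hq), hv' j (Finset.mem_range.1 hj)]
    simp only [mul_assoc]

theorem tq_map {S T : Type} [Ring S] [Ring T] (f : S →+* T) (nQ nB nQ' nB' : ℕ)
    (u v u' v' : ℕ → S) (w : S) (x x' : ℕ → ℕ → S) :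
    f (tq nQ nB nQ' nB' u v u' v' w x x') =
      tq nQ nB nQ' nB' (fun t => f (u t)) (fun t => f (v t)) (fun t => f (u' t))
        (fun t => f (v' t)) (f w) (fun a b => f (x a b)) (fun a b => f (x' a b)) := by
  unfold tq
  simp only [map_add, map_sub, map_sum, map_mul]

theorem specDEN : SpecDEN := by
  classical
  intro K S _ _ ι π κ hinj hκ hL hR P nR i R₁ R₂ X H u v u' v' w hu hu' hX
  -- right denominators
  obtain ⟨d₂, hd₂, h2⟩ := hR ((P + 1) + (P + 1)) (Fin.append (fun j : Fin (P + 1) => v j)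
    (fun j : Fin (P + 1) => v' j))
  have h2a : ∀ j : ℕ, j < P + 1 → ∃ a : D, v j * ι d₂ = ι a := by
    intro j hj
    obtain ⟨a, ha⟩ := h2 (Fin.castAdd (P + 1) ⟨j, hj⟩)
    rw [Fin.append_left] at ha
    exact ⟨a, ha⟩
  have h2b : ∀ j : ℕ, j < P + 1 → ∃ a : D, v' j * ι d₂ = ι a := by
    intro j hj
    obtain ⟨a, ha⟩ := h2 (Fin.natAdd (P + 1) ⟨j, hj⟩)
    rw [Fin.append_right] at ha
    exact ⟨a, ha⟩
  -- left denominators
  obtain ⟨d₁, hd₁, h1⟩ := hL ((nR + nR) + 1) (Fin.append (Fin.append (fun j : Fin nR => u j)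
    (fun j : Fin nR => u' j)) (fun _ : Fin 1 => w * ι d₂))
  have h1a : ∀ j : ℕ, j < nR → ∃ a : D, ι d₁ * u j = ι a := by
    intro j hj
    obtain ⟨a, ha⟩ := h1 (Fin.castAdd 1 (Fin.castAdd nR ⟨j, hj⟩))
    rw [Fin.append_left, Fin.append_left] at ha
    exact ⟨a, ha⟩
  have h1b : ∀ j : ℕ, j < nR → ∃ a : D, ι d₁ * u' j = ι a := by
    intro j hj
    obtain ⟨a, ha⟩ := h1 (Fin.castAdd 1 (Fin.natAdd nR ⟨j, hj⟩))
    rw [Fin.append_left, Fin.append_right] at ha
    exact ⟨a, ha⟩
  have h1c : ∃ a : D, ι d₁ * (w * ι d₂) = ι a := by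
    obtain ⟨a, ha⟩ := h1 (Fin.natAdd (nR + nR) (0 : Fin 1))
    rw [Fin.append_right] at ha
    exact ⟨a, ha⟩
  -- the coefficients
  have exU : ∀ (g : ℕ → K), (∀ j < nR, ∃ a : D, ι d₁ * g j = ι a) →
      ∃ U : ℕ → D, (∀ j, U j ≠ 0 → g j ≠ 0) ∧ ∀ j < nR, ι (U j) = ι d₁ * g j := by
    intro g hg
    have : ∀ j, ∃ a : D, (a ≠ 0 → g j ≠ 0) ∧ (j < nR → ι a = ι d₁ * g j) := by
      intro j
      by_cases hj : j < nR
      · by_cases hgj : g j = 0
        · exact ⟨0, fun h => absurd rfl h, fun _ => by rw [hgj, mul_zero, map_zero]⟩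
        · obtain ⟨a, ha⟩ := hg j hj
          exact ⟨a, fun _ => hgj, fun _ => ha.symm⟩
      · exact ⟨0, fun h => absurd rfl h, fun h => absurd h hj⟩
    choose U hU using this
    exact ⟨U, fun j => (hU j).1, fun j hj => (hU j).2 hj⟩
  have exV : ∀ (g : ℕ → K), (∀ j < P + 1, ∃ a : D, g j * ι d₂ = ι a) →
      ∃ V : ℕ → D, ∀ j < P + 1, ι (V j) = g j * ι d₂ := by
    intro g hg
    have : ∀ j, ∃ a : D, (j < P + 1 → ι a = g j * ι d₂) := by
      intro j
      by_cases hj : j < P + 1
      · obtain ⟨a, ha⟩ := hg j hj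
        exact ⟨a, fun _ => ha.symm⟩
      · exact ⟨0, fun h => absurd h hj⟩
    choose V hV using this
    exact ⟨V, hV⟩
  obtain ⟨U, hU0, hU⟩ := exU u h1a
  obtain ⟨U', hU0', hU'⟩ := exU u' h1b
  obtain ⟨V, hV⟩ := exV v h2a
  obtain ⟨V', hV'⟩ := exV v' h2b
  obtain ⟨W, hW⟩ := h1c
  have hι1 : ι d₁ ≠ 0 := fun h => hd₁ (hinj (by rw [h, map_zero]))
  have hι2 : ι d₂ ≠ 0 := fun h => hd₂ (hinj (by rw [h, map_zero]))
  have main := H U V U' V' W (fun t ht => hu t (hU0 t ht)) (fun t ht => hu' t (hU0' t ht)) (by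
    intro x hx
    apply hinj
    rw [map_zero]
    unfold tt
    rw [tq_map]
    rw [tq_scale nR (P + 1) nR (P + 1) (ι d₁) (ι d₂) u v u' v' _ _ _ _ w _ _ _
      hU hV hU' hV' (by rw [← hW, mul_assoc])]
    have h0 := hX x hx
    unfold tt at h0
    have e : ∀ R j : ℕ, (x.map ι).getD (pos P R j) 0 = ι (x.getD (pos P R j) 0) := by
      intro R j
      have := List.getD_map (l := x) (n := pos P R j) (d := (0 : D)) (⇑ι)
      rw [map_zero ι] at this
      exact this
    simp only [e] at h0
    rw [h0, mul_zero, zero_mul])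
  unfold ttF at main
  rw [tq_map] at main
  simp only [← hκ] at main
  rw [tq_scale nR (P + 1) nR (P + 1) (κ (ι d₁)) (κ (ι d₂)) (fun t => κ (u t)) (fun t => κ (v t))
    (fun t => κ (u' t)) (fun t => κ (v' t)) _ _ _ _ (κ w) _ _ _
    (fun q hq => by rw [← map_mul, hU q hq]) (fun q hq => by rw [← map_mul, hV q hq])
    (fun q hq => by rw [← map_mul, hU' q hq]) (fun q hq => by rw [← map_mul, hV' q hq])
    (by rw [← map_mul, ← map_mul, ← hW, mul_assoc])] at main
  have k1 : κ (ι d₁)⁻¹ * κ (ι d₁) = 1 := by rw [← map_mul, inv_mul_cancel₀ hι1, map_one]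
  have k2 : κ (ι d₂) * κ (ι d₂)⁻¹ = 1 := by rw [← map_mul, mul_inv_cancel₀ hι2, map_one]
  have := congrArg (fun z => κ (ι d₁)⁻¹ * z * κ (ι d₂)⁻¹) main
  simp only [mul_zero, zero_mul] at this
  rw [mul_assoc (κ (ι d₁)), ← mul_assoc (κ (ι d₁)⁻¹), k1, one_mul, mul_assoc, k2, mul_one] at this
  exact this

end Pool.Agent.Lib.MP_39893a_lc.OV.DENM

namespace Pool.Agent.Lib.MP_39893a_lc.OV

theorem specDEN : SpecDEN := DENM.specDEN

end Pool.Agent.Lib.MP_39893a_lc.OV
end

section
/-!
# LCD: order and leading coefficient on `D`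
-/
set_option autoImplicit false

namespace Pool.Agent.Lib.MP_39893a_lc.OV

open Finset ORD AGL

namespace LCDM

section

variable {L : Type} [Field L] (σ : RingAut L) (X : ℤ × ℤ → L)

/-- The slice number `n`. -/
noncomputable def sl (n : ℕ) : D →+ L :=
  (Finsupp.liftAddHom (fun m : Mo =>
    (AddMonoidHom.mulRight (if m.2.2 = n then X (m.1, m.2.1) else 0)).comp
      (Int.castAddHom L))).comp (MonoidAlgebra.coeffAddEquiv.toAddMonoidHom : D →+ (Mo →₀ ℤ))

theorem sl_single (n : ℕ) (m : Mo) (r : ℤ) :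
    sl X n (MonoidAlgebra.single m r) = (r : L) * (if m.2.2 = n then X (m.1, m.2.1) else 0) := by
  simp [sl]

/-- The part of degree `n`. -/
noncomputable def pt (n : ℕ) : D →+ ((ℤ × ℤ) →₀ ℤ) :=
  (Finsupp.liftAddHom (fun m : Mo =>
    (if m.2.2 = n then Finsupp.singleAddHom (m.1, m.2.1) else 0 : ℤ →+ ((ℤ × ℤ) →₀ ℤ)))).comp
      (MonoidAlgebra.coeffAddEquiv.toAddMonoidHom : D →+ (Mo →₀ ℤ))

theorem pt_single (n : ℕ) (m : Mo) (r : ℤ) :
    pt n (MonoidAlgebra.single m r) = if m.2.2 = n then Finsupp.single (m.1, m.2.1) r else 0 := by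
  by_cases h : m.2.2 = n
  · simp [pt, h]
  · simp [pt, h]

theorem pt_apply (n : ℕ) (a : D) (v : ℤ × ℤ) :
    pt n a v = a.coeff ((v.1, v.2, n) : ℤ × ℤ × ℕ) := by
  induction a using MonoidAlgebra.induction_linear with
  | zero => rw [map_zero]; rfl
  | add x y hx hy => rw [map_add, Finsupp.add_apply, hx, hy]; rfl
  | single m r =>
    rw [pt_single]
    obtain ⟨m1, m2, k⟩ := m
    obtain ⟨v1, v2⟩ := v
    by_cases h : k = n
    · subst h
      by_cases h2 : (m1, m2) = (v1, v2)
      · obtain ⟨rfl, rfl⟩ := Prod.mk.inj h2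
        simp
      · have h3 : ¬ ((m1, m2, k) : ℤ × ℤ × ℕ) = (v1, v2, k) := by
          intro h4
          apply h2
          have := Prod.mk.inj h4
          exact Prod.ext this.1 (Prod.mk.inj this.2).1
        simp only [if_true]
        rw [Finsupp.single_apply, if_neg h2]
        change 0 = (Finsupp.single ((m1, m2, k) : ℤ × ℤ × ℕ) r) ((v1, v2, k) : ℤ × ℤ × ℕ)
        rw [Finsupp.single_apply, if_neg h3]
    · have h3 : ¬ ((m1, m2, k) : ℤ × ℤ × ℕ) = (v1, v2, n) := by
        intro h4
        apply h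
        exact (Prod.mk.inj (Prod.mk.inj h4).2).2
      simp only [if_neg h, Finsupp.coe_zero, Pi.zero_apply]
      change 0 = (Finsupp.single ((m1, m2, k) : ℤ × ℤ × ℕ) r) ((v1, v2, n) : ℤ × ℤ × ℕ)
      rw [Finsupp.single_apply, if_neg h3]

/-- The sum of `f(v) X v` as a homomorphism. -/
noncomputable def sm : ((ℤ × ℤ) →₀ ℤ) →+ L :=
  Finsupp.liftAddHom (fun v : ℤ × ℤ => (AddMonoidHom.mulRight (X v)).comp (Int.castAddHom L))

theorem sm_apply (f : (ℤ × ℤ) →₀ ℤ) : sm X f = f.sum fun v n => (n : L) * X v := rfl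

theorem sm_pt (n : ℕ) (a : D) : sm X (pt n a) = sl X n a := by
  induction a using MonoidAlgebra.induction_linear with
  | zero => simp
  | add x y hx hy => rw [map_add, map_add, map_add, hx, hy]
  | single m r =>
    rw [pt_single, sl_single]
    by_cases h : m.2.2 = n
    · simp [h, sm]
    · simp [h]

theorem exists_sl (hX : ∀ f : (ℤ × ℤ) →₀ ℤ, (f.sum fun v n => (n : L) * X v) = 0 → f = 0)
    (a : D) (ha : a ≠ 0) : ∃ n, sl X n a ≠ 0 := by
  by_contra hc
  push Not at hc
  apply ha
  ext m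
  obtain ⟨v1, v2, n⟩ := m
  have h1 : pt n a = 0 := by
    apply hX
    rw [← sm_apply, sm_pt, hc n]
  have h2 := pt_apply n a (v1, v2)
  rw [h1] at h2
  exact h2.symm

theorem sigma_pow (hs : ∀ v, σ (X v) = X (twist 1 v)) (k : ℕ) (v : ℤ × ℤ) :
    (σ ^ k) (X v) = X (twist k v) := by
  induction k with
  | zero => rfl
  | succ k ih =>
    rw [pow_succ', RingAut.mul_apply, ih, hs, twist_twist, Nat.add_comm]

theorem sl_mul (h0 : ∀ v w, X (v + w) = X v * X w) (hs : ∀ v, σ (X v) = X (twist 1 v))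
    (a b : D) (n : ℕ) :
    sl X n (a * b) = ∑ p ∈ antidiagonal n, sl X p.1 a * (σ ^ p.1) (sl X p.2 b) := by
  induction a using MonoidAlgebra.induction_linear with
  | zero => simp
  | add x y hx hy =>
    rw [add_mul, map_add, hx, hy, ← Finset.sum_add_distrib]
    exact Finset.sum_congr rfl fun p _ => by rw [map_add, add_mul]
  | single m r =>
    induction b using MonoidAlgebra.induction_linear with
    | zero => simp
    | add x y hx hy =>
      rw [mul_add, map_add, hx, hy, ← Finset.sum_add_distrib]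
      exact Finset.sum_congr rfl fun p _ => by rw [map_add, map_add, mul_add]
    | single m' s =>
      have e2 : (m * m').2.2 = m.2.2 + m'.2.2 := rfl
      have e3 : ((m * m').1, (m * m').2.1) = (m.1, m.2.1) + twist m.2.2 (m'.1, m'.2.1) := rfl
      rw [MonoidAlgebra.single_mul_single, sl_single]
      simp only [sl_single]
      rw [e2, e3, h0, ← sigma_pow σ X hs]
      by_cases h : m.2.2 + m'.2.2 = n
      · rw [if_pos h, Finset.sum_eq_single (m.2.2, m'.2.2)]
        · simp only [if_true]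
          rw [map_mul, map_intCast]
          push_cast
          ring
        · intro p hp hne
          rw [HasAntidiagonal.mem_antidiagonal] at hp
          by_cases h1 : m.2.2 = p.1
          · have h2 : ¬ m'.2.2 = p.2 := by
              intro h3
              exact hne (Prod.ext h1.symm h3.symm)
            simp [h2]
          · simp [h1]
        · intro hn
          exact absurd (HasAntidiagonal.mem_antidiagonal.2 h) hn
      · rw [if_neg h, mul_zero]
        symm
        refine Finset.sum_eq_zero fun p hp => ?_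
        rw [HasAntidiagonal.mem_antidiagonal] at hp
        by_cases h1 : m.2.2 = p.1
        · have h2 : ¬ m'.2.2 = p.2 := by omega
          simp [h2]
        · simp [h1]

/-- The order. -/
noncomputable def od (a : D) : ℕ := sInf {n | sl X n a ≠ 0}

/-- The leading coefficient. -/
noncomputable def lc (a : D) : L := sl X (od X a) a

theorem lc_ne (hX : ∀ f : (ℤ × ℤ) →₀ ℤ, (f.sum fun v n => (n : L) * X v) = 0 → f = 0)
    (a : D) (ha : a ≠ 0) : lc X a ≠ 0 :=
  Nat.sInf_mem (exists_sl X hX a ha)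

theorem sl_lt (a : D) (n : ℕ) (h : n < od X a) : sl X n a = 0 := by
  by_contra hne
  exact Nat.notMem_of_lt_sInf h hne

theorem od_eq (a : D) (m : ℕ) (h1 : sl X m a ≠ 0) (h2 : ∀ n < m, sl X n a = 0) :
    a ≠ 0 ∧ od X a = m ∧ lc X a = sl X m a := by
  have hm : od X a = m := by
    refine le_antisymm (Nat.sInf_le h1) ?_
    by_contra hlt
    push Not at hlt
    exact (Nat.sInf_mem (s := {n | sl X n a ≠ 0}) ⟨m, h1⟩) (h2 _ hlt)
  refine ⟨?_, hm, by rw [lc, hm]⟩
  rintro rfl
  exact h1 (map_zero _)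

theorem mul_aux (h0 : ∀ v w, X (v + w) = X v * X w) (hs : ∀ v, σ (X v) = X (twist 1 v))
    (hX : ∀ f : (ℤ × ℤ) →₀ ℤ, (f.sum fun v n => (n : L) * X v) = 0 → f = 0)
    (a b : D) (ha : a ≠ 0) (hb : b ≠ 0) :
    a * b ≠ 0 ∧ od X (a * b) = od X a + od X b ∧
      lc X (a * b) = lc X a * (σ ^ od X a) (lc X b) := by
  have hm : sl X (od X a + od X b) (a * b) = lc X a * (σ ^ od X a) (lc X b) := by
    rw [sl_mul σ X h0 hs, Finset.sum_eq_single (od X a, od X b)]
    · rfl
    · intro p hp hne
      rw [HasAntidiagonal.mem_antidiagonal] at hp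
      by_cases h1 : p.1 < od X a
      · rw [sl_lt X a _ h1, zero_mul]
      · have h2 : p.2 < od X b := by
          rcases Nat.lt_or_ge p.2 (od X b) with h | h
          · exact h
          · exact absurd (Prod.ext (by simp only; omega) (by simp only; omega)) hne
        rw [sl_lt X b _ h2, map_zero, mul_zero]
    · intro hn
      exact absurd (HasAntidiagonal.mem_antidiagonal.2 (rfl : od X a + od X b = _)) hn
  have hne : lc X a * (σ ^ od X a) (lc X b) ≠ 0 := by
    refine mul_ne_zero (lc_ne X hX a ha) ?_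
    intro h
    exact lc_ne X hX b hb ((map_eq_zero_iff _ (σ ^ od X a).injective).1 h)
  obtain ⟨h1, h2, h3⟩ := od_eq X (a * b) (od X a + od X b) (by rw [hm]; exact hne) (by
    intro n hn
    rw [sl_mul σ X h0 hs]
    refine Finset.sum_eq_zero fun p hp => ?_
    rw [HasAntidiagonal.mem_antidiagonal] at hp
    by_cases h1 : p.1 < od X a
    · rw [sl_lt X a _ h1, zero_mul]
    · rw [sl_lt X b p.2 (by omega), map_zero, mul_zero])
  exact ⟨h1, h2, by rw [h3, hm]⟩

end

end LCDM

theorem LCDM.specLCD : SpecLCD := by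
  intro L _ σ X hX0 hXadd hXs hX
  refine ⟨fun a => (LCDM.od X a : ℤ), LCDM.lc X, ?_, ?_, ?_, ?_, ?_, ?_⟩
  · exact LCDM.lc_ne X hX
  · intro a b ha hb
    obtain ⟨h1, h2, h3⟩ := LCDM.mul_aux σ X hXadd hXs hX a b ha hb
    refine ⟨h1, by rw [h2]; push_cast; rfl, ?_⟩
    rw [h3, zpow_natCast]
  · intro a b ha hb hab hne
    have hab' : LCDM.od X a = LCDM.od X b := by exact_mod_cast hab
    have h1 : LCDM.sl X (LCDM.od X a) (a + b) = LCDM.lc X a + LCDM.lc X b := by
      rw [map_add, LCDM.lc, LCDM.lc, ← hab']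
    obtain ⟨g1, g2, g3⟩ := LCDM.od_eq X (a + b) (LCDM.od X a) (by rw [h1]; exact hne) (by
      intro n hn
      rw [map_add, LCDM.sl_lt X a n hn, LCDM.sl_lt X b n (hab' ▸ hn), add_zero])
    exact ⟨g1, by exact_mod_cast g2, by rw [g3, h1]⟩
  · intro a b ha hb hab h0 hne
    have hab' : LCDM.od X a = LCDM.od X b := by exact_mod_cast hab
    have h1 : LCDM.sl X (LCDM.od X a) (a + b) = LCDM.lc X a + LCDM.lc X b := by
      rw [map_add, LCDM.lc, LCDM.lc, ← hab']
    have : LCDM.od X a < LCDM.od X (a + b) := by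
      by_contra hc
      push Not at hc
      have hz : LCDM.sl X (LCDM.od X (a + b)) (a + b) = 0 := by
        rcases Nat.lt_or_ge (LCDM.od X (a + b)) (LCDM.od X a) with h | h
        · rw [map_add, LCDM.sl_lt X a _ h, LCDM.sl_lt X b _ (hab' ▸ h), add_zero]
        · have : LCDM.od X (a + b) = LCDM.od X a := le_antisymm hc h
          rw [this, h1, h0]
      exact LCDM.lc_ne X hX (a + b) hne hz
    exact_mod_cast this
  · intro a b ha hb hab
    have hab' : LCDM.od X a < LCDM.od X b := by exact_mod_cast hab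
    have h1 : LCDM.sl X (LCDM.od X a) (a + b) = LCDM.lc X a := by
      rw [map_add, LCDM.sl_lt X b _ hab', add_zero, LCDM.lc]
    obtain ⟨g1, g2, g3⟩ := LCDM.od_eq X (a + b) (LCDM.od X a)
      (by rw [h1]; exact LCDM.lc_ne X hX a ha) (by
        intro n hn
        rw [map_add, LCDM.sl_lt X a n hn, LCDM.sl_lt X b n (lt_trans hn hab'), add_zero])
    exact ⟨g1, by exact_mod_cast g2, by rw [g3, h1]⟩
  · intro n hn
    have hnL : (n : L) ≠ 0 := by
      intro h
      have := hX (Finsupp.single 0 n) (by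
        rw [Finsupp.sum_single_index (by simp), h, zero_mul])
      rw [Finsupp.single_eq_zero] at this
      exact hn this
    have hsl : ∀ k, LCDM.sl X k (n : D) = if k = 0 then (n : L) else 0 := by
      intro k
      have hsg : (n : D) = MonoidAlgebra.single (1 : Mo) n := by
        rw [MonoidAlgebra.intCast_def]
        simp
      rw [hsg, LCDM.sl_single]
      have e1 : (1 : Mo).2.2 = 0 := rfl
      have e2 : ((1 : Mo).1, (1 : Mo).2.1) = (0 : ℤ × ℤ) := rfl
      rw [e1, e2, hX0]
      by_cases hk : k = 0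
      · simp [hk]
      · rw [if_neg (fun h => hk h.symm), if_neg hk, mul_zero]
    obtain ⟨g1, g2, g3⟩ := LCDM.od_eq X (n : D) 0 (by rw [hsl]; simpa using hnL) (by
      intro k hk
      omega)
    refine ⟨g1, by exact_mod_cast g2, ?_⟩
    rw [g3, hsl]
    simp

end Pool.Agent.Lib.MP_39893a_lc.OV
end

section
/-!
# Product formula for narrow nets (MP_39893a_lc, hive OV, module PRF)

`mv` of a narrow net in which every child of the list is a base child (mark `1`) or a difference child
(mark `2`), at least one of them a difference child, is a product of one factor `fac` for each difference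
child, in the order of the list.

The proof is an induction on the list. Let `i₁` be the first difference child of the list. There is a map
`ρ` from forms to rows such that the value of the form `(lam, U)` is `fac (ρ U) ..` times a product
over the other difference children. The property `G i₁ ρ` carried through the induction is: in the second
case of `NarE`, `ρ` is left homogeneous; in the first case, `ρ U` is a left multiple of `ε i₁` if `U j` is
a left multiple of `ε j` for all `j`. In both cases the rows `ρ (E i b)` are left multiples of one row.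
-/
set_option autoImplicit false

namespace Pool.Agent.Lib.MP_39893a_lc.OV.PRFM

open Finset

/-- The factor of a difference child. -/
def fac {S : Type} [Ring S] (nQ nB : ℕ) (r : ℕ → S) (d : ℕ → ℕ → S) (c : ℕ → S) : S :=
  ∑ q ∈ range nQ, ∑ b ∈ range nB, r q * d q b * c b

theorem fac_add {S : Type} [Ring S] (nQ nB : ℕ) (r r' : ℕ → S) (d : ℕ → ℕ → S) (c : ℕ → S) :
    fac nQ nB (fun q => r q + r' q) d c = fac nQ nB r d c + fac nQ nB r' d c := by
  simp only [fac, add_mul, Finset.sum_add_distrib]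

theorem fac_mul {S : Type} [Ring S] (nQ nB : ℕ) (k : S) (r : ℕ → S) (d : ℕ → ℕ → S) (c : ℕ → S) :
    fac nQ nB (fun q => k * r q) d c = k * fac nQ nB r d c := by
  simp only [fac, mul_assoc, Finset.mul_sum]

theorem fac_sum {S : Type} [Ring S] (nQ nB n : ℕ) (k : ℕ → S) (r : ℕ → ℕ → S) (d : ℕ → ℕ → S)
    (c : ℕ → S) :
    fac nQ nB (fun q => ∑ b ∈ range n, k b * r b q) d c =
      ∑ b ∈ range n, k b * fac nQ nB (r b) d c := by
  induction n with
  | zero => simp [fac]
  | succ n ih =>
    simp only [Finset.sum_range_succ]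
    rw [fac_add, ih, fac_mul]

variable {K : Type} [Ring K]

/-- Without difference children the value is a constant. -/
theorem mv_const (nQ nB : ℕ) (m : ℕ → ℕ) (x₀ : ℕ → ℕ → ℕ → K) (l : ℕ → ℕ → K)
    (E : ℕ → ℕ → ℕ → ℕ → K) (S : Type) [Ring S] (κ : K →+* S) (x : ℕ → ℕ → ℕ → S) :
    ∀ (L : List ℕ), (∀ i ∈ L, m i = 1) → ∀ (lam : K) (U : ℕ → ℕ → K),
      mv nQ nB m (fun i q b => κ (x₀ i q b)) x (fun i b => κ (l i b))
        (fun i b j q => κ (E i b j q)) L (κ lam) (fun i q => κ (U i q)) =
      κ (mv nQ nB m x₀ x₀ l E L lam U) := by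
  intro L
  induction L with
  | nil => intro _ lam U; simp [mv]
  | cons i L ih =>
    intro h lam U
    have hi : m i = 1 := h i (by simp)
    have ih' := ih (fun j hj => h j (by simp [hj]))
    have e1 : ∀ b, mv nQ nB m (fun i q b => κ (x₀ i q b)) x (fun i b => κ (l i b))
        (fun i b j q => κ (E i b j q)) L (κ (l i b)) (fun j q => κ (E i b j q)) =
        κ (mv nQ nB m x₀ x₀ l E L (l i b) (E i b)) := fun b => ih' (l i b) (E i b)
    simp only [mv, hi, OfNat.one_ne_ofNat, if_false, one_ne_zero, if_true, e1, ih' lam U, map_add,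
      map_sum, map_mul]

/-- The induction. -/
theorem main (nQ nB : ℕ) (m : ℕ → ℕ) (x₀ : ℕ → ℕ → ℕ → K) (l : ℕ → ℕ → K)
    (E : ℕ → ℕ → ℕ → ℕ → K) (G : ℕ → ((ℕ → ℕ → K) → ℕ → K) → Prop)
    (hB : ∀ i, G i (fun U => U i))
    (hA : ∀ i i₁ ρ, G i₁ ρ → G i₁ (fun U q => ρ U q +
      ∑ b ∈ range nB, (∑ q' ∈ range nQ, U i q' * x₀ i q' b) * ρ (E i b) q))
    (hC : ∀ i i₁ ρ, G i₁ ρ → ∃ w μ : ℕ → K, ∀ b q, ρ (E i b) q = μ b * w q) :
    ∀ L : List ℕ, L.Nodup → (∀ i ∈ L, m i = 1 ∨ m i = 2) → ∀ (i₁ : ℕ) (D : List ℕ),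
      L.filter (fun i => m i = 2) = i₁ :: D →
      ∃ (r c : ℕ → ℕ → K) (ρ : (ℕ → ℕ → K) → ℕ → K), G i₁ ρ ∧
        ∀ (S : Type) [Ring S] (κ : K →+* S) (x : ℕ → ℕ → ℕ → S) (lam : K) (U : ℕ → ℕ → K),
          mv nQ nB m (fun i q b => κ (x₀ i q b)) x (fun i b => κ (l i b))
            (fun i b j q => κ (E i b j q)) L (κ lam) (fun i q => κ (U i q)) =
          fac nQ nB (fun q => κ (ρ U q)) (fun q b => x i₁ q b - κ (x₀ i₁ q b))
            (fun b => κ (c i₁ b)) *
          (D.map fun i => fac nQ nB (fun q => κ (r i q)) (fun q b => x i q b - κ (x₀ i q b))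
            (fun b => κ (c i b))).prod := by
  intro L
  induction L with
  | nil => intro _ _ i₁ D h; simp at h
  | cons i L ih =>
    intro hnd hm i₁ D hD
    have hnd' : L.Nodup := (List.nodup_cons.1 hnd).2
    have hiL : i ∉ L := (List.nodup_cons.1 hnd).1
    have hm' : ∀ j ∈ L, m j = 1 ∨ m j = 2 := fun j hj => hm j (by simp [hj])
    rcases hm i (by simp) with hi | hi
    · -- base child
      have hD' : L.filter (fun i => m i = 2) = i₁ :: D := by
        rw [List.filter_cons] at hD
        simpa [hi] using hD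
      obtain ⟨r, c, ρ, hG, hv⟩ := ih hnd' hm' i₁ D hD'
      refine ⟨r, c, _, hA i i₁ ρ hG, ?_⟩
      intro S _ κ x lam U
      have e1 : ∀ b, mv nQ nB m (fun i q b => κ (x₀ i q b)) x (fun i b => κ (l i b))
        (fun i b j q => κ (E i b j q)) L (κ (l i b)) (fun j q => κ (E i b j q)) = _ :=
        fun b => hv S κ x (l i b) (E i b)
      simp only [mv, hi, OfNat.one_ne_ofNat, if_false, one_ne_zero, if_true]
      rw [hv S κ x lam U]
      simp only [e1, map_add, map_sum, map_mul]
      rw [fac_add nQ nB (fun q => κ (ρ U q)), fac_sum nQ nB nB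
        (fun b => ∑ q' ∈ range nQ, κ (U i q') * κ (x₀ i q' b)) (fun b q => κ (ρ (E i b) q)), add_mul]
      congr 1
      simp only [Finset.sum_mul, Finset.mul_sum]
      rw [Finset.sum_comm]
      refine Finset.sum_congr rfl fun b _ => Finset.sum_congr rfl fun q _ => ?_
      simp only [mul_assoc]
    · -- difference child
      have hD' : i₁ = i ∧ D = L.filter (fun i => m i = 2) := by
        rw [List.filter_cons] at hD
        simp only [hi, decide_true, if_true, List.cons.injEq] at hD
        exact ⟨hD.1.symm, hD.2.symm⟩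
      obtain ⟨rfl, hDL⟩ := hD'
      cases hL : L.filter (fun i => m i = 2) with
      | nil =>
        have hm1 : ∀ j ∈ L, m j = 1 := by
          intro j hj
          rcases hm' j hj with h | h
          · exact h
          · have : j ∈ L.filter (fun i => m i = 2) := List.mem_filter.2 ⟨hj, by simpa using h⟩
            rw [hL] at this
            simp at this
        rw [hL] at hDL
        subst hDL
        refine ⟨fun _ _ => 0, fun _ b => mv nQ nB m x₀ x₀ l E L (l i₁ b) (E i₁ b), _, hB i₁, ?_⟩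
        intro S _ κ x lam U
        have e1 : ∀ b, mv nQ nB m (fun i q b => κ (x₀ i q b)) x (fun i b => κ (l i b))
          (fun i b j q => κ (E i b j q)) L (κ (l i₁ b)) (fun j q => κ (E i₁ b j q)) = _ :=
          fun b => mv_const nQ nB m x₀ l E S κ x L hm1 (l i₁ b) (E i₁ b)
        simp only [mv, hi, if_true, e1, fac, List.map_nil, List.prod_nil, mul_one, zero_add,
          OfNat.ofNat_ne_zero, OfNat.ofNat_ne_one, if_false]
        refine Finset.sum_congr rfl fun q _ => ?_
        rw [Finset.mul_sum]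
        refine Finset.sum_congr rfl fun b _ => ?_
        rw [mul_assoc]
      | cons i₂ D₂ =>
        obtain ⟨r, c, ρ, hG, hv⟩ := ih hnd' hm' i₂ D₂ hL
        obtain ⟨w, μ, hw⟩ := hC i₁ i₂ ρ hG
        rw [hL] at hDL
        subst hDL
        have hndD : (i₂ :: D₂).Nodup := by
          rw [← hL]; exact hnd'.filter _
        have hi₂ : i₂ ∉ D₂ := (List.nodup_cons.1 hndD).1
        have hsub : ∀ j ∈ i₂ :: D₂, j ∈ L := by
          intro j hj
          rw [← hL] at hj
          exact (List.mem_filter.1 hj).1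
        refine ⟨Function.update r i₂ w, Function.update c i₁ μ, _, hB i₁, ?_⟩
        intro S _ κ x lam U
        have e1 : ∀ b, mv nQ nB m (fun i q b => κ (x₀ i q b)) x (fun i b => κ (l i b))
          (fun i b j q => κ (E i b j q)) L (κ (l i₁ b)) (fun j q => κ (E i₁ b j q)) = _ :=
          fun b => hv S κ x (l i₁ b) (E i₁ b)
        have hne : ∀ j ∈ i₂ :: D₂, j ≠ i₁ := by
          rintro j hj rfl
          exact hiL (hsub j hj)
        have e2 : ((i₂ :: D₂).map fun i => fac nQ nB (fun q => κ (Function.update r i₂ w i q))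
            (fun q b => x i q b - κ (x₀ i q b)) (fun b => κ (Function.update c i₁ μ i b))).prod =
            fac nQ nB (fun q => κ (w q)) (fun q b => x i₂ q b - κ (x₀ i₂ q b))
              (fun b => κ (c i₂ b)) *
            (D₂.map fun i => fac nQ nB (fun q => κ (r i q)) (fun q b => x i q b - κ (x₀ i q b))
              (fun b => κ (c i b))).prod := by
          rw [List.map_cons, List.prod_cons, Function.update_self,
            Function.update_of_ne (hne i₂ (by simp))]
          congr 2
          refine List.map_congr_left fun j hj => ?_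
          have hj2 : j ≠ i₂ := by
            rintro rfl
            exact hi₂ hj
          rw [Function.update_of_ne hj2, Function.update_of_ne (hne j (by simp [hj]))]
        rw [e2, Function.update_self]
        simp only [mv, hi, if_true, e1, hw, map_mul, zero_add, OfNat.ofNat_ne_zero,
          OfNat.ofNat_ne_one, if_false, fac_mul]
        generalize fac nQ nB (fun q => κ (w q)) (fun q b => x i₂ q b - κ (x₀ i₂ q b))
          (fun b => κ (c i₂ b)) = F
        rw [fac, Finset.sum_mul]
        refine Finset.sum_congr rfl fun q _ => ?_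
        rw [Finset.mul_sum, Finset.sum_mul]
        refine Finset.sum_congr rfl fun b _ => ?_
        simp only [mul_assoc]

/-- The formula, for a property `G` as in `main`. -/
theorem fin (nQ nB : ℕ) (m : ℕ → ℕ) (x₀ : ℕ → ℕ → ℕ → K) (l : ℕ → ℕ → K)
    (E : ℕ → ℕ → ℕ → ℕ → K) (G : ℕ → ((ℕ → ℕ → K) → ℕ → K) → Prop)
    (hB : ∀ i, G i (fun U => U i))
    (hA : ∀ i i₁ ρ, G i₁ ρ → G i₁ (fun U q => ρ U q +
      ∑ b ∈ range nB, (∑ q' ∈ range nQ, U i q' * x₀ i q' b) * ρ (E i b) q))
    (hC : ∀ i i₁ ρ, G i₁ ρ → ∃ w μ : ℕ → K, ∀ b q, ρ (E i b) q = μ b * w q)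
    (L : List ℕ) (hnd : L.Nodup) (hm : ∀ i ∈ L, m i = 1 ∨ m i = 2) (h2 : ∃ i ∈ L, m i = 2)
    (lam : K) (U : ℕ → ℕ → K) :
    ∃ r c : ℕ → ℕ → K, ∀ (S : Type) [Ring S] (κ : K →+* S) (x : ℕ → ℕ → ℕ → S),
      mv nQ nB m (fun i q b => κ (x₀ i q b)) x (fun i b => κ (l i b))
        (fun i b j q => κ (E i b j q)) L (κ lam) (fun i q => κ (U i q)) =
      ((L.filter fun i => m i = 2).map fun i =>
        ∑ q ∈ range nQ, ∑ b ∈ range nB,
          κ (r i q) * (x i q b - κ (x₀ i q b)) * κ (c i b)).prod := by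
  cases hL : L.filter (fun i => m i = 2) with
  | nil =>
    obtain ⟨i, hi, h2i⟩ := h2
    have : i ∈ L.filter (fun i => m i = 2) := List.mem_filter.2 ⟨hi, by simpa using h2i⟩
    rw [hL] at this
    simp at this
  | cons i₁ D =>
    obtain ⟨r, c, ρ, _, hv⟩ := main nQ nB m x₀ l E G hB hA hC L hnd hm i₁ D hL
    have hndD : (i₁ :: D).Nodup := by
      rw [← hL]; exact hnd.filter _
    have hi₁ : i₁ ∉ D := (List.nodup_cons.1 hndD).1
    refine ⟨Function.update r i₁ (ρ U), c, ?_⟩
    intro S _ κ x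
    rw [hv S κ x lam U, List.map_cons, List.prod_cons, Function.update_self]
    congr 2
    refine List.map_congr_left fun j hj => ?_
    have hj1 : j ≠ i₁ := by
      rintro rfl
      exact hi₁ hj
    rw [Function.update_of_ne hj1]
    rfl

theorem specPRF : SpecPRF := by
  intro K _ nQ nB L hnd m x₀ l E lam U hE hm h2
  rcases hE with ⟨c, ε, hE⟩ | ⟨e, r, hE⟩
  · refine fin nQ nB m x₀ l E (fun i₁ ρ => ∀ (U : ℕ → ℕ → K) (μ : ℕ → K),
      (∀ j q, U j q = μ j * ε j q) → ∃ ν, ∀ q, ρ U q = ν * ε i₁ q) ?_ ?_ ?_ L hnd hm h2 lam U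
    · intro i U μ h
      exact ⟨μ i, h i⟩
    · intro i i₁ ρ hρ U μ h
      obtain ⟨ν, hν⟩ := hρ U μ h
      choose ν' hν' using fun b => hρ (E i b) (fun j => c i b j) (fun j q => hE i b j q)
      refine ⟨ν + ∑ b ∈ range nB, (∑ q' ∈ range nQ, U i q' * x₀ i q' b) * ν' b, fun q => ?_⟩
      show ρ U q + _ = _
      rw [hν, add_mul, Finset.sum_mul]
      congr 1
      refine Finset.sum_congr rfl fun b _ => ?_
      rw [hν', mul_assoc]
    · intro i i₁ ρ hρ
      choose ν' hν' using fun b => hρ (E i b) (fun j => c i b j) (fun j q => hE i b j q)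
      exact ⟨ε i₁, ν', hν'⟩
  · refine fin nQ nB m x₀ l E (fun i₁ ρ => ∀ (k : K) (U : ℕ → ℕ → K) (q : ℕ),
      ρ (fun j q => k * U j q) q = k * ρ U q) ?_ ?_ ?_ L hnd hm h2 lam U
    · intro i k U q
      rfl
    · intro i i₁ ρ hρ k U q
      simp only [hρ k U q, mul_add, Finset.mul_sum, Finset.sum_mul, mul_assoc]
    · intro i i₁ ρ hρ
      refine ⟨ρ (r i), e i, fun b q => ?_⟩
      have : E i b = fun j q => e i b * r i j q := by
        funext j q
        exact hE i b j q
      rw [this, hρ]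

end Pool.Agent.Lib.MP_39893a_lc.OV.PRFM
end

section
/-!
# Narrow nets, different orders (MP_39893a_lc, hive OV, module NARC)

If two narrow nets (the lists of children are permutations of one another) have the same values at all
points of the sets `X i`, they have the same values at the point `xh` over `S`, if `xh i` satisfies all
two-term identities that hold on `X i`.

Choose base points `x₀ i`. The value with marks `m` (`0` full, `1` base, `2` difference) is split, at a
full child `k`, into the values for `m` with `k ↦ 1` and `k ↦ 2`, and the value with `k ↦ 1` is the value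
for `m` at a point with `x k = x₀ k`. So it is enough to treat marks without full children; there the
values are constants or, by PRF, products of factors in two different orders, and PRM applies.
-/
set_option autoImplicit false

namespace Pool.Agent.Lib.MP_39893a_lc.OV.NARCM

open Finset

/-- All children full: the value of the net. -/
theorem mv_zero {S : Type} [Ring S] (nQ nB : ℕ) (m : ℕ → ℕ) (x₀ x : ℕ → ℕ → ℕ → S)
    (l : ℕ → ℕ → S) (E : ℕ → ℕ → ℕ → ℕ → S) :
    ∀ (L : List ℕ), (∀ i ∈ L, m i = 0) → ∀ (lam : S) (U : ℕ → ℕ → S),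
      mv nQ nB m x₀ x l E L lam U = nv nQ nB x l E L lam U := by
  intro L
  induction L with
  | nil => intro _ lam U; rfl
  | cons i L ih =>
    intro h lam U
    have hi : m i = 0 := h i (by simp)
    have ih' := ih (fun j hj => h j (by simp [hj]))
    simp only [mv, nv, hi, OfNat.zero_ne_ofNat, if_false, if_true, ih']

/-- The values depend only on the marks and the matrices of the children of the list. -/
theorem mv_congr {S : Type} [Ring S] (nQ nB : ℕ) (m m' : ℕ → ℕ) (x₀ x x' : ℕ → ℕ → ℕ → S)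
    (l : ℕ → ℕ → S) (E : ℕ → ℕ → ℕ → ℕ → S) :
    ∀ (L : List ℕ), (∀ i ∈ L, (m i = 2 ↔ m' i = 2) ∧ ∀ q b,
      (if m i = 0 then x i q b else if m i = 1 then x₀ i q b else x i q b - x₀ i q b) =
      (if m' i = 0 then x' i q b else if m' i = 1 then x₀ i q b else x' i q b - x₀ i q b)) →
      ∀ (lam : S) (U : ℕ → ℕ → S),
      mv nQ nB m x₀ x l E L lam U = mv nQ nB m' x₀ x' l E L lam U := by
  intro L
  induction L with
  | nil => intro _ lam U; rfl
  | cons i L ih =>
    intro h lam U
    obtain ⟨h1, h2⟩ := h i (by simp)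
    have ih' := ih (fun j hj => h j (by simp [hj]))
    simp only [mv, h1, h2, ih']

/-- The value for `m` with `k ↦ 1` is the value for `m` at a point with `x k = x₀ k`. -/
theorem mv_base {S : Type} [Ring S] (nQ nB : ℕ) (m : ℕ → ℕ) (x₀ x x' : ℕ → ℕ → ℕ → S)
    (l : ℕ → ℕ → S) (E : ℕ → ℕ → ℕ → ℕ → S) (k : ℕ) (hk : m k = 0) (L : List ℕ)
    (h1 : x' k = x₀ k) (h2 : ∀ i, i ≠ k → x' i = x i) (lam : S) (U : ℕ → ℕ → S) :
    mv nQ nB (Function.update m k 1) x₀ x l E L lam U = mv nQ nB m x₀ x' l E L lam U := by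
  refine mv_congr nQ nB _ _ x₀ x x' l E L (fun i _ => ?_) lam U
  by_cases hi : i = k
  · subst hi
    simp [hk, h1]
  · simp [Function.update_of_ne hi, h2 i hi]

/-- Splitting a full child. -/
theorem mv_split {S : Type} [Ring S] (nQ nB : ℕ) (m : ℕ → ℕ) (x₀ x : ℕ → ℕ → ℕ → S)
    (l : ℕ → ℕ → S) (E : ℕ → ℕ → ℕ → ℕ → S) (k : ℕ) (hk : m k = 0) :
    ∀ (L : List ℕ), L.Nodup → k ∈ L → ∀ (lam : S) (U : ℕ → ℕ → S),
      mv nQ nB m x₀ x l E L lam U = mv nQ nB (Function.update m k 1) x₀ x l E L lam U +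
        mv nQ nB (Function.update m k 2) x₀ x l E L lam U := by
  intro L
  induction L with
  | nil => intro _ h; simp at h
  | cons i L ih =>
    intro hnd hkL lam U
    have hiL : i ∉ L := (List.nodup_cons.1 hnd).1
    by_cases hi : i = k
    · subst hi
      have hc : ∀ v : ℕ, ∀ (lam : S) (U : ℕ → ℕ → S),
          mv nQ nB (Function.update m i v) x₀ x l E L lam U = mv nQ nB m x₀ x l E L lam U := by
        intro v
        refine mv_congr nQ nB _ _ x₀ x x l E L (fun j hj => ?_)
        have : j ≠ i := by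
          rintro rfl
          exact hiL hj
        simp [Function.update_of_ne this]
      simp only [mv, hc, hk, Function.update_self, OfNat.zero_ne_ofNat, if_false, if_true,
        OfNat.one_ne_ofNat, one_ne_zero, zero_add, OfNat.ofNat_ne_zero, OfNat.ofNat_ne_one]
      rw [add_assoc, ← Finset.sum_add_distrib]
      congr 1
      refine Finset.sum_congr rfl fun q _ => ?_
      rw [← mul_add, ← Finset.sum_add_distrib]
      congr 1
      refine Finset.sum_congr rfl fun b _ => ?_
      rw [← add_mul]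
      congr 1
      abel
    · have hkL' : k ∈ L := by
        rcases List.mem_cons.1 hkL with h | h
        · exact absurd h.symm hi
        · exact h
      have ih' := ih (List.nodup_cons.1 hnd).2 hkL'
      simp only [mv, Function.update_of_ne hi]
      simp only [ih', mul_add, Finset.sum_add_distrib]
      by_cases h2 : m i = 2
      · simp only [h2, if_true]
        abel
      · simp only [h2, if_false]
        abel

/-- Factors and two-term forms. -/
theorem tq_eq {S : Type} [Ring S] (nQ nB nQ' nB' : ℕ) (p q p' q' : S) (r c r' c' : ℕ → S)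
    (y y' x x' : ℕ → ℕ → S) :
    tq nQ nB nQ' nB' (fun t => p * r t) (fun t => c t * q) (fun t => p' * r' t)
      (fun t => c' t * q')
      (p' * (∑ t ∈ range nQ', ∑ b ∈ range nB', r' t * y' t b * c' b) * q' -
        p * (∑ t ∈ range nQ, ∑ b ∈ range nB, r t * y t b * c b) * q) x x' =
    p * (∑ t ∈ range nQ, ∑ b ∈ range nB, r t * (x t b - y t b) * c b) * q -
      p' * (∑ t ∈ range nQ', ∑ b ∈ range nB', r' t * (x' t b - y' t b) * c' b) * q' := by
  simp only [tq, mul_sub, sub_mul, Finset.sum_sub_distrib, Finset.mul_sum, Finset.sum_mul,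
    mul_assoc]
  abel

/-- Two-term identities on `X` hold at `xh`, for factors. -/
theorem transfer {K S : Type} [Ring K] [Ring S] (κ : K →+* S) {Y : Type} (nQ nB nQ' nB' : ℕ)
    (X : Set Y) (g g' : Y → ℕ → ℕ → K) (z z' : ℕ → ℕ → S)
    (h : ∀ (u v u' v' : ℕ → K) (w : K),
        (∀ x ∈ X, tq nQ nB nQ' nB' u v u' v' w (g x) (g' x) = 0) →
        tq nQ nB nQ' nB' (fun t => κ (u t)) (fun t => κ (v t)) (fun t => κ (u' t))
          (fun t => κ (v' t)) (κ w) z z' = 0)
    (r c r' c' : ℕ → K) (y y' : ℕ → ℕ → K) (p q p' q' : K)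
    (hx : ∀ x ∈ X, p * (∑ t ∈ range nQ, ∑ b ∈ range nB, r t * (g x t b - y t b) * c b) * q =
      p' * (∑ t ∈ range nQ', ∑ b ∈ range nB', r' t * (g' x t b - y' t b) * c' b) * q') :
    κ p * (∑ t ∈ range nQ, ∑ b ∈ range nB, κ (r t) * (z t b - κ (y t b)) * κ (c b)) * κ q =
      κ p' * (∑ t ∈ range nQ', ∑ b ∈ range nB', κ (r' t) * (z' t b - κ (y' t b)) * κ (c' b)) *
        κ q' := by
  have h1 := h (fun t => p * r t) (fun t => c t * q) (fun t => p' * r' t) (fun t => c' t * q')
    (p' * (∑ t ∈ range nQ', ∑ b ∈ range nB', r' t * y' t b * c' b) * q' -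
        p * (∑ t ∈ range nQ, ∑ b ∈ range nB, r t * y t b * c b) * q) (by
      intro x hxX
      rw [tq_eq, hx x hxX, sub_self])
  simp only [map_mul, map_sub, map_sum] at h1
  rw [tq_eq nQ nB nQ' nB' (κ p) (κ q) (κ p') (κ q') (fun t => κ (r t)) (fun t => κ (c t))
    (fun t => κ (r' t)) (fun t => κ (c' t)) (fun t b => κ (y t b)) (fun t b => κ (y' t b))] at h1
  exact sub_eq_zero.1 h1

theorem specNARC (hPRM : SpecPRM) (hPRF : SpecPRF) : SpecNARC := by
  intro K S _ _ κ hR hnc nQ nB nQ' nB' L L' hnd hperm X xh hTT hTS l l' E E' lam lam' U U' hE hE'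
    hval
  have hnd' : L'.Nodup := hperm.nodup_iff.1 hnd
  by_cases hne : ∀ i ∈ L, (X i).Nonempty
  swap
  · -- an empty set
    push Not at hne
    obtain ⟨i, hi, hX⟩ := hne
    have h1 := hTT i hi (fun _ => 0) (fun _ => 0) (fun _ => 0) (fun _ => 0) 1 (by
      intro x hx
      rw [hX] at hx
      exact absurd hx (Set.notMem_empty x))
    simp only [tq, map_zero, zero_mul, Finset.sum_const_zero, map_one, sub_self, zero_add] at h1
    have : Subsingleton S := subsingleton_of_zero_eq_one h1.symm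
    exact Subsingleton.elim _ _
  have hch : ∃ x₀ : ℕ → (ℕ → ℕ → K) × (ℕ → ℕ → K), ∀ i ∈ L, x₀ i ∈ X i := by
    classical
    refine ⟨fun i => if h : i ∈ L then (hne i h).some else (fun _ _ => 0, fun _ _ => 0), ?_⟩
    intro i hi
    simp only [hi, dif_pos]
    exact (hne i hi).some_mem
  obtain ⟨x₀, hx₀⟩ := hch
  -- the induction
  have key : ∀ (n : ℕ) (m : ℕ → ℕ), (L.toFinset.filter fun i => m i = 0).card = n →
      (∀ i ∈ L, m i = 0 ∨ m i = 1 ∨ m i = 2) →
      (∀ x : ℕ → (ℕ → ℕ → K) × (ℕ → ℕ → K), (∀ i ∈ L, x i ∈ X i) →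
          mv nQ nB m (fun i => (x₀ i).1) (fun i => (x i).1) l E L lam U =
            mv nQ' nB' m (fun i => (x₀ i).2) (fun i => (x i).2) l' E' L' lam' U') →
      mv nQ nB m (fun i q b => κ ((x₀ i).1 q b)) (fun i => (xh i).1) (fun i b => κ (l i b))
          (fun i b j q => κ (E i b j q)) L (κ lam) (fun i q => κ (U i q)) =
        mv nQ' nB' m (fun i q b => κ ((x₀ i).2 q b)) (fun i => (xh i).2) (fun i b => κ (l' i b))
          (fun i b j q => κ (E' i b j q)) L' (κ lam') (fun i q => κ (U' i q)) := by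
    intro n
    induction n using Nat.strong_induction_on with
    | _ n ih =>
    intro m hn hm hH
    by_cases hz : ∃ k ∈ L, m k = 0
    · -- a full child
      obtain ⟨k, hkL, hk⟩ := hz
      have hkL' : k ∈ L' := hperm.mem_iff.1 hkL
      have hcard : ∀ v : ℕ, v ≠ 0 →
          (L.toFinset.filter fun i => Function.update m k v i = 0).card < n := by
        intro v hv
        rw [← hn]
        refine Finset.card_lt_card ?_
        rw [Finset.ssubset_iff_of_subset]
        · refine ⟨k, ?_, ?_⟩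
          · simp [hkL, hk]
          · simp [hv]
        · intro j hj
          rw [Finset.mem_filter] at hj ⊢
          refine ⟨hj.1, ?_⟩
          by_cases hjk : j = k
          · rw [hjk]; exact hk
          · have := hj.2
            rwa [Function.update_of_ne hjk] at this
      have hmarks : ∀ v : ℕ, (v = 1 ∨ v = 2) → ∀ i ∈ L, Function.update m k v i = 0 ∨
          Function.update m k v i = 1 ∨ Function.update m k v i = 2 := by
        intro v hv i hi
        by_cases hik : i = k
        · subst hik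
          rw [Function.update_self]
          exact Or.inr hv
        · rw [Function.update_of_ne hik]
          exact hm i hi
      have hH1 : ∀ x : ℕ → (ℕ → ℕ → K) × (ℕ → ℕ → K), (∀ i ∈ L, x i ∈ X i) →
          mv nQ nB (Function.update m k 1) (fun i => (x₀ i).1) (fun i => (x i).1) l E L lam U =
            mv nQ' nB' (Function.update m k 1) (fun i => (x₀ i).2) (fun i => (x i).2) l' E' L'
              lam' U' := by
        intro x hx
        rw [mv_base nQ nB m (fun i => (x₀ i).1) (fun i => (x i).1)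
            (fun i => ((Function.update x k (x₀ k)) i).1) l E k hk L (by simp)
            (fun i hi => by simp [Function.update_of_ne hi]),
          mv_base nQ' nB' m (fun i => (x₀ i).2) (fun i => (x i).2)
            (fun i => ((Function.update x k (x₀ k)) i).2) l' E' k hk L' (by simp)
            (fun i hi => by simp [Function.update_of_ne hi])]
        refine hH _ ?_
        intro i hi
        by_cases hik : i = k
        · subst hik
          rw [Function.update_self]
          exact hx₀ i hi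
        · rw [Function.update_of_ne hik]
          exact hx i hi
      have hH2 : ∀ x : ℕ → (ℕ → ℕ → K) × (ℕ → ℕ → K), (∀ i ∈ L, x i ∈ X i) →
          mv nQ nB (Function.update m k 2) (fun i => (x₀ i).1) (fun i => (x i).1) l E L lam U =
            mv nQ' nB' (Function.update m k 2) (fun i => (x₀ i).2) (fun i => (x i).2) l' E' L'
              lam' U' := by
        intro x hx
        have h0 := hH x hx
        rw [mv_split nQ nB m _ _ l E k hk L hnd hkL,
          mv_split nQ' nB' m _ _ l' E' k hk L' hnd' hkL', hH1 x hx] at h0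
        exact add_left_cancel h0
      rw [mv_split nQ nB m _ _ _ _ k hk L hnd hkL,
        mv_split nQ' nB' m _ _ _ _ k hk L' hnd' hkL',
        ih _ (hcard 1 one_ne_zero) _ rfl (hmarks 1 (Or.inl rfl)) hH1,
        ih _ (hcard 2 two_ne_zero) _ rfl (hmarks 2 (Or.inr rfl)) hH2]
    · -- no full child
      have hm' : ∀ i ∈ L, m i = 1 ∨ m i = 2 := by
        intro i hi
        rcases hm i hi with h | h
        · exact absurd ⟨i, hi, h⟩ hz
        · exact h
      have hmL' : ∀ i ∈ L', m i = 1 ∨ m i = 2 := fun i hi => hm' i (hperm.mem_iff.2 hi)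
      by_cases h2 : ∃ i ∈ L, m i = 2
      · -- products
        have h2' : ∃ i ∈ L', m i = 2 := by
          obtain ⟨i, hi, h⟩ := h2
          exact ⟨i, hperm.mem_iff.1 hi, h⟩
        obtain ⟨r, c, hrc⟩ := hPRF K nQ nB L hnd m (fun i => (x₀ i).1) l E lam U hE hm' h2
        obtain ⟨r', c', hrc'⟩ := hPRF K nQ' nB' L' hnd' m (fun i => (x₀ i).2) l' E' lam' U' hE'
          hmL' h2'
        rw [hrc S κ (fun i => (xh i).1), hrc' S κ (fun i => (xh i).2)]
        have hmem : ∀ i ∈ L.filter (fun i => m i = 2), i ∈ L := fun i hi => (List.mem_filter.1 hi).1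
        refine hPRM K S ((ℕ → ℕ → K) × (ℕ → ℕ → K)) κ hR hnc (L.filter fun i => m i = 2)
          (L'.filter fun i => m i = 2) (hnd.filter _) (hperm.filter _) X
          (fun i hi => hne i (hmem i hi))
          (fun i x => ∑ q ∈ range nQ, ∑ b ∈ range nB,
            r i q * (x.1 q b - (x₀ i).1 q b) * c i b)
          (fun i x => ∑ q ∈ range nQ', ∑ b ∈ range nB',
            r' i q * (x.2 q b - (x₀ i).2 q b) * c' i b) _ _ ?_ ?_ ?_
        · intro i hi p q p' q' hpq
          exact transfer κ nQ nB nQ' nB' (X i) (fun x => x.1) (fun x => x.2) (xh i).1 (xh i).2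
            (hTT i (hmem i hi)) (r i) (c i) (r' i) (c' i) (x₀ i).1 (x₀ i).2 p q p' q' hpq
        · intro i hi p q p' q' hpq
          exact transfer κ nQ nB nQ nB (X i) (fun x => x.1) (fun x => x.1) (xh i).1 (xh i).1
            (hTS i (hmem i hi)) (r i) (c i) (r i) (c i) (x₀ i).1 (x₀ i).1 p q p' q' hpq
        · intro x hx
          classical
          have hK := hrc K (RingHom.id K)
            (fun i => (if i ∈ L.filter (fun i => m i = 2) then x i else x₀ i).1)
          have hK' := hrc' K (RingHom.id K)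
            (fun i => (if i ∈ L.filter (fun i => m i = 2) then x i else x₀ i).2)
          simp only [RingHom.id_apply] at hK hK'
          have h0 := hH (fun i => if i ∈ L.filter (fun i => m i = 2) then x i else x₀ i) (by
            intro i hi
            by_cases h : i ∈ L.filter (fun i => m i = 2)
            · rw [if_pos h]; exact hx i h
            · rw [if_neg h]; exact hx₀ i hi)
          have e1 : ((L.filter fun i => m i = 2).map fun i =>
              ∑ q ∈ range nQ, ∑ b ∈ range nB,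
                r i q * ((x i).1 q b - (x₀ i).1 q b) * c i b) =
              ((L.filter fun i => m i = 2).map fun i =>
              ∑ q ∈ range nQ, ∑ b ∈ range nB,
                r i q * ((if i ∈ L.filter (fun i => m i = 2) then x i else x₀ i).1 q b -
                  (x₀ i).1 q b) * c i b) := by
            refine List.map_congr_left fun i hi => ?_
            simp only [hi, if_true]
          have e2 : ((L'.filter fun i => m i = 2).map fun i =>
              ∑ q ∈ range nQ', ∑ b ∈ range nB',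
                r' i q * ((x i).2 q b - (x₀ i).2 q b) * c' i b) =
              ((L'.filter fun i => m i = 2).map fun i =>
              ∑ q ∈ range nQ', ∑ b ∈ range nB',
                r' i q * ((if i ∈ L.filter (fun i => m i = 2) then x i else x₀ i).2 q b -
                  (x₀ i).2 q b) * c' i b) := by
            refine List.map_congr_left fun i hi => ?_
            have hi' : i ∈ L.filter (fun i => m i = 2) := ((hperm.filter _).mem_iff).2 hi
            simp only [hi', if_true]
          show ((L.filter fun i => m i = 2).map fun i =>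
              ∑ q ∈ range nQ, ∑ b ∈ range nB,
                r i q * ((x i).1 q b - (x₀ i).1 q b) * c i b).prod =
              ((L'.filter fun i => m i = 2).map fun i =>
              ∑ q ∈ range nQ', ∑ b ∈ range nB',
                r' i q * ((x i).2 q b - (x₀ i).2 q b) * c' i b).prod
          rw [e1, e2, ← hK, ← hK']
          exact h0
      · -- constants
        have h1 : ∀ i ∈ L, m i = 1 := by
          intro i hi
          rcases hm' i hi with h | h
          · exact h
          · exact absurd ⟨i, hi, h⟩ h2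
        have h1' : ∀ i ∈ L', m i = 1 := fun i hi => h1 i (hperm.mem_iff.2 hi)
        rw [PRFM.mv_const nQ nB m (fun i => (x₀ i).1) l E S κ (fun i => (xh i).1) L h1 lam U,
          PRFM.mv_const nQ' nB' m (fun i => (x₀ i).2) l' E' S κ (fun i => (xh i).2) L' h1' lam' U',
          hH x₀ hx₀]
  have hfin := key _ (fun _ => 0) rfl (fun i _ => Or.inl rfl) (by
    intro x hx
    rw [mv_zero nQ nB (fun _ => 0) _ _ l E L (fun _ _ => rfl),
      mv_zero nQ' nB' (fun _ => 0) _ _ l' E' L' (fun _ _ => rfl)]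
    exact hval x hx)
  rw [mv_zero nQ nB (fun _ => 0) _ _ _ _ L (fun _ _ => rfl),
    mv_zero nQ' nB' (fun _ => 0) _ _ _ _ L' (fun _ _ => rfl)] at hfin
  exact hfin

end Pool.Agent.Lib.MP_39893a_lc.OV.NARCM
end
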