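import Pool.Agent.Lib.MP_39893a_lc.ORD.SEM
import Pool.Agent.Lib.MP_39893a_lc.OV.Spec

/-!
# Primitive recursion of the check of certificates (MP_39893a_lc, OV, module PCHI)
-/

set_option autoImplicit false

namespace Pool.Agent.Lib.MP_39893a_lc.OV.PCHIM

open Pool.Agent.Lib.MP_39893a_lc.PRIMVECM (pfs sP sd snB sn1 sA sT srk)
open Pool.Agent.Lib.MP_39893a_lc.PRIMCHKM (pforall pdig ppow)
open ORD ORD.PVECM
open ORD.PCHKM (po pzero pcsub papLF pblk pVL sNN phyp1 pimp pbit)

variable {γ : Type} [Primcodable γ]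

set_option maxHeartbeats 400000

theorem pprf (h : SpecPPRI) {N : γ → ℕ} {H : γ → List CP} {p : γ → CP} {L : γ → List LineI}
    (hN : Primrec N) (hH : Primrec H) (hp : Primrec p) (hL : Primrec L) :
    PrimrecPred fun g => PrfI (N g) (H g) (p g) (L g) := by
  have h2 := h
  have h3 := h2.comp (hN.pair (hH.pair (hp.pair hL)))
  exact h3

variable {s : γ → Sys} {c : γ → CertI}

theorem cK (hc : Primrec c) : Primrec fun g => (c g).K :=
  Primrec.list_length.comp (Primrec.fst.comp hc)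

theorem cbits {k : γ → ℕ} (hc : Primrec c) (hk : Primrec k) :
    Primrec fun g => (c g).bits (k g) :=
  Primrec.fst.comp ((Primrec.list_getD ([], [])).comp (Primrec.fst.comp hc) hk)

theorem cforms {k : γ → ℕ} (hc : Primrec c) (hk : Primrec k) :
    Primrec fun g => (c g).forms (k g) :=
  Primrec.snd.comp ((Primrec.list_getD ([], [])).comp (Primrec.fst.comp hc) hk)

theorem ctgt {a z : γ → ℕ} (hc : Primrec c) (ha : Primrec a) (hz : Primrec z) :
    Primrec fun g => (c g).tgt (a g) (z g) :=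
  (Primrec.list_getD 0).comp (Primrec.fst.comp (Primrec.snd.comp hc))
    (Primrec₂.natPair.comp ha hz)

theorem cprf {a z l : γ → ℕ} (hc : Primrec c) (ha : Primrec a) (hz : Primrec z)
    (hl : Primrec l) : Primrec fun g => (c g).prf (a g) (z g) (l g) :=
  (Primrec.list_getD []).comp (Primrec.fst.comp (Primrec.snd.comp (Primrec.snd.comp hc)))
    (Primrec₂.natPair.comp ha (Primrec₂.natPair.comp hz hl))

theorem cfin {k : γ → ℕ} (hc : Primrec c) (hk : Primrec k) :
    Primrec fun g => (c g).fin (k g) :=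
  (Primrec.list_getD []).comp (Primrec.snd.comp (Primrec.snd.comp (Primrec.snd.comp hc))) hk

theorem phyps (h : SpecPPRF) {a z : γ → ℕ} (hs : Primrec s) (hc : Primrec c) (ha : Primrec a)
    (hz : Primrec z) : Primrec fun g => hypsI (s g) (c g) (a g) (z g) := by
  have F : Primrec (Prod.fst : γ × ℕ → γ) := Primrec.fst
  have S : Primrec (Prod.snd : γ × ℕ → ℕ) := Primrec.snd
  have hd : Primrec fun p : γ × ℕ => dig (c p.1).K (z p.1) p.2 :=
    pdig ((cK hc).comp F) (hz.comp F) S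
  refine Primrec.list_flatMap (Primrec.list_range.comp (srk hs ha)) ?_
  exact phyp1 h ((sNN hs).comp F) S (cbits (hc.comp F) hd) (cforms (hc.comp F) hd)

theorem pres (h1 : SpecPOPS) (h : SpecPPRF) {a z : γ → ℕ} (hs : Primrec s) (hc : Primrec c)
    (ha : Primrec a) (hz : Primrec z) : Primrec fun g => resI (s g) (c g) (a g) (z g) := by
  have F : Primrec (Prod.fst : γ × ℕ → γ) := Primrec.fst
  have S : Primrec (Prod.snd : γ × ℕ → ℕ) := Primrec.snd
  have hd : Primrec fun p : γ × ℕ => dig (c p.1).K (z p.1) p.2 :=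
    pdig ((cK hc).comp F) (hz.comp F) S
  have hβ : Primrec fun g => (List.range ((s g).rk (a g))).map fun i =>
      (c g).bits (dig (c g).K (z g) i) :=
    Primrec.list_map (Primrec.list_range.comp (srk hs ha)) (cbits (hc.comp F) hd)
  refine pvecS (po h1) (sP hs) (Primrec.const 1) (sn1 hs) (sT hs) ha
    (pVL h (sP hs) (snB hs)) ?_
  refine Primrec.list_map (Primrec.list_range.comp (srk hs ha)) ?_
  exact pblk h ((sNN hs).comp F) S ((Primrec.list_getD []).comp (hβ.comp F) S)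

theorem pChk (h0 : SpecPPRI) (h1 : SpecPOPS) (h : SpecPPRF) (hs : Primrec s) (hc : Primrec c) :
    PrimrecPred fun g => ChkI (s g) (c g) := by
  have f1 : Primrec (Prod.fst : γ × ℕ → γ) := Primrec.fst
  have f2 : Primrec (Prod.fst : (γ × ℕ) × ℕ → γ × ℕ) := Primrec.fst
  have f3 : Primrec (Prod.fst : ((γ × ℕ) × ℕ) × ℕ → (γ × ℕ) × ℕ) := Primrec.fst
  have s1 : Primrec (Prod.snd : γ × ℕ → ℕ) := Primrec.snd
  have s2 : Primrec (Prod.snd : (γ × ℕ) × ℕ → ℕ) := Primrec.snd
  have s3 : Primrec (Prod.snd : ((γ × ℕ) × ℕ) × ℕ → ℕ) := Primrec.snd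
  have f12 : Primrec fun p : (γ × ℕ) × ℕ => p.1.1 := f1.comp f2
  have s12 : Primrec fun p : (γ × ℕ) × ℕ => p.1.2 := s1.comp f2
  have hs2 : Primrec fun p : (γ × ℕ) × ℕ => s p.1.1 := hs.comp f12
  have hc2 : Primrec fun p : (γ × ℕ) × ℕ => c p.1.1 := hc.comp f12
  have ht2 : Primrec fun p : (γ × ℕ) × ℕ => (c p.1.1).tgt p.1.2 p.2 := ctgt hc2 s12 s2
  have hr2 : Primrec fun p : (γ × ℕ) × ℕ => resI (s p.1.1) (c p.1.1) p.1.2 p.2 :=
    pres h1 h hs2 hc2 s12 s2
  refine PrimrecPred.and ?_ ?_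
  · refine pforall (pforall ((Primrec.nat_lt.comp ht2 (cK hc2)).and (PrimrecPred.and ?_ ?_)) ?_)
      (Primrec.list_length.comp (sA hs))
    · refine pforall (pimp (pbit s3) (pzero h1 (pcsub h1 ?_ ?_))) (sNN hs2)
      · exact (Primrec.list_getD (cops.nat 0)).comp (hr2.comp f3) s3
      · exact (po h1).nat.comp ((Primrec.list_getD 0).comp
          ((cbits hc2 ht2).comp f3) s3)
    · refine pforall (pprf h0 ((sNN hs2).comp f3) ((phyps h hs2 hc2 s12 s2).comp f3) (papLF h (hr2.comp f3) ?_) ?_)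
        (Primrec.list_length.comp (cforms hc2 ht2))
      · exact (Primrec.list_getD []).comp ((cforms hc2 ht2).comp f3) s3
      · exact cprf (hc2.comp f3) (s12.comp f3) (s2.comp f3) s3
    · exact ppow ((cK hc).comp f1) (srk (hs.comp f1) s1)
  · have hb : Primrec fun p : γ × ℕ => blk (NN (s p.1)) 0 ((c p.1).bits p.2) :=
      pblk h ((sNN hs).comp f1) (Primrec.const 0) (cbits (hc.comp f1) s1)
    have hs1 : Primrec fun p : γ × ℕ => s p.1 := hs.comp f1
    refine pforall (PrimrecPred.and (pzero h1 ?_) (pprf h0 ((sNN hs).comp f1) ?_ ?_ (cfin (hc.comp f1) s1))) (cK hc)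
    · exact ptarget (po h1) (sP hs1) (Primrec.const 1) (sn1 hs1) hb (Primrec.const 1)
    · exact phyp1 h ((sNN hs).comp f1) (Primrec.const 0) (cbits (hc.comp f1) s1)
        (cforms (hc.comp f1) s1)
    · exact ptarget (po h1) (sP hs1) (Primrec.const 1) (sn1 hs1) hb (Primrec.const 0)

/-- The check of certificates is primitive recursive. -/
theorem specPCHI (h0 : SpecPPRI) (h1 : ORD.SpecPOPS) (_h2 : ORD.SpecPVEC) (h3 : ORD.SpecPPRF) :
    SpecPCHI :=
  pChk h0 h1 h3 Primrec.fst Primrec.snd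

end Pool.Agent.Lib.MP_39893a_lc.OV.PCHIM
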