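import Pool.Agent.Lib.MP_39893a_lc.OV.Spec
import Pool.Agent.Lib.MP_39893a_lc.ORD.OREK
import Pool.Agent.Lib.MP_39893a_lc.ORD.SEM
import Pool.Agent.Lib.MP_39893a_lc.OV.SpecB

section
/-!
# Hive OV (MP_39893a_lc), module NOEG: finitely many forms of a set generate it
-/
set_option autoImplicit false

namespace Pool.Agent.Lib.MP_39893a_lc.OV.NOEGM

open Finset ORD ORD.NOEFM

theorem specNOEG (hnor : SpecNOR) : SpecNOEG := by
  intro N Q
  have : IsNoetherianRing E := hnor.2.2
  have hfg : (Submodule.span E (toM N '' Q)).FG := IsNoetherian.noetherian _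
  obtain ⟨S, hSQ, hS⟩ := (Submodule.fg_span_iff_fg_span_finset_subset (toM N '' Q)).1 hfg
  have hex : ∀ a : Fin (N + 1) → E, ∃ T : LF, a ∈ S → T ∈ Q ∧ toM N T = a := by
    intro a
    by_cases ha : a ∈ S
    · obtain ⟨T, hT, h⟩ := hSQ (Finset.mem_coe.2 ha)
      exact ⟨T, fun _ => ⟨hT, h⟩⟩
    · exact ⟨[], fun h => absurd h ha⟩
  choose f hf using hex
  refine ⟨S.toList.map f, ?_, ?_⟩
  · intro T hT
    obtain ⟨a, ha, rfl⟩ := List.mem_map.1 hT
    exact (hf a (Finset.mem_toList.1 ha)).1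
  · intro T hT
    have h1 : toM N T ∈ Submodule.span E (S : Set (Fin (N + 1) → E)) := by
      rw [← hS]
      exact Submodule.subset_span ⟨T, hT, rfl⟩
    have h2 : Good N (S.toList.map f) (toM N T) := by
      generalize toM N T = a0 at h1
      induction h1 using Submodule.span_induction with
      | mem a ha =>
        have ha' : a ∈ S := Finset.mem_coe.1 ha
        rw [← (hf a ha').2]
        exact Good.one (List.mem_map.2 ⟨a, Finset.mem_toList.2 ha', rfl⟩)
      | zero => exact Good.zero _ _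
      | add a b _ _ ha hb => exact ha.add hb
      | smul e a _ ha => exact ha.smul e
    obtain ⟨l, hl, hl2⟩ := h2
    refine ⟨l, hl, ?_⟩
    intro R _ φ y hy
    rw [toM_val φ y N hy, ← hl2, EV_comb φ y N hy]

end Pool.Agent.Lib.MP_39893a_lc.OV.NOEGM
end

section
/-!
# Module PPRI: the test of derivations is primitive recursive (MP_39893a_lc, hive OV)
-/
set_option autoImplicit false

namespace Pool.Agent.Lib.MP_39893a_lc.OV.PPRIM

open ORD ORD.PPRFM

variable {γ : Type} [Primcodable γ]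

theorem pcbr (H : SpecPOPS) {f g : γ → CP} (hf : Primrec f) (hg : Primrec g) :
    Primrec fun x => cbr (f x) (g x) := ccsub H (cmul H hf hg) (cmul H hg hf)

theorem pinvV {f : γ → ℕ} {g : γ → CP} (hf : Primrec f) (hg : Primrec g) :
    Primrec fun x => invV (f x) (g x) :=
  (Primrec.const 0).pair (Primrec.nat_add.comp hf (Primrec.encode.comp hg))

variable {l : γ → LineI}

theorem lp (hl : Primrec l) : Primrec fun x => (l x).p := Primrec.fst.comp hl

theorem l2 (hl : Primrec l) : Primrec fun x => (l x).2 := Primrec.snd.comp hl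

theorem lkind (hl : Primrec l) : Primrec fun x => (l x).kind := Primrec.fst.comp (l2 hl)

theorem l3 (hl : Primrec l) : Primrec fun x => (l x).2.2 := Primrec.snd.comp (l2 hl)

theorem lcb (hl : Primrec l) : Primrec fun x => (l x).cb := Primrec.fst.comp (l3 hl)

theorem l4 (hl : Primrec l) : Primrec fun x => (l x).2.2.2 := Primrec.snd.comp (l3 hl)

theorem lg (hl : Primrec l) {i : γ → ℕ} (hi : Primrec i) : Primrec fun x => (l x).g (i x) :=
  pgetD (cops.nat 0) (Primrec.fst.comp (l4 hl)) hi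

theorem lrf (hl : Primrec l) {i : γ → ℕ} (hi : Primrec i) : Primrec fun x => (l x).rf (i x) :=
  pgetD 0 (Primrec.snd.comp (l4 hl)) hi

section

variable (H : SpecPOPS) {N : γ → ℕ} {av : γ → List CP} (hN : Primrec N) (hav : Primrec av)
  (hl : Primrec l)

include H hl in
theorem pprems : Primrec fun x => (l x).prems := by
  have g : ∀ i : ℕ, Primrec fun x => (l x).g i := fun i => lg hl (Primrec.const i)
  have c1 : Primrec fun _ : γ => cops.nat 1 := Primrec.const _
  have hnil : Primrec fun _ : γ => ([] : List CP) := Primrec.const _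
  have h2 : Primrec fun x => [cbr ((l x).g 0) ((l x).g 3), cbr ((l x).g 2) ((l x).g 3),
      cbr ((l x).g 2) ((l x).g 1),
      csub (cops.mul (cbr ((l x).g 2) ((l x).g 4)) ((l x).g 6)) (cops.nat 1),
      csub (cops.mul (cbr ((l x).g 3) ((l x).g 5)) ((l x).g 7)) (cops.nat 1)] :=
    Primrec.list_cons.comp (pcbr H (g 0) (g 3)) (Primrec.list_cons.comp (pcbr H (g 2) (g 3))
      (Primrec.list_cons.comp (pcbr H (g 2) (g 1))
        (Primrec.list_cons.comp (ccsub H (cmul H (pcbr H (g 2) (g 4)) (g 6)) c1)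
          (Primrec.list_cons.comp (ccsub H (cmul H (pcbr H (g 3) (g 5)) (g 7)) c1) hnil))))
  have h3 : Primrec fun x => [cbr ((l x).g 0) ((l x).g 2), cbr ((l x).g 0) ((l x).g 3),
      csub (cops.mul (cbr ((l x).g 2) ((l x).g 3)) ((l x).g 4)) (cops.nat 1)] :=
    Primrec.list_cons.comp (pcbr H (g 0) (g 2)) (Primrec.list_cons.comp (pcbr H (g 0) (g 3))
      (Primrec.list_cons.comp (ccsub H (cmul H (pcbr H (g 2) (g 3)) (g 4)) c1) hnil))
  exact Primrec.ite (Primrec.eq.comp (lkind hl) (Primrec.const 2)) h2 h3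

include H hav hl in
theorem pcomb : Primrec fun x => (l x).cb.foldr (fun q s =>
    cops.add (cops.mul (cops.mul q.1 ((av x).getD q.2.1 (cops.nat 0))) q.2.2) s)
      (cops.nat 0) := by
  have q : Primrec fun p : γ × (CP × ℕ × CP) × CP => p.2.1 := Primrec.fst.comp Primrec.snd
  have q1 : Primrec fun p : γ × (CP × ℕ × CP) × CP => p.2.1.1 := Primrec.fst.comp q
  have q2 : Primrec fun p : γ × (CP × ℕ × CP) × CP => p.2.1.2 := Primrec.snd.comp q
  have q21 : Primrec fun p : γ × (CP × ℕ × CP) × CP => p.2.1.2.1 := Primrec.fst.comp q2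
  have q22 : Primrec fun p : γ × (CP × ℕ × CP) × CP => p.2.1.2.2 := Primrec.snd.comp q2
  have hs : Primrec fun p : γ × (CP × ℕ × CP) × CP => p.2.2 := Primrec.snd.comp Primrec.snd
  have ha : Primrec fun p : γ × (CP × ℕ × CP) × CP => av p.1 := hav.comp Primrec.fst
  have h : Primrec₂ fun (x : γ) (p : (CP × ℕ × CP) × CP) =>
      cops.add (cops.mul (cops.mul p.1.1 ((av x).getD p.1.2.1 (cops.nat 0))) p.1.2.2) p.2 :=
    cadd H (cmul H (cmul H q1 (pgetD (cops.nat 0) ha q21)) q22) hs
  exact Primrec.list_foldr (lcb hl) (Primrec.const (cops.nat 0)) h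

include hav hl in
theorem pcbRef : PrimrecPred fun x => ∀ q ∈ (l x).cb, q.2.1 < (av x).length := by
  have h : PrimrecPred fun p : γ × (CP × ℕ × CP) => p.2.2.1 < (av p.1).length :=
    Primrec.nat_lt.comp (Primrec.fst.comp (Primrec.snd.comp Primrec.snd))
      (Primrec.list_length.comp (hav.comp Primrec.fst))
  exact pforallList (Q := fun x (q : CP × ℕ × CP) => q.2.1 < (av x).length) h (lcb hl)

include H hN hl in
theorem pinv : PrimrecPred fun x => ((l x).g 0).const ∧ ¬ ((l x).g 0).isZero ∧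
    ((csub (l x).p (csub (cops.mul ((l x).g 0) (varC (invV (N x) ((l x).g 0))))
        (cops.nat 1))).isZero ∨
      (csub (l x).p (csub (cops.mul (varC (invV (N x) ((l x).g 0))) ((l x).g 0))
        (cops.nat 1))).isZero) := by
  have g : Primrec fun x => (l x).g 0 := lg hl (Primrec.const 0)
  have v : Primrec fun x => varC (invV (N x) ((l x).g 0)) := cvar H (pinvV hN g)
  have c1 : Primrec fun _ : γ => cops.nat 1 := Primrec.const _
  exact (cconst H g).and ((cisZero H g).not.and
    ((cisZero H (ccsub H (lp hl) (ccsub H (cmul H g v) c1))).or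
      (cisZero H (ccsub H (lp hl) (ccsub H (cmul H v g) c1)))))

include H hav hl in
theorem prule : PrimrecPred fun x =>
    (∀ i < (l x).prems.length, (l x).rf i < (av x).length ∧
      (csub ((l x).prems.getD i (cops.nat 0)) ((av x).getD ((l x).rf i) (cops.nat 0))).isZero) ∧
    (csub (l x).p (cbr ((l x).g 0) ((l x).g 1))).isZero := by
  have hl1 : Primrec fun p : γ × ℕ => l p.1 := hl.comp Primrec.fst
  have ha1 : Primrec fun p : γ × ℕ => av p.1 := hav.comp Primrec.fst
  have hr : Primrec fun p : γ × ℕ => (l p.1).rf p.2 := lrf hl1 Primrec.snd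
  have h : PrimrecPred fun p : γ × ℕ => (l p.1).rf p.2 < (av p.1).length ∧
      (csub ((l p.1).prems.getD p.2 (cops.nat 0))
        ((av p.1).getD ((l p.1).rf p.2) (cops.nat 0))).isZero :=
    (Primrec.nat_lt.comp hr (Primrec.list_length.comp ha1)).and
      (cisZero H (ccsub H (pgetD (cops.nat 0) (pprems H hl1) Primrec.snd)
        (pgetD (cops.nat 0) ha1 hr)))
  have h' := pforall (Q := fun x i => (l x).rf i < (av x).length ∧
      (csub ((l x).prems.getD i (cops.nat 0))
        ((av x).getD ((l x).rf i) (cops.nat 0))).isZero) h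
      (Primrec.list_length.comp (pprems H hl))
  exact h'.and (cisZero H (ccsub H (lp hl)
    (pcbr H (lg hl (Primrec.const 0)) (lg hl (Primrec.const 1)))))

include H hN hav hl in
theorem pOk : PrimrecPred fun x => (l x).Ok (N x) (av x) := by
  have hk0 : PrimrecPred fun x => (l x).kind = 0 :=
    Primrec.eq.comp (lkind hl) (Primrec.const 0)
  have hk1 : PrimrecPred fun x => (l x).kind = 1 :=
    Primrec.eq.comp (lkind hl) (Primrec.const 1)
  exact pite hk0
    ((pcbRef hav hl).and (cisZero H (ccsub H (lp hl) (pcomb H hav hl))))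
    (pite hk1 (pinv H hN hl) (prule H hav hl))

end

theorem pPrf (H : SpecPOPS) {N : γ → ℕ} {hy : γ → List CP} {p : γ → CP} {L : γ → List LineI}
    (hN : Primrec N) (hhy : Primrec hy) (hp : Primrec p) (hL : Primrec L) :
    PrimrecPred fun x => PrfI (N x) (hy x) (p x) (L x) := by
  have h1 : PrimrecPred fun x => 0 < (L x).length :=
    Primrec.nat_lt.comp (Primrec.const 0) (Primrec.list_length.comp hL)
  have h3 : PrimrecPred fun x => ∀ l ∈ (L x).head?, (csub (p x) l.p).isZero := by
    have h : PrimrecPred fun q : γ × LineI => (csub (p q.1) q.2.p).isZero :=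
      cisZero H (ccsub H (hp.comp Primrec.fst) (lp Primrec.snd))
    exact pforallOpt (Q := fun x (l : LineI) => (csub (p x) l.p).isZero) h
      (Primrec.list_head?.comp hL)
  have h2 : PrimrecPred fun x => ∀ i < (L x).length, ∀ l ∈ ((L x).drop i).head?,
      l.Ok (N x) (hy x ++ ((L x).drop (i + 1)).map LineI.p) := by
    have hx1 : Primrec fun q : (γ × ℕ) × LineI => q.1.1 := Primrec.fst.comp Primrec.fst
    have hi1 : Primrec fun q : (γ × ℕ) × LineI => q.1.2 := Primrec.snd.comp Primrec.fst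
    have hd : Primrec fun q : (γ × ℕ) × LineI => (L q.1.1).drop (q.1.2 + 1) :=
      Primrec.list_drop.comp (Primrec.succ.comp hi1) (hL.comp hx1)
    have hm : Primrec fun q : (γ × ℕ) × LineI =>
        ((L q.1.1).drop (q.1.2 + 1)).map LineI.p :=
      Primrec.list_map hd ((lp Primrec.id).comp₂ Primrec₂.right)
    have hav : Primrec fun q : (γ × ℕ) × LineI =>
        hy q.1.1 ++ ((L q.1.1).drop (q.1.2 + 1)).map LineI.p :=
      Primrec.list_append.comp (hhy.comp hx1) hm
    have h : PrimrecPred fun q : (γ × ℕ) × LineI =>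
        q.2.Ok (N q.1.1) (hy q.1.1 ++ ((L q.1.1).drop (q.1.2 + 1)).map LineI.p) :=
      pOk H (hN.comp hx1) hav Primrec.snd
    have hh : Primrec fun q : γ × ℕ => ((L q.1).drop q.2).head? :=
      Primrec.list_head?.comp (Primrec.list_drop.comp Primrec.snd (hL.comp Primrec.fst))
    have h' : PrimrecPred fun q : γ × ℕ => ∀ l ∈ ((L q.1).drop q.2).head?,
        l.Ok (N q.1) (hy q.1 ++ ((L q.1).drop (q.2 + 1)).map LineI.p) :=
      pforallOpt (Q := fun (q : γ × ℕ) (l : LineI) =>
        l.Ok (N q.1) (hy q.1 ++ ((L q.1).drop (q.2 + 1)).map LineI.p)) h hh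
    exact pforall (Q := fun x i => ∀ l ∈ ((L x).drop i).head?,
      l.Ok (N x) (hy x ++ ((L x).drop (i + 1)).map LineI.p)) h' (Primrec.list_length.comp hL)
  exact h1.and (h2.and h3)

/-- Module PPRI. -/
theorem specPPRI (H : ORD.SpecPOPS) : SpecPPRI :=
  pPrf H Primrec.fst (Primrec.fst.comp Primrec.snd)
    (Primrec.fst.comp (Primrec.snd.comp Primrec.snd))
    (Primrec.snd.comp (Primrec.snd.comp Primrec.snd))

end Pool.Agent.Lib.MP_39893a_lc.OV.PPRIM
end

section
/-! Module PRM of hive OV: products in different orders. -/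
set_option autoImplicit false

namespace Pool.Agent.Lib.MP_39893a_lc.OV.PRMM

open Pool.Agent.Lib.MP_39893a_lc.OV

namespace Aux

/-- A product with only one factor different from `1`. -/
theorem prod_one {M : Type} [Monoid M] (i : ℕ) (f : ℕ → M) :
    ∀ L : List ℕ, L.Nodup → i ∈ L → (∀ k ∈ L, k ≠ i → f k = 1) → (L.map f).prod = f i := by
  intro L
  induction L with
  | nil => intro _ h; simp at h
  | cons k t ih =>
    intro hn hi hf
    rw [List.nodup_cons] at hn
    rw [List.map_cons, List.prod_cons]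
    by_cases hk : k = i
    · subst hk
      have : (t.map f).prod = 1 := by
        apply List.prod_eq_one
        intro a ha
        rw [List.mem_map] at ha
        obtain ⟨b, hb, rfl⟩ := ha
        exact hf b (List.mem_cons_of_mem _ hb) (fun h => hn.1 (h ▸ hb))
      rw [this, mul_one]
    · have hi' : i ∈ t := by
        rcases List.mem_cons.1 hi with h | h
        · exact absurd h.symm hk
        · exact h
      rw [hf k List.mem_cons_self hk, one_mul]
      exact ih hn.2 hi' fun a ha hai => hf a (List.mem_cons_of_mem _ ha) hai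

theorem mem_of_pair {i j : ℕ} {L : List ℕ} (h : List.Sublist [i, j] L) : i ∈ L ∧ j ∈ L :=
  ⟨h.subset (by simp), h.subset (by simp)⟩

theorem ne_of_pair {i j : ℕ} {L : List ℕ} (hn : L.Nodup) (h : List.Sublist [i, j] L) : i ≠ j := by
  have := h.nodup hn
  simpa using this

/-- A product with only two factors different from `1`. -/
theorem prod_two {M : Type} [Monoid M] (i j : ℕ) (f : ℕ → M) :
    ∀ L : List ℕ, L.Nodup → List.Sublist [i, j] L → (∀ k ∈ L, k ≠ i → k ≠ j → f k = 1) →
      (L.map f).prod = f i * f j := by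
  intro L
  induction L with
  | nil => intro _ h; exact absurd (mem_of_pair h).1 (by simp)
  | cons k t ih =>
    intro hn h hf
    have hn' := hn
    rw [List.nodup_cons] at hn
    rw [List.map_cons, List.prod_cons]
    cases h with
    | cons _ h' =>
      have hm := mem_of_pair h'
      have hki : k ≠ i := fun e => hn.1 (e ▸ hm.1)
      have hkj : k ≠ j := fun e => hn.1 (e ▸ hm.2)
      rw [hf k List.mem_cons_self hki hkj, one_mul]
      exact ih hn.2 h' fun a ha h1 h2 => hf a (List.mem_cons_of_mem _ ha) h1 h2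
    | cons_cons _ h' =>
      have hj : j ∈ t := by simpa using h'
      congr 1
      apply prod_one j f t hn.2 hj
      intro a ha haj
      exact hf a (List.mem_cons_of_mem _ ha) (fun e => hn.1 (e ▸ ha)) haj

/-- Permuted products are equal if all pairs in different order commute. -/
theorem prod_perm {M : Type} [Monoid M] (f : ℕ → M) :
    ∀ L L' : List ℕ, L.Nodup → L.Perm L' →
      (∀ a b, List.Sublist [a, b] L → List.Sublist [b, a] L' → f a * f b = f b * f a) →
      (L.map f).prod = (L'.map f).prod := by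
  intro L
  induction L with
  | nil =>
    intro L' _ h _
    rw [h.symm.eq_nil]
  | cons i t ih =>
    intro L' hn hp hc
    have hi : i ∈ L' := hp.subset List.mem_cons_self
    obtain ⟨u, v, rfl⟩ := List.append_of_mem hi
    have hn' := hn
    rw [List.nodup_cons] at hn
    have hp' : t.Perm (u ++ v) := by
      have h1 : (i :: t).Perm (i :: (u ++ v)) := hp.trans List.perm_middle
      exact h1.cons_inv
    have hcu : ∀ j ∈ u, Commute (f i) (f j) := by
      intro j hj
      have hjt : j ∈ t := hp'.symm.subset (List.mem_append_left _ hj)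
      apply hc i j
      · exact List.Sublist.cons_cons _ (by simpa using hjt)
      · have h1 : List.Sublist [j] u := by simpa using hj
        have h2 : List.Sublist [i] (i :: v) := by simp
        exact h1.append h2
    have hcp : Commute (f i) (u.map f).prod := by
      apply Commute.list_prod_right
      intro x hx
      rw [List.mem_map] at hx
      obtain ⟨j, hj, rfl⟩ := hx
      exact hcu j hj
    have hI := ih (u ++ v) hn.2 hp' (by
      intro a b h1 h2
      apply hc a b (List.Sublist.cons _ h1)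
      exact h2.trans ((List.Sublist.refl u).append (List.sublist_cons_self i v)))
    rw [List.map_cons, List.prod_cons, hI, List.map_append, List.prod_append, List.map_append,
      List.prod_append, List.map_cons, List.prod_cons, ← mul_assoc, hcp.eq, mul_assoc]

/-- Telescoping. -/
theorem tele {K : Type} [DivisionRing K] (a : ℕ → K) :
    ∀ L : List ℕ, L.Nodup → (∀ i ∈ L, a i ≠ 0) → ∀ c : K, c ≠ 0 →
      ∃ p : ℕ → K, (∀ i ∈ L, p i ≠ 0) ∧ ∀ (R : Type) [Ring R] (κ : K →+* R) (A : ℕ → R),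
        κ c * (L.map A).prod =
          (L.map fun i => κ (p i) * A i * κ ((p i * a i)⁻¹)).prod * κ (c * (L.map a).prod) := by
  intro L
  induction L with
  | nil =>
    intro _ _ c _
    exact ⟨fun _ => 1, fun i h => absurd h (by simp), fun R _ κ A => by simp⟩
  | cons i t ih =>
    intro hn ha c hc
    rw [List.nodup_cons] at hn
    have hai : a i ≠ 0 := ha i List.mem_cons_self
    obtain ⟨p, hp, h⟩ := ih hn.2 (fun j hj => ha j (List.mem_cons_of_mem _ hj)) (c * a i)
      (mul_ne_zero hc hai)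
    refine ⟨fun j => if j = i then c else p j, ?_, ?_⟩
    · intro j hj
      by_cases hji : j = i
      · simp [hji, hc]
      · simp only [hji, if_false]
        rcases List.mem_cons.1 hj with h' | h'
        · exact absurd h' hji
        · exact hp j h'
    · intro R _ κ A
      have h1 := h R κ A
      have h2 : (t.map fun j => κ (if j = i then c else p j) * A j *
          κ (((if j = i then c else p j) * a j)⁻¹)) =
          t.map fun j => κ (p j) * A j * κ ((p j * a j)⁻¹) := by
        apply List.map_congr_left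
        intro j hj
        have : j ≠ i := fun e => hn.1 (e ▸ hj)
        simp [this]
      rw [List.map_cons, List.prod_cons, List.map_cons, List.prod_cons, h2, List.map_cons,
        List.prod_cons, ← mul_assoc c (a i), mul_assoc _ _ (κ _), ← h1, map_mul]
      simp only [if_true]
      have h3 : κ ((c * a i)⁻¹) * (κ c * κ (a i)) = 1 := by
        rw [← map_mul, ← map_mul, inv_mul_cancel₀ (mul_ne_zero hc hai), map_one]
      rw [mul_assoc (κ c * A i), ← mul_assoc (κ ((c * a i)⁻¹)), h3, one_mul, mul_assoc]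

end Aux

open Aux

theorem specPRM : SpecPRM := by
  intro K S Y _ _ κ hR hh L L' hn hp X hX α α' A A' H1 H2 H3
  classical
  obtain ⟨hR1, hR2⟩ := hR
  obtain ⟨h₁, h₂, hh⟩ := hh
  by_cases h0 : ∃ i ∈ L, ∀ x ∈ X i, α i x = 0
  · -- both products vanish
    obtain ⟨i, hi, h0⟩ := h0
    have hAi : A i = 0 := by
      have := H1 i hi 1 1 0 0 (fun x hx => by rw [h0 x hx]; simp)
      simpa using this
    have hL : (L.map A).prod = 0 := by
      apply List.prod_eq_zero
      rw [List.mem_map]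
      exact ⟨i, hi, hAi⟩
    have hj : ∃ j ∈ L, ∀ x ∈ X j, α' j x = 0 := by
      by_contra hcon
      push Not at hcon
      have hy : ∀ j, ∃ x, j ∈ L → x ∈ X j ∧ α' j x ≠ 0 := by
        intro j
        by_cases hj : j ∈ L
        · obtain ⟨x, hx, hx'⟩ := hcon j hj
          exact ⟨x, fun _ => ⟨hx, hx'⟩⟩
        · obtain ⟨x, -⟩ := hX i hi
          exact ⟨x, fun h => absurd h hj⟩
      choose y hy using hy
      have h3 := H3 y (fun j hj => (hy j hj).1)
      have hz : (L.map fun j => α j (y j)).prod = 0 := by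
        apply List.prod_eq_zero
        rw [List.mem_map]
        exact ⟨i, hi, h0 _ (hy i hi).1⟩
      rw [hz] at h3
      have h4 := List.prod_eq_zero_iff.1 h3.symm
      rw [List.mem_map] at h4
      obtain ⟨j, hj, hj'⟩ := h4
      exact (hy j (hp.symm.subset hj)).2 hj'
    obtain ⟨j, hj, hj0⟩ := hj
    have hA'j : A' j = 0 := by
      have := H1 j hj 0 0 1 1 (fun x hx => by rw [hj0 x hx]; simp)
      simpa using this.symm
    have hL' : (L'.map A').prod = 0 := by
      apply List.prod_eq_zero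
      rw [List.mem_map]
      exact ⟨j, hp.subset hj, hA'j⟩
    rw [hL, hL']
  · push Not at h0
    by_cases hLe : L = []
    · subst hLe
      rw [hp.symm.eq_nil]
      rfl
    obtain ⟨i₀, hi₀⟩ := List.exists_mem_of_ne_nil L hLe
    have hy : ∀ j, ∃ x, j ∈ L → x ∈ X j ∧ α j x ≠ 0 := by
      intro j
      by_cases hj : j ∈ L
      · obtain ⟨x, hx, hx'⟩ := h0 j hj
        exact ⟨x, fun _ => ⟨hx, hx'⟩⟩
      · obtain ⟨x, -⟩ := hX i₀ hi₀
        exact ⟨x, fun h => absurd h hj⟩
    choose y hy using hy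
    have hT := H3 y (fun j hj => (hy j hj).1)
    have hT0 : (L.map fun j => α j (y j)).prod ≠ 0 := by
      intro h
      have h4 := List.prod_eq_zero_iff.1 h
      rw [List.mem_map] at h4
      obtain ⟨j, hj, hj'⟩ := h4
      exact (hy j hj).2 hj'
    have ha' : ∀ j ∈ L', α' j (y j) ≠ 0 := by
      intro j hj h
      apply hT0
      rw [hT]
      apply List.prod_eq_zero
      rw [List.mem_map]
      exact ⟨j, hj, h⟩
    have hn' : L'.Nodup := hp.nodup_iff.1 hn
    obtain ⟨p, hp0, hpt⟩ := tele (fun j => α j (y j)) L hn (fun j hj => (hy j hj).2) 1 one_ne_zero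
    obtain ⟨p', hp0', hpt'⟩ := tele (fun j => α' j (y j)) L' hn' ha' 1 one_ne_zero
    -- normalized functions
    set q : ℕ → K := fun i => (p i * α i (y i))⁻¹ with hq
    set q' : ℕ → K := fun i => (p' i * α' i (y i))⁻¹ with hq'
    set ah : ℕ → Y → K := fun i x => p i * α i x * q i with hah
    set ah' : ℕ → Y → K := fun i x => p' i * α' i x * q' i with hah'
    set Ah : ℕ → S := fun i => κ (p i) * A i * κ (q i) with hAh
    set Ah' : ℕ → S := fun i => κ (p' i) * A' i * κ (q' i) with hAh'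
    have hone : ∀ i ∈ L, ah i (y i) = 1 := fun i hi =>
      mul_inv_cancel₀ (mul_ne_zero (hp0 i hi) (hy i hi).2)
    have hone' : ∀ i ∈ L, ah' i (y i) = 1 := fun i hi =>
      mul_inv_cancel₀ (mul_ne_zero (hp0' i (hp.subset hi)) (ha' i (hp.subset hi)))
    have hprod : ∀ x : ℕ → Y, (∀ i ∈ L, x i ∈ X i) →
        (L.map fun i => ah i (x i)).prod = (L'.map fun i => ah' i (x i)).prod := by
      intro x hx
      have e1 := hpt K (RingHom.id K) (fun i => α i (x i))
      have e2 := hpt' K (RingHom.id K) (fun i => α' i (x i))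
      have e3 := H3 x hx
      simp only [RingHom.id_apply, one_mul] at e1 e2
      rw [e1, e2, ← hT] at e3
      exact mul_right_cancel₀ hT0 e3
    have heq : ∀ i ∈ L, ∀ x ∈ X i, ah i x = ah' i x := by
      intro i hi x hx
      have e := hprod (Function.update y i x) (by
        intro j hj
        by_cases hji : j = i
        · subst hji; simpa using hx
        · rw [Function.update_of_ne hji]; exact (hy j hj).1)
      rw [prod_one i (fun k => ah k (Function.update y i x k)) L hn hi (by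
          intro k hk hki
          rw [Function.update_of_ne hki]; exact hone k hk),
        prod_one i (fun k => ah' k (Function.update y i x k)) L' hn' (hp.subset hi) (by
          intro k hk hki
          rw [Function.update_of_ne hki]; exact hone' k (hp.symm.subset hk))] at e
      simpa using e
    have hAA : ∀ i ∈ L, Ah i = Ah' i := by
      intro i hi
      exact H1 i hi (p i) (q i) (p' i) (q' i) (fun x hx => heq i hi x hx)
    have hcK : ∀ i j, List.Sublist [i, j] L → List.Sublist [j, i] L' → ∀ x ∈ X i, ∀ z ∈ X j,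
        ah i x * ah j z = ah j z * ah i x := by
      intro i j hij hji x hx z hz
      have hne : i ≠ j := ne_of_pair hn hij
      have hm := mem_of_pair hij
      set f : ℕ → Y := Function.update (Function.update y i x) j z with hf
      have hfj : f j = z := by simp [hf]
      have hfi : f i = x := by simp [hf, Function.update_of_ne hne]
      have hfk : ∀ k, k ≠ i → k ≠ j → f k = y k := fun k h1 h2 => by
        simp [hf, Function.update_of_ne h1, Function.update_of_ne h2]
      have e := hprod f (by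
        intro k hk
        by_cases h1 : k = i
        · subst h1; rw [hfi]; exact hx
        · by_cases h2 : k = j
          · subst h2; rw [hfj]; exact hz
          · rw [hfk k h1 h2]; exact (hy k hk).1)
      rw [prod_two i j (fun k => ah k (f k)) L hn hij (by
          intro k hk h1 h2
          rw [hfk k h1 h2]; exact hone k hk),
        prod_two j i (fun k => ah' k (f k)) L' hn' hji (by
          intro k hk h1 h2
          rw [hfk k h2 h1]; exact hone' k (hp.symm.subset hk)), hfi, hfj] at e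
      rw [e, heq i hm.1 x hx, heq j hm.2 z hz]
    -- commuting with constants
    have hC : ∀ i ∈ L, ∀ h : K, (∀ x ∈ X i, h * ah i x = ah i x * h) → κ h * Ah i = Ah i * κ h := by
      intro i hi h hx
      have := H2 i hi (h * p i) (q i) (p i) (q i * h) (fun x hx' => by
        have e := hx x hx'
        simp only [hah] at e
        rw [mul_assoc h, mul_assoc h, e, mul_assoc, mul_assoc])
      simp only [hAh]
      rw [map_mul, map_mul] at this
      rw [← mul_assoc, ← mul_assoc, this, mul_assoc, mul_assoc, mul_assoc]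
    have hinv : ∀ s h : K, s * h ≠ h * s → br (κ s) (κ h) * κ ((s * h - h * s)⁻¹) = 1 := by
      intro s h hs
      simp only [br]
      rw [← map_mul, ← map_mul, ← map_sub, ← map_mul, mul_inv_cancel₀ (sub_ne_zero.2 hs), map_one]
    have hcS : ∀ i j, List.Sublist [i, j] L → List.Sublist [j, i] L' →
        Ah i * Ah j = Ah j * Ah i := by
      intro i j hij hji
      have hm := mem_of_pair hij
      have hc := hcK i j hij hji
      by_cases hA : ∀ x ∈ X i, ∀ h : K, h * ah i x = ah i x * h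
      · have := hR2 (Ah i) (Ah j) (κ h₁) (κ h₂) (κ ((h₁ * h₂ - h₂ * h₁)⁻¹))
          (by simp only [br]; rw [← hC i hm.1 h₁ (fun x hx => hA x hx h₁), sub_self])
          (by simp only [br]; rw [← hC i hm.1 h₂ (fun x hx => hA x hx h₂), sub_self])
          (hinv h₁ h₂ hh)
        exact sub_eq_zero.1 this
      · by_cases hB : ∀ z ∈ X j, ∀ h : K, h * ah j z = ah j z * h
        · have := hR2 (Ah j) (Ah i) (κ h₁) (κ h₂) (κ ((h₁ * h₂ - h₂ * h₁)⁻¹))
            (by simp only [br]; rw [← hC j hm.2 h₁ (fun x hx => hB x hx h₁), sub_self])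
            (by simp only [br]; rw [← hC j hm.2 h₂ (fun x hx => hB x hx h₂), sub_self])
            (hinv h₁ h₂ hh)
          exact (sub_eq_zero.1 this).symm
        · push Not at hA hB
          obtain ⟨x₂, hx₂, g₁, hg₁⟩ := hA
          obtain ⟨z₂, hz₂, g₂, hg₂⟩ := hB
          have := hR1 (Ah i) (Ah j) (κ (ah i x₂)) (κ (ah j z₂)) (κ g₁) (κ g₂)
            (κ ((ah i x₂ * g₁ - g₁ * ah i x₂)⁻¹)) (κ ((ah j z₂ * g₂ - g₂ * ah j z₂)⁻¹))
            (by
              simp only [br]
              rw [← hC i hm.1 (ah j z₂) (fun x hx => (hc x hx z₂ hz₂).symm), sub_self])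
            (by simp only [br]; rw [← map_mul, ← map_mul, hc x₂ hx₂ z₂ hz₂, sub_self])
            (by
              simp only [br]
              rw [hC j hm.2 (ah i x₂) (fun z hz => hc x₂ hx₂ z hz), sub_self])
            (hinv _ _ (fun e => hg₁ e.symm)) (hinv _ _ (fun e => hg₂ e.symm))
          exact sub_eq_zero.1 this
    have hfin : (L.map Ah).prod = (L'.map Ah').prod := by
      rw [prod_perm Ah L L' hn hp hcS]
      congr 1
      apply List.map_congr_left
      intro i hi
      exact hAA i (hp.symm.subset hi)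
    have e1 := hpt S κ A
    have e2 := hpt' S κ A'
    rw [map_one, one_mul, one_mul] at e1 e2
    rw [e1, e2, hT]
    exact congrArg (· * _) hfin

end Pool.Agent.Lib.MP_39893a_lc.OV.PRMM
end

section
set_option autoImplicit false

namespace Pool.Agent.Lib.MP_39893a_lc.OV.QUOM

open Finset ORD

theorem der_zero (H : Set FR) : DerI H 0 := by
  have := DerI.comb (H := H) 0 (fun _ => 0) (fun _ => 0) (fun _ => 0) (fun i => i.elim0)
  simpa using this

theorem der_lmr (H : Set FR) {p : FR} (u v : FR) (hp : DerI H p) : DerI H (u * p * v) := by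
  have := DerI.comb (H := H) 1 (fun _ => u) (fun _ => p) (fun _ => v) (fun _ => hp)
  simpa using this

theorem der_add (H : Set FR) {p q : FR} (hp : DerI H p) (hq : DerI H q) : DerI H (p + q) := by
  have := DerI.comb (H := H) 2 (fun _ => 1) ![p, q] (fun _ => 1) (fun i => by
    fin_cases i
    · exact hp
    · exact hq)
  simpa [Fin.sum_univ_two] using this

theorem der_neg (H : Set FR) {p : FR} (hp : DerI H p) : DerI H (-p) := by
  have := der_lmr H (-1) 1 hp
  simpa using this

/-- The congruence. -/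
def con (H : Set FR) : RingCon FR where
  r a b := DerI H (a - b)
  iseqv := ⟨fun a => by simpa using der_zero H, fun {a b} h => by
      have := der_neg H h
      rwa [neg_sub] at this, fun {a b c} h h' => by
      have := der_add H h h'
      rwa [sub_add_sub_cancel] at this⟩
  mul' := by
    intro a b c d h h'
    have e : a * c - b * d = (1 * (a - b) * c) + (b * (c - d) * 1) := by
      rw [one_mul, mul_one, sub_mul, mul_sub]; abel
    show DerI H (a * c - b * d)
    rw [e]
    exact der_add H (der_lmr H _ _ h) (der_lmr H _ _ h')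
  add' := by
    intro a b c d h h'
    show DerI H (a + c - (b + d))
    have e : a + c - (b + d) = (a - b) + (c - d) := by abel
    rw [e]
    exact der_add H h h'

theorem specQUO (hV : ORD.SpecVAL) : SpecQUO := by
  intro N H
  obtain ⟨-, hz, -, -, -, hc, -, hinj⟩ := hV
  set I := H ∪ InvAx N with hI
  have key : ∀ p : FR, (con I).mk' p = 0 ↔ DerI I p := by
    intro p
    rw [← map_zero (con I).mk']
    refine (RingCon.eq (con I)).trans ?_
    show DerI I (p - 0) ↔ _
    rw [sub_zero]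
  refine ⟨(con I).Quotient, inferInstance, (con I).mk', key, ⟨?_, ?_⟩, ?_⟩
  · intro p q s₁ s₂ h₁ h₂ e₁ e₂ a1 a2 a3 a4 a5
    obtain ⟨p, rfl⟩ := RingCon.mk'_surjective (con I) p
    obtain ⟨q, rfl⟩ := RingCon.mk'_surjective (con I) q
    obtain ⟨s₁, rfl⟩ := RingCon.mk'_surjective (con I) s₁
    obtain ⟨s₂, rfl⟩ := RingCon.mk'_surjective (con I) s₂
    obtain ⟨h₁, rfl⟩ := RingCon.mk'_surjective (con I) h₁
    obtain ⟨h₂, rfl⟩ := RingCon.mk'_surjective (con I) h₂
    obtain ⟨e₁, rfl⟩ := RingCon.mk'_surjective (con I) e₁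
    obtain ⟨e₂, rfl⟩ := RingCon.mk'_surjective (con I) e₂
    have hbr : ∀ x y : FR, br ((con I).mk' x) ((con I).mk' y) = (con I).mk' (br x y) := by
      intro x y
      simp only [br, map_sub, map_mul]
    rw [hbr] at a1 a2 a3 a4 a5 ⊢
    rw [key] at a1 a2 a3 ⊢
    refine DerI.ct p q s₁ s₂ h₁ h₂ e₁ e₂ a1 a2 a3 ?_ ?_
    · rw [← key, map_sub, map_mul, map_one, a4, sub_self]
    · rw [← key, map_sub, map_mul, map_one, a5, sub_self]
  · intro p q h₁ h₂ e a1 a2 a3
    obtain ⟨p, rfl⟩ := RingCon.mk'_surjective (con I) p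
    obtain ⟨q, rfl⟩ := RingCon.mk'_surjective (con I) q
    obtain ⟨h₁, rfl⟩ := RingCon.mk'_surjective (con I) h₁
    obtain ⟨h₂, rfl⟩ := RingCon.mk'_surjective (con I) h₂
    obtain ⟨e, rfl⟩ := RingCon.mk'_surjective (con I) e
    have hbr : ∀ x y : FR, br ((con I).mk' x) ((con I).mk' y) = (con I).mk' (br x y) := by
      intro x y
      simp only [br, map_sub, map_mul]
    rw [hbr] at a1 a2 a3 ⊢
    rw [key] at a1 a2 ⊢
    refine DerI.cen p q h₁ h₂ e a1 a2 ?_
    rw [← key, map_sub, map_mul, map_one, a3, sub_self]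
  · intro d hd
    obtain ⟨c, hcc, hcv⟩ := hc d
    have hcz : ¬ c.isZero := by
      rw [hz, hcv]
      intro h0
      exact hd (hinj (by rw [h0, map_zero]))
    have e1 : (con I).mk' (DtoF d) * (con I).mk' (xv (invV N c)) = 1 := by
      have := (key (c.val * xv (invV N c) - 1)).2 (DerI.hyp _ (Or.inr ⟨c, hcc, hcz, Or.inl rfl⟩))
      rw [map_sub, map_mul, map_one, sub_eq_zero, hcv] at this
      exact this
    have e2 : (con I).mk' (xv (invV N c)) * (con I).mk' (DtoF d) = 1 := by
      have := (key (xv (invV N c) * c.val - 1)).2 (DerI.hyp _ (Or.inr ⟨c, hcc, hcz, Or.inr rfl⟩))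
      rw [map_sub, map_mul, map_one, sub_eq_zero, hcv] at this
      exact this
    exact ⟨⟨_, _, e1, e2⟩, rfl⟩

end Pool.Agent.Lib.MP_39893a_lc.OV.QUOM

namespace Pool.Agent.Lib.MP_39893a_lc.OV

theorem specQUO (hV : ORD.SpecVAL) : SpecQUO := QUOM.specQUO hV

end Pool.Agent.Lib.MP_39893a_lc.OV
end

section
/-! Module REP: two-term forms are linear forms. -/
set_option autoImplicit false

namespace Pool.Agent.Lib.MP_39893a_lc.OV.REPM

open Finset ORD OV

/-- Functions given by linear forms. -/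
def IsR (F : ∀ (R : Type) [Ring R], (Mo →* R) → List R → R) : Prop :=
  ∃ T : LF, ∀ (R : Type) [Ring R] (φ : Mo →* R) (y : List R), apLF (nops R) φ y T = F R φ y

theorem apLF_nil {R : Type} [Ring R] (φ : Mo → R) (y : List R) : apLF (nops R) φ y [] = 0 := by
  show ((0 : ℕ) : R) = 0
  simp

theorem apLF_cons {R : Type} [Ring R] (φ : Mo → R) (y : List R) (q : ℕ × Mo × ℕ × Mo) (T : LF) :
    apLF (nops R) φ y (q :: T) = tmLF (nops R) φ y q + apLF (nops R) φ y T := rfl

theorem apLF_append {R : Type} [Ring R] (φ : Mo → R) (y : List R) (T T' : LF) :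
    apLF (nops R) φ y (T ++ T') = apLF (nops R) φ y T + apLF (nops R) φ y T' := by
  induction T with
  | nil => rw [apLF_nil, List.nil_append, zero_add]
  | cons q T ih => rw [List.cons_append, apLF_cons, apLF_cons, ih, add_assoc]

theorem apLF_neg {R : Type} [Ring R] (φ : Mo → R) (y : List R) (T : LF) :
    apLF (nops R) φ y (T.map fun q => (if q.1 = 0 then 1 else 0, q.2)) = - apLF (nops R) φ y T := by
  induction T with
  | nil => rw [List.map_nil, apLF_nil, neg_zero]
  | cons q T ih =>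
    rw [List.map_cons, apLF_cons, apLF_cons, ih, neg_add]
    congr 1
    unfold tmLF
    by_cases h : q.1 = 0
    · simp only [h, if_true]
      rfl
    · simp only [h, if_false]
      show _ = - (- _)
      rw [neg_neg]
      rfl

theorem isR_zero : IsR (fun _ _ _ _ => 0) := ⟨[], fun _ _ φ y => apLF_nil φ y⟩

theorem isR_add {F G : ∀ (R : Type) [Ring R], (Mo →* R) → List R → R} (hF : IsR F) (hG : IsR G) :
    IsR (fun R _ φ y => F R φ y + G R φ y) := by
  obtain ⟨T, hT⟩ := hF
  obtain ⟨T', hT'⟩ := hG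
  refine ⟨T ++ T', fun R _ φ y => ?_⟩
  rw [apLF_append, hT, hT']

theorem isR_neg {F : ∀ (R : Type) [Ring R], (Mo →* R) → List R → R} (hF : IsR F) :
    IsR (fun R _ φ y => - F R φ y) := by
  obtain ⟨T, hT⟩ := hF
  refine ⟨T.map fun q => (if q.1 = 0 then 1 else 0, q.2), fun R _ φ y => ?_⟩
  rw [apLF_neg φ y T, hT]

theorem isR_congr {F G : ∀ (R : Type) [Ring R], (Mo →* R) → List R → R} (hF : IsR F)
    (h : ∀ (R : Type) [Ring R] (φ : Mo →* R) (y : List R), F R φ y = G R φ y) : IsR G := by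
  obtain ⟨T, hT⟩ := hF
  exact ⟨T, fun R _ φ y => by rw [hT, h]⟩

theorem isR_sum (s : Finset ℕ) (F : ℕ → ∀ (R : Type) [Ring R], (Mo →* R) → List R → R)
    (h : ∀ i, IsR (F i)) : IsR (fun R _ φ y => ∑ i ∈ s, F i R φ y) := by
  classical
  induction s using Finset.induction_on with
  | empty => exact isR_congr isR_zero (fun R _ φ y => by rw [Finset.sum_empty])
  | insert i s hi ih =>
    exact isR_congr (isR_add (h i) ih) (fun R _ φ y => by rw [Finset.sum_insert hi])

theorem isR_zsmul {F : ∀ (R : Type) [Ring R], (Mo →* R) → List R → R} (hF : IsR F) (n : ℤ) :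
    IsR (fun R _ φ y => n • F R φ y) := by
  have key : ∀ k : ℕ, IsR (fun R _ φ y => k • F R φ y) := by
    intro k
    induction k with
    | zero => exact isR_congr isR_zero (fun R _ φ y => by rw [zero_smul])
    | succ k ih => exact isR_congr (isR_add ih hF) (fun R _ φ y => by rw [succ_nsmul])
  rcases Int.eq_nat_or_neg n with ⟨k, rfl | rfl⟩
  · exact isR_congr (key k) (fun R _ φ y => by rw [natCast_zsmul])
  · exact isR_congr (isR_neg (key k)) (fun R _ φ y => by rw [neg_smul, natCast_zsmul])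

theorem isR_term (g h : Mo) (t : ℕ) :
    IsR (fun _ _ φ y => φ g * y.getD t 0 * φ h) := by
  refine ⟨[(0, g, t + 1, h)], fun R _ φ y => ?_⟩
  rw [apLF_cons, apLF_nil, add_zero]
  show φ g * (if t + 1 = 0 then ((1 : ℕ) : R) else y.getD (t + 1 - 1) ((0 : ℕ) : R)) * φ h = _
  rw [if_neg (Nat.succ_ne_zero t), Nat.add_sub_cancel, Nat.cast_zero]

theorem isR_const (g : Mo) : IsR (fun _ _ φ _ => φ g) := by
  refine ⟨[(0, g, 0, 1)], fun R _ φ y => ?_⟩
  rw [apLF_cons, apLF_nil, add_zero]
  show φ g * (if 0 = 0 then ((1 : ℕ) : R) else y.getD (0 - 1) ((0 : ℕ) : R)) * φ 1 = _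
  rw [if_pos rfl, Nat.cast_one, map_one, mul_one, mul_one]

theorem lft_single {R : Type} [Ring R] (φ : Mo →* R) (g : Mo) (n : ℤ) :
    lft φ (MonoidAlgebra.single g n : D) = n • φ g := by
  show (MonoidAlgebra.lift ℤ R Mo φ) (MonoidAlgebra.single g n) = n • φ g
  rw [MonoidAlgebra.lift_single]

theorem isR_D (w : D) : IsR (fun _ _ φ _ => lft φ w) := by
  induction w using MonoidAlgebra.induction_linear with
  | zero => exact isR_congr isR_zero (fun R _ φ y => by rw [map_zero])
  | add f g hf hg => exact isR_congr (isR_add hf hg) (fun R _ φ y => by rw [map_add])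
  | single g n =>
    exact isR_congr (isR_zsmul (isR_const g) n) (fun R _ φ y => by rw [lft_single])

theorem isR_left (g : Mo) (t : ℕ) (d : D) :
    IsR (fun _ _ φ y => φ g * y.getD t 0 * lft φ d) := by
  induction d using MonoidAlgebra.induction_linear with
  | zero => exact isR_congr isR_zero (fun R _ φ y => by rw [map_zero, mul_zero])
  | add f g hf hg =>
    exact isR_congr (isR_add hf hg) (fun R _ φ y => by rw [map_add, mul_add])
  | single h n =>
    exact isR_congr (isR_zsmul (isR_term g h t) n)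
      (fun R _ φ y => by rw [lft_single, mul_smul_comm])

theorem isR_both (c : D) (t : ℕ) (d : D) :
    IsR (fun _ _ φ y => lft φ c * y.getD t 0 * lft φ d) := by
  induction c using MonoidAlgebra.induction_linear with
  | zero => exact isR_congr isR_zero (fun R _ φ y => by rw [map_zero, zero_mul, zero_mul])
  | add f g hf hg =>
    exact isR_congr (isR_add hf hg) (fun R _ φ y => by rw [map_add, add_mul, add_mul])
  | single g n =>
    exact isR_congr (isR_zsmul (isR_left g t d) n)
      (fun R _ φ y => by rw [lft_single, smul_mul_assoc, smul_mul_assoc])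

theorem specREP : SpecREP := by
  intro N P nR u v u' v' w
  have h : IsR (fun R _ φ y => tt P nR (fun i => lft φ (u i)) (fun i => lft φ (v i))
      (fun i => lft φ (u' i)) (fun i => lft φ (v' i)) (lft φ w) y) := by
    have h1 := isR_sum (range nR) _ fun q => isR_sum (range (P + 1)) _ fun b =>
      isR_both (u q) (pos P q b) (v b)
    have h2 := isR_sum (range nR) _ fun q => isR_sum (range (P + 1)) _ fun b =>
      isR_both (u' q) (pos P q b) (v' b)
    refine isR_congr (isR_add (isR_add h1 (isR_neg h2)) (isR_D w)) (fun R _ φ y => ?_)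
    rw [← sub_eq_add_neg]
    rfl
  obtain ⟨T, hT⟩ := h
  exact ⟨T, fun R _ φ y _ => hT R φ y⟩

end Pool.Agent.Lib.MP_39893a_lc.OV.REPM
end

section
/-!
# Module STEP (MP_39893a_lc, hive OV)
-/
set_option autoImplicit false

namespace Pool.Agent.Lib.MP_39893a_lc.OV.STEPM

open Finset ORD

/-! ## Positions -/

theorem fs1 (P : ℕ) : fs P 1 = 4 * (P + 1) := by
  unfold fs
  omega

theorem pos_notBit (P R j : ℕ) : ¬ isBit (pos P R j) := by
  unfold isBit pos
  rw [fs1]
  have e : R * (4 * (P + 1)) + 4 * j = 4 * (R * (P + 1) + j) := by ring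
  rw [e]
  omega

theorem pos_lt {P nR R j : ℕ} (hR : R < nR) (hj : j ≤ P) : pos P R j < nR * fs P 1 := by
  unfold pos
  rw [fs1]
  have h : (R + 1) * (4 * (P + 1)) ≤ nR * (4 * (P + 1)) := Nat.mul_le_mul_right _ hR
  have e : (R + 1) * (4 * (P + 1)) = R * (4 * (P + 1)) + 4 * (P + 1) := by ring
  omega

theorem le_lsum' {l : List ℕ} {m : ℕ} (h : m ∈ l) : m ≤ lsum l := by
  induction l with
  | nil => simp at h
  | cons b l ih =>
    rw [lsum, List.foldr_cons]
    rcases List.mem_cons.1 h with rfl | h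
    · exact Nat.le_add_right _ _
    · exact (ih h).trans (Nat.le_add_left _ _)

/-! ## Homomorphisms -/

theorem lft_toD (d : D) : lft toD d = d := by
  have h : (MonoidAlgebra.lift ℤ D Mo toD : D →ₐ[ℤ] D) = AlgHom.id ℤ D := by
    apply MonoidAlgebra.algHom_ext
    · intro g
      simp [toD]
    · exact Subsingleton.elim _ _
  exact DFunLike.congr_fun h d

theorem lft_toF (d : D) : lft toF d = DtoF d := rfl

/-! ## Two-term forms -/

theorem sum_rows {S : Type} [Ring S] {off n nR : ℕ} (hle : off + n ≤ nR) (f : ℕ → S)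
    (hf : ∀ R, f R ≠ 0 → ∃ q < n, R = off + q) :
    ∑ R ∈ range nR, f R = ∑ q ∈ range n, f (off + q) := by
  symm
  refine Finset.sum_of_injOn (fun q => off + q) ?_ ?_ ?_ ?_
  · intro a _ b _ h
    simp only at h
    omega
  · intro q hq
    rw [Finset.mem_coe, Finset.mem_range] at hq
    simp only [Finset.coe_range, Set.mem_Iio]
    omega
  · intro R _ hR
    by_contra h
    obtain ⟨q, hq, e⟩ := hf R h
    exact hR ⟨q, by simpa using hq, e.symm⟩
  · intro q _
    rfl

theorem half {S : Type} [Ring S] {off n nR P : ℕ} {V : ℕ → Prop} (hle : off + n ≤ nR)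
    (u v : ℕ → S) (hu : ∀ t, u t ≠ 0 → rows off n V t) (x y : ℕ → ℕ → S)
    (h : ∀ q < n, ∀ j ≤ P, x (off + q) j = y q j) :
    ∑ R ∈ range nR, ∑ j ∈ range (P + 1), u R * x R j * v j =
      ∑ q ∈ range n, ∑ j ∈ range (P + 1), u (off + q) * y q j * v j := by
  rw [sum_rows hle]
  · refine Finset.sum_congr rfl fun q hq => Finset.sum_congr rfl fun j hj => ?_
    rw [Finset.mem_range] at hq hj
    rw [h q hq j (by omega)]
  · intro R hR
    have hu' : u R ≠ 0 := by
      intro h0
      refine hR (Finset.sum_eq_zero fun j _ => ?_)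
      rw [h0, zero_mul, zero_mul]
    obtain ⟨q, hq, e, -⟩ := hu R hu'
    exact ⟨q, hq, e⟩

theorem tt_rT {S : Type} [Ring S] {P nR off off' n n' : ℕ} {V V' : ℕ → Prop}
    (hle : off + n ≤ nR) (hle' : off' + n' ≤ nR) (φ : Mo →* S) (bl : List (List S)) (y : List S)
    (rl rl' : ℕ → Option Rhs)
    (h : ∀ q < n, ∀ j ≤ P, y.getD (pos P (off + q) j) 0 = (rl q).elim 0 fun ζ => fo P off φ bl ζ j)
    (h' : ∀ q < n', ∀ j ≤ P,
      y.getD (pos P (off' + q) j) 0 = (rl' q).elim 0 fun ζ => fo P off' φ bl ζ j)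
    (u v u' v' : ℕ → S) (w : S) (hu : ∀ t, u t ≠ 0 → rows off n V t)
    (hu' : ∀ t, u' t ≠ 0 → rows off' n' V' t) :
    tt P nR u v u' v' w y = rT P off off' n n' φ bl rl rl' u v u' v' w := by
  unfold tt rT tq
  rw [half hle u v hu (fun R j => y.getD (pos P R j) 0) _ h,
    half hle' u' v' hu' (fun R j => y.getD (pos P R j) 0) _ h']

theorem tq_congr {S : Type} [Ring S] (nQ nB nQ' nB' : ℕ) (u v u' v' : ℕ → S) (w : S)
    (x y x' y' : ℕ → ℕ → S) (h : ∀ q < nQ, ∀ b < nB, x q b = y q b)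
    (h' : ∀ q < nQ', ∀ b < nB', x' q b = y' q b) :
    tq nQ nB nQ' nB' u v u' v' w x x' = tq nQ nB nQ' nB' u v u' v' w y y' := by
  have e1 : (∑ q ∈ range nQ, ∑ b ∈ range nB, u q * x q b * v b) =
      ∑ q ∈ range nQ, ∑ b ∈ range nB, u q * y q b * v b :=
    Finset.sum_congr rfl fun q hq => Finset.sum_congr rfl fun b hb => by
      rw [h q (Finset.mem_range.1 hq) b (Finset.mem_range.1 hb)]
  have e2 : (∑ q ∈ range nQ', ∑ b ∈ range nB', u' q * x' q b * v' b) =
      ∑ q ∈ range nQ', ∑ b ∈ range nB', u' q * y' q b * v' b :=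
    Finset.sum_congr rfl fun q hq => Finset.sum_congr rfl fun b hb => by
      rw [h' q (Finset.mem_range.1 hq) b (Finset.mem_range.1 hb)]
  unfold tq
  rw [e1, e2]

/-! ## Only the positions `pos` matter -/

theorem fo_congr {S : Type} [Ring S] (P off : ℕ) (φ : Mo →* S) (bl bl' : List (List S))
    (h : ∀ i R j, (bl.getD i []).getD (pos P R j) 0 = (bl'.getD i []).getD (pos P R j) 0)
    (ζ : Rhs) : ∀ j, fo P off φ bl ζ j = fo P off φ bl' ζ j := by
  induction ζ with
  | param p => intro j; rfl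
  | out b r c ih =>
    intro j
    rw [fo, fo]
    congr 1
    exact Finset.sum_congr rfl fun l _ => by rw [ih l j]
  | call q i n c ih =>
    intro j
    rw [fo, fo]
    congr 1
    · rw [h i (off + q) 0]
    · exact Finset.sum_congr rfl fun l _ => by rw [ih l j, h i (off + q) (l + 1)]

theorem rT_congr {S : Type} [Ring S] (P off off' n n' : ℕ) (φ : Mo →* S) (bl bl' : List (List S))
    (h : ∀ i R j, (bl.getD i []).getD (pos P R j) 0 = (bl'.getD i []).getD (pos P R j) 0)
    (rl rl' : ℕ → Option Rhs) (u v u' v' : ℕ → S) (w : S) :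
    rT P off off' n n' φ bl rl rl' u v u' v' w = rT P off off' n n' φ bl' rl rl' u v u' v' w := by
  have e : ∀ (o : ℕ) (z : Option Rhs) (j : ℕ),
      (z.elim 0 fun ζ => fo P o φ bl ζ j) = (z.elim 0 fun ζ => fo P o φ bl' ζ j) := by
    intro o z j
    cases z with
    | none => rfl
    | some ζ => exact fo_congr P o φ bl bl' h ζ j
  exact tq_congr _ _ _ _ _ _ _ _ _ _ _ _ _ (fun q _ j _ => e off (rl q) j)
    (fun q _ j _ => e off' (rl' q) j)

/-! ## Symbolic vectors -/

theorem blkv_length (N i : ℕ) (β : List ℕ) : ((blk N i β).map CP.val).length = N := by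
  simp [blk]

theorem blkv_bit (hVAL : ORD.SpecVAL) {N i t : ℕ} (β : List ℕ) (ht : t < N) (hb : isBit t) :
    ((blk N i β).map CP.val).getD t 0 = ((β.getD t 0 : ℕ) : FR) := by
  unfold blk
  rw [List.getD_eq_getElem?_getD, List.getElem?_map, List.getElem?_map, List.getElem?_range ht]
  simp only [Option.map_some, Option.getD_some]
  rw [if_pos hb, hVAL.1.nat]
  rfl

theorem blkv_var (hVAL : ORD.SpecVAL) {N i t : ℕ} (β : List ℕ) (ht : t < N) (hb : ¬ isBit t) :
    ((blk N i β).map CP.val).getD t 0 = xv (i, t) := by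
  unfold blk
  rw [List.getD_eq_getElem?_getD, List.getElem?_map, List.getElem?_map, List.getElem?_range ht]
  simp only [Option.map_some, Option.getD_some]
  rw [if_neg hb, hVAL.2.2.2.2.1]

theorem xvl_getD {N i t : ℕ} (ht : t < N) :
    ((List.range N).map fun t => xv (i, t)).getD t 0 = xv (i, t) := by
  rw [List.getD_eq_getElem?_getD, List.getElem?_map, List.getElem?_range ht]
  simp

theorem range_map_getD {α : Type} {r i : ℕ} (f : ℕ → List α) :
    ((List.range r).map f).getD i [] = if i < r then f i else [] := by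
  rw [List.getD_eq_getElem?_getD, List.getElem?_map]
  split_ifs with h
  · rw [List.getElem?_range h]
    rfl
  · rw [List.getElem?_eq_none (by simpa using h)]
    rfl

theorem lists_eq (hVAL : ORD.SpecVAL) (N r : ℕ) (β : ℕ → List ℕ) (P : ℕ) (i R j : ℕ) :
    (((List.range r).map fun i => (blk N i (β i)).map CP.val).getD i []).getD (pos P R j) 0 =
      (((List.range r).map fun i => (List.range N).map fun t => xv (i, t)).getD i []).getD
        (pos P R j) 0 := by
  rw [range_map_getD, range_map_getD]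
  split_ifs with h
  · by_cases ht : pos P R j < N
    · rw [blkv_var hVAL _ ht (pos_notBit P R j), xvl_getD ht]
    · rw [List.getD_eq_default _ _ (by rw [blkv_length]; omega),
        List.getD_eq_default _ _ (by simp; omega)]
  · rfl

/-- The value of a two-term form at the symbolic vector of a child. -/
theorem tt_blk (hVAL : ORD.SpecVAL) (P nR i : ℕ) (β : List ℕ) (u v u' v' : ℕ → D) (w : D) :
    tt P nR (fun t => DtoF (u t)) (fun t => DtoF (v t)) (fun t => DtoF (u' t))
      (fun t => DtoF (v' t)) (DtoF w) ((blk (nR * fs P 1) i β).map CP.val) =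
      ttF P nR i u v u' v' w := by
  have e : ∀ R < nR, ∀ j < P + 1,
      ((blk (nR * fs P 1) i β).map CP.val).getD (pos P R j) 0 = xv (i, pos P R j) := by
    intro R hR j hj
    exact blkv_var hVAL _ (pos_lt hR (by omega)) (pos_notBit P R j)
  exact tq_congr nR (P + 1) nR (P + 1) _ _ _ _ _ _ _ _ _ e e

/-! ## The core -/

theorem core (hLOC : SpecLOC) (hREP : SpecREP) (hBLKI : SpecBLKI) (hVAL : ORD.SpecVAL)
    (hEVL : ORD.SpecEVL) (hLFH : ORD.SpecLFH) (B : List ℕ) (s : Sys) (a : ℕ)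
    (off off' : ℕ) (pr pr' : List ℕ) (rl rl' : ℕ → Option Rhs)
    (V V' : ℕ → Prop) (W W' : ℕ → ℕ → Prop) (ar ar' : ℕ → List Rhs) (ρ ρ' : ℕ → ℕ)
    (hpr : ∀ m ∈ pr, m ≤ s.P) (hpr' : ∀ m ∈ pr', m ≤ s.P) (hoff : off + pr.length ≤ s.T.length)
    (hoff' : off' + pr'.length ≤ s.T.length) (hV : Vis B pr (s.rk a) rl V W ar ρ)
    (hV' : Vis B pr' (s.rk a) rl' V' W' ar' ρ') (hord : ρ = ρ' ∨ (NarAr ar ∧ NarAr ar'))
    (hF : ∀ (S : Type) [Ring S] (φ : Mo →* S) (bl : List (List S)), ∀ q < pr.length, ∀ j ≤ s.P,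
      ((nops S).vecS s.P 1 s.n1 s.T a (VL (nops S) φ s.P s.nB) bl).getD (pos s.P (off + q) j) 0 =
        (rl q).elim 0 fun ζ => fo s.P off φ bl ζ j)
    (hF' : ∀ (S : Type) [Ring S] (φ : Mo →* S) (bl : List (List S)), ∀ q < pr'.length, ∀ j ≤ s.P,
      ((nops S).vecS s.P 1 s.n1 s.T a (VL (nops S) φ s.P s.nB) bl).getD (pos s.P (off' + q) j) 0 =
        (rl' q).elim 0 fun ζ => fo s.P off' φ bl ζ j)
    (βs : List (List ℕ)) (X : ℕ → Set (List D)) (H : Set FR)
    (hX : ∀ i < s.rk a, ∀ x ∈ X i, x.length = NN s)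
    (hTT : ∀ i < s.rk a, ∀ T, TTG (NN s) s.P s.T.length (rows off pr.length (W i))
      (rows off' pr'.length (W' i)) T → (∀ x ∈ X i, apLF (nops D) toD x T = 0) →
        DerI (H ∪ InvAx (NN s)) (apLF cops emC (blk (NN s) i (βs.getD i [])) T).val)
    (hTS : ∀ i < s.rk a, ∀ T, TTG (NN s) s.P s.T.length (rows off pr.length (W i))
      (rows off pr.length (W i)) T → (∀ x ∈ X i, apLF (nops D) toD x T = 0) →
        DerI (H ∪ InvAx (NN s)) (apLF cops emC (blk (NN s) i (βs.getD i [])) T).val)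
    (T : LF) (hT : TTG (NN s) s.P s.T.length (rows off pr.length V) (rows off' pr'.length V') T)
    (hz : ∀ x : ℕ → List D, (∀ i < s.rk a, x i ∈ X i) →
      apLF (nops D) toD ((nops D).vecS s.P 1 s.n1 s.T a (VL (nops D) toD s.P s.nB)
        ((List.range (s.rk a)).map x)) T = 0) :
    DerI (H ∪ InvAx (NN s)) (apLF cops emC (vS s a βs) T).val := by
  have hlen : ∀ (S : Type) [Ring S] (φ : Mo →* S) (bl : List (List S)),
      ((nops S).vecS s.P 1 s.n1 s.T a (VL (nops S) φ s.P s.nB) bl).length = NN s := by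
    intro S _ φ bl
    simp [Ops.vecS, NN]
  -- values of forms over `D`
  have hD : ∀ (T' : LF) (u v u' v' : ℕ → D) (w : D), Rep (NN s) s.P s.T.length T' u v u' v' w →
      ∀ y : List D, y.length = NN s →
        apLF (nops D) toD y T' = tt s.P s.T.length u v u' v' w y := by
    intro T' u v u' v' w hR y hy
    rw [hR D toD y hy]
    simp only [lft_toD]
  -- children
  have hch : ∀ i < s.rk a, ∀ (R₁ R₂ : ℕ → Prop),
      (∀ T, TTG (NN s) s.P s.T.length R₁ R₂ T → (∀ x ∈ X i, apLF (nops D) toD x T = 0) →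
        DerI (H ∪ InvAx (NN s)) (apLF cops emC (blk (NN s) i (βs.getD i [])) T).val) →
      ∀ (u v u' v' : ℕ → D) (w : D), (∀ t, u t ≠ 0 → R₁ t) → (∀ t, u' t ≠ 0 → R₂ t) →
        (∀ x ∈ X i, tt s.P s.T.length u v u' v' w x = 0) →
        DerI (H ∪ InvAx (NN s)) (ttF s.P s.T.length i u v u' v' w) := by
    intro i hi R₁ R₂ hTi u v u' v' w h1 h2 h3
    obtain ⟨T', hT'⟩ := hREP (NN s) s.P s.T.length u v u' v' w
    have h4 := hTi T' ⟨u, v, u', v', w, h1, h2, hT'⟩ fun x hx => by
      rw [hD T' u v u' v' w hT' x (hX i hi x hx)]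
      exact h3 x hx
    have e1 : (apLF cops emC (blk (NN s) i (βs.getD i [])) T').val =
        apLF (nops FR) toF ((blk (NN s) i (βs.getD i [])).map CP.val) T' :=
      hLFH _ _ cops (nops FR) CP.val emC toF hVAL.1 hVAL.2.2.2.1 _ T'
    have e2 := hT' FR toF _ (blkv_length (NN s) i (βs.getD i []))
    have e3 := tt_blk hVAL s.P s.T.length i (βs.getD i []) u v u' v' w
    rw [e1, e2] at h4
    rw [← e3]
    exact h4
  obtain ⟨u, v, u', v', w, hu, hu', hR⟩ := hT
  have hL := hLOC B s.P s.T.length (s.rk a) off off' pr pr' rl rl' V V' W W' ar ar' ρ ρ' hpr hpr'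
    hoff hoff' hV hV' hord (NN s) X H
    (fun i hi => hch i hi _ _ (hTT i hi)) (fun i hi => hch i hi _ _ (hTS i hi))
    u v u' v' w hu hu' (by
      intro x hx
      have h1 := hz x hx
      rw [hD T u v u' v' w hR _ (hlen D toD _)] at h1
      rw [← tt_rT hoff hoff' toD ((List.range (s.rk a)).map x) _ rl rl'
        (hF D toD _) (hF' D toD _) u v u' v' w hu hu']
      exact h1)
  -- the symbolic result
  have e1 : (apLF cops emC (vS s a βs) T).val = apLF (nops FR) toF ((vS s a βs).map CP.val) T :=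
    hLFH _ _ cops (nops FR) CP.val emC toF hVAL.1 hVAL.2.2.2.1 _ T
  have e2 : (vS s a βs).map CP.val = (nops FR).vecS s.P 1 s.n1 s.T a (VL (nops FR) toF s.P s.nB)
      ((List.range (s.rk a)).map fun i => (blk (NN s) i (βs.getD i [])).map CP.val) := by
    rw [← hBLKI.2 FR toF s a βs _ xv (by simp) ?_ ?_ ?_]
    · refine List.map_congr_left fun p _ => ?_
      rw [hEVL.2.2.1]
    · intro i hi
      rw [range_map_getD, if_pos hi, blkv_length]
    · intro i hi t ht hb
      rw [range_map_getD, if_pos hi, blkv_bit hVAL _ ht hb]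
    · intro i hi t ht hb
      rw [range_map_getD, if_pos hi, blkv_var hVAL _ ht hb]
  rw [e1, e2, hR FR toF _ (hlen FR toF _)]
  simp only [lft_toF]
  rw [tt_rT hoff hoff' toF _ _ rl rl' (hF FR toF _) (hF' FR toF _) (fun t => DtoF (u t))
    (fun t => DtoF (v t)) (fun t => DtoF (u' t)) (fun t => DtoF (v' t)) (DtoF w) ?_ ?_ (V := V)
    (V' := V'), rT_congr _ _ _ _ _ _ _ _ (lists_eq hVAL (NN s) (s.rk a) (fun i => βs.getD i []) s.P)]
  · exact hL
  · intro t ht
    refine hu t fun h => ht ?_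
    rw [h, map_zero]
  · intro t ht
    refine hu' t fun h => ht ?_
    rw [h, map_zero]

end Pool.Agent.Lib.MP_39893a_lc.OV.STEPM

namespace Pool.Agent.Lib.MP_39893a_lc.OV

open Finset ORD STEPM

theorem STEPM.specSTEP (hLOC : SpecLOC) (hFOV : SpecFOV) (hREP : SpecREP) (hBLKI : SpecBLKI)
    (hVAL : ORD.SpecVAL) (hEVL : ORD.SpecEVL) (hLFH : ORD.SpecLFH) : SpecSTEP := by
  intro A B M₁ M₂ V₁ V₂ c₁ c₂ ar₁ ar₂ hOV a ha βs X H hX hH T hT hz
  have hnT : (norm (inp M₁ M₂ 0)).T.length = M₁.params.length + M₂.params.length := by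
    rw [norm_T, List.length_append, code_length, code_length]
  have hP1 : ∀ m ∈ M₁.params, m ≤ (norm (inp M₁ M₂ 0)).P := by
    intro m hm
    rw [norm_P]
    have := le_lsum' hm
    omega
  have hP2 : ∀ m ∈ M₂.params, m ≤ (norm (inp M₁ M₂ 0)).P := by
    intro m hm
    rw [norm_P]
    have := le_lsum' hm
    omega
  have hF1 : ∀ (S : Type) [Ring S] (φ : Mo →* S) (bl : List (List S)), ∀ q < M₁.params.length,
      ∀ j ≤ (norm (inp M₁ M₂ 0)).P,
      ((nops S).vecS (norm (inp M₁ M₂ 0)).P 1 (norm (inp M₁ M₂ 0)).n1 (norm (inp M₁ M₂ 0)).T a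
        (VL (nops S) φ (norm (inp M₁ M₂ 0)).P (norm (inp M₁ M₂ 0)).nB) bl).getD
          (pos (norm (inp M₁ M₂ 0)).P (0 + q) j) 0 =
        (rlM M₁ a q).elim 0 fun ζ => fo (norm (inp M₁ M₂ 0)).P 0 φ bl ζ j := by
    intro S _ φ bl q hq j hj
    rw [Nat.zero_add]
    exact (hFOV S φ A B M₁ M₂ a bl ha q j hj).1 hq
  have hF2 : ∀ (S : Type) [Ring S] (φ : Mo →* S) (bl : List (List S)), ∀ q < M₂.params.length,
      ∀ j ≤ (norm (inp M₁ M₂ 0)).P,
      ((nops S).vecS (norm (inp M₁ M₂ 0)).P 1 (norm (inp M₁ M₂ 0)).n1 (norm (inp M₁ M₂ 0)).T a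
        (VL (nops S) φ (norm (inp M₁ M₂ 0)).P (norm (inp M₁ M₂ 0)).nB) bl).getD
          (pos (norm (inp M₁ M₂ 0)).P (M₁.params.length + q) j) 0 =
        (rlM M₂ a q).elim 0 fun ζ =>
          fo (norm (inp M₁ M₂ 0)).P M₁.params.length φ bl ζ j := by
    intro S _ φ bl q hq j hj
    exact (hFOV S φ A B M₁ M₂ a bl ha q j hj).2 hq
  rcases hT with ⟨w₁, w₂, hT⟩ | ⟨w₁, hT⟩
  · obtain ⟨ρ₁, ρ₂, h1, h2, h3⟩ := hOV.2.2 w₁ w₂ a ha
    exact core hLOC hREP hBLKI hVAL hEVL hLFH B (norm (inp M₁ M₂ 0)) a 0 M₁.params.length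
      M₁.params M₂.params (rlM M₁ a) (rlM M₂ a) (V₁ w₁) (V₂ w₂) (fun i => V₁ (c₁ w₁ a i))
      (fun i => V₂ (c₂ w₂ a i)) (ar₁ w₁ a) (ar₂ w₂ a) ρ₁ ρ₂ hP1 hP2 (by omega) (by omega)
      h1 h2 h3 hF1 hF2 βs X H hX
      (fun i hi T' hT' => hH i hi T' (Or.inl ⟨c₁ w₁ a i, c₂ w₂ a i, hT'⟩))
      (fun i hi T' hT' => hH i hi T' (Or.inr ⟨c₁ w₁ a i, hT'⟩)) T hT hz
  · obtain ⟨ρ₁, ρ₂, h1, h2, h3⟩ := hOV.2.2 w₁ 0 a ha
    exact core hLOC hREP hBLKI hVAL hEVL hLFH B (norm (inp M₁ M₂ 0)) a 0 0
      M₁.params M₁.params (rlM M₁ a) (rlM M₁ a) (V₁ w₁) (V₁ w₁) (fun i => V₁ (c₁ w₁ a i))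
      (fun i => V₁ (c₁ w₁ a i)) (ar₁ w₁ a) (ar₁ w₁ a) ρ₁ ρ₁ hP1 hP1 (by omega) (by omega)
      h1 h1 (Or.inl rfl) hF1 hF1 βs X H hX
      (fun i hi T' hT' => hH i hi T' (Or.inr ⟨c₁ w₁ a i, hT'⟩))
      (fun i hi T' hT' => hH i hi T' (Or.inr ⟨c₁ w₁ a i, hT'⟩)) T hT hz

end Pool.Agent.Lib.MP_39893a_lc.OV
end

section
/-!
# Module STEPB (MP_39893a_lc, hive OV): copy of STEP for orders that agree up to narrow blocks
-/
set_option autoImplicit false

namespace Pool.Agent.Lib.MP_39893a_lc.OV.STEPBM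

open Finset ORD STEPM

/-! ## The core -/

theorem core (hLOC : SpecLOCB) (hREP : SpecREP) (hBLKI : SpecBLKI) (hVAL : ORD.SpecVAL)
    (hEVL : ORD.SpecEVL) (hLFH : ORD.SpecLFH) (B : List ℕ) (s : Sys) (a : ℕ)
    (off off' : ℕ) (pr pr' : List ℕ) (rl rl' : ℕ → Option Rhs)
    (V V' : ℕ → Prop) (W W' : ℕ → ℕ → Prop) (ar ar' : ℕ → List Rhs) (ρ ρ' : ℕ → ℕ)
    (hpr : ∀ m ∈ pr, m ≤ s.P) (hpr' : ∀ m ∈ pr', m ≤ s.P) (hoff : off + pr.length ≤ s.T.length)
    (hoff' : off' + pr'.length ≤ s.T.length) (hV : Vis B pr (s.rk a) rl V W ar ρ)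
    (hV' : Vis B pr' (s.rk a) rl' V' W' ar' ρ') (hord : CondB (s.rk a) ρ ρ' ar ar')
    (hF : ∀ (S : Type) [Ring S] (φ : Mo →* S) (bl : List (List S)), ∀ q < pr.length, ∀ j ≤ s.P,
      ((nops S).vecS s.P 1 s.n1 s.T a (VL (nops S) φ s.P s.nB) bl).getD (pos s.P (off + q) j) 0 =
        (rl q).elim 0 fun ζ => fo s.P off φ bl ζ j)
    (hF' : ∀ (S : Type) [Ring S] (φ : Mo →* S) (bl : List (List S)), ∀ q < pr'.length, ∀ j ≤ s.P,
      ((nops S).vecS s.P 1 s.n1 s.T a (VL (nops S) φ s.P s.nB) bl).getD (pos s.P (off' + q) j) 0 =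
        (rl' q).elim 0 fun ζ => fo s.P off' φ bl ζ j)
    (βs : List (List ℕ)) (X : ℕ → Set (List D)) (H : Set FR)
    (hX : ∀ i < s.rk a, ∀ x ∈ X i, x.length = NN s)
    (hTT : ∀ i < s.rk a, ∀ T, TTG (NN s) s.P s.T.length (rows off pr.length (W i))
      (rows off' pr'.length (W' i)) T → (∀ x ∈ X i, apLF (nops D) toD x T = 0) →
        DerI (H ∪ InvAx (NN s)) (apLF cops emC (blk (NN s) i (βs.getD i [])) T).val)
    (hTS : ∀ i < s.rk a, ∀ T, TTG (NN s) s.P s.T.length (rows off pr.length (W i))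
      (rows off pr.length (W i)) T → (∀ x ∈ X i, apLF (nops D) toD x T = 0) →
        DerI (H ∪ InvAx (NN s)) (apLF cops emC (blk (NN s) i (βs.getD i [])) T).val)
    (T : LF) (hT : TTG (NN s) s.P s.T.length (rows off pr.length V) (rows off' pr'.length V') T)
    (hz : ∀ x : ℕ → List D, (∀ i < s.rk a, x i ∈ X i) →
      apLF (nops D) toD ((nops D).vecS s.P 1 s.n1 s.T a (VL (nops D) toD s.P s.nB)
        ((List.range (s.rk a)).map x)) T = 0) :
    DerI (H ∪ InvAx (NN s)) (apLF cops emC (vS s a βs) T).val := by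
  have hlen : ∀ (S : Type) [Ring S] (φ : Mo →* S) (bl : List (List S)),
      ((nops S).vecS s.P 1 s.n1 s.T a (VL (nops S) φ s.P s.nB) bl).length = NN s := by
    intro S _ φ bl
    simp [Ops.vecS, NN]
  -- values of forms over `D`
  have hD : ∀ (T' : LF) (u v u' v' : ℕ → D) (w : D), Rep (NN s) s.P s.T.length T' u v u' v' w →
      ∀ y : List D, y.length = NN s →
        apLF (nops D) toD y T' = tt s.P s.T.length u v u' v' w y := by
    intro T' u v u' v' w hR y hy
    rw [hR D toD y hy]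
    simp only [lft_toD]
  -- children
  have hch : ∀ i < s.rk a, ∀ (R₁ R₂ : ℕ → Prop),
      (∀ T, TTG (NN s) s.P s.T.length R₁ R₂ T → (∀ x ∈ X i, apLF (nops D) toD x T = 0) →
        DerI (H ∪ InvAx (NN s)) (apLF cops emC (blk (NN s) i (βs.getD i [])) T).val) →
      ∀ (u v u' v' : ℕ → D) (w : D), (∀ t, u t ≠ 0 → R₁ t) → (∀ t, u' t ≠ 0 → R₂ t) →
        (∀ x ∈ X i, tt s.P s.T.length u v u' v' w x = 0) →
        DerI (H ∪ InvAx (NN s)) (ttF s.P s.T.length i u v u' v' w) := by
    intro i hi R₁ R₂ hTi u v u' v' w h1 h2 h3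
    obtain ⟨T', hT'⟩ := hREP (NN s) s.P s.T.length u v u' v' w
    have h4 := hTi T' ⟨u, v, u', v', w, h1, h2, hT'⟩ fun x hx => by
      rw [hD T' u v u' v' w hT' x (hX i hi x hx)]
      exact h3 x hx
    have e1 : (apLF cops emC (blk (NN s) i (βs.getD i [])) T').val =
        apLF (nops FR) toF ((blk (NN s) i (βs.getD i [])).map CP.val) T' :=
      hLFH _ _ cops (nops FR) CP.val emC toF hVAL.1 hVAL.2.2.2.1 _ T'
    have e2 := hT' FR toF _ (blkv_length (NN s) i (βs.getD i []))
    have e3 := tt_blk hVAL s.P s.T.length i (βs.getD i []) u v u' v' w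
    rw [e1, e2] at h4
    rw [← e3]
    exact h4
  obtain ⟨u, v, u', v', w, hu, hu', hR⟩ := hT
  have hL := hLOC B s.P s.T.length (s.rk a) off off' pr pr' rl rl' V V' W W' ar ar' ρ ρ' hpr hpr'
    hoff hoff' hV hV' hord (NN s) X H
    (fun i hi => hch i hi _ _ (hTT i hi)) (fun i hi => hch i hi _ _ (hTS i hi))
    u v u' v' w hu hu' (by
      intro x hx
      have h1 := hz x hx
      rw [hD T u v u' v' w hR _ (hlen D toD _)] at h1
      rw [← tt_rT hoff hoff' toD ((List.range (s.rk a)).map x) _ rl rl'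
        (hF D toD _) (hF' D toD _) u v u' v' w hu hu']
      exact h1)
  -- the symbolic result
  have e1 : (apLF cops emC (vS s a βs) T).val = apLF (nops FR) toF ((vS s a βs).map CP.val) T :=
    hLFH _ _ cops (nops FR) CP.val emC toF hVAL.1 hVAL.2.2.2.1 _ T
  have e2 : (vS s a βs).map CP.val = (nops FR).vecS s.P 1 s.n1 s.T a (VL (nops FR) toF s.P s.nB)
      ((List.range (s.rk a)).map fun i => (blk (NN s) i (βs.getD i [])).map CP.val) := by
    rw [← hBLKI.2 FR toF s a βs _ xv (by simp) ?_ ?_ ?_]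
    · refine List.map_congr_left fun p _ => ?_
      rw [hEVL.2.2.1]
    · intro i hi
      rw [range_map_getD, if_pos hi, blkv_length]
    · intro i hi t ht hb
      rw [range_map_getD, if_pos hi, blkv_bit hVAL _ ht hb]
    · intro i hi t ht hb
      rw [range_map_getD, if_pos hi, blkv_var hVAL _ ht hb]
  rw [e1, e2, hR FR toF _ (hlen FR toF _)]
  simp only [lft_toF]
  rw [tt_rT hoff hoff' toF _ _ rl rl' (hF FR toF _) (hF' FR toF _) (fun t => DtoF (u t))
    (fun t => DtoF (v t)) (fun t => DtoF (u' t)) (fun t => DtoF (v' t)) (DtoF w) ?_ ?_ (V := V)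
    (V' := V'), rT_congr _ _ _ _ _ _ _ _ (lists_eq hVAL (NN s) (s.rk a) (fun i => βs.getD i []) s.P)]
  · exact hL
  · intro t ht
    refine hu t fun h => ht ?_
    rw [h, map_zero]
  · intro t ht
    refine hu' t fun h => ht ?_
    rw [h, map_zero]

end Pool.Agent.Lib.MP_39893a_lc.OV.STEPBM

namespace Pool.Agent.Lib.MP_39893a_lc.OV

open Finset ORD STEPM STEPBM

theorem STEPBM.specSTEPB (hLOC : SpecLOCB) (hFOV : SpecFOV) (hREP : SpecREP) (hBLKI : SpecBLKI)
    (hVAL : ORD.SpecVAL) (hEVL : ORD.SpecEVL) (hLFH : ORD.SpecLFH) : SpecSTEPB := by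
  intro A B M₁ M₂ V₁ V₂ c₁ c₂ ar₁ ar₂ hOV a ha βs X H hX hH T hT hz
  have hnT : (norm (inp M₁ M₂ 0)).T.length = M₁.params.length + M₂.params.length := by
    rw [norm_T, List.length_append, code_length, code_length]
  have hP1 : ∀ m ∈ M₁.params, m ≤ (norm (inp M₁ M₂ 0)).P := by
    intro m hm
    rw [norm_P]
    have := le_lsum' hm
    omega
  have hP2 : ∀ m ∈ M₂.params, m ≤ (norm (inp M₁ M₂ 0)).P := by
    intro m hm
    rw [norm_P]
    have := le_lsum' hm
    omega
  have hF1 : ∀ (S : Type) [Ring S] (φ : Mo →* S) (bl : List (List S)), ∀ q < M₁.params.length,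
      ∀ j ≤ (norm (inp M₁ M₂ 0)).P,
      ((nops S).vecS (norm (inp M₁ M₂ 0)).P 1 (norm (inp M₁ M₂ 0)).n1 (norm (inp M₁ M₂ 0)).T a
        (VL (nops S) φ (norm (inp M₁ M₂ 0)).P (norm (inp M₁ M₂ 0)).nB) bl).getD
          (pos (norm (inp M₁ M₂ 0)).P (0 + q) j) 0 =
        (rlM M₁ a q).elim 0 fun ζ => fo (norm (inp M₁ M₂ 0)).P 0 φ bl ζ j := by
    intro S _ φ bl q hq j hj
    rw [Nat.zero_add]
    exact (hFOV S φ A B M₁ M₂ a bl ha q j hj).1 hq
  have hF2 : ∀ (S : Type) [Ring S] (φ : Mo →* S) (bl : List (List S)), ∀ q < M₂.params.length,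
      ∀ j ≤ (norm (inp M₁ M₂ 0)).P,
      ((nops S).vecS (norm (inp M₁ M₂ 0)).P 1 (norm (inp M₁ M₂ 0)).n1 (norm (inp M₁ M₂ 0)).T a
        (VL (nops S) φ (norm (inp M₁ M₂ 0)).P (norm (inp M₁ M₂ 0)).nB) bl).getD
          (pos (norm (inp M₁ M₂ 0)).P (M₁.params.length + q) j) 0 =
        (rlM M₂ a q).elim 0 fun ζ =>
          fo (norm (inp M₁ M₂ 0)).P M₁.params.length φ bl ζ j := by
    intro S _ φ bl q hq j hj
    exact (hFOV S φ A B M₁ M₂ a bl ha q j hj).2 hq
  rcases hT with ⟨w₁, w₂, hT⟩ | ⟨w₁, hT⟩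
  · obtain ⟨ρ₁, ρ₂, h1, h2, h3, -⟩ := hOV.2.2 w₁ w₂ a ha
    exact STEPBM.core hLOC hREP hBLKI hVAL hEVL hLFH B (norm (inp M₁ M₂ 0)) a 0 M₁.params.length
      M₁.params M₂.params (rlM M₁ a) (rlM M₂ a) (V₁ w₁) (V₂ w₂) (fun i => V₁ (c₁ w₁ a i))
      (fun i => V₂ (c₂ w₂ a i)) (ar₁ w₁ a) (ar₂ w₂ a) ρ₁ ρ₂ hP1 hP2 (by omega) (by omega)
      h1 h2 h3 hF1 hF2 βs X H hX
      (fun i hi T' hT' => hH i hi T' (Or.inl ⟨c₁ w₁ a i, c₂ w₂ a i, hT'⟩))
      (fun i hi T' hT' => hH i hi T' (Or.inr ⟨c₁ w₁ a i, hT'⟩)) T hT hz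
  · obtain ⟨ρ₁, ρ₂, h1, -, -, h4⟩ := hOV.2.2 w₁ 0 a ha
    exact STEPBM.core hLOC hREP hBLKI hVAL hEVL hLFH B (norm (inp M₁ M₂ 0)) a 0 0
      M₁.params M₁.params (rlM M₁ a) (rlM M₁ a) (V₁ w₁) (V₁ w₁) (fun i => V₁ (c₁ w₁ a i))
      (fun i => V₁ (c₁ w₁ a i)) (ar₁ w₁ a) (ar₁ w₁ a) ρ₁ ρ₁ hP1 hP1 (by omega) (by omega)
      h1 h1 h4 hF1 hF1 βs X H hX
      (fun i hi T' hT' => hH i hi T' (Or.inr ⟨c₁ w₁ a i, hT'⟩))
      (fun i hi T' hT' => hH i hi T' (Or.inr ⟨c₁ w₁ a i, hT'⟩)) T hT hz

end Pool.Agent.Lib.MP_39893a_lc.OV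
end
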