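import Pool.Agent.Lib.MP_39893a_lc.OV.SpecB
import Pool.Agent.Lib.MP_39893a_lc.ORD.Glue
import Pool.Agent.Lib.MP_39893a_lc.OV.MAINAB
import Pool.Agent.Lib.MP_39893a_lc.OV.NARC
import Pool.Agent.Lib.MP_39893a_lc.OV.LCK
import Pool.Agent.Lib.MP_39893a_lc.OV.LOCNB
import Pool.Agent.Lib.MP_39893a_lc.OV.STEPB
import Pool.Agent.Lib.MP_39893a_lc.OV.CSNDI
import Pool.Agent.Lib.MP_39893a_lc.OV.LFX
import Pool.Agent.Lib.MP_39893a_lc.OV.PCHI

section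
/-!
# MAINB: the decision procedure for block pairs (MP_39893a_lc, hive OV)
-/
set_option autoImplicit false

namespace Pool.Agent.Lib.MP_39893a_lc.OV.MAINBM

open Pool.Agent.Lib.MP_39893a_lc Pool.Agent.Lib.MP_39893a_lc.ORD
open Pool.Agent.Lib.MP_39893a_lc.ORD.MAINM

theorem specMAINB (hCSNDI : SpecCSNDI) (hCCMPB : SpecCCMPB) (hPCHI : SpecPCHI)
    (hSEM : ORD.SpecSEM) (hSRCH : ORD.SpecSRCH) (hPSRC : ORD.SpecPSRC) : SpecMAINB := by
  have h1 : REPred fun x : List ℕ × List ℕ × Code × Code => ∃ c : CertI, ChkI (norm (0, x)) c :=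
    re_exists (p := fun (x : List ℕ × List ℕ × Code × Code) (c : CertI) => ChkI (norm (0, x)) c)
      (hPCHI.comp (Primrec.pair (primrec_sys.comp Primrec.fst) Primrec.snd))
  have h2 : REPred fun x : List ℕ × List ℕ × Code × Code =>
      ∃ k : List ℕ × ℕ, SrchD (norm (0, x)) k :=
    re_exists (p := fun (x : List ℕ × List ℕ × Code × Code) (k : List ℕ × ℕ) =>
      SrchD (norm (0, x)) k)
      (hPSRC.comp (Primrec.pair (primrec_sys.comp Primrec.fst) Primrec.snd))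
  obtain ⟨F, hF, hF'⟩ := exists_partrec h1 h2 (by
    rintro x ⟨c, hc⟩ hk
    exact (hSRCH _).2 hk (hCSNDI _ c hc))
  refine ⟨F, hF, fun A B M₁ M₂ => ?_⟩
  obtain ⟨ht, hf⟩ := hF' (A, B, M₁.code, M₂.code)
  have hs : ¬ RawD (norm (inp M₁ M₂ 0)) ↔ ∃ k, SrchD (norm (inp M₁ M₂ 0)) k := hSRCH _
  refine ⟨fun h => ?_, ?_, fun hco => ?_⟩
  · obtain ⟨c, hc⟩ := ht.1 h
    exact (hSEM A B M₁ M₂).1 (hCSNDI _ c hc)
  · rw [hf, ← hSEM A B M₁ M₂]
    exact hs.symm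
  · by_cases h : RawD (norm (inp M₁ M₂ 0))
    · exact Part.dom_iff_mem.2 ⟨true, ht.2 (hCCMPB A B M₁ M₂ hco h)⟩
    · exact Part.dom_iff_mem.2 ⟨false, hf.2 (hs.1 h)⟩

end Pool.Agent.Lib.MP_39893a_lc.OV.MAINBM
end

section
/-!
# Assembly (MP_39893a_lc, hive OV)
-/
set_option autoImplicit false

namespace Pool.Agent.Lib.MP_39893a_lc.OV

open ORD

theorem gKFR : SpecKFR := KFRM.specKFR gNZD gOREC

theorem gCT : ∃ (K : Type) (_ : DivisionRing K) (ι : D →+* K), Function.Injective ι ∧ CTDiv K := by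
  obtain ⟨K, hK, ι, hι, -, -, -⟩ := gKFR
  obtain ⟨L, hL, σ, X, h1, h2, h3, h4, hfix⟩ := LFXM.specLFX
  obtain ⟨o, c, hoc⟩ := LCDM.specLCD L σ X h1 h2 h3 h4
  obtain ⟨o', c', hK'⟩ := LCKM.specLCK gOREC K ι hι L σ o c hoc
  exact ⟨K, hK, ι, hι.1, specCTA K L σ o' c' hK' hfix⟩

theorem gENCI : SpecENCI := ENCIM.specENCI gVAL
theorem gDERSI : SpecDERSI := DERSIM.specDERSI gVAL gEVL
theorem gBLKI : SpecBLKI := BLKIM.specBLKI gVAL gEVL
theorem gCSNDI : SpecCSNDI := CSNDIM.specCSNDI gCT gENCI gDERSI gBLKI gVAL gEVL gLFH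
theorem gNARC : SpecNARC := NARCM.specNARC PRMM.specPRM PRFM.specPRF
theorem gBLC : SpecBLC := BLCM.specBLC LALGM.specLALG gNARC
theorem gLOCNB : SpecLOCNB := LOCNBM.specLOCNB gBLC FOTM.specFOT
theorem gLOCB : SpecLOCB := LOCBM.specLOCB gKFR (QUOM.specQUO gVAL) DENM.specDEN gLOCNB gEVL
theorem gSTEPB : SpecSTEPB := STEPBM.specSTEPB gLOCB specFOV REPM.specREP gBLKI gVAL gEVL gLFH
theorem gCCMPB : SpecCCMPB :=
  CCMPBM.specCCMPB ASMM.specASM gENCI gSTEPB (NOEGM.specNOEG gNOR) REPM.specREP gBLKI gLFH gVAL gEVL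
    BITZM.specBITZ
theorem gPPRI : SpecPPRI := PPRIM.specPPRI gPOPS
theorem gPCHI : SpecPCHI := PCHIM.specPCHI gPPRI gPOPS PVECM.specPVEC gPPRF

theorem gMAINB : SpecMAINB :=
  MAINBM.specMAINB gCSNDI gCCMPB gPCHI gSEM (SRCHM.specSRCH gVAL)
    (specPSRC gPOPS PVECM.specPVEC gPPRF)

theorem gMAINAB : SpecMAINAB :=
  MAINABM.specMAINAB gMAINB AGVBM.specAGVB specAGW AGEM.specAGE specAGC AGPM.specAGP

end Pool.Agent.Lib.MP_39893a_lc.OV
end
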