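import Pool.Agent.Lib.MP_39893a_lc.OV.Spec
import Pool.Agent.Lib.MP_39893a_lc.ORD.Glue

/-!
# MAINI: the decision procedure for one-visit pairs (MP_39893a_lc, hive OV)
-/

set_option autoImplicit false

namespace Pool.Agent.Lib.MP_39893a_lc.OV.MAINIM

open Pool.Agent.Lib.MP_39893a_lc Pool.Agent.Lib.MP_39893a_lc.ORD
open Pool.Agent.Lib.MP_39893a_lc.ORD.MAINM

theorem specMAINI (hCSNDI : SpecCSNDI) (hCCMPI : SpecCCMPI) (hPCHI : SpecPCHI)
    (hSEM : ORD.SpecSEM) (hSRCH : ORD.SpecSRCH) (hPSRC : ORD.SpecPSRC) : SpecMAINI := by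
  have h1 : REPred fun x : List ℕ × List ℕ × Code × Code => ∃ c : CertI, ChkI (norm (0, x)) c :=
    re_exists (p := fun (x : List ℕ × List ℕ × Code × Code) (c : CertI) => ChkI (norm (0, x)) c)
      (hPCHI.comp (Primrec.pair (primrec_sys.comp Primrec.fst) Primrec.snd))
  have h2 : REPred fun x : List ℕ × List ℕ × Code × Code =>
      ∃ k : List ℕ × ℕ, SrchD (norm (0, x)) k :=
    re_exists (p := fun (x : List ℕ × List ℕ × Code × Code) (k : List ℕ × ℕ) =>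
      SrchD (norm (0, x)) k)
      (hPSRC.comp (Primrec.pair (primrec_sys.comp Primrec.fst) Primrec.snd))
  obtain ⟨F, hF, hF'⟩ := exists_partrec h1 h2 (by
    rintro x ⟨c, hc⟩ hk
    exact (hSRCH _).2 hk (hCSNDI _ c hc))
  refine ⟨F, hF, fun A B M₁ M₂ => ?_⟩
  obtain ⟨ht, hf⟩ := hF' (A, B, M₁.code, M₂.code)
  have hs : ¬ RawD (norm (inp M₁ M₂ 0)) ↔ ∃ k, SrchD (norm (inp M₁ M₂ 0)) k := hSRCH _
  refine ⟨fun h => ?_, ?_, fun hco => ?_⟩
  · obtain ⟨c, hc⟩ := ht.1 h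
    exact (hSEM A B M₁ M₂).1 (hCSNDI _ c hc)
  · rw [hf, ← hSEM A B M₁ M₂]
    exact hs.symm
  · by_cases h : RawD (norm (inp M₁ M₂ 0))
    · exact Part.dom_iff_mem.2 ⟨true, ht.2 (hCCMPI A B M₁ M₂ hco h)⟩
    · exact Part.dom_iff_mem.2 ⟨false, hf.2 (hs.1 h)⟩

end Pool.Agent.Lib.MP_39893a_lc.OV.MAINIM
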